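import Mathlib

/-!
The `O(N)` vertex model: operators on functions of colourings of a set of labelled strands.
-/

namespace Pool.Agent.P.MP_382f0d_gt

open Function

abbrev Fn (ι C : Type) : Type := (ι → C) → ℂ
abbrev Op (ι C : Type) : Type := Module.End ℂ (Fn ι C)

variable {ι C : Type} [DecidableEq ι] [Fintype C] [DecidableEq C]

/-- precomposition operator -/
def subO (φ : (ι → C) → (ι → C)) : Op ι C where
  toFun F x := F (φ x)
  map_add' _ _ := rfl
  map_smul' _ _ := rfl

/-- multiplication by an indicator -/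
def tstO (p : (ι → C) → Prop) [DecidablePred p] : Op ι C where
  toFun F x := if p x then F x else 0
  map_add' F G := by funext x; by_cases h : p x <;> simp [h]
  map_smul' c F := by funext x; by_cases h : p x <;> simp [h]

def setO (i : ι) (c : C) : Op ι C := subO fun x => update x i c
def indO (i : ι) (c : C) : Op ι C := tstO fun x => x i = c
def cpy (i j : ι) : Op ι C := subO fun x => update x j (x i)
def cap (i j : ι) : Op ι C := tstO fun x => x i = x j
def cup (i j : ι) : Op ι C := ∑ c : C, subO fun x => update (update x i c) j c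
def swp (i j : ι) : Op ι C := subO fun x => update (update x i (x j)) j (x i)
def qq (i j : ι) : Op ι C := cap i j * cup i j
noncomputable def rr (a : ℂ) (i j : ι) : Op ι C := a • swp i j + a⁻¹ • qq i j

omit [Fintype C] [DecidableEq C] in
theorem setO_apply (i : ι) (c : C) (F : Fn ι C) (x) : setO i c F x = F (update x i c) := rfl
omit [Fintype C] [DecidableEq ι] in
theorem indO_apply (i : ι) (c : C) (F : Fn ι C) (x) :
    indO i c F x = if x i = c then F x else 0 := rfl
omit [Fintype C] [DecidableEq C] in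
theorem cpy_apply (i j : ι) (F : Fn ι C) (x) : cpy i j F x = F (update x j (x i)) := rfl
omit [Fintype C] [DecidableEq ι] in
theorem cap_apply (i j : ι) (F : Fn ι C) (x) :
    cap i j F x = if x i = x j then F x else 0 := rfl
omit [DecidableEq C] in
theorem cup_apply (i j : ι) (F : Fn ι C) (x) :
    cup i j F x = ∑ c : C, F (update (update x i c) j c) := by
  simp [cup, subO, LinearMap.sum_apply, Finset.sum_apply]
omit [Fintype C] [DecidableEq C] in
theorem swp_apply (i j : ι) (F : Fn ι C) (x) :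
    swp i j F x = F (update (update x i (x j)) j (x i)) := rfl

/-- `F` does not depend on the colour of strand `i`. -/
def Ind (i : ι) (F : Fn ι C) : Prop := ∀ x c, F (update x i c) = F x

/-- operators that only involve the strands in `S` -/
def loc (S : Set ι) : Subalgebra ℂ (Op ι C) :=
  Algebra.adjoin ℂ {X | ∃ i ∈ S, ∃ c, X = setO i c ∨ X = indO i c}

omit [Fintype C] in
theorem loc_mono {S T : Set ι} (h : S ⊆ T) : (loc S : Subalgebra ℂ (Op ι C)) ≤ loc T := by
  apply Algebra.adjoin_mono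
  rintro X ⟨i, hi, c, hc⟩
  exact ⟨i, h hi, c, hc⟩

omit [Fintype C] in
theorem setO_mem {S : Set ι} {i : ι} (h : i ∈ S) (c : C) : setO i c ∈ loc S :=
  Algebra.subset_adjoin ⟨i, h, c, Or.inl rfl⟩

omit [Fintype C] in
theorem indO_mem {S : Set ι} {i : ι} (h : i ∈ S) (c : C) : indO i c ∈ loc S :=
  Algebra.subset_adjoin ⟨i, h, c, Or.inr rfl⟩

omit [Fintype C] in
theorem loc_commute {S T : Set ι} {X Y : Op ι C} (hX : X ∈ loc S) (hY : Y ∈ loc T)
    (h : ∀ i ∈ S, i ∉ T) : Commute X Y := by
  refine Algebra.commute_of_mem_adjoin_of_forall_mem_commute hY ?_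
  rintro b ⟨j, hj, d, hb⟩
  refine (Algebra.commute_of_mem_adjoin_of_forall_mem_commute hX ?_).symm
  rintro a ⟨i, hi, c, ha⟩
  have hij : i ≠ j := fun e => h i hi (e ▸ hj)
  refine LinearMap.ext fun F => funext fun x => ?_
  rcases ha with rfl | rfl <;> rcases hb with rfl | rfl <;>
    simp [setO_apply, indO_apply, update_of_ne hij, update_of_ne hij.symm, update_comm hij]
  split_ifs <;> rfl

omit [Fintype C] in
theorem loc_comm {S T : Set ι} {X Y : Op ι C} (hX : X ∈ loc S) (hY : Y ∈ loc T)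
    (h : ∀ i ∈ S, i ∉ T) (F : Fn ι C) : X (Y F) = Y (X F) :=
  LinearMap.congr_fun (loc_commute hX hY h).eq F

omit [Fintype C] in
theorem Ind.loc {S : Set ι} {X : Op ι C} {i : ι} {F : Fn ι C} (hF : Ind i F) (hX : X ∈ loc S)
    (h : i ∉ S) : Ind i (X F) := by
  intro x c
  have h1 : setO i c F = F := funext fun y => hF y c
  have := loc_comm (setO_mem (S := {i}) rfl c) hX (by simpa using h) F
  rw [h1] at this
  exact congrFun this x

theorem cpy_mem {S : Set ι} {i j : ι} (hi : i ∈ S) (hj : j ∈ S) : (cpy i j : Op ι C) ∈ loc S := by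
  have : (cpy i j : Op ι C) = ∑ c, indO i c * setO j c := by
    refine LinearMap.ext fun F => funext fun x => ?_
    simp [cpy_apply, indO_apply, setO_apply, LinearMap.sum_apply, Finset.sum_apply]
  rw [this]
  exact sum_mem fun c _ => mul_mem (indO_mem hi c) (setO_mem hj c)

theorem cap_mem {S : Set ι} {i j : ι} (hi : i ∈ S) (hj : j ∈ S) : (cap i j : Op ι C) ∈ loc S := by
  have : (cap i j : Op ι C) = ∑ c, indO i c * indO j c := by
    refine LinearMap.ext fun F => funext fun x => ?_
    simp [cap_apply, indO_apply, LinearMap.sum_apply, Finset.sum_apply, eq_comm]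
  rw [this]
  exact sum_mem fun c _ => mul_mem (indO_mem hi c) (indO_mem hj c)

theorem cup_mem {S : Set ι} {i j : ι} (hi : i ∈ S) (hj : j ∈ S) : (cup i j : Op ι C) ∈ loc S := by
  have : (cup i j : Op ι C) = ∑ c, setO i c * setO j c := rfl
  rw [this]
  exact sum_mem fun c _ => mul_mem (setO_mem hi c) (setO_mem hj c)

theorem swp_mem {S : Set ι} {i j : ι} (hi : i ∈ S) (hj : j ∈ S) : (swp i j : Op ι C) ∈ loc S := by
  have : (swp i j : Op ι C) = ∑ c, ∑ d, indO i c * (indO j d * (setO i d * setO j c)) := by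
    refine LinearMap.ext fun F => funext fun x => ?_
    simp [swp_apply, indO_apply, setO_apply, LinearMap.sum_apply, Finset.sum_apply]
  rw [this]
  exact sum_mem fun c _ => sum_mem fun d _ => mul_mem (indO_mem hi c) (mul_mem (indO_mem hj d)
    (mul_mem (setO_mem hi d) (setO_mem hj c)))

theorem qq_mem {S : Set ι} {i j : ι} (hi : i ∈ S) (hj : j ∈ S) : (qq i j : Op ι C) ∈ loc S :=
  mul_mem (cap_mem hi hj) (cup_mem hi hj)

theorem rr_mem {S : Set ι} {i j : ι} (a : ℂ) (hi : i ∈ S) (hj : j ∈ S) :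
    (rr a i j : Op ι C) ∈ loc S :=
  add_mem (Subalgebra.smul_mem _ (swp_mem hi hj) _) (Subalgebra.smul_mem _ (qq_mem hi hj) _)

/-! ### Symmetries -/

omit [Fintype C] [DecidableEq ι] in
theorem cap_symm (i j : ι) : (cap i j : Op ι C) = cap j i := by
  refine LinearMap.ext fun F => funext fun x => ?_
  simp [cap_apply, eq_comm]

omit [DecidableEq C] in
theorem cup_symm (i j : ι) : (cup i j : Op ι C) = cup j i := by
  refine LinearMap.ext fun F => funext fun x => ?_
  by_cases h : i = j
  · subst h; rfl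
  · simp [cup_apply, update_comm h]

omit [Fintype C] [DecidableEq C] in
theorem swp_symm (i j : ι) : (swp i j : Op ι C) = swp j i := by
  refine LinearMap.ext fun F => funext fun x => ?_
  by_cases h : i = j
  · subst h; rfl
  · simp [swp_apply, update_comm h]

theorem qq_symm (i j : ι) : (qq i j : Op ι C) = qq j i := by
  rw [qq, qq, cap_symm, cup_symm]

theorem rr_symm (a : ℂ) (i j : ι) : (rr a i j : Op ι C) = rr a j i := by
  rw [rr, rr, swp_symm, qq_symm]

/-! ### Independence -/

omit [DecidableEq C] in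
theorem ind_cup_left (i j : ι) (F : Fn ι C) : Ind i (cup i j F) := by
  intro x c; simp [cup_apply]

omit [DecidableEq C] in
theorem ind_cup_right (i j : ι) (F : Fn ι C) : Ind j (cup i j F) := by
  rw [cup_symm]; exact ind_cup_left j i F

omit [Fintype C] [DecidableEq C] in
theorem ind_cpy {i j : ι} (h : i ≠ j) (F : Fn ι C) : Ind j (cpy i j F) := by
  intro x c; simp [cpy_apply, update_of_ne h]

omit [Fintype C] [DecidableEq C] in
theorem Ind.eq_of {i : ι} {F : Fn ι C} (hF : Ind i F) {x y : ι → C}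
    (h : ∀ k, k ≠ i → x k = y k) : F x = F y := by
  rw [← hF x (y i)]
  congr 1
  funext k
  by_cases hk : k = i
  · subst hk; simp
  · simp [update_of_ne hk, h k hk]

omit [Fintype C] [DecidableEq C] in
theorem Ind.eq_of2 {i j : ι} {F : Fn ι C} (hF : Ind i F) (hG : Ind j F) {x y : ι → C}
    (h : ∀ k, k ≠ i → k ≠ j → x k = y k) : F x = F y := by
  rw [← hF x (y i)]
  refine hG.eq_of fun k hk => ?_
  by_cases hk' : k = i
  · subst hk'; simp
  · simp [update_of_ne hk', h k hk' hk]

end Pool.Agent.P.MP_382f0d_gt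

/-! Elementary identities of the vertex model (Reidemeister moves for single strands). -/

namespace Pool.Agent.P.MP_382f0d_gt

open Function

variable {ι C : Type} [DecidableEq ι] [Fintype C] [DecidableEq C]

/-- relabelling operator -/
def prm (g : Equiv.Perm ι) : Op ι C := subO fun x => x ∘ g

omit [Fintype C] [DecidableEq C] [DecidableEq ι] in
theorem prm_apply (g : Equiv.Perm ι) (F : Fn ι C) (x) : prm g F x = F (x ∘ g) := rfl

omit [Fintype C] [DecidableEq C] in
theorem update_comp_perm (g : Equiv.Perm ι) (x : ι → C) (k : ι) (c : C) :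
    update x (g k) c ∘ g = update (x ∘ g) k c := by
  funext l
  by_cases h : l = k
  · subst h; simp
  · simp [update_of_ne h, update_of_ne (g.injective.ne h)]

omit [Fintype C] [DecidableEq C] in
theorem swp_eq_prm (i j : ι) : (swp i j : Op ι C) = prm (Equiv.swap i j) := by
  refine LinearMap.ext fun F => funext fun x => ?_
  rw [swp_apply, prm_apply]
  congr 1
  funext k
  by_cases h2 : k = j
  · subst h2; simp
  · by_cases h1 : k = i
    · subst h1; simp [update_of_ne h2]
    · simp [update_of_ne h1, update_of_ne h2, Equiv.swap_apply_of_ne_of_ne h1 h2]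

omit [Fintype C] [DecidableEq ι] in
theorem prm_cap (g : Equiv.Perm ι) (k l : ι) (F : Fn ι C) :
    prm g (cap k l F) = cap (g k) (g l) (prm g F) := rfl

omit [DecidableEq C] in
theorem prm_cup (g : Equiv.Perm ι) (k l : ι) (F : Fn ι C) :
    prm g (cup k l F) = cup (g k) (g l) (prm g F) := by
  funext x
  simp [prm_apply, cup_apply, update_comp_perm]

omit [Fintype C] [DecidableEq C] in
theorem prm_swp (g : Equiv.Perm ι) (k l : ι) (F : Fn ι C) :
    prm g (swp k l F) = swp (g k) (g l) (prm g F) := by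
  funext x
  simp [prm_apply, swp_apply, update_comp_perm]

theorem prm_qq (g : Equiv.Perm ι) (k l : ι) (F : Fn ι C) :
    prm g (qq k l F) = qq (g k) (g l) (prm g F) := by
  simp [qq, prm_cap, prm_cup]

theorem prm_rr (g : Equiv.Perm ι) (a : ℂ) (k l : ι) (F : Fn ι C) :
    prm g (rr a k l F) = rr a (g k) (g l) (prm g F) := by
  simp [rr, prm_qq, prm_swp]

omit [Fintype C] [DecidableEq C] in
theorem swp_swp (i j : ι) (F : Fn ι C) : swp i j (swp i j F) = F := by
  funext x
  simp only [swp_eq_prm, prm_apply]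
  congr 1
  funext k; simp

theorem swp_rr {i j k : ι} (a : ℂ) (hi : k ≠ i) (hj : k ≠ j) (F : Fn ι C) :
    swp i j (rr a i k F) = rr a j k (swp i j F) := by
  rw [swp_eq_prm, prm_rr, Equiv.swap_apply_left, Equiv.swap_apply_of_ne_of_ne hi hj]

theorem swp_qq {i j k : ι} (hi : k ≠ i) (hj : k ≠ j) (F : Fn ι C) :
    swp i j (qq i k F) = qq j k (swp i j F) := by
  rw [swp_eq_prm, prm_qq, Equiv.swap_apply_left, Equiv.swap_apply_of_ne_of_ne hi hj]

omit [Fintype C] [DecidableEq C] in
theorem swp_swp_comm {i j k : ι} (hi : k ≠ i) (hj : k ≠ j) (F : Fn ι C) :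
    swp i j (swp i k F) = swp j k (swp i j F) := by
  rw [swp_eq_prm i j, prm_swp, Equiv.swap_apply_left, Equiv.swap_apply_of_ne_of_ne hi hj]

omit [DecidableEq C] in
theorem cup_swp {i j : ι} (F : Fn ι C) : cup i j (swp i j F) = cup i j F := by
  funext x
  by_cases h : i = j
  · subst h; simp [cup_apply, swp_apply]
  · simp only [cup_apply, swp_apply]
    refine Finset.sum_congr rfl fun c _ => ?_
    congr 1
    funext k
    by_cases h2 : k = j
    · subst h2; simp [update_of_ne h]
    · by_cases h1 : k = i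
      · subst h1; simp [update_of_ne h2]
      · simp [update_of_ne h1, update_of_ne h2]

omit [Fintype C] in
theorem swp_cap {i j : ι} (F : Fn ι C) : swp i j (cap i j F) = cap i j F := by
  funext x
  by_cases h : i = j
  · subst h; simp [cap_apply, swp_apply]
  · simp only [cap_apply, swp_apply, update_self, update_of_ne h]
    by_cases hx : x i = x j
    · simp only [hx, if_true]
      congr 1
      simp [← hx]
    · simp [hx, Ne.symm hx]

theorem cup_cap_self {i j : ι} (F : Fn ι C) : cup i j (cap i j F) = cup i j F := by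
  funext x
  by_cases h : i = j
  · subst h; simp [cup_apply, cap_apply]
  · simp [cup_apply, cap_apply, update_of_ne h]

omit [DecidableEq C] in
theorem cup_ind {i j : ι} {F : Fn ι C} (hi : Ind i F) (hj : Ind j F) :
    cup i j F = (Fintype.card C : ℂ) • F := by
  funext x
  simp [cup_apply, hi _, hj _]

omit [Fintype C] [DecidableEq C] in
theorem cpy_self (i : ι) (F : Fn ι C) : cpy i i F = F := by
  funext x; simp [cpy_apply]

omit [Fintype C] [DecidableEq C] in
theorem cpy_ind {i j : ι} {F : Fn ι C} (hj : Ind j F) : cpy i j F = F := by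
  funext x; simp [cpy_apply, hj _]

omit [Fintype C] [DecidableEq C] in
theorem cpy_cpy {s m t : ι} (h2 : m ≠ t) {F : Fn ι C} (hF : Ind m F) :
    cpy s m (cpy m t F) = cpy s t F := by
  funext x
  simp only [cpy_apply, update_self]
  rw [update_comm h2, hF]

omit [Fintype C] in
theorem cpy_cap {s m t : ι} (h2 : m ≠ t) {F : Fn ι C} (hF : Ind m F) :
    cpy s m (cap m t F) = cap s t F := by
  funext x
  simp [cpy_apply, cap_apply, update_of_ne h2.symm, hF _]

omit [DecidableEq C] in
theorem cup_cpy {s m t : ι} (h2 : m ≠ t) {F : Fn ι C} (hF : Ind m F) :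
    cup s m (cpy m t F) = cup s t F := by
  funext x
  simp only [cpy_apply, cup_apply, update_self]
  refine Finset.sum_congr rfl fun c _ => ?_
  rw [update_comm h2, hF]

theorem cup_cap {s m t : ι} (h1 : s ≠ t) (h2 : m ≠ t) {F : Fn ι C} (hF : Ind m F) :
    cup s m (cap m t F) = cpy t s F := by
  funext x
  simp [cpy_apply, cup_apply, cap_apply, update_of_ne h2.symm, update_of_ne h1.symm, hF _]

theorem cpy_rr {s m f : ι} (a : ℂ) (h2 : m ≠ f) (h3 : s ≠ f) {F : Fn ι C}
    (hF : Ind s F) : cpy s m (rr a m f F) = rr a s f (cpy s m F) := by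
  funext x
  simp only [rr, qq, LinearMap.add_apply, LinearMap.smul_apply, Module.End.mul_apply,
    Pi.add_apply, Pi.smul_apply, cpy_apply, swp_apply, cap_apply, cup_apply,
    update_self, update_of_ne h2.symm, update_of_ne h3]
  congr 2
  · refine hF.eq_of fun k hk => ?_
    simp only [update_apply]
    split_ifs <;> simp_all
  · split_ifs
    · refine Finset.sum_congr rfl fun c _ => hF.eq_of fun k hk => ?_
      simp only [update_apply]
      split_ifs <;> simp_all
    · rfl

theorem cup_swp_eq {s m f : ι} (h1 : s ≠ m) (h2 : m ≠ f) (h3 : s ≠ f) (F : Fn ι C) :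
    cup s m (swp m f F) = cup s m (qq s f F) := by
  funext x
  simp only [qq, Module.End.mul_apply, swp_apply, cap_apply, cup_apply,
    update_self, update_of_ne h2.symm, update_of_ne h3.symm, update_of_ne h1]
  simp only [Finset.sum_ite_eq', Finset.mem_univ, if_true]
  refine Finset.sum_congr rfl fun c _ => ?_
  congr 1
  funext k
  simp only [update_apply]
  split_ifs <;> simp_all

theorem cup_rr {s m f : ι} (a : ℂ) (h1 : s ≠ m) (h2 : m ≠ f) (h3 : s ≠ f) (F : Fn ι C) :
    cup s m (rr a m f F) = cup s m (rr a⁻¹ s f F) := by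
  simp only [rr, LinearMap.add_apply, LinearMap.smul_apply, map_add, map_smul, inv_inv]
  rw [cup_swp_eq h1 h2 h3, cup_symm s m, cup_swp_eq h1.symm h3 h2, add_comm]

theorem swp_cap_eq {s m f : ι} (h1 : s ≠ m) (h2 : m ≠ f) (h3 : s ≠ f) {F : Fn ι C}
    (hs : Ind s F) (hm : Ind m F) : swp m f (cap m s F) = qq s f (cap m s F) := by
  funext x
  simp only [qq, Module.End.mul_apply, swp_apply, cap_apply, cup_apply,
    update_self, update_of_ne h2, update_of_ne h3, update_of_ne h1, update_of_ne h1.symm]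
  simp only [Finset.sum_ite_eq, Finset.mem_univ, if_true, eq_comm (a := x f)]
  split_ifs
  · refine hs.eq_of2 hm fun k hk hk' => ?_
    simp only [update_apply]
    split_ifs <;> simp_all
  · rfl

theorem rr_cap {s m f : ι} (a : ℂ) (h1 : s ≠ m) (h2 : m ≠ f) (h3 : s ≠ f) {F : Fn ι C}
    (hs : Ind s F) (hm : Ind m F) : rr a m f (cap m s F) = rr a⁻¹ s f (cap m s F) := by
  simp only [rr, LinearMap.add_apply, LinearMap.smul_apply, inv_inv]
  rw [swp_cap_eq h1 h2 h3 hs hm, cap_symm m s, swp_cap_eq h1.symm h3 h2 hm hs, add_comm]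

/-- the parameter of the model: `-a² - a⁻² = N` -/
structure Good (C : Type) [Fintype C] (a : ℂ) : Prop where
  ne : a ≠ 0
  eq : (Fintype.card C : ℂ) = -a ^ 2 - a⁻¹ ^ 2

omit [DecidableEq C] in
theorem Good.inv {a : ℂ} (h : Good C a) : Good C a⁻¹ :=
  ⟨inv_ne_zero h.ne, by rw [h.eq, inv_inv]; ring⟩

theorem swp_qq_self (i j : ι) (F : Fn ι C) : swp i j (qq i j F) = qq i j F := swp_cap _

theorem qq_swp_self (i j : ι) (F : Fn ι C) : qq i j (swp i j F) = qq i j F := by
  simp [qq, cup_swp]

theorem cup_qq_self (i j : ι) (F : Fn ι C) :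
    cup i j (qq i j F) = (Fintype.card C : ℂ) • cup i j F := by
  simp only [qq, Module.End.mul_apply]
  rw [cup_cap_self, cup_ind (ind_cup_left _ _ _) (ind_cup_right _ _ _)]

theorem qq_qq_self (i j : ι) (F : Fn ι C) :
    qq i j (qq i j F) = (Fintype.card C : ℂ) • qq i j F := by
  rw [qq, Module.End.mul_apply, ← qq, cup_qq_self, map_smul]; rfl

theorem qq_cap_self {i j : ι} {F : Fn ι C} (hi : Ind i F) (hj : Ind j F) :
    qq i j (cap i j F) = (Fintype.card C : ℂ) • cap i j F := by
  simp only [qq, Module.End.mul_apply]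
  rw [cup_cap_self, cup_ind hi hj, map_smul]

theorem rr_inv {a : ℂ} (ha : Good C a) (i j : ι) (F : Fn ι C) :
    rr a i j (rr a⁻¹ i j F) = F := by
  have := ha.ne
  simp only [rr, LinearMap.add_apply, LinearMap.smul_apply, map_add, map_smul, inv_inv, swp_swp,
    swp_qq_self, qq_swp_self, qq_qq_self, ha.eq]
  match_scalars <;> field_simp
  ring

theorem rr_inv' {a : ℂ} (ha : Good C a) (i j : ι) (F : Fn ι C) :
    rr a⁻¹ i j (rr a i j F) = F := by
  simpa using rr_inv ha.inv i j F

theorem cup_rr_self {a : ℂ} (ha : Good C a) (i j : ι) (F : Fn ι C) :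
    cup i j (rr a i j F) = (-a⁻¹ ^ 3) • cup i j F := by
  have := ha.ne
  simp only [rr, LinearMap.add_apply, LinearMap.smul_apply, map_add, map_smul, cup_swp,
    cup_qq_self, ha.eq]
  match_scalars; field_simp
  ring

theorem rr_cap_self {a : ℂ} (ha : Good C a) {i j : ι} {F : Fn ι C} (hi : Ind i F)
    (hj : Ind j F) : rr a i j (cap i j F) = (-a⁻¹ ^ 3) • cap i j F := by
  have := ha.ne
  simp only [rr, LinearMap.add_apply, LinearMap.smul_apply, swp_cap, qq_cap_self hi hj, ha.eq]
  match_scalars; field_simp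
  ring

theorem qq_qq_qq {i j k : ι} (hij : i ≠ j) (hjk : j ≠ k) (hik : i ≠ k) (F : Fn ι C) :
    qq i j (qq j k (qq i j F)) = qq i j F := by
  simp only [qq, Module.End.mul_apply]
  rw [cup_cap hik hjk (ind_cup_left _ _ _), cup_symm j k, cap_symm i j,
    cup_cap hik.symm hij.symm (ind_cup_right _ _ _), cpy_cpy hik (ind_cup_left _ _ _), cpy_self]

/-- the positional crossing -/
noncomputable def sg (a : ℂ) (i j : ι) : Op ι C := a • 1 + a⁻¹ • qq i j

theorem rr_eq_swp_sg (a : ℂ) (i j : ι) (F : Fn ι C) : rr a i j F = swp i j (sg a i j F) := by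
  simp [rr, sg, swp_qq_self]

theorem rr_eq_sg_swp (a : ℂ) (i j : ι) (F : Fn ι C) : rr a i j F = sg a i j (swp i j F) := by
  simp [rr, sg, qq_swp_self]

theorem sg_symm (a : ℂ) (i j : ι) : (sg a i j : Op ι C) = sg a j i := by
  rw [sg, sg, qq_symm]

theorem sg_swp {i j k : ι} (a : ℂ) (hi : k ≠ i) (hj : k ≠ j) (F : Fn ι C) :
    sg a j k (swp i j F) = swp i j (sg a i k F) := by
  simp [sg, swp_qq hi hj]

theorem sg_swp_self (a : ℂ) (i j : ι) (F : Fn ι C) :
    sg a i j (swp i j F) = swp i j (sg a i j F) := by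
  rw [← rr_eq_sg_swp, rr_eq_swp_sg]

/-- `a` or `a⁻¹` -/
noncomputable def pm (a : ℂ) (ε : Bool) : ℂ := if ε then a else a⁻¹

omit [DecidableEq C] in
theorem Good.pm {a : ℂ} (h : Good C a) (ε : Bool) : Good C (pm a ε) := by
  cases ε
  · exact h.inv
  · exact h

@[simp] theorem pm_not (a : ℂ) (ε : Bool) : pm a (!ε) = (pm a ε)⁻¹ := by
  cases ε <;> simp [pm]

theorem sg_braid {a : ℂ} (ha : Good C a) {i j k : ι} (hij : i ≠ j) (hjk : j ≠ k) (hik : i ≠ k)
    {e₁ e₂ e₃ : Bool} (he : e₁ = e₃ → e₂ = e₁) (F : Fn ι C) :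
    sg (pm a e₁) j k (sg (pm a e₂) i j (sg (pm a e₃) j k F)) =
      sg (pm a e₃) i j (sg (pm a e₂) j k (sg (pm a e₁) i j F)) := by
  have := ha.ne
  have h1 := qq_qq_qq hij hjk hik F
  have h2 := qq_qq_qq hjk.symm hij.symm hik.symm F
  rw [qq_symm k j, qq_symm j i] at h2
  cases e₁ <;> cases e₂ <;> cases e₃ <;> simp at he <;>
    simp only [sg, pm, LinearMap.add_apply, LinearMap.smul_apply, map_add, map_smul,
      Module.End.one_apply, qq_qq_self, h1, h2, ha.eq, if_true, if_false, Bool.false_eq_true] <;>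
    match_scalars <;> field_simp <;> ring

/-- the Yang-Baxter equation -/
theorem rr_ybe {a : ℂ} (ha : Good C a) {o i j : ι} (hoi : o ≠ i) (hij : i ≠ j) (hoj : o ≠ j)
    {e₁ e₂ e₃ : Bool} (he : e₁ = e₃ → e₂ = e₁) (F : Fn ι C) :
    rr (pm a e₁) o i (rr (pm a e₂) o j (rr (pm a e₃) i j F)) =
      rr (pm a e₃) i j (rr (pm a e₂) o j (rr (pm a e₁) o i F)) := by
  simp only [rr_eq_swp_sg]
  have s1 : ∀ b (G : Fn ι C), sg b o i (swp o j G) = swp o j (sg b i j G) := fun b G => by
    rw [swp_symm o j, sg_swp b hij hoi.symm, sg_symm]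
  have s2 : ∀ b (G : Fn ι C), sg b o j (swp i j G) = swp i j (sg b o i G) := fun b G => by
    rw [sg_symm b o j, sg_swp b hoi hoj, sg_symm]
  have s3 : ∀ b (G : Fn ι C), sg b i j (swp o j G) = swp o j (sg b o i G) := fun b G => by
    rw [sg_symm b i j, sg_swp b hoi.symm hij]
  have s4 : ∀ b (G : Fn ι C), sg b o j (swp o i G) = swp o i (sg b i j G) := fun b G => by
    rw [swp_symm o i, sg_swp b hij.symm hoj.symm]
  rw [s1, s2, sg_swp_self, s3, s4, sg_swp_self, sg_braid ha hoi hij hoj he,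
    swp_swp_comm hoj.symm hij.symm]
  congr 1
  rw [swp_symm o i, swp_swp_comm hij.symm hoj.symm]

end Pool.Agent.P.MP_382f0d_gt

/-! Cables: lists of parallel strands. -/

namespace Pool.Agent.P.MP_382f0d_gt

open Function

variable {ι C : Type} [DecidableEq ι] [Fintype C] [DecidableEq C]

/-- the strand `s` crosses the strands of `l` in this order -/
noncomputable def tt (a : ℂ) (s : ι) (l : List ι) : Op ι C := (l.map (rr a s)).prod

/-- the cable `l` crosses the cable `m` from left to right -/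
noncomputable def xx (a : ℂ) (l m : List ι) : Op ι C := (l.reverse.map fun s => tt a s m).prod

def cupP (ps : List (ι × ι)) : Op ι C := (ps.map fun p => cup p.1 p.2).prod
def capP (ps : List (ι × ι)) : Op ι C := (ps.map fun p => cap p.1 p.2).prod
def cpyP (ps : List (ι × ι)) : Op ι C := (ps.map fun p => cpy p.1 p.2).prod

@[simp] theorem tt_nil (a : ℂ) (s : ι) (F : Fn ι C) : tt a s [] F = F := rfl
@[simp] theorem tt_cons (a : ℂ) (s t : ι) (l : List ι) (F : Fn ι C) :
    tt a s (t :: l) F = rr a s t (tt a s l F) := rfl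
@[simp] theorem tt_append (a : ℂ) (s : ι) (l m : List ι) (F : Fn ι C) :
    tt a s (l ++ m) F = tt a s l (tt a s m F) := by simp [tt]
@[simp] theorem xx_nil (a : ℂ) (m : List ι) (F : Fn ι C) : xx a [] m F = F := rfl
@[simp] theorem xx_cons (a : ℂ) (s : ι) (l m : List ι) (F : Fn ι C) :
    xx a (s :: l) m F = xx a l m (tt a s m F) := by simp [xx]
@[simp] theorem xx_append (a : ℂ) (l l' m : List ι) (F : Fn ι C) :
    xx a (l ++ l') m F = xx a l' m (xx a l m F) := by simp [xx]
omit [DecidableEq C] in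
@[simp] theorem cupP_nil (F : Fn ι C) : cupP [] F = F := rfl
omit [DecidableEq C] in
@[simp] theorem cupP_cons (p : ι × ι) (ps : List (ι × ι)) (F : Fn ι C) :
    cupP (p :: ps) F = cup p.1 p.2 (cupP ps F) := rfl
omit [DecidableEq C] in
@[simp] theorem cupP_append (ps qs : List (ι × ι)) (F : Fn ι C) :
    cupP (ps ++ qs) F = cupP ps (cupP qs F) := by simp [cupP]
omit [DecidableEq ι] [Fintype C] in
@[simp] theorem capP_nil (F : Fn ι C) : capP [] F = F := rfl
omit [DecidableEq ι] [Fintype C] in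
@[simp] theorem capP_cons (p : ι × ι) (ps : List (ι × ι)) (F : Fn ι C) :
    capP (p :: ps) F = cap p.1 p.2 (capP ps F) := rfl
omit [DecidableEq ι] [Fintype C] in
@[simp] theorem capP_append (ps qs : List (ι × ι)) (F : Fn ι C) :
    capP (ps ++ qs) F = capP ps (capP qs F) := by simp [capP]
omit [DecidableEq C] [Fintype C] in
@[simp] theorem cpyP_nil (F : Fn ι C) : cpyP [] F = F := rfl
omit [DecidableEq C] [Fintype C] in
@[simp] theorem cpyP_cons (p : ι × ι) (ps : List (ι × ι)) (F : Fn ι C) :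
    cpyP (p :: ps) F = cpy p.1 p.2 (cpyP ps F) := rfl

theorem rr_loc (a : ℂ) (i j : ι) : (rr a i j : Op ι C) ∈ loc {k | k = i ∨ k = j} :=
  rr_mem a (by simp) (by simp)
theorem cup_loc (i j : ι) : (cup i j : Op ι C) ∈ loc {k | k = i ∨ k = j} :=
  cup_mem (by simp) (by simp)
theorem cap_loc (i j : ι) : (cap i j : Op ι C) ∈ loc {k | k = i ∨ k = j} :=
  cap_mem (by simp) (by simp)
theorem cpy_loc (i j : ι) : (cpy i j : Op ι C) ∈ loc {k | k = i ∨ k = j} :=
  cpy_mem (by simp) (by simp)
theorem qq_loc (i j : ι) : (qq i j : Op ι C) ∈ loc {k | k = i ∨ k = j} :=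
  qq_mem (by simp) (by simp)
theorem swp_loc (i j : ι) : (swp i j : Op ι C) ∈ loc {k | k = i ∨ k = j} :=
  swp_mem (by simp) (by simp)
theorem sg_loc (a : ℂ) (i j : ι) : (sg a i j : Op ι C) ∈ loc {k | k = i ∨ k = j} :=
  add_mem (Subalgebra.smul_mem _ (one_mem _) _) (Subalgebra.smul_mem _ (qq_loc i j) _)

theorem tt_mem {S : Set ι} (a : ℂ) {s : ι} {l : List ι} (hs : s ∈ S) (hl : ∀ t ∈ l, t ∈ S) :
    (tt a s l : Op ι C) ∈ loc S := by
  refine list_prod_mem fun X hX => ?_
  obtain ⟨t, ht, rfl⟩ := List.mem_map.1 hX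
  exact rr_mem a hs (hl t ht)

theorem tt_loc (a : ℂ) (s : ι) (l : List ι) : (tt a s l : Op ι C) ∈ loc {k | k = s ∨ k ∈ l} :=
  tt_mem a (by simp) (by simp +contextual)

theorem xx_mem {S : Set ι} (a : ℂ) {l m : List ι} (hl : ∀ t ∈ l, t ∈ S) (hm : ∀ t ∈ m, t ∈ S) :
    (xx a l m : Op ι C) ∈ loc S := by
  refine list_prod_mem fun X hX => ?_
  obtain ⟨t, ht, rfl⟩ := List.mem_map.1 hX
  exact tt_mem a (hl t (by simpa using ht)) hm

theorem xx_loc (a : ℂ) (l m : List ι) : (xx a l m : Op ι C) ∈ loc {k | k ∈ l ∨ k ∈ m} :=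
  xx_mem a (by simp +contextual) (by simp +contextual)

/-- all labels of a list of pairs -/
def lab (ps : List (ι × ι)) : List ι := ps.map Prod.fst ++ ps.map Prod.snd

omit [DecidableEq ι] in
theorem fst_mem_lab {ps : List (ι × ι)} {p : ι × ι} (h : p ∈ ps) : p.1 ∈ lab ps :=
  List.mem_append_left _ (List.mem_map_of_mem h)
omit [DecidableEq ι] in
theorem snd_mem_lab {ps : List (ι × ι)} {p : ι × ι} (h : p ∈ ps) : p.2 ∈ lab ps :=
  List.mem_append_right _ (List.mem_map_of_mem h)

theorem cupP_loc (ps : List (ι × ι)) : (cupP ps : Op ι C) ∈ loc {k | k ∈ lab ps} := by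
  refine list_prod_mem fun X hX => ?_
  obtain ⟨t, ht, rfl⟩ := List.mem_map.1 hX
  exact cup_mem (fst_mem_lab ht) (snd_mem_lab ht)

theorem capP_loc (ps : List (ι × ι)) : (capP ps : Op ι C) ∈ loc {k | k ∈ lab ps} := by
  refine list_prod_mem fun X hX => ?_
  obtain ⟨t, ht, rfl⟩ := List.mem_map.1 hX
  exact cap_mem (fst_mem_lab ht) (snd_mem_lab ht)

theorem cpyP_loc (ps : List (ι × ι)) : (cpyP ps : Op ι C) ∈ loc {k | k ∈ lab ps} := by
  refine list_prod_mem fun X hX => ?_
  obtain ⟨t, ht, rfl⟩ := List.mem_map.1 hX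
  exact cpy_mem (fst_mem_lab ht) (snd_mem_lab ht)

omit [DecidableEq ι] in
theorem mem_lab_cons {p : ι × ι} {ps : List (ι × ι)} {k : ι} :
    k ∈ lab (p :: ps) ↔ k = p.1 ∨ k = p.2 ∨ k ∈ lab ps := by
  simp only [lab, List.map_cons, List.mem_append, List.mem_cons]; tauto

omit [DecidableEq ι] in
theorem nodup_lab_cons {p : ι × ι} {ps : List (ι × ι)} :
    (lab (p :: ps)).Nodup ↔ p.1 ≠ p.2 ∧ p.1 ∉ lab ps ∧ p.2 ∉ lab ps ∧ (lab ps).Nodup := by
  have : (lab (p :: ps)).Perm (p.1 :: p.2 :: lab ps) := by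
    simp only [lab, List.map_cons, List.cons_append]
    exact List.Perm.cons _ List.perm_middle
  rw [this.nodup_iff]
  simp only [List.nodup_cons, List.mem_cons]; tauto

omit [DecidableEq ι] in
theorem mem_lab_of_fst {ps : List (ι × ι)} {k : ι} (h : k ∈ ps.map Prod.fst) : k ∈ lab ps :=
  List.mem_append_left _ h
omit [DecidableEq ι] in
theorem mem_lab_of_snd {ps : List (ι × ι)} {k : ι} (h : k ∈ ps.map Prod.snd) : k ∈ lab ps :=
  List.mem_append_right _ h

theorem tt_inv {a : ℂ} (ha : Good C a) (s : ι) (l : List ι) (F : Fn ι C) :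
    tt a s l (tt a⁻¹ s l.reverse F) = F := by
  induction l generalizing F with
  | nil => rfl
  | cons t l ih => simp [ih, rr_inv ha]

theorem tt_inv' {a : ℂ} (ha : Good C a) (s : ι) (l : List ι) (F : Fn ι C) :
    tt a⁻¹ s l.reverse (tt a s l F) = F := by
  simpa using tt_inv ha.inv s l.reverse F

theorem cpy_tt (a : ℂ) {s m : ι} {l : List ι} (hm : m ∉ l) (hs : s ∉ l) (hsm : s ≠ m)
    {F : Fn ι C} (hF : Ind s F) : cpy s m (tt a m l F) = tt a s l (cpy s m F) := by
  induction l with
  | nil => rfl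
  | cons t l ih =>
    simp only [List.mem_cons, not_or] at hm hs
    rw [tt_cons, cpy_rr a hm.1 hs.1 (hF.loc (tt_loc _ _ _) (by simp [hsm, hs.2])), ih hm.2 hs.2,
      tt_cons]

theorem cup_tt (a : ℂ) {s m : ι} {l : List ι} (hm : m ∉ l) (hs : s ∉ l) (hsm : s ≠ m)
    (hl : l.Nodup) (F : Fn ι C) : cup s m (tt a m l F) = cup s m (tt a⁻¹ s l.reverse F) := by
  induction l generalizing F with
  | nil => rfl
  | cons t l ih =>
    simp only [List.mem_cons, not_or, List.nodup_cons] at hm hs hl
    rw [tt_cons, cup_rr a hsm hm.1 hs.1, loc_comm (rr_loc _ _ _) (tt_loc _ _ _) (by grind),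
      ih hm.2 hs.2 hl.2]
    simp

theorem tt_cap (a : ℂ) {s m : ι} {l : List ι} (hm : m ∉ l) (hs : s ∉ l) (hsm : s ≠ m)
    (hl : l.Nodup) {F : Fn ι C} (hFs : Ind s F) (hFm : Ind m F) :
    tt a m l (cap m s F) = tt a⁻¹ s l.reverse (cap m s F) := by
  induction l with
  | nil => rfl
  | cons t l ih =>
    simp only [List.mem_cons, not_or, List.nodup_cons] at hm hs hl
    rw [tt_cons, ih hm.2 hs.2 hl.2, loc_comm (rr_loc _ _ _) (tt_loc _ _ _) (by grind),
      rr_cap a hsm hm.1 hs.1 hFs hFm]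
    simp

theorem cup_rr_rr {a : ℂ} (ha : Good C a) {o i j : ι} (hoi : o ≠ i) (hoj : o ≠ j) (hij : i ≠ j)
    (F : Fn ι C) : cup i j (rr a o i (rr a o j F)) = cup i j F := by
  rw [rr_symm a o i, rr_symm a o j, cup_symm, cup_rr a hij.symm hoi.symm hoj.symm, rr_inv' ha]

theorem rr_rr_cap {a : ℂ} (ha : Good C a) {o i j : ι} (hoi : o ≠ i) (hoj : o ≠ j) (hij : i ≠ j)
    {F : Fn ι C} (hi : Ind i F) (hj : Ind j F) : rr a o i (rr a o j (cap i j F)) = cap i j F := by
  rw [rr_symm a o i, rr_symm a o j, cap_symm, rr_cap a hij hoj.symm hoi.symm hi hj, rr_inv ha]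

theorem cupP_tt_tt {a : ℂ} (ha : Good C a) {o : ι} {ps : List (ι × ι)} (hn : (lab ps).Nodup)
    (ho : o ∉ lab ps) (F : Fn ι C) :
    cupP ps (tt a o (ps.map Prod.fst) (tt a o (ps.map Prod.snd).reverse F)) = cupP ps F := by
  induction ps generalizing F with
  | nil => rfl
  | cons p ps ih =>
    rw [nodup_lab_cons] at hn
    rw [mem_lab_cons] at ho
    simp only [List.map_cons, List.reverse_cons, tt_cons, tt_append, tt_nil, cupP_cons]
    rw [loc_comm (cupP_loc _) (rr_loc _ _ _) (by grind), ih hn.2.2.2 (by grind),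
      loc_comm (cupP_loc _) (rr_loc _ _ _) (by grind),
      cup_rr_rr ha (by grind) (by grind) hn.1]

theorem tt_tt_capP {a : ℂ} (ha : Good C a) {o : ι} {ps : List (ι × ι)} (hn : (lab ps).Nodup)
    (ho : o ∉ lab ps) {F : Fn ι C} (hF : ∀ k ∈ lab ps, Ind k F) :
    tt a o (ps.map Prod.fst) (tt a o (ps.map Prod.snd).reverse (capP ps F)) = capP ps F := by
  induction ps generalizing F with
  | nil => rfl
  | cons p ps ih =>
    rw [nodup_lab_cons] at hn
    simp only [mem_lab_cons] at ho hF
    simp only [List.map_cons, List.reverse_cons, tt_cons, tt_append, tt_nil, capP_cons]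
    rw [loc_comm (cap_loc _ _) (capP_loc _) (by grind),
      loc_comm (rr_loc _ _ _) (capP_loc _) (by grind), ih hn.2.2.2 (by grind),
      loc_comm (rr_loc _ _ _) (capP_loc _) (by grind),
      rr_rr_cap ha (by grind) (by grind) hn.1 (by grind) (by grind)]
    intro k hk
    exact ((hF k (by grind)).loc (cap_loc _ _) (by grind)).loc (rr_loc _ _ _) (by grind)

theorem tt_cpyP (a : ℂ) {o : ι} {ps : List (ι × ι)} (hn : (lab ps).Nodup)
    (ho : o ∉ lab ps) {F : Fn ι C} (hF : ∀ k ∈ ps.map Prod.fst, Ind k F) :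
    tt a o (ps.map Prod.fst) (cpyP ps F) = cpyP ps (tt a o (ps.map Prod.snd) F) := by
  induction ps with
  | nil => rfl
  | cons p ps ih =>
    rw [nodup_lab_cons] at hn
    simp only [mem_lab_cons] at ho
    simp only [List.map_cons, List.mem_cons] at hF
    have h1 := @mem_lab_of_fst ι ps
    have h2 := @mem_lab_of_snd ι ps
    simp only [List.map_cons, tt_cons, cpyP_cons]
    rw [loc_comm (tt_loc _ _ _) (cpy_loc _ _) (by grind), ih hn.2.2.2 (by grind) (by grind),
      loc_comm (cpyP_loc _) (rr_loc _ _ _) (by grind), rr_symm a o p.1, rr_symm a o p.2,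
      cpy_rr a (by grind) (by grind)]
    exact ((hF _ (by grind)).loc (tt_loc _ _ _) (by grind)).loc (cpyP_loc _) (by grind)

theorem tt_cpyP_rev {a : ℂ} (ha : Good C a) {o : ι} {ps : List (ι × ι)} (hn : (lab ps).Nodup)
    (ho : o ∉ lab ps) {F : Fn ι C} (hF : ∀ k ∈ ps.map Prod.fst, Ind k F) :
    tt a o (ps.map Prod.fst).reverse (cpyP ps F) =
      cpyP ps (tt a o (ps.map Prod.snd).reverse F) := by
  have h := tt_cpyP a⁻¹ hn ho (F := tt a o (ps.map Prod.snd).reverse F) (by
    intro k hk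
    refine (hF k hk).loc (tt_loc _ _ _) ?_
    have h1 := mem_lab_of_fst hk
    have := List.disjoint_of_nodup_append hn
    simp only [List.mem_reverse, Set.mem_ofPred_eq, not_or]
    exact ⟨by grind, fun h => this hk h⟩)
  have h2 := tt_inv ha.inv o (ps.map Prod.snd) F
  rw [inv_inv] at h2
  rw [h2] at h
  rw [← h]
  simpa using tt_inv' ha.inv o (ps.map Prod.fst) _

theorem xx_single_left (a : ℂ) (s : ι) (m : List ι) (F : Fn ι C) :
    xx a [s] m F = tt a s m F := by simp

theorem xx_single_right (a : ℂ) (s : ι) (l : List ι) (F : Fn ι C) :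
    xx a l [s] F = tt a s l.reverse F := by
  induction l generalizing F with
  | nil => rfl
  | cons t l ih => simp [ih, rr_symm a t s]

theorem xx_nil_right (a : ℂ) (l : List ι) (F : Fn ι C) : xx a l [] F = F := by
  induction l generalizing F with
  | nil => rfl
  | cons t l ih => simp [ih]

theorem xx_cons_right (a : ℂ) {t : ι} {l m : List ι} (hn : (l ++ t :: m).Nodup) (F : Fn ι C) :
    xx a l (t :: m) F = tt a t l.reverse (xx a l m F) := by
  induction l generalizing F with
  | nil => rfl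
  | cons s l ih =>
    simp only [List.cons_append, List.nodup_cons] at hn
    have hn2 := hn.2
    rw [List.nodup_append] at hn2
    simp only [xx_cons, tt_cons, List.reverse_cons, tt_append, tt_nil]
    rw [ih hn.2, loc_comm (xx_loc _ _ _) (rr_loc _ _ _) (by grind), rr_symm a s t]

theorem ybe_one {a : ℂ} (ha : Good C a) {o s : ι} {m : List ι} (hn : (o :: s :: m).Nodup)
    {e₁ e₂ e₃ : Bool} (he : e₁ = e₃ → e₂ = e₁) (F : Fn ι C) :
    rr (pm a e₁) o s (tt (pm a e₂) o m (tt (pm a e₃) s m F)) =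
      tt (pm a e₃) s m (tt (pm a e₂) o m (rr (pm a e₁) o s F)) := by
  induction m generalizing F with
  | nil => rfl
  | cons t m ih =>
    simp only [List.nodup_cons, List.mem_cons] at hn ih
    simp only [tt_cons]
    rw [loc_comm (tt_loc _ o m) (rr_loc _ s t) (by grind),
      rr_ybe ha (by grind) (by grind) (by grind) he, ih (by grind),
      loc_comm (rr_loc _ o t) (tt_loc _ s m) (by grind)]

/-- Yang-Baxter equation for one strand and two cables -/
theorem ybe_cable {a : ℂ} (ha : Good C a) {o : ι} {l m : List ι} (hn : (o :: (l ++ m)).Nodup)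
    {e₁ e₂ e₃ : Bool} (he : e₁ = e₃ → e₂ = e₁) (F : Fn ι C) :
    tt (pm a e₁) o l (tt (pm a e₂) o m (xx (pm a e₃) l m F)) =
      xx (pm a e₃) l m (tt (pm a e₂) o m (tt (pm a e₁) o l F)) := by
  induction l using List.reverseRecOn generalizing F with
  | nil => rfl
  | append_singleton l s ih =>
    simp only [List.nodup_cons, List.nodup_append, List.mem_append, List.mem_cons] at hn ih
    simp only [tt_append, xx_append, xx_cons, xx_nil, tt_cons, tt_nil]
    rw [ybe_one ha (by grind) he, loc_comm (tt_loc _ o l) (tt_loc _ s m) (by grind),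
      loc_comm (rr_loc _ o s) (xx_loc _ l m) (by grind), ih (by grind)]

end Pool.Agent.P.MP_382f0d_gt

/-! The operator of a loop encircling a cable. -/

namespace Pool.Agent.P.MP_382f0d_gt

open Function

variable {ι C : Type} [DecidableEq ι] [Fintype C] [DecidableEq C]

/-- the strand `s` goes once around the cable `l` -/
noncomputable def jj (a : ℂ) (s : ι) (l : List ι) : Op ι C := tt a s l * tt a s l.reverse

/-- a loop encircling the cable `l` -/
noncomputable def cc (a : ℂ) : List ι → Op ι C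
  | [] => (-a ^ 2 - a⁻¹ ^ 2) • 1
  | t :: l => (1 - a ^ 4) • jj a t l + a⁻¹ ^ 2 • cc a l

theorem jj_apply (a : ℂ) (s : ι) (l : List ι) (F : Fn ι C) :
    jj a s l F = tt a s l (tt a s l.reverse F) := rfl

@[simp] theorem jj_nil (a : ℂ) (s : ι) (F : Fn ι C) : jj a s [] F = F := rfl

theorem jj_cons (a : ℂ) (s t : ι) (l : List ι) (F : Fn ι C) :
    jj a s (t :: l) F = rr a s t (jj a s l (rr a s t F)) := by
  simp [jj_apply]

theorem cc_nil (a : ℂ) (F : Fn ι C) : cc a [] F = (-a ^ 2 - a⁻¹ ^ 2) • F := rfl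

theorem cc_cons (a : ℂ) (t : ι) (l : List ι) (F : Fn ι C) :
    cc a (t :: l) F = (1 - a ^ 4) • jj a t l F + a⁻¹ ^ 2 • cc a l F := rfl

theorem jj_loc (a : ℂ) (s : ι) (l : List ι) : (jj a s l : Op ι C) ∈ loc {k | k = s ∨ k ∈ l} :=
  mul_mem (tt_loc _ _ _) (tt_mem a (by simp) (by simp +contextual))

theorem cc_loc (a : ℂ) (l : List ι) : (cc a l : Op ι C) ∈ loc {k | k ∈ l} := by
  induction l with
  | nil => exact Subalgebra.smul_mem _ (one_mem _) _
  | cons t l ih =>
    refine add_mem (Subalgebra.smul_mem _ (loc_mono ?_ (jj_loc a t l)) _)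
      (Subalgebra.smul_mem _ (loc_mono ?_ ih) _)
    · intro k; simp
    · intro k; simp +contextual

theorem swp_tt (a : ℂ) {s t : ι} {l : List ι} (hs : s ∉ l) (ht : t ∉ l) (F : Fn ι C) :
    swp s t (tt a s l F) = tt a t l (swp s t F) := by
  induction l generalizing F with
  | nil => rfl
  | cons k l ih =>
    simp only [List.mem_cons, not_or] at hs ht
    simp [swp_rr a (Ne.symm hs.1) (Ne.symm ht.1), ih hs.2 ht.2]

theorem jj_cons_sg (a : ℂ) {s t : ι} {l : List ι} (hs : s ∉ l) (ht : t ∉ l) (F : Fn ι C) :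
    jj a s (t :: l) F = sg a s t (jj a t l (sg a s t F)) := by
  rw [jj_cons, rr_eq_sg_swp, rr_eq_swp_sg, jj_apply, jj_apply, swp_tt a hs ht,
    swp_tt a (by simpa using hs) (by simpa using ht), swp_swp]

theorem sg_apply (a : ℂ) (s t : ι) (F : Fn ι C) : sg a s t F = a • F + a⁻¹ • qq s t F := rfl

theorem qq_apply (s t : ι) (F : Fn ι C) : qq s t F = cap s t (cup s t F) := rfl

theorem cup_qq_cap {u o t : ι} (huo : u ≠ o) (hot : o ≠ t) (hut : u ≠ t) {F : Fn ι C}
    (hu : Ind u F) (ho : Ind o F) : cup u o (qq o t (cap o u F)) = F := by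
  rw [qq_apply, cup_cap hut hot (ind_cup_left _ _ _), cup_symm o t, cup_cap hut.symm huo.symm ho,
    cpy_cpy hut hu, cpy_self]

theorem qq_jj_qq_of {a : ℂ} {o t : ι} {l : List ι} (hn : (o :: t :: l).Nodup)
    (ih : ∀ G : Fn ι C, Ind o G → Ind t G → cup o t (jj a t l (cap t o G)) = cc a l G)
    (G : Fn ι C) : qq o t (jj a t l (qq o t G)) = cc a l (qq o t G) := by
  simp only [List.nodup_cons, List.mem_cons] at hn
  rw [qq_apply, qq_apply, cap_symm o t, ih _ (ind_cup_left _ _ _) (ind_cup_right _ _ _),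
    loc_comm (cap_loc _ _) (cc_loc _ _) (by grind)]

/-- closing up `jj` gives the loop -/
theorem cup_jj_cap {a : ℂ} (ha : Good C a) {u o : ι} {l : List ι} (hn : (u :: o :: l).Nodup)
    {F : Fn ι C} (hu : Ind u F) (ho : Ind o F) : cup u o (jj a o l (cap o u F)) = cc a l F := by
  induction l generalizing u o F with
  | nil => rw [jj_nil, cap_symm, cup_cap_self, cup_ind hu ho, cc_nil, ha.eq]
  | cons t l ih =>
    have hn' := hn
    simp only [List.nodup_cons, List.mem_cons] at hn
    have := ha.ne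
    have hJu : Ind u (jj a t l F) := hu.loc (jj_loc _ _ _) (by grind)
    have hJo : Ind o (jj a t l F) := ho.loc (jj_loc _ _ _) (by grind)
    have T1 : cup u o (jj a t l (cap o u F)) = (-a ^ 2 - a⁻¹ ^ 2) • jj a t l F := by
      rw [loc_comm (cup_loc _ _) (jj_loc _ _ _) (by grind), cap_symm, cup_cap_self, cup_ind hu ho,
        ha.eq, map_smul]
    have T2 : cup u o (jj a t l (qq o t (cap o u F))) = jj a t l F := by
      rw [loc_comm (cup_loc _ _) (jj_loc _ _ _) (by grind),
        cup_qq_cap (by grind) (by grind) (by grind) hu ho]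
    have T3 : cup u o (qq o t (jj a t l (cap o u F))) = jj a t l F := by
      rw [loc_comm (jj_loc _ _ _) (cap_loc _ _) (by grind),
        cup_qq_cap (by grind) (by grind) (by grind) hJu hJo]
    have T4 : cup u o (qq o t (jj a t l (qq o t (cap o u F)))) = cc a l F := by
      rw [qq_jj_qq_of hn'.of_cons (fun G h1 h2 => ih hn'.of_cons h1 h2),
        loc_comm (cup_loc _ _) (cc_loc _ _) (by grind),
        cup_qq_cap (by grind) (by grind) (by grind) hu ho]
    rw [jj_cons_sg a (by grind) (by grind), cc_cons]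
    simp only [sg_apply, map_add, map_smul, T1, T2, T3, T4]
    match_scalars <;> field_simp
    ring

theorem qq_jj_qq {a : ℂ} (ha : Good C a) {o t : ι} {l : List ι} (hn : (o :: t :: l).Nodup)
    (G : Fn ι C) : qq o t (jj a t l (qq o t G)) = cc a l (qq o t G) :=
  qq_jj_qq_of hn (fun _ h1 h2 => cup_jj_cap ha hn h1 h2) G

theorem cc_inv_aux {a : ℂ} (ha : Good C a) (l : List ι) (hl : l.Nodup) :
    (∀ s ∉ l, ∀ F : Fn ι C, cc a l F = -(a ^ 2 • jj a s l F + a⁻¹ ^ 2 • jj a⁻¹ s l F)) ∧
      ∀ F : Fn ι C, cc a⁻¹ l F = cc a l F := by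
  have := ha.ne
  induction l with
  | nil =>
    refine ⟨fun s _ F => ?_, fun F => ?_⟩
    · simp only [cc_nil, jj_nil]; module
    · simp only [cc_nil, inv_inv]; module
  | cons t l ih =>
    simp only [List.nodup_cons] at hl
    obtain ⟨ih1, ih2⟩ := ih hl.2
    refine ⟨fun s hs F => ?_, fun F => ?_⟩
    · simp only [List.mem_cons, not_or] at hs
      have hn : (s :: t :: l).Nodup := by simp [hs, hl]
      have h1 := ih1 t hl.1 (qq s t F)
      have h2 := congrArg (qq s t) (ih1 t hl.1 F)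
      rw [loc_comm (qq_loc _ _) (cc_loc _ _) (by grind)] at h2
      simp only [map_neg, map_add, map_smul] at h2
      have h3 := qq_jj_qq ha hn F
      have h4 := qq_jj_qq ha.inv hn F
      rw [ih2] at h4
      rw [jj_cons_sg a hs.2 hl.1, jj_cons_sg a⁻¹ hs.2 hl.1, cc_cons, ih1 t hl.1 F]
      simp only [sg_apply, map_add, map_smul, h3, h4, inv_inv]
      have e : a ^ 2 • qq s t (jj a t l F) = -cc a l (qq s t F) - a⁻¹ ^ 2 • qq s t (jj a⁻¹ t l F) := by
        rw [h2]; module
      have e' : a ^ 2 • jj a t l (qq s t F) =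
          -cc a l (qq s t F) - a⁻¹ ^ 2 • jj a⁻¹ t l (qq s t F) := by
        rw [h1]; module
      have e2 : qq s t (jj a t l F) = a⁻¹ ^ 2 • (a ^ 2 • qq s t (jj a t l F)) := by
        rw [smul_smul]; field_simp; simp
      have e2' : jj a t l (qq s t F) = a⁻¹ ^ 2 • (a ^ 2 • jj a t l (qq s t F)) := by
        rw [smul_smul]; field_simp; simp
      rw [e2, e2', e, e']
      match_scalars <;> field_simp <;> ring
    · rw [cc_cons, cc_cons, ih2, ih1 t hl.1 F]
      simp only [inv_inv]
      match_scalars <;> field_simp <;> ring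

theorem cc_inv {a : ℂ} (ha : Good C a) {l : List ι} (hl : l.Nodup) (F : Fn ι C) :
    cc a⁻¹ l F = cc a l F := (cc_inv_aux ha l hl).2 F

theorem cc_pm {a : ℂ} (ha : Good C a) (ε : Bool) {l : List ι} (hl : l.Nodup) (F : Fn ι C) :
    cc (pm a ε) l F = cc a l F := by
  cases ε
  · exact cc_inv ha hl F
  · rfl

theorem pm_true (a : ℂ) : pm a true = a := rfl
theorem pm_false (a : ℂ) : pm a false = a⁻¹ := rfl

theorem tt_jj {a : ℂ} (ha : Good C a) (ε : Bool) {o t : ι} {l : List ι}
    (hn : (o :: t :: l).Nodup) (F : Fn ι C) :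
    tt (pm a ε) o (t :: l) (jj a t l F) = jj a t l (tt (pm a ε) o (t :: l) F) := by
  have h1 := fun G : Fn ι C => ybe_one ha hn (e₁ := ε) (e₂ := ε) (e₃ := true) (fun _ => rfl) G
  have h2 := fun G : Fn ι C => ybe_one ha hn (e₁ := ε) (e₂ := ε) (e₃ := false) (fun _ => rfl) G
  simp only [pm_true, pm_false] at h1 h2
  simp only [jj_apply, tt_cons]
  rw [h1]
  congr 1
  have h3 := h2 (tt a t l.reverse F)
  have h4 := tt_inv ha.inv t l F
  rw [inv_inv] at h4
  rw [h4] at h3
  rw [h3]
  have h5 := tt_inv' ha.inv t l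
  rw [inv_inv] at h5
  rw [h5]

/-- a strand passes over or under a loop around a cable -/
theorem tt_cc {a : ℂ} (ha : Good C a) (ε : Bool) {o : ι} {l : List ι}
    (hn : (o :: l).Nodup) (F : Fn ι C) :
    tt (pm a ε) o l (cc a l F) = cc a l (tt (pm a ε) o l F) := by
  induction l generalizing F with
  | nil => rfl
  | cons t l ih =>
    have hn' := hn
    simp only [List.nodup_cons, List.mem_cons] at hn
    rw [cc_cons, cc_cons, map_add, map_smul, map_smul, tt_jj ha ε hn', tt_cons _ _ _ _ (cc a l F),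
      ih (by simp; grind), loc_comm (rr_loc _ _ _) (cc_loc _ _) (by grind), tt_cons]

theorem tt_rev_cc {a : ℂ} (ha : Good C a) (ε : Bool) {o : ι} {l : List ι}
    (hn : (o :: l).Nodup) (F : Fn ι C) :
    tt (pm a ε) o l.reverse (cc a l F) = cc a l (tt (pm a ε) o l.reverse F) := by
  have h := tt_cc ha (!ε) hn (tt (pm a ε) o l.reverse F)
  have h1 := tt_inv (ha.pm (!ε)) o l
  have h2 := tt_inv' (ha.pm (!ε)) o l
  simp only [pm_not, inv_inv] at h h1 h2
  rw [h1] at h
  rw [← h, h2]

theorem xx_cc_right {a : ℂ} (ha : Good C a) (ε : Bool) {m l : List ι}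
    (hn : (m ++ l).Nodup) (F : Fn ι C) :
    xx (pm a ε) m l (cc a l F) = cc a l (xx (pm a ε) m l F) := by
  induction m generalizing F with
  | nil => rfl
  | cons s m ih =>
    simp only [List.cons_append, List.nodup_cons, List.mem_append] at hn
    rw [xx_cons, xx_cons, tt_cc ha ε (by simp [hn.2.of_append_right]; grind), ih hn.2]

theorem xx_cc_left {a : ℂ} (ha : Good C a) (ε : Bool) {m l : List ι}
    (hn : (l ++ m).Nodup) (F : Fn ι C) :
    xx (pm a ε) l m (cc a l F) = cc a l (xx (pm a ε) l m F) := by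
  induction m generalizing F with
  | nil => simp [xx_nil_right]
  | cons s m ih =>
    have hn' := hn
    rw [List.nodup_append] at hn'
    simp only [List.nodup_cons, List.mem_cons] at hn'
    rw [xx_cons_right _ hn, xx_cons_right _ hn, ih (by rw [List.nodup_append]; grind),
      tt_rev_cc ha ε (by simp; grind)]

/-! ### Caps and cups slide through -/

theorem tt_cap_mid {a : ℂ} (ha : Good C a) {o s t : ι} {l₁ l₂ : List ι}
    (hn : (o :: (l₁ ++ s :: t :: l₂)).Nodup) {F : Fn ι C} (hs : Ind s F) (ht : Ind t F) :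
    tt a o (l₁ ++ s :: t :: l₂) (cap s t F) = cap s t (tt a o (l₁ ++ l₂) F) := by
  simp only [List.nodup_cons, List.nodup_append, List.mem_append, List.mem_cons] at hn
  simp only [tt_append, tt_cons]
  rw [loc_comm (tt_loc _ o l₂) (cap_loc _ _) (by grind),
    rr_rr_cap ha (by grind) (by grind) (by grind) (hs.loc (tt_loc _ _ _) (by grind))
      (ht.loc (tt_loc _ _ _) (by grind)), loc_comm (tt_loc _ o l₁) (cap_loc _ _) (by grind)]

theorem cup_tt_mid {a : ℂ} (ha : Good C a) {o s t : ι} {l₁ l₂ : List ι}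
    (hn : (o :: (l₁ ++ s :: t :: l₂)).Nodup) (F : Fn ι C) :
    cup s t (tt a o (l₁ ++ s :: t :: l₂) F) = tt a o (l₁ ++ l₂) (cup s t F) := by
  simp only [List.nodup_cons, List.nodup_append, List.mem_append, List.mem_cons] at hn
  simp only [tt_append, tt_cons]
  rw [loc_comm (cup_loc _ _) (tt_loc _ o l₁) (by grind),
    cup_rr_rr ha (by grind) (by grind) (by grind),
    loc_comm (cup_loc _ _) (tt_loc _ o l₂) (by grind)]

omit [DecidableEq ι] in
theorem nodup_rev_mid {o s t : ι} {l₁ l₂ : List ι} (hn : (o :: (l₁ ++ s :: t :: l₂)).Nodup) :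
    (o :: (l₂.reverse ++ t :: s :: l₁.reverse)).Nodup := by
  simp only [List.nodup_cons, List.nodup_append, List.mem_append, List.mem_cons,
    List.nodup_reverse, List.mem_reverse] at hn ⊢
  grind

theorem jj_cap_mid {a : ℂ} (ha : Good C a) {o s t : ι} {l₁ l₂ : List ι}
    (hn : (o :: (l₁ ++ s :: t :: l₂)).Nodup) {F : Fn ι C} (hs : Ind s F) (ht : Ind t F) :
    jj a o (l₁ ++ s :: t :: l₂) (cap s t F) = cap s t (jj a o (l₁ ++ l₂) F) := by
  have hn' := hn
  simp only [List.nodup_cons, List.nodup_append, List.mem_append, List.mem_cons] at hn'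
  have e : (l₁ ++ s :: t :: l₂).reverse = l₂.reverse ++ t :: s :: l₁.reverse := by simp
  rw [jj_apply, jj_apply, e, cap_symm s t, tt_cap_mid ha (nodup_rev_mid hn) ht hs, cap_symm t s,
    tt_cap_mid ha hn (hs.loc (tt_loc _ _ _) (by simp; grind))
      (ht.loc (tt_loc _ _ _) (by simp; grind)), List.reverse_append]

theorem cup_jj_mid {a : ℂ} (ha : Good C a) {o s t : ι} {l₁ l₂ : List ι}
    (hn : (o :: (l₁ ++ s :: t :: l₂)).Nodup) (F : Fn ι C) :
    cup s t (jj a o (l₁ ++ s :: t :: l₂) F) = jj a o (l₁ ++ l₂) (cup s t F) := by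
  have e : (l₁ ++ s :: t :: l₂).reverse = l₂.reverse ++ t :: s :: l₁.reverse := by simp
  rw [jj_apply, jj_apply, e, cup_tt_mid ha hn, cup_symm s t, cup_tt_mid ha (nodup_rev_mid hn),
    List.reverse_append]

theorem cc_cap_mid {a : ℂ} (ha : Good C a) {s t : ι} {l₁ l₂ : List ι}
    (hn : (l₁ ++ s :: t :: l₂).Nodup) {F : Fn ι C} (hs : Ind s F) (ht : Ind t F) :
    cc a (l₁ ++ s :: t :: l₂) (cap s t F) = cap s t (cc a (l₁ ++ l₂) F) := by
  have := ha.ne
  induction l₁ with
  | nil =>
    have hn' := hn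
    simp only [List.nil_append, List.nodup_cons, List.mem_cons] at hn' ⊢
    have h1 : qq s t (jj a t l₂ (cap s t F)) = cap s t (cc a l₂ F) := by
      rw [qq_apply, cap_symm s t, cup_jj_cap ha hn hs ht]
    rw [cc_cons, cc_cons, jj_cons_sg a (by grind) (by grind),
      loc_comm (cc_loc a l₂) (cap_loc _ _) (by grind)]
    simp only [sg_apply, qq_cap_self hs ht, map_add, map_smul, h1, ha.eq]
    match_scalars <;> field_simp <;> ring
  | cons o l₁ ih =>
    rw [List.cons_append, cc_cons, jj_cap_mid ha hn hs ht, ih hn.of_cons, List.cons_append, cc_cons,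
      map_add, map_smul, map_smul]

theorem cup_cc_mid {a : ℂ} (ha : Good C a) {s t : ι} {l₁ l₂ : List ι}
    (hn : (l₁ ++ s :: t :: l₂).Nodup) (F : Fn ι C) :
    cup s t (cc a (l₁ ++ s :: t :: l₂) F) = cc a (l₁ ++ l₂) (cup s t F) := by
  have := ha.ne
  induction l₁ with
  | nil =>
    have hn' := hn
    simp only [List.nil_append, List.nodup_cons, List.mem_cons] at hn' ⊢
    have h1 : cup s t (jj a t l₂ (qq s t F)) = cc a l₂ (cup s t F) := by
      rw [qq_apply, cap_symm s t, cup_jj_cap ha hn (ind_cup_left _ _ _) (ind_cup_right _ _ _)]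
    rw [cc_cons, cc_cons, jj_cons_sg a (by grind) (by grind)]
    simp only [sg_apply, map_add, map_smul, cup_qq_self, h1, ha.eq,
      loc_comm (cup_loc s t) (cc_loc a l₂) (by grind)]
    match_scalars <;> field_simp <;> ring
  | cons o l₁ ih =>
    rw [List.cons_append, cc_cons, map_add, map_smul, map_smul, cup_jj_mid ha hn, ih hn.of_cons,
      List.cons_append, cc_cons]

/-- the same pairs read from the other side -/
def flip (ps : List (ι × ι)) : List (ι × ι) := (ps.map Prod.swap).reverse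

omit [DecidableEq ι] in
theorem flip_fst (ps : List (ι × ι)) : (flip ps).map Prod.fst = (ps.map Prod.snd).reverse := by
  simp [flip, List.map_reverse]

omit [DecidableEq ι] in
theorem flip_snd (ps : List (ι × ι)) : (flip ps).map Prod.snd = (ps.map Prod.fst).reverse := by
  simp [flip, List.map_reverse]

omit [DecidableEq ι] in
theorem lab_flip_perm (ps : List (ι × ι)) : (lab (flip ps)).Perm (lab ps) := by
  rw [lab, flip_fst, flip_snd, lab]
  exact List.perm_append_comm.trans ((List.reverse_perm _).append (List.reverse_perm _))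

theorem cupP_flip {ps : List (ι × ι)} (hn : (lab ps).Nodup) (F : Fn ι C) :
    cupP (flip ps) F = cupP ps F := by
  induction ps generalizing F with
  | nil => rfl
  | cons p ps ih =>
    rw [nodup_lab_cons] at hn
    have : flip (p :: ps) = flip ps ++ [p.swap] := by simp [flip]
    rw [this, cupP_append, ih hn.2.2.2, cupP_cons, cupP_cons, cupP_nil, Prod.fst_swap,
      Prod.snd_swap, cup_symm p.2, loc_comm (cupP_loc _) (cup_loc _ _) (by grind)]

theorem capP_flip {ps : List (ι × ι)} (hn : (lab ps).Nodup) (F : Fn ι C) :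
    capP (flip ps) F = capP ps F := by
  induction ps generalizing F with
  | nil => rfl
  | cons p ps ih =>
    rw [nodup_lab_cons] at hn
    have : flip (p :: ps) = flip ps ++ [p.swap] := by simp [flip]
    rw [this, capP_append, ih hn.2.2.2, capP_cons, capP_cons, capP_nil, Prod.fst_swap,
      Prod.snd_swap, cap_symm p.2, loc_comm (capP_loc _) (cap_loc _ _) (by grind)]

theorem cupP_tt_move {a : ℂ} (ha : Good C a) {k : ι} {ps : List (ι × ι)} (hn : (lab ps).Nodup)
    (hk : k ∉ lab ps) (G : Fn ι C) :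
    cupP ps (tt a k (ps.map Prod.snd).reverse G) =
      cupP ps (tt a⁻¹ k (ps.map Prod.fst).reverse G) := by
  have h3 := cupP_tt_tt ha ((lab_flip_perm ps).nodup_iff.2 hn)
    (fun h => hk ((lab_flip_perm ps).mem_iff.1 h)) (tt a⁻¹ k (ps.map Prod.fst).reverse G)
  rw [cupP_flip hn, cupP_flip hn, flip_fst, flip_snd, List.reverse_reverse, tt_inv ha] at h3
  exact h3

/-- a loop slides around a cup -/
theorem cupP_cc {a : ℂ} (ha : Good C a) {u o : ι} {ps : List (ι × ι)}
    (hn : (u :: o :: lab ps).Nodup) {F : Fn ι C} (hu : Ind u F) (ho : Ind o F) :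
    cupP ps (cc a (ps.map Prod.snd).reverse F) = cupP ps (cc a (ps.map Prod.fst) F) := by
  have hn' := hn
  simp only [List.nodup_cons, List.mem_cons] at hn'
  have h1 := @mem_lab_of_fst ι ps
  have h2 := @mem_lab_of_snd ι ps
  have hl : (ps.map Prod.fst).Nodup := hn'.2.2.of_append_left
  have hm : (ps.map Prod.snd).Nodup := hn'.2.2.of_append_right
  have hd := List.disjoint_of_nodup_append hn'.2.2
  have hd' : ∀ k ∈ ps.map Prod.fst, k ∉ ps.map Prod.snd := fun k h h' => hd h h'
  generalize hl' : ps.map Prod.fst = l at *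
  generalize hm' : ps.map Prod.snd = m at *
  rw [← cup_jj_cap ha (u := u) (o := o) (by simp; grind) hu ho, ← cc_inv ha hl,
    ← cup_jj_cap ha.inv (u := u) (o := o) (by simp; grind) hu ho, jj_apply, jj_apply,
    tt_cap a (by simp; grind) (by simp; grind) (by grind) (by simpa using hm) hu ho,
    List.reverse_reverse, loc_comm (cupP_loc _) (cup_loc _ _) (by grind), ← hm',
    cupP_tt_move ha hn'.2.2 (by grind), hm', hl',
    loc_comm (tt_loc _ o _) (tt_loc _ u _) (by simp; grind), ← hm',
    cupP_tt_move ha.inv hn'.2.2 (by grind), hl',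
    ← loc_comm (cupP_loc _) (cup_loc _ _) (by grind),
    cup_tt a⁻¹ (by grind) (by grind) (by grind) hl]

/-- a loop slides along a cable through a monotone vertex -/
theorem cpyP_cc {a : ℂ} (ha : Good C a) {u o : ι} {ps : List (ι × ι)}
    (hn : (u :: o :: lab ps).Nodup) {F : Fn ι C} (hu : Ind u F) (ho : Ind o F)
    (hF : ∀ k ∈ ps.map Prod.fst, Ind k F) :
    cpyP ps (cc a (ps.map Prod.snd) F) = cc a (ps.map Prod.fst) (cpyP ps F) := by
  have hn' := hn
  simp only [List.nodup_cons, List.mem_cons] at hn'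
  have h1 := @mem_lab_of_fst ι ps
  have h2 := @mem_lab_of_snd ι ps
  have hl : (ps.map Prod.fst).Nodup := hn'.2.2.of_append_left
  have hm : (ps.map Prod.snd).Nodup := hn'.2.2.of_append_right
  have hd := List.disjoint_of_nodup_append hn'.2.2
  have hd' : ∀ k ∈ ps.map Prod.fst, k ∉ ps.map Prod.snd := fun k h h' => hd h h'
  have i1 : ∀ k ∈ ps.map Prod.fst, Ind k (cap o u F) := fun k hk =>
    (hF k hk).loc (cap_loc _ _) (by grind)
  rw [← cup_jj_cap ha (u := u) (o := o) (by simp only [List.nodup_cons, List.mem_cons]; grind)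
      hu ho,
    ← cup_jj_cap ha (u := u) (o := o) (by simp only [List.nodup_cons, List.mem_cons]; grind)
      (hu.loc (cpyP_loc _) (by grind)) (ho.loc (cpyP_loc _) (by grind)), jj_apply, jj_apply,
    loc_comm (cpyP_loc _) (cup_loc _ _) (by grind),
    loc_comm (cap_loc _ _) (cpyP_loc _) (by grind), tt_cpyP_rev ha hn'.2.2 (by grind) i1,
    tt_cpyP a hn'.2.2 (by grind)]
  intro k hk
  exact (i1 k hk).loc (tt_loc _ _ _) (by simp only [List.mem_reverse]; grind)

end Pool.Agent.P.MP_382f0d_gt
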