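import Mathlib

/-! Plane geometry of straight edges swept by a horizontal line. -/

namespace Pool.Agent.P.MP_382f0d_gt

/-- positions of the vertices -/
structure Geo (V : Type) where
  x : V → ℝ
  y : V → ℝ
  z : V → ℝ

/-- events of the sweep: vertices and crossings -/
abbrev Ev (V : Type) : Type := V ⊕ (Sym2 V × Sym2 V)

/-- the edge takes part in the event -/
def Invo {V : Type} : Ev V → Sym2 V → Prop
  | .inl v, e => v ∈ e
  | .inr p, e => e = p.1 ∨ e = p.2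

namespace Geo

variable {V : Type} (g : Geo V)

noncomputable def slp (f : V → ℝ) : Sym2 V → ℝ :=
  Sym2.lift ⟨fun p q => (f q - f p) / (g.y q - g.y p), fun p q => by
    beta_reduce
    rw [← neg_sub (f p), ← neg_sub (g.y p), neg_div_neg_eq]⟩

noncomputable def icp (f : V → ℝ) : Sym2 V → ℝ :=
  Sym2.lift ⟨fun p q => (f p * g.y q - f q * g.y p) / (g.y q - g.y p), fun p q => by
    beta_reduce
    rw [← neg_sub (f q * g.y p), ← neg_sub (g.y p), neg_div_neg_eq]⟩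

noncomputable def val (f : V → ℝ) (e : Sym2 V) (t : ℝ) : ℝ := g.icp f e + g.slp f e * t

noncomputable def X (e : Sym2 V) (t : ℝ) : ℝ := g.val g.x e t
noncomputable def Z (e : Sym2 V) (t : ℝ) : ℝ := g.val g.z e t
noncomputable def sl (e : Sym2 V) : ℝ := g.slp g.x e

noncomputable def lo : Sym2 V → ℝ := Sym2.lift ⟨fun p q => min (g.y p) (g.y q), fun _ _ => min_comm _ _⟩
noncomputable def hi : Sym2 V → ℝ := Sym2.lift ⟨fun p q => max (g.y p) (g.y q), fun _ _ => max_comm _ _⟩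

noncomputable def lev : Ev V → ℝ
  | .inl v => g.y v
  | .inr p => (g.icp g.x p.2 - g.icp g.x p.1) / (g.sl p.1 - g.sl p.2)

/-- `e` crosses `f` from left to right -/
def IsCross (e f : Sym2 V) : Prop :=
  g.sl f < g.sl e ∧ g.lo e < g.lev (.inr (e, f)) ∧ g.lev (.inr (e, f)) < g.hi e ∧
    g.lo f < g.lev (.inr (e, f)) ∧ g.lev (.inr (e, f)) < g.hi f

def IsEv (E : Set (Sym2 V)) : Ev V → Prop
  | .inl v => ∃ e ∈ E, v ∈ e
  | .inr p => p.1 ∈ E ∧ p.2 ∈ E ∧ g.IsCross p.1 p.2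

/-- general position -/
structure Gen (E : Set (Sym2 V)) : Prop where
  fin : E.Finite
  nd : ∀ e ∈ E, ¬ e.IsDiag
  g1 : ∀ e ∈ E, ∀ p, (∃ f ∈ E, p ∈ f) → p ∉ e → g.lo e ≤ g.y p → g.y p ≤ g.hi e →
    g.X e (g.y p) ≠ g.x p
  g3 : ∀ a b, g.IsEv E a → g.IsEv E b → g.lev a = g.lev b → a = b
  g4 : ∀ e ∈ E, ∀ f ∈ E, g.IsCross e f →
    g.Z e (g.lev (.inr (e, f))) ≠ g.Z f (g.lev (.inr (e, f)))

variable {g}

theorem IsEv.mono {E E' : Set (Sym2 V)} (h : E ⊆ E') {a : Ev V} (ha : g.IsEv E a) :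
    g.IsEv E' a := by
  cases a with
  | inl v => obtain ⟨e, he, hv⟩ := ha; exact ⟨e, h he, hv⟩
  | inr p => exact ⟨h ha.1, h ha.2.1, ha.2.2⟩

theorem Gen.mono {E E' : Set (Sym2 V)} (h : E ⊆ E') (hg : g.Gen E') : g.Gen E where
  fin := hg.fin.subset h
  nd e he := hg.nd e (h he)
  g1 e he p hp := hg.g1 e (h he) p (by obtain ⟨f, hf, hp⟩ := hp; exact ⟨f, h hf, hp⟩)
  g3 a b ha hb := hg.g3 a b (ha.mono h) (hb.mono h)
  g4 e he f hf := hg.g4 e (h he) f (h hf)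

theorem val_sub (f : V → ℝ) (e : Sym2 V) (s t : ℝ) :
    g.val f e t = g.val f e s + g.slp f e * (t - s) := by
  simp only [val]; ring

theorem X_sub (e : Sym2 V) (s t : ℝ) : g.X e t = g.X e s + g.sl e * (t - s) := val_sub _ _ _ _

theorem val_mk_left (f : V → ℝ) {p q : V} (h : g.y p ≠ g.y q) : g.val f s(p, q) (g.y p) = f p := by
  have : g.y q - g.y p ≠ 0 := sub_ne_zero.2 h.symm
  simp only [val, icp, slp, Sym2.lift_mk]
  field_simp
  ring

theorem val_mk_right (f : V → ℝ) {p q : V} (h : g.y p ≠ g.y q) :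
    g.val f s(p, q) (g.y q) = f q := by
  rw [Sym2.eq_swap, val_mk_left f h.symm]

@[simp] theorem lo_mk (p q : V) : g.lo s(p, q) = min (g.y p) (g.y q) := rfl
@[simp] theorem hi_mk (p q : V) : g.hi s(p, q) = max (g.y p) (g.y q) := rfl

theorem lo_le {e : Sym2 V} {p : V} (hp : p ∈ e) : g.lo e ≤ g.y p := by
  induction e using Sym2.ind with | _ a b =>
  rcases Sym2.mem_iff.1 hp with rfl | rfl <;> simp

theorem le_hi {e : Sym2 V} {p : V} (hp : p ∈ e) : g.y p ≤ g.hi e := by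
  induction e using Sym2.ind with | _ a b =>
  rcases Sym2.mem_iff.1 hp with rfl | rfl <;> simp

theorem exists_lo (e : Sym2 V) : ∃ p ∈ e, g.y p = g.lo e := by
  induction e using Sym2.ind with | _ a b =>
  rcases le_total (g.y a) (g.y b) with h | h
  · exact ⟨a, by simp, by simp [h]⟩
  · exact ⟨b, by simp, by simp [h]⟩

theorem exists_hi (e : Sym2 V) : ∃ p ∈ e, g.y p = g.hi e := by
  induction e using Sym2.ind with | _ a b =>
  rcases le_total (g.y a) (g.y b) with h | h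
  · exact ⟨b, by simp, by simp [h]⟩
  · exact ⟨a, by simp, by simp [h]⟩

theorem lo_or_hi {e : Sym2 V} {p : V} (hp : p ∈ e) : g.y p = g.lo e ∨ g.y p = g.hi e := by
  induction e using Sym2.ind with | _ a b =>
  rcases Sym2.mem_iff.1 hp with rfl | rfl
  · rcases le_total (g.y p) (g.y b) with h | h <;> simp [h]
  · rcases le_total (g.y a) (g.y p) with h | h <;> simp [h]

theorem Gen.yinj {E : Set (Sym2 V)} (hg : g.Gen E) {p q : V} {e f : Sym2 V} (he : e ∈ E)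
    (hf : f ∈ E) (hp : p ∈ e) (hq : q ∈ f) (h : g.y p = g.y q) : p = q :=
  Sum.inl_injective (hg.g3 (.inl p) (.inl q) ⟨e, he, hp⟩ ⟨f, hf, hq⟩ h)

theorem Gen.y_ne {E : Set (Sym2 V)} (hg : g.Gen E) {p q : V} (he : s(p, q) ∈ E) :
    g.y p ≠ g.y q := fun h =>
  hg.nd _ he (by simpa using hg.yinj he he (by simp) (by simp) h)

theorem Gen.lo_lt_hi {E : Set (Sym2 V)} (hg : g.Gen E) {e : Sym2 V} (he : e ∈ E) :
    g.lo e < g.hi e := by
  induction e using Sym2.ind with | _ a b =>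
  have := hg.y_ne he
  rcases lt_or_gt_of_ne this with h | h <;> simp [h, h.le]

theorem Gen.val_end {E : Set (Sym2 V)} (hg : g.Gen E) (f : V → ℝ) {e : Sym2 V} (he : e ∈ E)
    {p : V} (hp : p ∈ e) : g.val f e (g.y p) = f p := by
  induction e using Sym2.ind with | _ a b =>
  rcases Sym2.mem_iff.1 hp with rfl | rfl
  · exact val_mk_left f (hg.y_ne he)
  · exact val_mk_right f (hg.y_ne he)

theorem Gen.X_end {E : Set (Sym2 V)} (hg : g.Gen E) {e : Sym2 V} (he : e ∈ E)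
    {p : V} (hp : p ∈ e) : g.X e (g.y p) = g.x p := hg.val_end _ he hp

theorem Gen.Z_end {E : Set (Sym2 V)} (hg : g.Gen E) {e : Sym2 V} (he : e ∈ E)
    {p : V} (hp : p ∈ e) : g.Z e (g.y p) = g.z p := hg.val_end _ he hp

theorem X_lev {e f : Sym2 V} (h : g.sl f ≠ g.sl e) :
    g.X e (g.lev (.inr (e, f))) = g.X f (g.lev (.inr (e, f))) := by
  have : g.sl e - g.sl f ≠ 0 := sub_ne_zero.2 h.symm
  simp only [X, val, lev, sl] at *
  field_simp
  ring

theorem lev_eq {e f : Sym2 V} (h : g.sl f ≠ g.sl e) {t : ℝ} (ht : g.X e t = g.X f t) :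
    g.lev (.inr (e, f)) = t := by
  have : g.sl e - g.sl f ≠ 0 := sub_ne_zero.2 h.symm
  simp only [X, val, lev, sl] at *
  field_simp
  linarith

theorem IsCross.ne {e f : Sym2 V} (h : g.IsCross e f) : e ≠ f := by
  rintro rfl; exact lt_irrefl _ h.1

theorem isCross_of {e f : Sym2 V} (h : g.sl f < g.sl e) {t : ℝ} (ht : g.X e t = g.X f t)
    (h1 : g.lo e < t) (h2 : t < g.hi e) (h3 : g.lo f < t) (h4 : t < g.hi f) : g.IsCross e f := by
  rw [IsCross, lev_eq h.ne ht]; exact ⟨h, h1, h2, h3, h4⟩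

theorem eq_of_two_mem {e f : Sym2 V} {p q : V} (hpq : p ≠ q) (h1 : p ∈ e) (h2 : q ∈ e)
    (h3 : p ∈ f) (h4 : q ∈ f) : e = f :=
  ((Sym2.mem_and_mem_iff hpq).1 ⟨h1, h2⟩).trans ((Sym2.mem_and_mem_iff hpq).1 ⟨h3, h4⟩).symm

theorem Gen.mem_of_tie {E : Set (Sym2 V)} (hg : g.Gen E) {e f : Sym2 V} (he : e ∈ E) (hf : f ∈ E)
    {p : V} (hp : p ∈ e) (h1 : g.lo f ≤ g.y p) (h2 : g.y p ≤ g.hi f)
    (h : g.X e (g.y p) = g.X f (g.y p)) : p ∈ f := by
  by_contra hn
  exact hg.g1 f hf p ⟨e, he, hp⟩ hn h1 h2 (by rw [← h, hg.X_end he hp])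

/-- two different edges through the same point have different slopes -/
theorem Gen.sl_ne {E : Set (Sym2 V)} (hg : g.Gen E) {e f : Sym2 V} (he : e ∈ E) (hf : f ∈ E)
    (hef : e ≠ f) {t : ℝ} (h1 : g.lo e < t) (h2 : t < g.hi e) (h3 : g.lo f < t) (h4 : t < g.hi f)
    (ht : g.X e t = g.X f t) : g.sl e ≠ g.sl f := by
  intro hs
  have hall : ∀ s, g.X e s = g.X f s := fun s => by rw [X_sub e t s, X_sub f t s, ht, hs]
  have hlo : ∃ p, p ∈ e ∧ p ∈ f ∧ g.y p < t := by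
    rcases le_total (g.lo e) (g.lo f) with h | h
    · obtain ⟨p, hp, hy⟩ := g.exists_lo f
      exact ⟨p, hg.mem_of_tie hf he hp (by linarith) (by linarith) (hall _).symm, hp, by linarith⟩
    · obtain ⟨p, hp, hy⟩ := g.exists_lo e
      exact ⟨p, hp, hg.mem_of_tie he hf hp (by linarith) (by linarith) (hall _), by linarith⟩
  have hhi : ∃ p, p ∈ e ∧ p ∈ f ∧ t < g.y p := by
    rcases le_total (g.hi e) (g.hi f) with h | h
    · obtain ⟨p, hp, hy⟩ := g.exists_hi e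
      exact ⟨p, hp, hg.mem_of_tie he hf hp (by linarith) (by linarith) (hall _), by linarith⟩
    · obtain ⟨p, hp, hy⟩ := g.exists_hi f
      exact ⟨p, hg.mem_of_tie hf he hp (by linarith) (by linarith) (hall _).symm, hp, by linarith⟩
  obtain ⟨p, a1, a2, a3⟩ := hlo
  obtain ⟨q, b1, b2, b3⟩ := hhi
  exact hef (eq_of_two_mem (p := p) (q := q) (by rintro rfl; linarith) a1 b1 a2 b2)

/-- two different edges at the same point of the plane take part in an event there -/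
theorem Gen.tie {E : Set (Sym2 V)} (hg : g.Gen E) {e f : Sym2 V} (he : e ∈ E) (hf : f ∈ E)
    (hef : e ≠ f) {t : ℝ} (h1 : g.lo e ≤ t) (h2 : t ≤ g.hi e) (h3 : g.lo f ≤ t) (h4 : t ≤ g.hi f)
    (ht : g.X e t = g.X f t) : ∃ a, g.IsEv E a ∧ g.lev a = t ∧ Invo a e ∧ Invo a f := by
  by_cases c1 : ∃ p ∈ e, g.y p = t
  · obtain ⟨p, hp, rfl⟩ := c1
    exact ⟨.inl p, ⟨e, he, hp⟩, rfl, hp, hg.mem_of_tie he hf hp h3 h4 ht⟩
  by_cases c2 : ∃ p ∈ f, g.y p = t
  · obtain ⟨p, hp, rfl⟩ := c2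
    exact ⟨.inl p, ⟨f, hf, hp⟩, rfl, hg.mem_of_tie hf he hp h1 h2 ht.symm, hp⟩
  have k1 : g.lo e < t := h1.lt_of_ne fun h => c1 (h ▸ g.exists_lo e)
  have k2 : t < g.hi e := h2.lt_of_ne fun h => c1 (h ▸ g.exists_hi e)
  have k3 : g.lo f < t := h3.lt_of_ne fun h => c2 (h ▸ g.exists_lo f)
  have k4 : t < g.hi f := h4.lt_of_ne fun h => c2 (h ▸ g.exists_hi f)
  rcases lt_or_gt_of_ne (hg.sl_ne he hf hef k1 k2 k3 k4 ht) with h | h
  · exact ⟨.inr (f, e), ⟨hf, he, isCross_of h ht.symm k3 k4 k1 k2⟩, lev_eq h.ne ht.symm,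
      Or.inr rfl, Or.inl rfl⟩
  · exact ⟨.inr (e, f), ⟨he, hf, isCross_of h ht k1 k2 k3 k4⟩, lev_eq h.ne ht,
      Or.inl rfl, Or.inr rfl⟩

/-- no event in a range of levels -/
def Free (g : Geo V) (E : Set (Sym2 V)) (S : Set ℝ) : Prop := ∀ a, g.IsEv E a → g.lev a ∉ S

theorem affine_zero {a b s t : ℝ} (h1 : 0 < a + b * s) (h2 : a + b * t ≤ 0) :
    ∃ r, a + b * r = 0 ∧ r ∈ Set.uIcc s t ∧ r ≠ s := by
  have hb : b ≠ 0 := by rintro rfl; linarith
  have hr : a + b * (-a / b) = 0 := by field_simp; ring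
  refine ⟨-a / b, hr, ?_, fun h => by rw [h] at hr; linarith⟩
  rw [Set.mem_uIcc]
  generalize -a / b = r at hr
  rcases lt_or_gt_of_ne hb with h | h
  · left; constructor <;> nlinarith
  · right; constructor <;> nlinarith

/-- the left-right order of two edges persists while there is no event -/
theorem Gen.persist {E : Set (Sym2 V)} (hg : g.Gen E) {e f : Sym2 V} (he : e ∈ E) (hf : f ∈ E)
    {s t : ℝ} (hfree : g.Free E (Set.uIcc s t \ {s}))
    (h1 : g.lo e ≤ s) (h2 : s ≤ g.hi e) (h3 : g.lo f ≤ s) (h4 : s ≤ g.hi f)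
    (k1 : g.lo e ≤ t) (k2 : t ≤ g.hi e) (k3 : g.lo f ≤ t) (k4 : t ≤ g.hi f)
    (h : g.X e s < g.X f s) : g.X e t < g.X f t := by
  by_contra hn
  have hef : e ≠ f := by rintro rfl; exact lt_irrefl _ h
  obtain ⟨r, hr, hm, hne⟩ := affine_zero (a := g.icp g.x f - g.icp g.x e) (b := g.sl f - g.sl e)
    (s := s) (t := t) (by simp only [X, val, sl] at *; linarith)
    (by simp only [X, val, sl] at *; linarith)
  have hm' := hm
  rw [Set.mem_uIcc] at hm'
  obtain ⟨a, ha, hl, -⟩ := hg.tie he hf hef (t := r) (by grind) (by grind) (by grind) (by grind)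
    (by simp only [X, val, sl] at *; linarith)
  exact hfree a ha (by rw [hl]; exact ⟨hm, hne⟩)

theorem Invo.range {E : Set (Sym2 V)} {a : Ev V} (ha : g.IsEv E a) {e : Sym2 V} (he : Invo a e) :
    g.lo e ≤ g.lev a ∧ g.lev a ≤ g.hi e := by
  cases a with
  | inl v => exact ⟨lo_le he, le_hi he⟩
  | inr p =>
    obtain ⟨-, -, -, h1, h2, h3, h4⟩ := ha
    rcases he with rfl | rfl
    · exact ⟨h1.le, h2.le⟩
    · exact ⟨h3.le, h4.le⟩

/-- the `x`-coordinate of an event -/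
noncomputable def evx (g : Geo V) : Ev V → ℝ
  | .inl v => g.x v
  | .inr p => g.X p.1 (g.lev (.inr p))

theorem Gen.X_inv {E : Set (Sym2 V)} (hg : g.Gen E) {a : Ev V} (ha : g.IsEv E a) {e : Sym2 V}
    (he : e ∈ E) (hi : Invo a e) : g.X e (g.lev a) = g.evx a := by
  cases a with
  | inl v => exact hg.X_end he hi
  | inr p =>
    rcases hi with rfl | rfl
    · rfl
    · exact (X_lev ha.2.2.1.ne).symm

theorem exists_inv {E : Set (Sym2 V)} {a : Ev V} (ha : g.IsEv E a) : ∃ e ∈ E, Invo a e := by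
  cases a with
  | inl v => exact ha
  | inr p => exact ⟨p.1, ha.1, Or.inl rfl⟩

theorem Gen.inv_of_tie {E : Set (Sym2 V)} (hg : g.Gen E) {a : Ev V} (ha : g.IsEv E a)
    {e : Sym2 V} (he : e ∈ E) (h1 : g.lo e ≤ g.lev a) (h2 : g.lev a ≤ g.hi e)
    (h : g.X e (g.lev a) = g.evx a) : Invo a e := by
  obtain ⟨f, hf, hi⟩ := exists_inv ha
  by_cases hef : e = f
  · exact hef ▸ hi
  obtain ⟨b, hb, hl, h3, -⟩ := hg.tie he hf hef h1 h2 (Invo.range ha hi).1 (Invo.range ha hi).2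
    (h.trans (hg.X_inv ha hf hi).symm)
  exact hg.g3 _ _ hb ha hl ▸ h3

theorem Gen.inv_of_tie2 {E : Set (Sym2 V)} (hg : g.Gen E) {a : Ev V} (ha : g.IsEv E a)
    {e f : Sym2 V} (he : e ∈ E) (hf : f ∈ E) (hef : e ≠ f) (h1 : g.lo e ≤ g.lev a)
    (h2 : g.lev a ≤ g.hi e) (h3 : g.lo f ≤ g.lev a) (h4 : g.lev a ≤ g.hi f)
    (h : g.X e (g.lev a) = g.X f (g.lev a)) : Invo a e ∧ Invo a f := by
  obtain ⟨b, hb, hl, k⟩ := hg.tie he hf hef h1 h2 h3 h4 h
  exact hg.g3 _ _ hb ha hl ▸ k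

theorem Gen.inv_of_lo {E : Set (Sym2 V)} (hg : g.Gen E) {a : Ev V} (ha : g.IsEv E a)
    {e : Sym2 V} (he : e ∈ E) (h : g.lo e = g.lev a) : Invo a e := by
  obtain ⟨p, hp, hy⟩ := g.exists_lo e
  exact hg.g3 (.inl p) a ⟨e, he, hp⟩ ha (hy.trans h) ▸ hp

theorem Gen.inv_of_hi {E : Set (Sym2 V)} (hg : g.Gen E) {a : Ev V} (ha : g.IsEv E a)
    {e : Sym2 V} (he : e ∈ E) (h : g.hi e = g.lev a) : Invo a e := by
  obtain ⟨p, hp, hy⟩ := g.exists_hi e
  exact hg.g3 (.inl p) a ⟨e, he, hp⟩ ha (hy.trans h) ▸ hp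

theorem Free.lo {E : Set (Sym2 V)} {S : Set ℝ} (h : g.Free E S) {e : Sym2 V} (he : e ∈ E) :
    g.lo e ∉ S := by
  obtain ⟨p, hp, hy⟩ := g.exists_lo e
  exact hy ▸ h (.inl p) ⟨e, he, hp⟩

theorem Free.hi {E : Set (Sym2 V)} {S : Set ℝ} (h : g.Free E S) {e : Sym2 V} (he : e ∈ E) :
    g.hi e ∉ S := by
  obtain ⟨p, hp, hy⟩ := g.exists_hi e
  exact hy ▸ h (.inl p) ⟨e, he, hp⟩

theorem finite_ev {E : Set (Sym2 V)} (hE : E.Finite) : {a | g.IsEv E a}.Finite := by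
  classical
  have h1 : {v | ∃ e ∈ E, v ∈ e}.Finite := by
    refine (hE.biUnion (t := fun e => (e.toFinset : Set V)) fun e _ => Finset.finite_toSet _).subset ?_
    rintro v ⟨e, he, hv⟩
    simp only [Set.mem_iUnion]
    exact ⟨e, he, by simpa using hv⟩
  refine ((h1.image Sum.inl).union ((hE.prod hE).image Sum.inr)).subset ?_
  rintro (v | p) h
  · exact Or.inl ⟨v, h, rfl⟩
  · exact Or.inr ⟨p, ⟨h.1, h.2.1⟩, rfl⟩

end Geo

/-! ### Sorted lists -/

/-- `l` lists the set `S` in increasing order of the key `k` -/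
structure Srt {α : Type} (k : α → ℝ) (S : α → Prop) (l : List α) : Prop where
  pw : l.Pairwise fun a b => k a < k b
  mem : ∀ a, a ∈ l ↔ S a

theorem Srt.unique {α : Type} {k : α → ℝ} {S : α → Prop} {l l' : List α} (h : Srt k S l)
    (h' : Srt k S l') : l = l' := by
  have : Std.Antisymm fun a b : α => k a < k b := ⟨fun a b h1 h2 => absurd h1 h2.not_gt⟩
  have : Std.Irrefl fun a b : α => k a < k b := ⟨fun a => lt_irrefl _⟩
  exact h.pw.eq_of_mem_iff h'.pw fun a => (h.mem a).trans (h'.mem a).symm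

theorem exists_srt {α : Type} (k : α → ℝ) (S : α → Prop) (hS : {a | S a}.Finite)
    (hk : ∀ a b, S a → S b → k a = k b → a = b) : ∃ l, Srt k S l := by
  classical
  let l := hS.toFinset.toList.mergeSort fun a b => decide (k a ≤ k b)
  have hp : l.Perm hS.toFinset.toList := List.mergeSort_perm _ _
  have hm : ∀ a, a ∈ l ↔ S a := fun a => by simp [hp.mem_iff]
  have h1 : l.Pairwise fun a b => decide (k a ≤ k b) = true :=
    List.pairwise_mergeSort (by simp only [decide_eq_true_eq]; exact fun a b c => le_trans)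
      (by simp only [Bool.or_eq_true, decide_eq_true_eq]; exact fun a b => le_total _ _) _
  have h2 : l.Nodup := hp.nodup_iff.2 (Finset.nodup_toList _)
  refine ⟨l, (h1.and h2).imp_of_mem fun {a b} ha hb h => ?_, hm⟩
  exact lt_of_le_of_ne (by simpa using h.1) fun e => h.2 (hk a b ((hm a).1 ha) ((hm b).1 hb) e)

theorem Srt.nodup {α : Type} {k : α → ℝ} {S : α → Prop} {l : List α} (h : Srt k S l) : l.Nodup :=
  h.pw.imp fun {a b} hab e => by rw [e] at hab; exact lt_irrefl _ hab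

theorem Srt.filter {α : Type} {k : α → ℝ} {S : α → Prop} {l : List α} (h : Srt k S l)
    (p : α → Prop) [DecidablePred p] :
    Srt k (fun a => S a ∧ p a) (l.filter fun a => decide (p a)) :=
  ⟨h.pw.filter _, fun a => by simp [h.mem]⟩

theorem Srt.congr {α : Type} {k : α → ℝ} {S T : α → Prop} {l : List α} (h : Srt k S l)
    (hST : ∀ a, S a ↔ T a) : Srt k T l := ⟨h.pw, fun a => (h.mem a).trans (hST a)⟩

theorem Srt.eq_nil {α : Type} {k : α → ℝ} {S : α → Prop} {l : List α} (h : Srt k S l)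
    (hS : ∀ a, ¬ S a) : l = [] :=
  List.eq_nil_iff_forall_not_mem.2 fun a ha => hS a ((h.mem a).1 ha)

theorem Srt.eq_one {α : Type} {k : α → ℝ} {S : α → Prop} {l : List α} (h : Srt k S l) {b : α}
    (hS : ∀ a, S a ↔ a = b) : l = [b] :=
  h.unique ⟨by simp, fun a => by simp [hS]⟩

theorem Srt.eq_two {α : Type} {k : α → ℝ} {S : α → Prop} {l : List α} (h : Srt k S l) {b c : α}
    (hS : ∀ a, S a ↔ a = b ∨ a = c) (hbc : k b < k c) : l = [b, c] :=
  h.unique ⟨by simp [hbc], fun a => by simp [hS]⟩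

theorem Srt.append {α : Type} {k : α → ℝ} {S T : α → Prop} {l m : List α} (h : Srt k S l)
    (h' : Srt k T m) (hST : ∀ a b, S a → T b → k a < k b) :
    Srt k (fun a => S a ∨ T a) (l ++ m) :=
  ⟨List.pairwise_append.2 ⟨h.pw, h'.pw, fun a ha b hb => hST a b ((h.mem a).1 ha) ((h'.mem b).1 hb)⟩,
    fun a => by simp [h.mem, h'.mem]⟩

theorem Srt.rekey {α : Type} {k k' : α → ℝ} {S : α → Prop} {l : List α} (h : Srt k S l)
    (hk : ∀ a b, S a → S b → k a < k b → k' a < k' b) : Srt k' S l :=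
  ⟨h.pw.imp_of_mem fun {a b} ha hb => hk a b ((h.mem a).1 ha) ((h.mem b).1 hb), h.mem⟩

end Pool.Agent.P.MP_382f0d_gt
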