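import Pool.Agent.P.MP_382f0d_gt.A
import Pool.Agent.P.MP_382f0d_gt.Geo

/-! The state sum of a diagram with straight edges, evaluated by sweeping a horizontal line. -/

namespace Pool.Agent.P.MP_382f0d_gt

/-- positions, thickness of the edges, writhe weights, and loops inserted at vertices -/
structure Dat (V : Type) extends Geo V where
  th : Sym2 V → ℕ
  mu : Sym2 V → Sym2 V → ℤ
  dj : V → ℕ
  dw : V → Sym2 V

abbrev Lb (V : Type) : Type := Sym2 V × ℕ

variable {V C : Type} [DecidableEq V] [Fintype C] [DecidableEq C]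

/-- join two single strands; `true` means that the strand ends, `false` that it starts -/
def jn {ι : Type} [DecidableEq ι] (s t : ι) : Bool → Bool → Op ι C
  | true, true => cap s t
  | true, false => cpy s t
  | false, true => cpy t s
  | false, false => cup s t

/-- join two cables -/
def joinL {ι : Type} [DecidableEq ι] (l m : List ι) : Bool → Bool → Op ι C
  | true, true => capP (l.zip m.reverse)
  | true, false => cpyP (l.zip m)
  | false, true => cpyP (m.zip l)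
  | false, false => cupP (l.zip m.reverse)

section
variable {ι : Type} [DecidableEq ι]

omit [Fintype C] in
theorem mem_loc_mono {S T : Set ι} {X : Op ι C} (hX : X ∈ loc S) (h : ∀ k ∈ S, k ∈ T) :
    X ∈ loc T := loc_mono h hX

theorem joinL_single (s t : ι) (α β : Bool) : (joinL [s] [t] α β : Op ι C) = jn s t α β := by
  cases α <;> cases β <;> simp [joinL, jn, capP, cupP, cpyP]

theorem jn_symm (s t : ι) (α β : Bool) : (jn s t α β : Op ι C) = jn t s β α := by
  cases α <;> cases β <;> simp [jn, cap_symm s t, cup_symm s t]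

theorem jn_loc (s t : ι) (α β : Bool) : (jn s t α β : Op ι C) ∈ loc {k | k = s ∨ k = t} := by
  cases α <;> cases β
  · exact cup_loc _ _
  · exact cpy_mem (by simp) (by simp)
  · exact cpy_loc _ _
  · exact cap_loc _ _

omit [DecidableEq ι] in
theorem lab_zip {l m : List ι} (h : l.length = m.length) : lab (l.zip m) = l ++ m := by
  rw [lab, List.map_fst_zip h.le, List.map_snd_zip h.ge]

omit [DecidableEq ι] in
theorem mem_lab_zip {l m : List ι} {k : ι} (h : k ∈ lab (l.zip m)) : k ∈ l ∨ k ∈ m := by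
  simp only [lab, List.mem_append, List.mem_map] at h
  rcases h with ⟨p, hp, rfl⟩ | ⟨p, hp, rfl⟩
  · exact Or.inl (List.of_mem_zip hp).1
  · exact Or.inr (List.of_mem_zip hp).2

theorem joinL_loc (l m : List ι) (α β : Bool) :
    (joinL l m α β : Op ι C) ∈ loc {k | k ∈ l ∨ k ∈ m} := by
  cases α <;> cases β
  · exact loc_mono (fun k hk => by simpa using mem_lab_zip hk) (cupP_loc _)
  · exact loc_mono (fun k hk => (mem_lab_zip hk).symm) (cpyP_loc _)
  · exact loc_mono (fun k hk => mem_lab_zip hk) (cpyP_loc _)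
  · exact loc_mono (fun k hk => by simpa using mem_lab_zip hk) (capP_loc _)

omit [DecidableEq ι] in
theorem flip_zip {l m : List ι} (h : l.length = m.length) :
    flip (l.zip m.reverse) = m.zip l.reverse := by
  have h1 := flip_fst (l.zip m.reverse)
  have h2 := flip_snd (l.zip m.reverse)
  rw [List.map_snd_zip (by simp [h]), List.reverse_reverse] at h1
  rw [List.map_fst_zip (by simp [h])] at h2
  exact List.zip_of_prod h1 h2

omit [DecidableEq ι] in
theorem nodup_lab_zip_rev {l m : List ι} (h : l.length = m.length) (hn : (l ++ m).Nodup) :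
    (lab (l.zip m.reverse)).Nodup := by
  rw [lab_zip (by simp [h])]
  exact ((List.Perm.refl l).append (List.reverse_perm m)).nodup_iff.2 hn

theorem joinL_symm {l m : List ι} (h : l.length = m.length) (hn : (l ++ m).Nodup) (α β : Bool) :
    (joinL l m α β : Op ι C) = joinL m l β α := by
  cases α <;> cases β
  · exact LinearMap.ext fun F => by
      rw [joinL, joinL, ← flip_zip h, cupP_flip (nodup_lab_zip_rev h hn)]
  · rfl
  · rfl
  · exact LinearMap.ext fun F => by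
      rw [joinL, joinL, ← flip_zip h, capP_flip (nodup_lab_zip_rev h hn)]

end

noncomputable def kap (a : ℂ) : ℂ := -a ^ 3

def sgn (ε : Bool) : ℤ := if ε then 1 else -1

/-- exactly the two edges `e`, `f` of `E` contain the vertex `v` -/
def Two (E : Set (Sym2 V)) (v : V) (e f : Sym2 V) : Prop :=
  e ≠ f ∧ ∀ e', (e' ∈ E ∧ v ∈ e') ↔ (e' = e ∨ e' = f)

omit [DecidableEq V] in
theorem Two.symm {E : Set (Sym2 V)} {v : V} {e f : Sym2 V} (h : Two E v e f) : Two E v f e :=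
  ⟨h.1.symm, fun e' => (h.2 e').trans or_comm⟩

omit [DecidableEq V] in
theorem Two.left {E : Set (Sym2 V)} {v : V} {e f : Sym2 V} (h : Two E v e f) : e ∈ E ∧ v ∈ e :=
  (h.2 e).2 (Or.inl rfl)

omit [DecidableEq V] in
theorem Two.right {E : Set (Sym2 V)} {v : V} {e f : Sym2 V} (h : Two E v e f) : f ∈ E ∧ v ∈ f :=
  (h.2 f).2 (Or.inr rfl)

omit [DecidableEq V] in
theorem Two.cases {E : Set (Sym2 V)} {v : V} {e f e' f' : Sym2 V} (h : Two E v e f)
    (h' : Two E v e' f') : (e' = e ∧ f' = f) ∨ (e' = f ∧ f' = e) := by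
  have h1 := (h.2 e').1 h'.left
  have h2 := (h.2 f').1 h'.right
  have := h'.1
  grind

namespace Dat

variable (D : Dat V)

def cab (e : Sym2 V) : List (Lb V) := (List.range (D.th e)).map fun i => (e, i)

open Classical in
noncomputable def top (e : Sym2 V) (v : V) : Bool := decide (D.y v = D.hi e)

open Classical in
noncomputable def eps (e f : Sym2 V) : Bool :=
  decide (D.Z f (D.lev (.inr (e, f))) < D.Z e (D.lev (.inr (e, f))))

noncomputable def join (e f : Sym2 V) (v : V) : Op (Lb V) C :=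
  joinL (D.cab e) (D.cab f) (D.top e v) (D.top f v)

noncomputable def xop (a : ℂ) (e f : Sym2 V) : Op (Lb V) C :=
  kap a ^ (-(D.mu e f * sgn (D.eps e f))) • xx (pm a (D.eps e f)) (D.cab e) (D.cab f)

open Classical in
noncomputable def vop (E : Set (Sym2 V)) (v : V) : Op (Lb V) C :=
  if h : ∃ p : Sym2 V × Sym2 V, Two E v p.1 p.2 then D.join h.choose.1 h.choose.2 v else 1

noncomputable def dec (a : ℂ) (v : V) : Op (Lb V) C := cc a (D.cab (D.dw v)) ^ D.dj v

open Classical in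
noncomputable def evop (a : ℂ) (E : Set (Sym2 V)) : Ev V → Op (Lb V) C
  | .inl v => if ∃ e ∈ E, v ∈ e then D.vop E v * D.dec a v else 1
  | .inr p => if p.1 ∈ E ∧ p.2 ∈ E then D.xop a p.1 p.2 else 1

noncomputable def run (a : ℂ) (E : Set (Sym2 V)) (l : List (Ev V)) : Op (Lb V) C :=
  (l.map (D.evop a E)).prod

open Classical in
/-- the state sum -/
noncomputable def br (C : Type) [Fintype C] [DecidableEq C] [Inhabited C] (a : ℂ)
    (E : Set (Sym2 V)) : ℂ :=
  if h : ∃ l, Srt D.lev (D.IsEv E) l then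
    D.run (C := C) a E h.choose (fun _ => 1) (fun _ => default) else 0

/-- the loops inserted at a vertex sit on an edge going up from it -/
def DecOK (E : Set (Sym2 V)) : Prop :=
  ∀ v, (∃ e ∈ E, v ∈ e) → D.dj v ≠ 0 → D.dw v ∈ E ∧ v ∈ D.dw v ∧ D.y v = D.lo (D.dw v)

variable {D}

omit [DecidableEq V] in
theorem mem_cab {e : Sym2 V} {k : Lb V} : k ∈ D.cab e ↔ k.1 = e ∧ k.2 < D.th e := by
  obtain ⟨k1, k2⟩ := k
  simp only [cab, List.mem_map, List.mem_range, Prod.mk.injEq]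
  grind

omit [DecidableEq V] in
theorem cab_nodup (e : Sym2 V) : (D.cab e).Nodup :=
  List.nodup_range.map fun _ _ h => (Prod.mk.inj h).2

omit [DecidableEq V] in
theorem cab_length (e : Sym2 V) : (D.cab e).length = D.th e := by simp [cab]

omit [DecidableEq V] in
theorem cab_one {e : Sym2 V} (h : D.th e = 1) : D.cab e = [(e, 0)] := by simp [cab, h]

omit [DecidableEq V] in
theorem cab_nodup2 {e f : Sym2 V} (h : e ≠ f) : (D.cab e ++ D.cab f).Nodup := by
  rw [List.nodup_append]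
  refine ⟨cab_nodup _, cab_nodup _, fun a ha b hb => ?_⟩
  rw [mem_cab] at ha hb
  grind

theorem join_symm {e f : Sym2 V} (h : e ≠ f) (ht : D.th e = D.th f) (v : V) :
    (D.join e f v : Op (Lb V) C) = D.join f e v :=
  joinL_symm (by simp [cab_length, ht]) (cab_nodup2 h) _ _

theorem vop_eq {E : Set (Sym2 V)} {v : V} {e f : Sym2 V} (h : Two E v e f)
    (ht : D.th e = D.th f) : (D.vop E v : Op (Lb V) C) = D.join e f v := by
  have h' : ∃ p : Sym2 V × Sym2 V, Two E v p.1 p.2 := ⟨(e, f), h⟩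
  rw [vop, dif_pos h']
  rcases h.cases h'.choose_spec with ⟨h1, h2⟩ | ⟨h1, h2⟩
  · rw [h1, h2]
  · rw [h1, h2, join_symm h.1 ht]

theorem join_loc (e f : Sym2 V) (v : V) :
    (D.join e f v : Op (Lb V) C) ∈ loc {k | k.1 = e ∨ k.1 = f} :=
  loc_mono (fun k hk => by simp only [Set.mem_ofPred_eq, mem_cab] at hk ⊢; tauto) (joinL_loc _ _ _ _)

theorem xop_loc (a : ℂ) (e f : Sym2 V) :
    (D.xop a e f : Op (Lb V) C) ∈ loc {k | k.1 = e ∨ k.1 = f} :=
  Subalgebra.smul_mem _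
    (loc_mono (fun k hk => by simp only [Set.mem_ofPred_eq, mem_cab] at hk ⊢; tauto)
      (xx_loc _ _ _)) _

theorem cc_cab_loc (a : ℂ) (e : Sym2 V) : (cc a (D.cab e) : Op (Lb V) C) ∈ loc {k | k.1 = e} :=
  loc_mono (fun k hk => by simp only [Set.mem_ofPred_eq, mem_cab] at hk ⊢; tauto) (cc_loc _ _)

theorem dec_loc (a : ℂ) (v : V) :
    (D.dec a v : Op (Lb V) C) ∈ loc {k | D.dj v ≠ 0 ∧ k.1 = D.dw v} := by
  by_cases h : D.dj v = 0
  · rw [dec, h, pow_zero]; exact one_mem _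
  · refine Subalgebra.pow_mem _ ?_ _
    exact mem_loc_mono (cc_cab_loc a _) fun k hk => ⟨h, hk⟩

theorem vop_loc (E : Set (Sym2 V)) (v : V) :
    (D.vop E v : Op (Lb V) C) ∈ loc {k | k.1 ∈ E ∧ v ∈ k.1} := by
  rw [vop]
  split_ifs with h
  · exact loc_mono (fun k hk => (h.choose_spec.2 k.1).2 hk) (join_loc _ _ _)
  · exact one_mem _

theorem evop_loc (a : ℂ) {E : Set (Sym2 V)} (hd : D.DecOK E) (x : Ev V) :
    (D.evop a E x : Op (Lb V) C) ∈ loc {k | k.1 ∈ E ∧ Invo x k.1} := by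
  cases x with
  | inl v =>
    rw [evop]
    split_ifs with h
    · refine mul_mem (vop_loc E v) (loc_mono (fun k hk => ?_) (dec_loc a v))
      have := hd v h hk.1
      rw [← hk.2] at this
      exact ⟨this.1, this.2.1⟩
    · exact one_mem _
  | inr p =>
    rw [evop]
    split_ifs with h
    · refine mem_loc_mono (xop_loc a _ _) fun k hk => ⟨?_, hk⟩
      rcases hk with hk | hk <;> rw [hk]
      exacts [h.1, h.2]
    · exact one_mem _

theorem run_loc (a : ℂ) {E : Set (Sym2 V)} (hd : D.DecOK E) (l : List (Ev V)) :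
    (D.run a E l : Op (Lb V) C) ∈ loc {k | k.1 ∈ E ∧ ∃ x ∈ l, Invo x k.1} := by
  refine list_prod_mem fun X hX => ?_
  obtain ⟨x, hx, rfl⟩ := List.mem_map.1 hX
  exact mem_loc_mono (evop_loc a hd x) fun k hk => ⟨hk.1, x, hx, hk.2⟩

@[simp] theorem run_nil (a : ℂ) (E : Set (Sym2 V)) (F : Fn (Lb V) C) : D.run a E [] F = F := rfl

@[simp] theorem run_cons (a : ℂ) (E : Set (Sym2 V)) (x : Ev V) (l : List (Ev V))
    (F : Fn (Lb V) C) : D.run a E (x :: l) F = D.evop a E x (D.run a E l F) := rfl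

@[simp] theorem run_append (a : ℂ) (E : Set (Sym2 V)) (l m : List (Ev V))
    (F : Fn (Lb V) C) : D.run a E (l ++ m) F = D.run a E l (D.run a E m F) := by simp [run]

theorem evop_of_not {a : ℂ} {E Γ : Set (Sym2 V)} {x : Ev V} (h1 : D.IsEv Γ x) (h2 : ¬ D.IsEv E x) :
    (D.evop a E x : Op (Lb V) C) = 1 := by
  cases x with
  | inl v => rw [evop]; exact if_neg h2
  | inr p => rw [evop, if_neg fun h => h2 ⟨h.1, h.2, h1.2.2⟩]

open Classical in
theorem run_filter {a : ℂ} {E Γ : Set (Sym2 V)} {l : List (Ev V)} (hl : ∀ x ∈ l, D.IsEv Γ x)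
    (F : Fn (Lb V) C) :
    D.run a E (l.filter fun x => decide (D.IsEv E x)) F = D.run a E l F := by
  induction l with
  | nil => rfl
  | cons x l ih =>
    have ih' := ih fun y hy => hl y (List.mem_cons_of_mem _ hy)
    by_cases h : D.IsEv E x
    · simp [h, ih']
    · simp [h, ih', evop_of_not (hl x List.mem_cons_self) h]

theorem br_eq [Inhabited C] {a : ℂ} {E Γ : Set (Sym2 V)} (hE : E ⊆ Γ) {l : List (Ev V)}
    (hl : Srt D.lev (D.IsEv Γ) l) :
    D.br C a E = D.run (C := C) a E l (fun _ => 1) (fun _ => default) := by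
  classical
  have h1 : Srt D.lev (D.IsEv E) (l.filter fun x => decide (D.IsEv E x)) :=
    (hl.filter _).congr fun x => ⟨fun h => h.2, fun h => ⟨h.mono hE, h⟩⟩
  have h : ∃ l, Srt D.lev (D.IsEv E) l := ⟨_, h1⟩
  rw [br, dif_pos h, h.choose_spec.unique h1, run_filter fun x hx => (hl.mem x).1 hx]

omit [DecidableEq V] in
theorem exists_evlist {Γ : Set (Sym2 V)} (hg : D.Gen Γ) : ∃ l, Srt D.lev (D.IsEv Γ) l :=
  exists_srt _ _ (Geo.finite_ev hg.fin) hg.g3

end Dat

end Pool.Agent.P.MP_382f0d_gt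

/-! Algebraic identities for the events met by the moving horizontal strand. -/

namespace Pool.Agent.P.MP_382f0d_gt

variable {ι C : Type} [DecidableEq ι] [Fintype C] [DecidableEq C]

theorem jn_comp {s m t : ι} (hmt : m ≠ t) (hst : s ≠ t) (α β : Bool) {F : Fn ι C} (hF : Ind m F) :
    jn s m α false (jn m t true β F) = jn s t α β F := by
  cases α <;> cases β <;> simp only [jn]
  · exact cup_cpy hmt hF
  · exact cup_cap hst hmt hF
  · exact cpy_cpy hmt hF
  · exact cpy_cap hmt hF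

theorem jn_loop {s t : ι} {F : Fn ι C} (hs : Ind s F) (ht : Ind t F) :
    jn s t false false (jn s t true true F) = (Fintype.card C : ℂ) • F := by
  simp only [jn]
  rw [cup_cap_self, cup_ind hs ht]

theorem kink_cup {a : ℂ} (ha : Good C a) (ε : Bool) (i j : ι) (F : Fn ι C) :
    cup i j (rr (pm a ε)⁻¹ i j F) = kap a ^ sgn ε • cup i j F := by
  rw [cup_rr_self (ha.pm ε).inv]
  have := ha.ne
  cases ε <;> simp [pm, kap, sgn, inv_neg]

theorem kink_cap {a : ℂ} (ha : Good C a) (ε : Bool) {i j : ι} {F : Fn ι C} (hi : Ind i F)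
    (hj : Ind j F) : rr (pm a ε)⁻¹ i j (cap i j F) = kap a ^ sgn ε • cap i j F := by
  rw [rr_cap_self (ha.pm ε).inv hi hj]
  have := ha.ne
  cases ε <;> simp [pm, kap, sgn, inv_neg]

section
variable {a : ℂ} {o p q f : ι}

/-! bottom vertex -/

theorem u_BB (hoq : o ≠ q) (hpq : p ≠ q) {F : Fn ι C} (ho : Ind o F) (hp : Ind p F)
    (hq : Ind q F) :
    (Fintype.card C : ℂ) • F = jn p q false false (jn p o true false (jn o q true true F)) := by
  rw [jn_comp hoq hpq _ _ ho, jn_loop hp hq]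

theorem u_AA (hoq : o ≠ q) (hpq : p ≠ q) {F : Fn ι C} (ho : Ind o F) :
    jn p q false false F = jn p o false false (jn o q true false F) := by
  rw [jn_comp hoq hpq _ _ ho]

theorem u_AB (hoq : o ≠ q) (hpq : p ≠ q) (hfp : f ≠ p) (φ : Bool) {F : Fn ι C} (ho : Ind o F)
    (hq : Ind q F) :
    jn f p φ false F = jn f q φ false (jn p o false false (jn o q true true F)) := by
  rw [jn_comp hoq hpq _ _ ho, jn_symm p q, jn_comp hpq.symm hfp _ _ hq]

theorem u_BA (hoq : o ≠ q) (hpq : p ≠ q) (hfq : f ≠ q) (φ : Bool) {F : Fn ι C} (ho : Ind o F)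
    (hp : Ind p F) :
    jn f q φ false F = jn f p φ false (jn p o true false (jn o q true false F)) := by
  rw [jn_comp hoq hpq _ _ ho, jn_comp hpq hfq _ _ hp]

theorem u_AB_in (ha : Good C a) (ε : Bool) (hoq : o ≠ q) (hpq : p ≠ q) (hfp : f ≠ p)
    (hfq : f ≠ q) (hof : o ≠ f) {F : Fn ι C} (ho : Ind o F) (hq : Ind q F) :
    kap a ^ sgn ε • jn f p false false F =
      jn f q false false (jn p o false false (rr (pm a ε) o f (jn o q true true F))) := by
  rw [u_AB hoq hpq hfp false ho hq]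
  simp only [jn]
  rw [rr_cap _ hoq.symm hof hfq.symm hq ho, loc_comm (cup_loc p o) (rr_loc _ _ _) (by grind),
    rr_symm _ q f, kink_cup ha]

theorem u_BA_in (ha : Good C a) (ε : Bool) (hop : o ≠ p) (hoq : o ≠ q) (hpq : p ≠ q) (hfp : f ≠ p)
    (hfq : f ≠ q) (hof : o ≠ f) {F : Fn ι C} (ho : Ind o F) (hp : Ind p F) :
    kap a ^ (-sgn ε) • jn f q false false F =
      jn f p false false (jn p o true false (rr (pm a ε) o f (jn o q true false F))) := by
  rw [u_BA hoq hpq hfq false ho hp]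
  simp only [jn]
  rw [cpy_rr _ hof hfp.symm (hp.loc (cpy_loc _ _) (by grind)), rr_symm _ p f]
  have := kink_cup ha (!ε) f p (cpy p o (cpy o q F))
  rw [pm_not, inv_inv] at this
  rw [this]
  cases ε <;> simp [sgn]

/-! top vertex -/

theorem w_BB (hoq : o ≠ q) (hpq : p ≠ q) {F : Fn ι C} (ho : Ind o F) :
    jn p o true false (jn o q true true F) = jn p q true true F := jn_comp hoq hpq _ _ ho

theorem w_AA (hoq : o ≠ q) (hpq : p ≠ q) (hop : o ≠ p) {F : Fn ι C} (ho : Ind o F) (hp : Ind p F)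
    (hq : Ind q F) : jn p o false false (jn o q true false (jn p q true true F)) =
      (Fintype.card C : ℂ) • F := by
  rw [jn_comp hoq hpq _ _ (ho.loc (jn_loc _ _ _ _) (by grind)), jn_loop hp hq]

theorem w_AB (hoq : o ≠ q) (hpq : p ≠ q) (hop : o ≠ p) (hof : o ≠ f) (hfp : f ≠ p) (hfq : f ≠ q)
    (φ : Bool) {F : Fn ι C} (ho : Ind o F) (hp : Ind p F) :
    jn p o false false (jn o q true true (jn p f true φ F)) = jn q f true φ F := by
  rw [jn_comp hoq hpq _ _ (ho.loc (jn_loc _ _ _ _) (by grind)), jn_symm p q,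
    jn_comp hfp.symm hfq.symm _ _ hp]

theorem w_BA (hoq : o ≠ q) (hpq : p ≠ q) (hof : o ≠ f) (hfp : f ≠ p) (hfq : f ≠ q)
    (φ : Bool) {F : Fn ι C} (ho : Ind o F) (hq : Ind q F) :
    jn p o true false (jn o q true false (jn q f true φ F)) = jn p f true φ F := by
  rw [jn_comp hoq hpq _ _ (ho.loc (jn_loc _ _ _ _) (by grind)), jn_comp hfq.symm hfp.symm _ _ hq]

theorem w_AB_in (ha : Good C a) (ε : Bool) (hoq : o ≠ q) (hpq : p ≠ q) (hop : o ≠ p) (hof : o ≠ f)
    (hfp : f ≠ p) (hfq : f ≠ q) {F : Fn ι C} (ho : Ind o F) (hp : Ind p F) (hf : Ind f F) :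
    jn p o false false (rr (pm a ε) o f (jn o q true true (jn p f true true F))) =
      kap a ^ sgn ε • jn q f true true F := by
  rw [← w_AB hoq hpq hop hof hfp hfq true ho hp]
  simp only [jn]
  rw [cup_rr _ hop.symm hof hfp.symm, loc_comm (rr_loc _ p f) (cap_loc o q) (by grind),
    kink_cap ha ε hp hf, map_smul, map_smul]

theorem w_BA_in (ha : Good C a) (ε : Bool) (hoq : o ≠ q) (hpq : p ≠ q) (hof : o ≠ f)
    (hfp : f ≠ p) (hfq : f ≠ q) {F : Fn ι C} (ho : Ind o F) (hq : Ind q F) (hf : Ind f F) :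
    jn p o true false (rr (pm a ε) o f (jn o q true false (jn q f true true F))) =
      kap a ^ (-sgn ε) • jn p f true true F := by
  rw [← w_BA hoq hpq hof hfp hfq true ho hq]
  simp only [jn]
  rw [← cpy_rr _ hfq.symm hof (ho.loc (cap_loc _ _) (by grind))]
  have := kink_cap ha (!ε) hq hf
  rw [pm_not, inv_inv] at this
  rw [this, map_smul, map_smul]
  cases ε <;> simp [sgn]

/-! middle vertex on the left: `p` is the lower side, `q` the upper side -/

theorem vl_BB (hop : o ≠ p) (hoq : o ≠ q) {G : Fn ι C} (hq : Ind q G) :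
    jn p o true false G = jn p q true false (jn q o true false G) :=
  (jn_comp hoq.symm hop.symm _ _ hq).symm

theorem vl_AA (hpq : p ≠ q) (hoq : o ≠ q) {G : Fn ι C} (hp : Ind p G) :
    jn p o false false (jn p q true false G) = jn q o false false G := by
  rw [jn_symm p o, jn_comp hpq hoq _ _ hp, jn_symm]

theorem vl_AB (hoq : o ≠ q) (hof : o ≠ f) (hfp : f ≠ p) (φ : Bool) {G : Fn ι C} (hp : Ind p G)
    (hq : Ind q G) :
    jn p o false false (jn p f true φ G) = jn f q φ false (jn q o true false G) := by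
  rw [jn_symm p o, jn_comp hfp.symm hof _ _ hp, jn_comp hoq.symm hof.symm _ _ hq, jn_symm]

theorem vl_AB_up (ha : Good C a) (ε : Bool) (hoq : o ≠ q) (hof : o ≠ f) (hfp : f ≠ p)
    (hfq : f ≠ q) {G : Fn ι C} (hp : Ind p G) (hq : Ind q G) :
    kap a ^ (-sgn ε) • jn p o false false (jn p f true false G) =
      jn f q false false (jn q o true false (rr (pm a ε) o f G)) := by
  rw [vl_AB hoq hof hfp false hp hq]
  simp only [jn]
  rw [cpy_rr _ hof hfq.symm hq, rr_symm _ q f]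
  have := kink_cup ha (!ε) f q (cpy q o G)
  rw [pm_not, inv_inv] at this
  rw [this]
  cases ε <;> simp [sgn]

theorem vl_AB_down (ha : Good C a) (ε : Bool) (hop : o ≠ p) (hoq : o ≠ q) (hof : o ≠ f)
    (hfp : f ≠ p) {G : Fn ι C} (hp : Ind p G) (hq : Ind q G) (hf : Ind f G) :
    jn p o false false (rr (pm a ε) o f (jn p f true true G)) =
      kap a ^ sgn ε • jn f q true false (jn q o true false G) := by
  rw [← vl_AB hoq hof hfp true hp hq]
  simp only [jn]
  rw [cup_rr _ hop.symm hof hfp.symm, kink_cap ha ε hp hf, map_smul]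

/-! middle vertex on the right -/

theorem vr_BB (hop : o ≠ p) (hoq : o ≠ q) {F : Fn ι C} (hq : Ind q F) :
    jn o p true true F = jn p q true false (jn o q true true F) := by
  rw [jn_symm o q, jn_comp hoq.symm hop.symm _ _ hq, jn_symm]

theorem vr_AA (hpq : p ≠ q) (hoq : o ≠ q) {F : Fn ι C} (hp : Ind p F) :
    jn o p true false (jn p q true false F) = jn o q true false F := jn_comp hpq hoq _ _ hp

theorem vr_AB (hoq : o ≠ q) (hof : o ≠ f) (hfp : f ≠ p) (φ : Bool) {F : Fn ι C} (hp : Ind p F)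
    (hq : Ind q F) :
    jn o p true false (jn p f true φ F) = jn f q φ false (jn o q true true F) := by
  rw [jn_comp hfp.symm hof _ _ hp, jn_symm o q, jn_comp hoq.symm hof.symm _ _ hq, jn_symm]

theorem vr_AB_up (ha : Good C a) (ε : Bool) (hoq : o ≠ q) (hof : o ≠ f) (hfp : f ≠ p)
    (hfq : f ≠ q) {F : Fn ι C} (ho : Ind o F) (hp : Ind p F) (hq : Ind q F) :
    kap a ^ sgn ε • jn o p true false (jn p f true false F) =
      jn f q false false (rr (pm a ε) o f (jn o q true true F)) := by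
  rw [vr_AB hoq hof hfp false hp hq]
  simp only [jn]
  rw [rr_cap _ hoq.symm hof hfq.symm hq ho, rr_symm _ q f, kink_cup ha]

theorem vr_AB_down (ha : Good C a) (ε : Bool) (hop : o ≠ p) (hoq : o ≠ q) (hof : o ≠ f)
    (hfp : f ≠ p) {F : Fn ι C} (ho : Ind o F) (hp : Ind p F) (hq : Ind q F) (hf : Ind f F) :
    rr (pm a ε) o f (jn o p true false (jn p f true true F)) =
      kap a ^ (-sgn ε) • jn f q true false (jn o q true true F) := by
  rw [← vr_AB hoq hof hfp true hp hq]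
  simp only [jn]
  rw [← cpy_rr _ hfp.symm hof (ho.loc (cap_loc _ _) (by grind))]
  have := kink_cap ha (!ε) hp hf
  rw [pm_not, inv_inv] at this
  rw [this, map_smul]
  cases ε <;> simp [sgn]

/-! an edge crosses the left side `p` -/

variable {l : List ι}

theorem l_B_enter (ha : Good C a) (hn : (o :: p :: l).Nodup) {G : Fn ι C} (hp : Ind p G) :
    jn p o true false G = xx a⁻¹ l [p] (jn p o true false (tt a o l G)) := by
  simp only [List.nodup_cons, List.mem_cons] at hn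
  simp only [jn]
  rw [xx_single_right, cpy_tt a (by grind) (by grind) (by grind) hp, tt_inv' ha]

theorem l_B_exit (hn : (o :: p :: l).Nodup) {G : Fn ι C} (hp : Ind p G) :
    jn p o true false (tt a o l G) = xx a [p] l (jn p o true false G) := by
  simp only [List.nodup_cons, List.mem_cons] at hn
  simp only [jn]
  rw [xx_single_left, cpy_tt a (by grind) (by grind) (by grind) hp]

theorem l_A_enter (hn : (o :: p :: l).Nodup) (G : Fn ι C) :
    jn p o false false (xx a⁻¹ l [p] G) = jn p o false false (tt a o l G) := by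
  simp only [List.nodup_cons, List.mem_cons] at hn
  simp only [jn]
  rw [xx_single_right, cup_tt a (by grind) (by grind) (by grind) (by grind)]

theorem l_A_exit (ha : Good C a) (hn : (o :: p :: l).Nodup) (G : Fn ι C) :
    jn p o false false (tt a o l (xx a [p] l G)) = jn p o false false G := by
  simp only [List.nodup_cons, List.mem_cons] at hn
  simp only [jn]
  rw [xx_single_left, cup_tt a (by grind) (by grind) (by grind) (by grind), tt_inv' ha]

/-! an edge crosses the right side `p` -/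

theorem r_B_enter (ha : Good C a) (hn : (o :: p :: l).Nodup) {F : Fn ι C} (ho : Ind o F)
    (hp : Ind p F) : jn o p true true F = xx a [p] l (tt a o l (jn o p true true F)) := by
  simp only [List.nodup_cons, List.mem_cons] at hn
  simp only [jn]
  rw [xx_single_left, tt_cap a (by grind) (by grind) (by grind) (by grind) hp ho, tt_inv ha]

theorem r_B_exit (hn : (o :: p :: l).Nodup) {F : Fn ι C} (ho : Ind o F)
    (hp : Ind p F) : tt a o l (jn o p true true F) = xx a⁻¹ l [p] (jn o p true true F) := by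
  simp only [List.nodup_cons, List.mem_cons] at hn
  simp only [jn]
  rw [xx_single_right, tt_cap a (by grind) (by grind) (by grind) (by grind) hp ho]

theorem r_A_enter (hn : (o :: p :: l).Nodup) {F : Fn ι C} (ho : Ind o F) :
    jn o p true false (xx a [p] l F) = tt a o l (jn o p true false F) := by
  simp only [List.nodup_cons, List.mem_cons] at hn
  simp only [jn]
  rw [xx_single_left, cpy_tt a (by grind) (by grind) (by grind) ho]

theorem r_A_exit (ha : Good C a) (hn : (o :: p :: l).Nodup) {F : Fn ι C} (ho : Ind o F) :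
    tt a o l (jn o p true false (xx a⁻¹ l [p] F)) = jn o p true false F := by
  simp only [List.nodup_cons, List.mem_cons] at hn
  simp only [jn]
  rw [xx_single_right, cpy_tt a⁻¹ (by simp; grind) (by simp; grind) (by grind) ho, tt_inv ha]

/-! a vertex inside the triangle -/

variable {m : List ι}

theorem in_min (ha : Good C a) (hlen : l.length = m.length) (hn : (o :: (l ++ m)).Nodup)
    (G : Fn ι C) : joinL l m false false G = joinL l m false false (tt a o l (tt a o m G)) := by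
  have h := cupP_tt_tt ha (o := o) (nodup_lab_zip_rev hlen hn.of_cons)
    (fun h => by have := mem_lab_zip h; simp at hn this; grind) G
  rw [List.map_snd_zip (by simp [hlen]), List.map_fst_zip (by simp [hlen]),
    List.reverse_reverse] at h
  exact h.symm

theorem in_max (ha : Good C a) (hlen : l.length = m.length) (hn : (o :: (l ++ m)).Nodup)
    {G : Fn ι C} (hG : ∀ k, k ∈ l ∨ k ∈ m → Ind k G) :
    tt a o l (tt a o m (joinL l m true true G)) = joinL l m true true G := by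
  have h := tt_tt_capP ha (o := o) (nodup_lab_zip_rev hlen hn.of_cons)
    (fun h => by have := mem_lab_zip h; simp at hn this; grind)
    (F := G) (fun k hk => hG k (by simpa using mem_lab_zip hk))
  rw [List.map_snd_zip (by simp [hlen]), List.map_fst_zip (by simp [hlen]),
    List.reverse_reverse] at h
  exact h

theorem in_mono (hlen : l.length = m.length) (hn : (o :: (l ++ m)).Nodup)
    {G : Fn ι C} (hG : ∀ k ∈ l, Ind k G) :
    tt a o l (joinL l m true false G) = joinL l m true false (tt a o m G) := by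
  have h := tt_cpyP a (o := o) (ps := l.zip m) (by rw [lab_zip hlen]; exact hn.of_cons)
    (fun h => by have := mem_lab_zip h; simp at hn this; grind)
    (F := G) (by rw [List.map_fst_zip hlen.le]; exact hG)
  rw [List.map_snd_zip hlen.ge, List.map_fst_zip hlen.le] at h
  exact h

end

end Pool.Agent.P.MP_382f0d_gt

/-! Two diagrams that differ by the sides of a triangle: set-up and geometry of the triangle. -/

namespace Pool.Agent.P.MP_382f0d_gt

variable {V : Type}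

/-- the point `(p, t, h)` lies in the triangle `u v w` -/
def Geo.InT (g : Geo V) (u v w : V) (p t h : ℝ) : Prop :=
  ∃ α β γ : ℝ, 0 ≤ α ∧ 0 ≤ β ∧ 0 ≤ γ ∧ α + β + γ = 1 ∧ p = α * g.x u + β * g.x v + γ * g.x w ∧
    t = α * g.y u + β * g.y v + γ * g.y w ∧ h = α * g.z u + β * g.z v + γ * g.z w

theorem Geo.InT.between {g : Geo V} {u v w : V} {p₁ p₂ p t h₁ h₂ : ℝ} (k₁ : g.InT u v w p₁ t h₁)
    (k₂ : g.InT u v w p₂ t h₂) (h1 : p₁ < p) (h2 : p < p₂) : ∃ h, g.InT u v w p t h := by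
  obtain ⟨a1, b1, c1, ha1, hb1, hc1, s1, e1, f1, -⟩ := k₁
  obtain ⟨a2, b2, c2, ha2, hb2, hc2, s2, e2, f2, -⟩ := k₂
  have hd : 0 < p₂ - p₁ := by linarith
  set r := (p - p₁) / (p₂ - p₁) with hr
  have r0 : 0 ≤ r := div_nonneg (by linarith) hd.le
  have r1 : 0 ≤ 1 - r := sub_nonneg.2 ((div_le_one hd).2 (by linarith))
  have hp : p = (1 - r) * p₁ + r * p₂ := by rw [hr]; field_simp; ring
  refine ⟨_, (1 - r) * a1 + r * a2, (1 - r) * b1 + r * b2, (1 - r) * c1 + r * c2, by positivity,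
    by positivity, by positivity, by linear_combination (1 - r) * s1 + r * s2, ?_, ?_, rfl⟩
  · rw [hp]; linear_combination (1 - r) * e1 + r * e2
  · linear_combination (1 - r) * f1 + r * f2

theorem Geo.bary {g : Geo V} {p q : V} (h : g.y p < g.y q) {t : ℝ} (h1 : g.y p ≤ t)
    (h2 : t ≤ g.y q) : ∃ α β : ℝ, 0 ≤ α ∧ 0 ≤ β ∧ α + β = 1 ∧ t = α * g.y p + β * g.y q ∧
      ∀ f : V → ℝ, g.val f s(p, q) t = α * f p + β * f q := by
  have hd : 0 < g.y q - g.y p := by linarith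
  refine ⟨(g.y q - t) / (g.y q - g.y p), (t - g.y p) / (g.y q - g.y p),
    div_nonneg (by linarith) hd.le, div_nonneg (by linarith) hd.le, by field_simp; ring,
    by field_simp; ring, fun f => ?_⟩
  simp only [Geo.val, Geo.icp, Geo.slp, Sym2.lift_mk]
  field_simp
  ring

noncomputable def Dat.tau (D : Dat V) (e : Sym2 V) (x : V) : ℤ := sgn (D.top e x)

/-- every vertex has two edges, of the same thickness, and the weights `om` are coherent -/
def Dat.Reg (D : Dat V) (om : Sym2 V → ℤ) (E : Set (Sym2 V)) : Prop :=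
  ∀ x, (∃ e ∈ E, x ∈ e) → ∃ e f, Two E x e f ∧ D.th e = D.th f ∧
    om e * D.tau e x + om f * D.tau f x = 0

theorem Dat.Reg.two {D : Dat V} {om : Sym2 V → ℤ} {E : Set (Sym2 V)} (h : D.Reg om E) {x : V}
    {e f : Sym2 V} (he : e ∈ E) (hf : f ∈ E) (hxe : x ∈ e) (hxf : x ∈ f) (hef : e ≠ f) :
    Two E x e f ∧ D.th e = D.th f ∧ om e * D.tau e x + om f * D.tau f x = 0 := by
  obtain ⟨e', f', h1, h2, h3⟩ := h x ⟨e, he, hxe⟩
  have k1 := (h1.2 e).1 ⟨he, hxe⟩
  have k2 := (h1.2 f).1 ⟨hf, hxf⟩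
  rcases k1 with rfl | rfl <;> rcases k2 with rfl | rfl
  · exact absurd rfl hef
  · exact ⟨h1, h2, h3⟩
  · exact ⟨h1.symm, h2.symm, by linarith⟩
  · exact absurd rfl hef

theorem Dat.Reg.other {D : Dat V} {om : Sym2 V → ℤ} {E : Set (Sym2 V)} (h : D.Reg om E) {x : V}
    {e : Sym2 V} (he : e ∈ E) (hxe : x ∈ e) :
    ∃ f, Two E x e f ∧ D.th e = D.th f ∧ om e * D.tau e x + om f * D.tau f x = 0 := by
  obtain ⟨e', f', h1, h2, h3⟩ := h x ⟨e, he, hxe⟩
  rcases (h1.2 e).1 ⟨he, hxe⟩ with rfl | rfl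
  · exact ⟨f', h1, h2, h3⟩
  · exact ⟨e', h1.symm, h2.symm, by linarith⟩

theorem Dat.top_hi {D : Dat V} {e : Sym2 V} {x : V} (h : D.y x = D.hi e) : D.top e x = true := by
  simp [Dat.top, h]

theorem Dat.top_lo {D : Dat V} {e : Sym2 V} {x : V} (h : D.y x < D.hi e) : D.top e x = false := by
  simp [Dat.top, h.ne]

structure Setup (V : Type) where
  D : Dat V
  A : Set (Sym2 V)
  B : Set (Sym2 V)
  R : Set (Sym2 V)
  u : V
  v : V
  w : V
  om : Sym2 V → ℤ

namespace Setup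

variable (S : Setup V)

def Side (e : Sym2 V) : Prop := e = s(S.u, S.w) ∨ e = s(S.u, S.v) ∨ e = s(S.v, S.w)

def G : Set (Sym2 V) := {e | e ∈ S.R ∨ S.Side e}

structure OK : Prop where
  gen : S.D.Gen S.G
  huv : S.D.y S.u < S.D.y S.v
  hvw : S.D.y S.v < S.D.y S.w
  nR : ∀ e, S.Side e → e ∉ S.R
  RA : S.R ⊆ S.A
  RB : S.R ⊆ S.B
  AG : S.A ⊆ S.G
  BG : S.B ⊆ S.G
  xor : ∀ e, S.Side e → (e ∈ S.A ↔ e ∉ S.B)
  ok : s(S.v, S.w) ∈ S.A → s(S.u, S.v) ∈ S.A
  th1 : ∀ e, S.Side e → S.D.th e = 1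
  regA : S.D.Reg S.om S.A
  regB : S.D.Reg S.om S.B
  dec : ∀ x, (∃ e ∈ S.G, x ∈ e) → S.D.dj x ≠ 0 →
    S.D.dw x ∈ S.R ∧ x ∈ S.D.dw x ∧ S.D.y x = S.D.lo (S.D.dw x) ∧ x ≠ S.u ∧ x ≠ S.v ∧ x ≠ S.w
  mu : ∀ e, S.Side e → ∀ f ∈ S.R, S.D.mu e f = S.om e * S.om f ∧ S.D.mu f e = S.om e * S.om f
  unit : ∀ f ∈ S.R, S.u ∈ f ∨ S.v ∈ f ∨ S.w ∈ f → S.om f * S.om f = 1
  off : ∀ x, (∃ e ∈ S.G, x ∈ e) → x ≠ S.u → x ≠ S.v → x ≠ S.w → ∀ h,
    S.D.InT S.u S.v S.w (S.D.x x) (S.D.y x) h → S.D.z x ≠ h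

/-- the middle vertex is on the left of the long side -/
def vl : Prop := S.D.x S.v < S.D.X s(S.u, S.w) (S.D.y S.v)

open Classical in
noncomputable def sh (t : ℝ) : Sym2 V := if t < S.D.y S.v then s(S.u, S.v) else s(S.v, S.w)

open Classical in
noncomputable def lam (t : ℝ) : Sym2 V := if S.vl then S.sh t else s(S.u, S.w)

open Classical in
noncomputable def rho (t : ℝ) : Sym2 V := if S.vl then s(S.u, S.w) else S.sh t

open Classical in
noncomputable def bA (e : Sym2 V) : ℤ := if e ∈ S.A then -1 else 1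

open Classical in
noncomputable def o0 : ℤ := S.om s(S.u, S.w) * S.bA s(S.u, S.w) * if S.vl then -1 else 1

variable {S}

theorem side_l : S.Side s(S.u, S.w) := Or.inl rfl
theorem side_1 : S.Side s(S.u, S.v) := Or.inr (Or.inl rfl)
theorem side_2 : S.Side s(S.v, S.w) := Or.inr (Or.inr rfl)
theorem Side.mem {e : Sym2 V} (h : S.Side e) : e ∈ S.G := Or.inr h
theorem mem_G {e : Sym2 V} (h : e ∈ S.R) : e ∈ S.G := Or.inl h

theorem side_sh (t : ℝ) : S.Side (S.sh t) := by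
  unfold sh; split_ifs; exacts [side_1, side_2]
theorem side_lam (t : ℝ) : S.Side (S.lam t) := by
  unfold lam; split_ifs; exacts [side_sh t, side_l]
theorem side_rho (t : ℝ) : S.Side (S.rho t) := by
  unfold rho; split_ifs; exacts [side_l, side_sh t]

theorem sh_lt {t : ℝ} (h : t < S.D.y S.v) : S.sh t = s(S.u, S.v) := if_pos h
theorem sh_ge {t : ℝ} (h : S.D.y S.v ≤ t) : S.sh t = s(S.v, S.w) := if_neg h.not_gt

namespace OK

set_option linter.unusedSectionVars false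

variable (h : S.OK)
include h

theorem huw : S.D.y S.u < S.D.y S.w := h.huv.trans h.hvw
theorem uv : S.u ≠ S.v := fun e => by have := h.huv; rw [e] at this; exact lt_irrefl _ this
theorem vw : S.v ≠ S.w := fun e => by have := h.hvw; rw [e] at this; exact lt_irrefl _ this
theorem uw : S.u ≠ S.w := fun e => by have := h.huw; rw [e] at this; exact lt_irrefl _ this
theorem lo_l : S.D.lo s(S.u, S.w) = S.D.y S.u := by simp [h.huw.le]
theorem hi_l : S.D.hi s(S.u, S.w) = S.D.y S.w := by simp [h.huw.le]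
theorem lo_1 : S.D.lo s(S.u, S.v) = S.D.y S.u := by simp [h.huv.le]
theorem hi_1 : S.D.hi s(S.u, S.v) = S.D.y S.v := by simp [h.huv.le]
theorem lo_2 : S.D.lo s(S.v, S.w) = S.D.y S.v := by simp [h.hvw.le]
theorem hi_2 : S.D.hi s(S.v, S.w) = S.D.y S.w := by simp [h.hvw.le]
theorem l_ne_1 : s(S.u, S.w) ≠ s(S.u, S.v) := fun e => by
  have := h.hi_l; rw [e, h.hi_1] at this; exact h.hvw.ne this
theorem l_ne_2 : s(S.u, S.w) ≠ s(S.v, S.w) := fun e => by
  have := h.lo_l; rw [e, h.lo_2] at this; exact h.huv.ne' this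
theorem s1_ne_2 : s(S.u, S.v) ≠ s(S.v, S.w) := fun e => by
  have := h.lo_1; rw [e, h.lo_2] at this; exact h.huv.ne' this

theorem ev_u : S.D.IsEv S.G (.inl S.u) := ⟨_, side_l.mem, by simp⟩
theorem ev_v : S.D.IsEv S.G (.inl S.v) := ⟨_, side_1.mem, by simp⟩
theorem ev_w : S.D.IsEv S.G (.inl S.w) := ⟨_, side_l.mem, by simp⟩

theorem X_l (t : ℝ) : S.D.X s(S.u, S.w) t = S.D.x S.u + S.D.sl s(S.u, S.w) * (t - S.D.y S.u) := by
  rw [Geo.X_sub _ (S.D.y S.u), h.gen.X_end side_l.mem (by simp)]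
theorem X_l' (t : ℝ) : S.D.X s(S.u, S.w) t = S.D.x S.w + S.D.sl s(S.u, S.w) * (t - S.D.y S.w) := by
  rw [Geo.X_sub _ (S.D.y S.w), h.gen.X_end side_l.mem (by simp)]
theorem X_1 (t : ℝ) : S.D.X s(S.u, S.v) t = S.D.x S.u + S.D.sl s(S.u, S.v) * (t - S.D.y S.u) := by
  rw [Geo.X_sub _ (S.D.y S.u), h.gen.X_end side_1.mem (by simp)]
theorem X_2 (t : ℝ) : S.D.X s(S.v, S.w) t = S.D.x S.w + S.D.sl s(S.v, S.w) * (t - S.D.y S.w) := by
  rw [Geo.X_sub _ (S.D.y S.w), h.gen.X_end side_2.mem (by simp)]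
theorem X_1v : S.D.X s(S.u, S.v) (S.D.y S.v) = S.D.x S.v := h.gen.X_end side_1.mem (by simp)
theorem X_2v : S.D.X s(S.v, S.w) (S.D.y S.v) = S.D.x S.v := h.gen.X_end side_2.mem (by simp)

theorem not_vl (hv : ¬ S.vl) : S.D.X s(S.u, S.w) (S.D.y S.v) < S.D.x S.v := by
  refine lt_of_le_of_ne (not_lt.1 hv) (h.gen.g1 _ side_l.mem _ h.ev_v ?_ ?_ ?_)
  · simp [h.uv.symm, h.vw]
  · rw [h.lo_l]; exact h.huv.le
  · rw [h.hi_l]; exact h.hvw.le

theorem sl_vl (hv : S.vl) :
    S.D.sl s(S.u, S.v) < S.D.sl s(S.u, S.w) ∧ S.D.sl s(S.u, S.w) < S.D.sl s(S.v, S.w) := by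
  have h1 := h.X_l (S.D.y S.v)
  have h2 := h.X_l' (S.D.y S.v)
  have h3 := h.X_1 (S.D.y S.v)
  have h4 := h.X_2 (S.D.y S.v)
  rw [h.X_1v] at h3
  rw [h.X_2v] at h4
  have := h.huv
  have := h.hvw
  unfold vl at hv
  constructor <;> nlinarith

theorem sl_nvl (hv : ¬ S.vl) :
    S.D.sl s(S.u, S.w) < S.D.sl s(S.u, S.v) ∧ S.D.sl s(S.v, S.w) < S.D.sl s(S.u, S.w) := by
  have h1 := h.X_l (S.D.y S.v)
  have h2 := h.X_l' (S.D.y S.v)
  have h3 := h.X_1 (S.D.y S.v)
  have h4 := h.X_2 (S.D.y S.v)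
  rw [h.X_1v] at h3
  rw [h.X_2v] at h4
  have := h.huv
  have := h.hvw
  have := h.not_vl hv
  constructor <;> nlinarith

theorem lam_lt_rho' {t s : ℝ} (h1 : S.D.y S.u < t) (h2 : t < S.D.y S.w) :
    S.D.X (S.lam s) t < S.D.X (S.rho s) t := by
  unfold lam rho sh
  by_cases hv : S.vl
  · have := h.sl_vl hv
    simp only [hv, if_true]
    split_ifs
    · rw [h.X_l, h.X_1]; nlinarith
    · rw [h.X_l', h.X_2]; nlinarith
  · have := h.sl_nvl hv
    simp only [hv, if_false]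
    split_ifs
    · rw [h.X_l, h.X_1]; nlinarith
    · rw [h.X_l', h.X_2]; nlinarith

theorem lam_ne_rho (s t : ℝ) : S.lam s ≠ S.rho t := by
  have := h.l_ne_1
  have := h.l_ne_2
  unfold lam rho sh
  split_ifs <;> grind

theorem inT_side {e : Sym2 V} (he : S.Side e) {t : ℝ} (h1 : S.D.lo e ≤ t) (h2 : t ≤ S.D.hi e) :
    S.D.InT S.u S.v S.w (S.D.X e t) t (S.D.Z e t) := by
  rcases he with rfl | rfl | rfl
  · rw [h.lo_l] at h1; rw [h.hi_l] at h2
    obtain ⟨α, β, a0, b0, hs, ht, hf⟩ := Geo.bary h.huw h1 h2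
    exact ⟨α, 0, β, a0, le_rfl, b0, by linarith, by simp [Geo.X, hf], by simpa using ht,
      by simp [Geo.Z, hf]⟩
  · rw [h.lo_1] at h1; rw [h.hi_1] at h2
    obtain ⟨α, β, a0, b0, hs, ht, hf⟩ := Geo.bary h.huv h1 h2
    exact ⟨α, β, 0, a0, b0, le_rfl, by linarith, by simp [Geo.X, hf], by simpa using ht,
      by simp [Geo.Z, hf]⟩
  · rw [h.lo_2] at h1; rw [h.hi_2] at h2
    obtain ⟨α, β, a0, b0, hs, ht, hf⟩ := Geo.bary h.hvw h1 h2
    exact ⟨0, α, β, le_rfl, a0, b0, by linarith, by simp [Geo.X, hf], by simpa using ht,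
      by simp [Geo.Z, hf]⟩

theorem memA {e : Sym2 V} (he : e ∈ S.A) : e ∈ S.R ∨ S.Side e := h.AG he
theorem memB {e : Sym2 V} (he : e ∈ S.B) : e ∈ S.R ∨ S.Side e := h.BG he
theorem notB {e : Sym2 V} (hs : S.Side e) (he : e ∈ S.A) : e ∉ S.B := (h.xor e hs).1 he
theorem inB {e : Sym2 V} (hs : S.Side e) (he : e ∉ S.A) : e ∈ S.B := by
  have := h.xor e hs; tauto
theorem notA {e : Sym2 V} (hs : S.Side e) (he : e ∈ S.B) : e ∉ S.A := fun k => h.notB hs k he

theorem mixed {x : V} {p q : Sym2 V} (hp : S.Side p) (hq : S.Side q) (hpA : p ∈ S.A)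
    (hqA : q ∉ S.A) (hxp : x ∈ p) (hxq : x ∈ q) (hx : ∀ s, S.Side s → x ∈ s → s = p ∨ s = q) :
    ∃ f ∈ S.R, Two S.A x p f ∧ Two S.B x q f ∧ S.D.th f = 1 ∧
      S.om p * S.D.tau p x + S.om f * S.D.tau f x = 0 ∧
      S.om q * S.D.tau q x + S.om f * S.D.tau f x = 0 := by
  obtain ⟨f, h1, h2, h3⟩ := h.regA.other hpA hxp
  have hf : f ∈ S.R := by
    rcases h.memA h1.right.1 with k | k
    · exact k
    · rcases hx f k h1.right.2 with rfl | rfl
      · exact absurd rfl h1.1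
      · exact absurd h1.right.1 hqA
  obtain ⟨k1, -, k3⟩ := h.regB.two (h.inB hq hqA) (h.RB hf) hxq h1.right.2
    (fun e => h.nR q hq (e ▸ hf))
  exact ⟨f, hf, h1, k1, by rw [← h2, h.th1 p hp], h3, k3⟩

theorem bA_sq (e : Sym2 V) : S.bA e * S.bA e = 1 := by unfold bA; split_ifs <;> rfl

theorem om_pair {x : V} {p q : Sym2 V} (hp : S.Side p) (hq : S.Side q) (hpq : p ≠ q)
    (hxp : x ∈ p) (hxq : x ∈ q) (hx : ∀ s, S.Side s → x ∈ s → s = p ∨ s = q) :
    S.om p * S.bA p * S.D.tau p x + S.om q * S.bA q * S.D.tau q x = 0 := by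
  unfold bA
  by_cases a1 : p ∈ S.A <;> by_cases a2 : q ∈ S.A <;> simp only [a1, a2, if_true, if_false]
  · have := (h.regA.two a1 a2 hxp hxq hpq).2.2; linarith
  · obtain ⟨f, -, -, -, -, k1, k2⟩ := h.mixed hp hq a1 a2 hxp hxq hx; linarith
  · obtain ⟨f, -, -, -, -, k1, k2⟩ := h.mixed hq hp a2 a1 hxq hxp (fun s a b => (hx s a b).symm)
    linarith
  · have := (h.regB.two (h.inB hp a1) (h.inB hq a2) hxp hxq hpq).2.2; linarith

theorem at_u (s : Sym2 V) (hs : S.Side s) (hx : S.u ∈ s) : s = s(S.u, S.w) ∨ s = s(S.u, S.v) := by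
  have := h.uv; have := h.uw
  rcases hs with rfl | rfl | rfl <;> simp_all

theorem at_v (s : Sym2 V) (hs : S.Side s) (hx : S.v ∈ s) : s = s(S.u, S.v) ∨ s = s(S.v, S.w) := by
  have := h.uv.symm; have := h.vw
  rcases hs with rfl | rfl | rfl <;> simp_all

theorem at_w (s : Sym2 V) (hs : S.Side s) (hx : S.w ∈ s) : s = s(S.u, S.w) ∨ s = s(S.v, S.w) := by
  have := h.uw.symm; have := h.vw.symm
  rcases hs with rfl | rfl | rfl <;> simp_all

theorem om_sh (t : ℝ) :
    S.om (S.sh t) * S.bA (S.sh t) = -(S.om s(S.u, S.w) * S.bA s(S.u, S.w)) := by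
  unfold sh
  split_ifs
  · have := h.om_pair side_l side_1 h.l_ne_1 (x := S.u) (by simp) (by simp) h.at_u
    rw [Dat.tau, Dat.tau, Dat.top_lo (by rw [h.hi_l]; exact h.huw),
      Dat.top_lo (by rw [h.hi_1]; exact h.huv)] at this
    simp only [sgn, Bool.false_eq_true, if_false] at this
    linarith
  · have := h.om_pair side_l side_2 h.l_ne_2 (x := S.w) (by simp) (by simp) h.at_w
    rw [Dat.tau, Dat.tau, Dat.top_hi h.hi_l.symm, Dat.top_hi h.hi_2.symm] at this
    simp only [sgn, if_true] at this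
    linarith

theorem om_lam (t : ℝ) : S.om (S.lam t) = S.o0 * S.bA (S.lam t) := by
  have h1 := h.om_sh t
  have h2 := h.bA_sq (S.lam t)
  unfold lam o0 at *
  split_ifs at * with hv
  · linear_combination (S.bA (S.sh t)) * h1 - S.om (S.sh t) * h2
  · linear_combination (-S.om s(S.u, S.w)) * h2

theorem om_rho (t : ℝ) : S.om (S.rho t) = -S.o0 * S.bA (S.rho t) := by
  have h1 := h.om_sh t
  have h2 := h.bA_sq (S.rho t)
  unfold rho o0 at *
  split_ifs at * with hv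
  · linear_combination (-S.om s(S.u, S.w)) * h2
  · linear_combination (S.bA (S.sh t)) * h1 - S.om (S.sh t) * h2

theorem decA : S.D.DecOK S.A := fun x hx hj => by
  obtain ⟨e, he, hxe⟩ := hx
  obtain ⟨k1, k2, k3, -⟩ := h.dec x ⟨e, h.AG he, hxe⟩ hj
  exact ⟨h.RA k1, k2, k3⟩

theorem decB : S.D.DecOK S.B := fun x hx hj => by
  obtain ⟨e, he, hxe⟩ := hx
  obtain ⟨k1, k2, k3, -⟩ := h.dec x ⟨e, h.BG he, hxe⟩ hj
  exact ⟨h.RB k1, k2, k3⟩

theorem diag_not (x : V) : s(x, x) ∉ S.G := fun k => h.gen.nd _ k (by simp)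

theorem not_cross_sides {e f : Sym2 V} (he : S.Side e) (hf : S.Side f) : ¬ S.D.IsCross e f := by
  intro hc
  have hne := hc.ne
  obtain ⟨x, hxe, hxf⟩ : ∃ x, x ∈ e ∧ x ∈ f := by
    rcases he with rfl | rfl | rfl <;> rcases hf with rfl | rfl | rfl <;> simp
  have hl := Geo.lev_eq hc.1.ne ((h.gen.X_end he.mem hxe).trans (h.gen.X_end hf.mem hxf).symm)
  obtain ⟨-, h1, h2, -⟩ := hc
  rw [hl] at h1 h2
  rcases Geo.lo_or_hi (g := S.D.toGeo) hxe with k | k <;> linarith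

end OK

end Setup

end Pool.Agent.P.MP_382f0d_gt

/-! The list of edges crossing the moving horizontal strand just below or above an event. -/

namespace Pool.Agent.P.MP_382f0d_gt

variable {V : Type}

/-- no event other than `ev` has its level between that of `ev` and `t` -/
structure Geo.Near (g : Geo V) (E : Set (Sym2 V)) (ev : Ev V) (t : ℝ) : Prop where
  hev : g.IsEv E ev
  ne : t ≠ g.lev ev
  free : g.Free E (Set.uIcc (g.lev ev) t \ {g.lev ev})

theorem Geo.lev_inl (g : Geo V) (v : V) : g.lev (.inl v) = g.y v := rfl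

namespace Geo.Near

variable {g : Geo V} {E : Set (Sym2 V)} {ev : Ev V} {t : ℝ} (n : g.Near E ev t)
include n

theorem not_lev {b : Ev V} (hb : g.IsEv E b) : g.lev b ≠ t := fun e =>
  n.free b hb (by rw [e]; exact ⟨Set.right_mem_uIcc, n.ne⟩)

theorem alive_up (ht : g.lev ev < t) {e : Sym2 V} (he : e ∈ E) :
    (g.lo e < t ∧ t < g.hi e) ↔ (g.lo e ≤ g.lev ev ∧ g.lev ev < g.hi e) := by
  have h1 := n.free.lo he
  have h2 := n.free.hi he
  rw [Set.uIcc_of_le ht.le] at h1 h2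
  simp only [Set.mem_sdiff, Set.mem_Icc, Set.mem_singleton_iff] at h1 h2
  grind

theorem alive_down (ht : t < g.lev ev) {e : Sym2 V} (he : e ∈ E) :
    (g.lo e < t ∧ t < g.hi e) ↔ (g.lo e < g.lev ev ∧ g.lev ev ≤ g.hi e) := by
  have h1 := n.free.lo he
  have h2 := n.free.hi he
  rw [Set.uIcc_of_ge ht.le] at h1 h2
  simp only [Set.mem_sdiff, Set.mem_Icc, Set.mem_singleton_iff] at h1 h2
  grind

theorem alive {e : Sym2 V} (he : e ∈ E) (h : g.lo e < t ∧ t < g.hi e) :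
    g.lo e ≤ g.lev ev ∧ g.lev ev ≤ g.hi e := by
  rcases lt_or_gt_of_ne n.ne with k | k
  · have := (n.alive_down k he).1 h; exact ⟨this.1.le, this.2⟩
  · have := (n.alive_up k he).1 h; exact ⟨this.1, this.2.le⟩

theorem alive' {e : Sym2 V} (he : e ∈ E) (h : g.lo e < g.lev ev ∧ g.lev ev < g.hi e) :
    g.lo e < t ∧ t < g.hi e := by
  rcases lt_or_gt_of_ne n.ne with k | k
  · exact (n.alive_down k he).2 ⟨h.1, h.2.le⟩
  · exact (n.alive_up k he).2 ⟨h.1.le, h.2⟩

theorem order (hg : g.Gen E) {e f : Sym2 V} (he : e ∈ E) (hf : f ∈ E)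
    (h1 : g.lo e < t ∧ t < g.hi e) (h2 : g.lo f < t ∧ t < g.hi f)
    (h : g.X e (g.lev ev) < g.X f (g.lev ev)) : g.X e t < g.X f t :=
  hg.persist he hf n.free (n.alive he h1).1 (n.alive he h1).2 (n.alive hf h2).1 (n.alive hf h2).2
    h1.1.le h1.2.le h2.1.le h2.2.le h

theorem order_iff (hg : g.Gen E) {e f : Sym2 V} (he : e ∈ E) (hf : f ∈ E)
    (h1 : g.lo e < t ∧ t < g.hi e) (h2 : g.lo f < t ∧ t < g.hi f)
    (hi : ¬ (Invo ev e ∧ Invo ev f)) (hef : e ≠ f) :
    g.X e t < g.X f t ↔ g.X e (g.lev ev) < g.X f (g.lev ev) := by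
  refine ⟨fun h => ?_, n.order hg he hf h1 h2⟩
  rcases lt_trichotomy (g.X e (g.lev ev)) (g.X f (g.lev ev)) with k | k | k
  · exact k
  · exact absurd (hg.inv_of_tie2 n.hev he hf hef (n.alive he h1).1 (n.alive he h1).2
      (n.alive hf h2).1 (n.alive hf h2).2 k) hi
  · exact absurd (n.order hg hf he h2 h1 k) h.not_gt

theorem order_up (hg : g.Gen E) (ht : g.lev ev < t) {e f : Sym2 V} (he : e ∈ E) (hf : f ∈ E)
    (h1 : Invo ev e) (h2 : Invo ev f) : g.X e t < g.X f t ↔ g.sl e < g.sl f := by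
  rw [X_sub e (g.lev ev), X_sub f (g.lev ev), hg.X_inv n.hev he h1, hg.X_inv n.hev hf h2]
  constructor <;> intro h <;> nlinarith

theorem order_down (hg : g.Gen E) (ht : t < g.lev ev) {e f : Sym2 V} (he : e ∈ E) (hf : f ∈ E)
    (h1 : Invo ev e) (h2 : Invo ev f) : g.X e t < g.X f t ↔ g.sl f < g.sl e := by
  rw [X_sub e (g.lev ev), X_sub f (g.lev ev), hg.X_inv n.hev he h1, hg.X_inv n.hev hf h2]
  constructor <;> intro h <;> nlinarith

theorem X_ne (hg : g.Gen E) {e f : Sym2 V} (he : e ∈ E) (hf : f ∈ E)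
    (h1 : g.lo e < t ∧ t < g.hi e) (h2 : g.lo f < t ∧ t < g.hi f) (hef : e ≠ f) :
    g.X e t ≠ g.X f t := fun h => by
  obtain ⟨b, hb, hl, -⟩ := hg.tie he hf hef h1.1.le h1.2.le h2.1.le h2.2.le h
  exact n.not_lev hb hl

end Geo.Near

namespace Setup

variable (S : Setup V)

def Pres (t : ℝ) (f : Sym2 V) : Prop :=
  f ∈ S.R ∧ (S.D.lo f < t ∧ t < S.D.hi f) ∧ S.D.X (S.lam t) t < S.D.X f t ∧
    S.D.X f t < S.D.X (S.rho t) t

open Classical in
noncomputable def lst (t : ℝ) : List (Sym2 V) :=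
  if h : ∃ l, Srt (fun f => S.D.X f t) (S.Pres t) l then h.choose else []

def Mid (ev : Ev V) (f : Sym2 V) : Prop :=
  f ∈ S.R ∧ ¬ Invo ev f ∧ (S.D.lo f < S.D.lev ev ∧ S.D.lev ev < S.D.hi f) ∧
    S.D.X (S.lam (S.D.lev ev)) (S.D.lev ev) < S.D.X f (S.D.lev ev) ∧
    S.D.X f (S.D.lev ev) < S.D.X (S.rho (S.D.lev ev)) (S.D.lev ev)

variable {S}

namespace OK

variable (h : S.OK)
include h

theorem lst_srt {t : ℝ} (ht : ∀ b, S.D.IsEv S.G b → S.D.lev b ≠ t) :
    Srt (fun f => S.D.X f t) (S.Pres t) (S.lst t) := by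
  have : ∃ l, Srt (fun f => S.D.X f t) (S.Pres t) l := by
    refine exists_srt _ _ (h.gen.fin.subset fun f hf => mem_G hf.1) fun e f he hf k => ?_
    by_contra hef
    obtain ⟨b, hb, hl, -⟩ := h.gen.tie (mem_G he.1) (mem_G hf.1) hef he.2.1.1.le he.2.1.2.le
      hf.2.1.1.le hf.2.1.2.le k
    exact ht b hb hl
  rw [lst, dif_pos this]
  exact this.choose_spec

theorem sh_alive {t : ℝ} (h1 : S.D.y S.u < t) (h2 : t < S.D.y S.w) (h3 : S.D.y S.v ≠ t) :
    S.D.lo (S.sh t) < t ∧ t < S.D.hi (S.sh t) := by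
  rcases lt_or_gt_of_ne h3 with k | k
  · rw [sh_ge k.le, h.lo_2, h.hi_2]; exact ⟨k, h2⟩
  · rw [sh_lt k, h.lo_1, h.hi_1]; exact ⟨h1, k⟩

theorem lam_alive {t : ℝ} (h1 : S.D.y S.u < t) (h2 : t < S.D.y S.w) (h3 : S.D.y S.v ≠ t) :
    S.D.lo (S.lam t) < t ∧ t < S.D.hi (S.lam t) := by
  unfold lam; split_ifs
  · exact h.sh_alive h1 h2 h3
  · rw [h.lo_l, h.hi_l]; exact ⟨h1, h2⟩

theorem rho_alive {t : ℝ} (h1 : S.D.y S.u < t) (h2 : t < S.D.y S.w) (h3 : S.D.y S.v ≠ t) :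
    S.D.lo (S.rho t) < t ∧ t < S.D.hi (S.rho t) := by
  unfold rho; split_ifs
  · rw [h.lo_l, h.hi_l]; exact ⟨h1, h2⟩
  · exact h.sh_alive h1 h2 h3

variable {ev : Ev V} {t : ℝ} (n : S.D.Near S.G ev t)
include n

theorem sh_near (hv : S.D.lev ev ≠ S.D.y S.v) : S.sh t = S.sh (S.D.lev ev) := by
  have h1 := n.free _ h.ev_v
  simp only [Set.mem_sdiff, Set.mem_uIcc, Set.mem_singleton_iff, Geo.lev_inl] at h1
  unfold sh
  split_ifs <;> first | rfl | grind

theorem lam_near (hv : S.D.lev ev ≠ S.D.y S.v) : S.lam t = S.lam (S.D.lev ev) := by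
  unfold lam; rw [h.sh_near n hv]

theorem rho_near (hv : S.D.lev ev ≠ S.D.y S.v) : S.rho t = S.rho (S.D.lev ev) := by
  unfold rho; rw [h.sh_near n hv]

theorem X_sh : S.D.X (S.sh t) (S.D.lev ev) = S.D.X (S.sh (S.D.lev ev)) (S.D.lev ev) := by
  by_cases hv : S.D.lev ev = S.D.y S.v
  · rw [hv, sh_ge le_rfl, h.X_2v]
    unfold sh; split_ifs
    exacts [h.X_1v, h.X_2v]
  · rw [h.sh_near n hv]

theorem X_lam : S.D.X (S.lam t) (S.D.lev ev) = S.D.X (S.lam (S.D.lev ev)) (S.D.lev ev) := by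
  unfold lam; split_ifs
  exacts [h.X_sh n, rfl]

theorem X_rho : S.D.X (S.rho t) (S.D.lev ev) = S.D.X (S.rho (S.D.lev ev)) (S.D.lev ev) := by
  unfold rho; split_ifs
  exacts [rfl, h.X_sh n]

variable (h1 : S.D.y S.u < t) (h2 : t < S.D.y S.w)
include h1 h2

theorem lam_al : S.D.lo (S.lam t) < t ∧ t < S.D.hi (S.lam t) :=
  h.lam_alive h1 h2 (n.not_lev h.ev_v)

theorem rho_al : S.D.lo (S.rho t) < t ∧ t < S.D.hi (S.rho t) :=
  h.rho_alive h1 h2 (n.not_lev h.ev_v)

theorem left_iff {f : Sym2 V} (hf : f ∈ S.R) (ha : S.D.lo f < t ∧ t < S.D.hi f)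
    (hi : ¬ (Invo ev (S.lam t) ∧ Invo ev f)) :
    S.D.X (S.lam t) t < S.D.X f t ↔
      S.D.X (S.lam (S.D.lev ev)) (S.D.lev ev) < S.D.X f (S.D.lev ev) := by
  rw [n.order_iff h.gen (side_lam t).mem (mem_G hf) (h.lam_al n h1 h2) ha hi
    (fun e => h.nR _ (side_lam t) (e ▸ hf)), h.X_lam n]

theorem right_iff {f : Sym2 V} (hf : f ∈ S.R) (ha : S.D.lo f < t ∧ t < S.D.hi f)
    (hi : ¬ (Invo ev f ∧ Invo ev (S.rho t))) :
    S.D.X f t < S.D.X (S.rho t) t ↔
      S.D.X f (S.D.lev ev) < S.D.X (S.rho (S.D.lev ev)) (S.D.lev ev) := by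
  rw [n.order_iff h.gen (mem_G hf) (side_rho t).mem ha (h.rho_al n h1 h2) hi
    (fun e => h.nR _ (side_rho t) (e ▸ hf)), h.X_rho n]

theorem pres_iff {f : Sym2 V} (hi : ¬ Invo ev f) : S.Pres t f ↔ S.Mid ev f := by
  constructor
  · rintro ⟨hf, ha, k1, k2⟩
    have := n.alive (mem_G hf) ha
    refine ⟨hf, hi, ⟨this.1.lt_of_ne fun e => hi (h.gen.inv_of_lo n.hev (mem_G hf) e),
      this.2.lt_of_ne fun e => hi (h.gen.inv_of_hi n.hev (mem_G hf) e.symm)⟩,
      (h.left_iff n h1 h2 hf ha (by tauto)).1 k1, (h.right_iff n h1 h2 hf ha (by tauto)).1 k2⟩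
  · rintro ⟨hf, -, ha, k1, k2⟩
    have ha' := n.alive' (mem_G hf) ha
    exact ⟨hf, ha', (h.left_iff n h1 h2 hf ha' (by tauto)).2 k1,
      (h.right_iff n h1 h2 hf ha' (by tauto)).2 k2⟩

theorem decomp {m₁ m₂ : List (Sym2 V)}
    (k₁ : Srt (fun f => S.D.X f (S.D.lev ev))
      (fun f => S.Mid ev f ∧ S.D.X f (S.D.lev ev) < S.D.evx ev) m₁)
    (k₂ : Srt (fun f => S.D.X f (S.D.lev ev))
      (fun f => S.Mid ev f ∧ S.D.evx ev < S.D.X f (S.D.lev ev)) m₂) :
    ∃ i, Srt (fun f => S.D.X f t) (fun f => S.Pres t f ∧ Invo ev f) i ∧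
      S.lst t = m₁ ++ i ++ m₂ := by
  classical
  have hl := h.lst_srt (t := t) fun b hb => n.not_lev hb
  have hi := hl.filter (Invo ev)
  refine ⟨_, hi, hl.unique ?_⟩
  have ord : ∀ e f, S.Pres t e → S.Pres t f → S.D.X e (S.D.lev ev) < S.D.X f (S.D.lev ev) →
      S.D.X e t < S.D.X f t := fun e f he hf =>
    n.order h.gen (mem_G he.1) (mem_G hf.1) he.2.1 hf.2.1
  have mp : ∀ f, S.Mid ev f → S.Pres t f := fun f hf => (h.pres_iff n h1 h2 hf.2.1).2 hf
  have xi : ∀ f, S.Pres t f ∧ Invo ev f → S.D.X f (S.D.lev ev) = S.D.evx ev := fun f hf =>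
    h.gen.X_inv n.hev (mem_G hf.1.1) hf.2
  have a1 := k₁.rekey (k' := fun f => S.D.X f t) fun a b ha hb => ord a b (mp a ha.1) (mp b hb.1)
  have a2 := k₂.rekey (k' := fun f => S.D.X f t) fun a b ha hb => ord a b (mp a ha.1) (mp b hb.1)
  have a3 := a1.append hi fun a b ha hb => ord a b (mp a ha.1) hb.1 (by rw [xi b hb]; exact ha.2)
  have a4 := a3.append a2 fun a b ha hb => by
    rcases ha with ha | ha
    · exact ord a b (mp a ha.1) (mp b hb.1) (ha.2.trans hb.2)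
    · exact ord a b ha.1 (mp b hb.1) (by rw [xi a ha]; exact hb.2)
  refine a4.congr fun f => ⟨?_, fun hf => ?_⟩
  · rintro ((k | k) | k)
    exacts [mp f k.1, k.1, mp f k.1]
  · by_cases c : Invo ev f
    · exact Or.inl (Or.inr ⟨hf, c⟩)
    · have hm := (h.pres_iff n h1 h2 c).1 hf
      rcases lt_trichotomy (S.D.X f (S.D.lev ev)) (S.D.evx ev) with k | k | k
      · exact Or.inl (Or.inl ⟨hm, k⟩)
      · exact absurd (h.gen.inv_of_tie n.hev (mem_G hf.1) hm.2.2.1.1.le hm.2.2.1.2.le k) c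
      · exact Or.inr ⟨hm, k⟩

omit n h1 h2 in
theorem exists_mid (hev : S.D.IsEv S.G ev) (p : Sym2 V → Prop) :
    ∃ m, Srt (fun f => S.D.X f (S.D.lev ev)) (fun f => S.Mid ev f ∧ p f) m := by
  refine exists_srt _ _ (h.gen.fin.subset fun f hf => mem_G hf.1.1) fun e f he hf k => ?_
  by_contra hef
  exact he.1.2.1 (h.gen.inv_of_tie2 hev (mem_G he.1.1) (mem_G hf.1.1) hef he.1.2.2.1.1.le
    he.1.2.2.1.2.le hf.1.2.2.1.1.le hf.1.2.2.1.2.le k).1

end OK

end Setup

end Pool.Agent.P.MP_382f0d_gt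

/-! The operator of the moving horizontal strand; events at rest edges. -/

namespace Pool.Agent.P.MP_382f0d_gt

variable {V C : Type} [DecidableEq V] [Fintype C] [DecidableEq C]

set_option linter.unusedSectionVars false

theorem Dat.vop_congr {D : Dat V} {E E' : Set (Sym2 V)} {x : V}
    (h : ∀ e, x ∈ e → (e ∈ E ↔ e ∈ E')) : (D.vop E x : Op (Lb V) C) = D.vop E' x := by
  have : Two E x = Two E' x := by
    funext e f
    unfold Two
    congr 1
    refine propext (forall_congr' fun e' => ?_)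
    have := h e'
    tauto
  unfold Dat.vop
  rw [this]

theorem Dat.evop_congr {D : Dat V} {E E' : Set (Sym2 V)} (a : ℂ) {x : Ev V}
    (h : ∀ e, Invo x e → (e ∈ E ↔ e ∈ E')) : (D.evop a E x : Op (Lb V) C) = D.evop a E' x := by
  classical
  cases x with
  | inl v =>
    have : (∃ e ∈ E, v ∈ e) ↔ ∃ e ∈ E', v ∈ e :=
      exists_congr fun e => by have := h e; unfold Invo at this; tauto
    rw [Dat.evop, Dat.evop, Dat.vop_congr h]
    exact if_congr this rfl rfl
  | inr p =>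
    rw [Dat.evop, Dat.evop]
    exact if_congr (and_congr (h p.1 (Or.inl rfl)) (h p.2 (Or.inr rfl))) rfl rfl

theorem Dat.evop_none {D : Dat V} {E : Set (Sym2 V)} (a : ℂ) {x : V} (h : ∀ e ∈ E, x ∉ e) :
    (D.evop a E (.inl x) : Op (Lb V) C) = 1 := by
  rw [Dat.evop, if_neg]
  rintro ⟨e, he, hx⟩
  exact h e he hx

theorem Dat.evop_two {D : Dat V} {E : Set (Sym2 V)} (a : ℂ) {x : V} {e f : Sym2 V}
    (h : Two E x e f) (ht : D.th e = D.th f) :
    (D.evop a E (.inl x) : Op (Lb V) C) = D.join e f x * D.dec a x := by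
  rw [Dat.evop, if_pos ⟨e, h.left⟩, Dat.vop_eq h ht]

theorem Dat.evop_thin {D : Dat V} {E : Set (Sym2 V)} (a : ℂ) {x : V} {e f : Sym2 V}
    (h : Two E x e f) (he : D.th e = 1) (hf : D.th f = 1) (hj : D.dj x = 0) :
    (D.evop a E (.inl x) : Op (Lb V) C) = jn (e, 0) (f, 0) (D.top e x) (D.top f x) := by
  rw [Dat.evop_two a h (he.trans hf.symm), Dat.dec, hj, pow_zero, mul_one, Dat.join,
    Dat.cab_one he, Dat.cab_one hf, joinL_single]

theorem Dat.evop_cross {D : Dat V} {E : Set (Sym2 V)} (a : ℂ) {e f : Sym2 V} (he : e ∈ E)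
    (hf : f ∈ E) : (D.evop a E (.inr (e, f)) : Op (Lb V) C) = D.xop a e f := by
  rw [Dat.evop, if_pos ⟨he, hf⟩]

theorem Dat.evop_ncross {D : Dat V} {E : Set (Sym2 V)} (a : ℂ) {e f : Sym2 V}
    (h : e ∉ E ∨ f ∉ E) : (D.evop a E (.inr (e, f)) : Op (Lb V) C) = 1 := by
  rw [Dat.evop, if_neg]; tauto

theorem kap_ne {a : ℂ} (ha : Good C a) : kap a ≠ 0 := neg_ne_zero.2 (pow_ne_zero _ ha.ne)

theorem tt_dec {D : Dat V} {a : ℂ} (ha : Good C a) (ε : Bool) {o : Lb V} {f : Sym2 V} {x : V}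
    (hf : o.1 ≠ f) (hd : D.dj x ≠ 0 → o.1 ≠ D.dw x) (G : Fn (Lb V) C) :
    tt (pm a ε) o (D.cab f) (D.dec a x G) = D.dec a x (tt (pm a ε) o (D.cab f) G) := by
  by_cases hj : D.dj x = 0
  · simp [Dat.dec, hj]
  have : Commute (tt (pm a ε) o (D.cab f) : Op (Lb V) C) (cc a (D.cab (D.dw x))) := by
    by_cases e : D.dw x = f
    · rw [e]
      exact LinearMap.ext fun G => tt_cc ha ε
        (List.nodup_cons.2 ⟨fun k => hf (Dat.mem_cab.1 k).1, Dat.cab_nodup _⟩) G
    · refine loc_commute (tt_loc _ _ _) (Dat.cc_cab_loc _ _) ?_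
      have := hd hj
      simp only [Set.mem_ofPred_eq, Dat.mem_cab]
      grind
  exact LinearMap.congr_fun (this.pow_right _).eq G

namespace Setup

variable (S : Setup V) (a : ℂ) (ε : Sym2 V → Bool)

def oo : Lb V := (s(S.u, S.u), 0)

noncomputable def Tw (f : Sym2 V) : Op (Lb V) C :=
  kap a ^ (-(S.o0 * S.om f * sgn (ε f))) • tt (pm a (ε f)) S.oo (S.D.cab f)

noncomputable def TL (l : List (Sym2 V)) : Op (Lb V) C := (l.map (S.Tw a ε)).prod

open Classical in
noncomputable def PL (s : Sym2 V) : Op (Lb V) C := jn (s, 0) S.oo (decide (s ∉ S.A)) false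

open Classical in
noncomputable def QR (s : Sym2 V) : Op (Lb V) C := jn S.oo (s, 0) true (decide (s ∉ S.A))

open Classical in
noncomputable def Hat (t : ℝ) : Op (Lb V) C :=
  if t < S.D.y S.u then
    (if s(S.u, S.w) ∉ S.A ∧ s(S.u, S.v) ∉ S.A then (Fintype.card C : ℂ) else 1) • 1
  else if S.D.y S.w < t then
    (if s(S.u, S.w) ∈ S.A ∧ s(S.v, S.w) ∈ S.A then (Fintype.card C : ℂ) else 1) • 1
  else S.PL (S.lam t) * (S.TL a ε (S.lst t) * S.QR (S.rho t))

/-- the signs `ε` tell correctly whether an edge is below or above the triangle -/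
def Sg (t : ℝ) : Prop :=
  ∀ f ∈ S.R, S.D.lo f ≤ t → t ≤ S.D.hi f → ∀ h, S.D.InT S.u S.v S.w (S.D.X f t) t h →
    (ε f = true → S.D.Z f t ≤ h) ∧ (ε f = false → h ≤ S.D.Z f t)

/-- the future does not depend on unused or dead edges -/
def Fut (t : ℝ) (F : Fn (Lb V) C) : Prop := ∀ k : Lb V, k.1 ∉ S.A ∨ S.D.hi k.1 ≤ t → Ind k F

variable {S a ε}

@[simp] theorem TL_nil (F : Fn (Lb V) C) : S.TL a ε [] F = F := rfl
@[simp] theorem TL_cons (f : Sym2 V) (l : List (Sym2 V)) (F : Fn (Lb V) C) :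
    S.TL a ε (f :: l) F = S.Tw a ε f (S.TL a ε l F) := rfl
@[simp] theorem TL_append (l m : List (Sym2 V)) (F : Fn (Lb V) C) :
    S.TL a ε (l ++ m) F = S.TL a ε l (S.TL a ε m F) := by simp [TL]

theorem Tw_apply (f : Sym2 V) (F : Fn (Lb V) C) : S.Tw a ε f F =
    kap a ^ (-(S.o0 * S.om f * sgn (ε f))) • tt (pm a (ε f)) S.oo (S.D.cab f) F := rfl

theorem TL_loc (l : List (Sym2 V)) :
    (S.TL a ε l : Op (Lb V) C) ∈ loc {k | k = S.oo ∨ k.1 ∈ l} := by
  refine list_prod_mem fun X hX => ?_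
  obtain ⟨f, hf, rfl⟩ := List.mem_map.1 hX
  refine Subalgebra.smul_mem _ (mem_loc_mono (tt_loc _ _ _) fun k hk => ?_) _
  simp only [Set.mem_ofPred_eq, Dat.mem_cab] at hk ⊢
  grind

theorem PL_loc (s : Sym2 V) : (S.PL s : Op (Lb V) C) ∈ loc {k | k = (s, 0) ∨ k = S.oo} :=
  jn_loc _ _ _ _

theorem QR_loc (s : Sym2 V) : (S.QR s : Op (Lb V) C) ∈ loc {k | k = S.oo ∨ k = (s, 0)} :=
  jn_loc _ _ _ _

theorem PL_A {s : Sym2 V} (h : s ∈ S.A) : (S.PL s : Op (Lb V) C) = jn (s, 0) S.oo false false := by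
  simp [PL, h]
theorem PL_B {s : Sym2 V} (h : s ∉ S.A) : (S.PL s : Op (Lb V) C) = jn (s, 0) S.oo true false := by
  simp [PL, h]
theorem QR_A {s : Sym2 V} (h : s ∈ S.A) : (S.QR s : Op (Lb V) C) = jn S.oo (s, 0) true false := by
  simp [QR, h]
theorem QR_B {s : Sym2 V} (h : s ∉ S.A) : (S.QR s : Op (Lb V) C) = jn S.oo (s, 0) true true := by
  simp [QR, h]

theorem Hat_mid {t : ℝ} (h1 : S.D.y S.u < t) (h2 : t < S.D.y S.w) (F : Fn (Lb V) C) :
    S.Hat a ε t F = S.PL (S.lam t) (S.TL a ε (S.lst t) (S.QR (S.rho t) F)) := by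
  rw [Hat, if_neg h1.not_gt, if_neg h2.not_gt]; rfl

theorem bA_A {s : Sym2 V} (h : s ∈ S.A) : S.bA s = -1 := if_pos h
theorem bA_B {s : Sym2 V} (h : s ∉ S.A) : S.bA s = 1 := if_neg h

theorem srt_le_one {α : Type} {k : α → ℝ} {P Q : α → Prop} {i : List α} {f : α}
    (hi : Srt k (fun g => P g ∧ Q g) i) (hf : Q f) (hu : ∀ g, P g → Q g → g = f) :
    (P f → i = [f]) ∧ (¬ P f → i = []) :=
  ⟨fun hp => hi.eq_one fun g => ⟨fun hg => hu g hg.1 hg.2, fun e => e ▸ ⟨hp, hf⟩⟩,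
    fun hp => hi.eq_nil fun g hg => hp (hu g hg.1 hg.2 ▸ hg.1)⟩

namespace OK

variable (h : S.OK)
include h

theorem oo_ne {e : Sym2 V} (he : e ∈ S.G) : S.oo.1 ≠ e := fun k => h.diag_not S.u (k ▸ he :)

theorem oo_ne' {e : Sym2 V} (he : e ∈ S.G) (i : ℕ) : S.oo ≠ (e, i) := fun k =>
  h.oo_ne he (congrArg Prod.fst k)

theorem oo_notA : S.oo.1 ∉ S.A := fun k => h.oo_ne (h.AG k) rfl
theorem oo_notB : S.oo.1 ∉ S.B := fun k => h.oo_ne (h.BG k) rfl

theorem nodup_cab {f : Sym2 V} (hf : f ∈ S.R) {s : Sym2 V} (hs : S.Side s) :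
    (S.oo :: (s, 0) :: S.D.cab f).Nodup := by
  have := h.oo_ne' hs.mem 0
  have := h.oo_ne (mem_G hf)
  have := h.nR s hs
  simp only [List.nodup_cons, List.mem_cons, Dat.mem_cab, Dat.cab_nodup]
  grind

theorem nodup_cab2 {f g : Sym2 V} (hf : f ∈ S.R) (hg : g ∈ S.R) (hfg : f ≠ g) :
    (S.oo :: (S.D.cab f ++ S.D.cab g)).Nodup := by
  have := h.oo_ne (mem_G hf)
  have := h.oo_ne (mem_G hg)
  simp only [List.nodup_cons, List.mem_append, Dat.mem_cab, Dat.cab_nodup2 hfg]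
  grind

theorem Tw_dec (ha : Good C a) {f : Sym2 V} (hf : f ∈ S.R) {x : V} (hx : ∃ e ∈ S.G, x ∈ e)
    (G : Fn (Lb V) C) : S.Tw a ε f (S.D.dec a x G) = S.D.dec a x (S.Tw a ε f G) := by
  rw [Tw_apply, Tw_apply, map_smul, tt_dec ha _ (h.oo_ne (mem_G hf))
    fun hj => h.oo_ne (mem_G (h.dec x hx hj).1)]

theorem evA_eq {ev : Ev V} (hs : ∀ s, S.Side s → ¬ Invo ev s) :
    (S.D.evop a S.A ev : Op (Lb V) C) = S.D.evop a S.B ev :=
  Dat.evop_congr a fun e he =>
    ⟨fun k => (h.memA k).elim (fun r => h.RB r) fun r => absurd he (hs e r),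
      fun k => (h.memB k).elim (fun r => h.RA r) fun r => absurd he (hs e r)⟩

/-- a crossing of two rest edges inside the triangle -/
theorem core_cross (ha : Good C a) {e f : Sym2 V} (he : e ∈ S.R) (hf : f ∈ S.R)
    (hc : S.D.IsCross e f) {z : ℝ}
    (k1 : (ε e = true → S.D.Z e (S.D.lev (.inr (e, f))) ≤ z) ∧
      (ε e = false → z ≤ S.D.Z e (S.D.lev (.inr (e, f)))))
    (k2 : (ε f = true → S.D.Z f (S.D.lev (.inr (e, f))) ≤ z) ∧
      (ε f = false → z ≤ S.D.Z f (S.D.lev (.inr (e, f))))) (G : Fn (Lb V) C) :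
    S.TL a ε [e, f] (S.D.xop a e f G) = S.D.xop a e f (S.TL a ε [f, e] G) := by
  have hz := h.gen.g4 e (mem_G he) f (mem_G hf) hc
  have hy : ε e = S.D.eps e f → ε f = ε e := by
    unfold Dat.eps
    intro k
    cases h1 : ε e <;> cases h2 : ε f
    · rfl
    · rw [h1, eq_comm, decide_eq_false_iff_not, not_lt] at k
      exact absurd (le_antisymm k ((k2.1 h2).trans (k1.2 h1))) hz
    · rw [h1, eq_comm, decide_eq_true_iff] at k
      exact absurd ((k1.1 h1).trans (k2.2 h2)) k.not_ge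
    · rfl
  simp only [TL_cons, TL_nil, Tw_apply, Dat.xop, LinearMap.smul_apply, map_smul]
  rw [ybe_cable ha (h.nodup_cab2 he hf hc.ne) hy]
  module

end OK

end Setup

end Pool.Agent.P.MP_382f0d_gt

/-! Events that do not involve the sides of the triangle. -/

namespace Pool.Agent.P.MP_382f0d_gt

variable {V C : Type} [DecidableEq V] [Fintype C] [DecidableEq C]

set_option linter.unusedSectionVars false

namespace Setup

variable {S : Setup V} {a : ℂ} {ε : Sym2 V → Bool}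

structure Ctx (S : Setup V) (ev : Ev V) (tm tp : ℝ) : Prop where
  nm : S.D.Near S.G ev tm
  np : S.D.Near S.G ev tp
  lt1 : tm < S.D.lev ev
  lt2 : S.D.lev ev < tp
  um : S.D.y S.u < tm
  pw : tp < S.D.y S.w

theorem Ctx.mw {ev : Ev V} {tm tp : ℝ} (c : S.Ctx ev tm tp) : tm < S.D.y S.w := by
  linarith [c.lt1, c.lt2, c.pw]
theorem Ctx.up {ev : Ev V} {tm tp : ℝ} (c : S.Ctx ev tm tp) : S.D.y S.u < tp := by
  linarith [c.lt1, c.lt2, c.um]

namespace OK

variable (h : S.OK)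
include h

theorem core_min (ha : Good C a) {x : V} {e f : Sym2 V} (he : e ∈ S.R) (hf : f ∈ S.R)
    (h2 : Two S.A x e f) (ht : S.D.th e = S.D.th f) (te : S.D.top e x = false)
    (tf : S.D.top f x = false) (hε : ε e = ε f) (ho : S.om e + S.om f = 0) (G : Fn (Lb V) C) :
    S.D.evop a S.A (.inl x) G = S.D.evop a S.A (.inl x) (S.TL a ε [e, f] G) := by
  have hx : ∃ e ∈ S.G, x ∈ e := ⟨e, mem_G he, h2.left.2⟩
  have := kap_ne ha
  rw [Dat.evop_two a h2 ht]
  simp only [TL_cons, TL_nil, Module.End.mul_apply, ← h.Tw_dec ha he hx, ← h.Tw_dec ha hf hx]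
  simp only [Tw_apply, map_smul, Dat.join, te, tf, hε]
  rw [← in_min (ha.pm _) (by simp [Dat.cab_length, ht]) (h.nodup_cab2 he hf h2.1), smul_smul,
    ← zpow_add₀ this, show S.om e = -S.om f by linarith]
  simp

theorem core_max (ha : Good C a) {x : V} {e f : Sym2 V} (he : e ∈ S.R) (hf : f ∈ S.R)
    (h2 : Two S.A x e f) (ht : S.D.th e = S.D.th f) (te : S.D.top e x = true)
    (tf : S.D.top f x = true) (hε : ε e = ε f) (ho : S.om e + S.om f = 0) {G : Fn (Lb V) C}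
    (hG : ∀ k : Lb V, k.1 = e ∨ k.1 = f → Ind k (S.D.dec a x G)) :
    S.TL a ε [e, f] (S.D.evop a S.A (.inl x) G) = S.D.evop a S.A (.inl x) G := by
  have := kap_ne ha
  rw [Dat.evop_two a h2 ht]
  simp only [TL_cons, TL_nil, Module.End.mul_apply, Tw_apply, map_smul, Dat.join, te, tf, hε]
  rw [in_max (ha.pm _) (by simp [Dat.cab_length, ht]) (h.nodup_cab2 he hf h2.1)
    (fun k hk => hG k (by simp only [Dat.mem_cab] at hk; tauto)), smul_smul,
    ← zpow_add₀ this, show S.om e = -S.om f by linarith]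
  simp

theorem core_mono (ha : Good C a) {x : V} {e f : Sym2 V} (he : e ∈ S.R) (hf : f ∈ S.R)
    (h2 : Two S.A x e f) (ht : S.D.th e = S.D.th f) (te : S.D.top e x = true)
    (tf : S.D.top f x = false) (hε : ε e = ε f) (ho : S.om e = S.om f) {G : Fn (Lb V) C}
    (hG : ∀ k : Lb V, k.1 = e → Ind k (S.D.dec a x G)) :
    S.TL a ε [e] (S.D.evop a S.A (.inl x) G) = S.D.evop a S.A (.inl x) (S.TL a ε [f] G) := by
  have hx : ∃ e ∈ S.G, x ∈ e := ⟨e, mem_G he, h2.left.2⟩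
  rw [Dat.evop_two a h2 ht]
  simp only [TL_cons, TL_nil, Module.End.mul_apply, ← h.Tw_dec ha hf hx]
  simp only [Tw_apply, map_smul, Dat.join, te, tf, hε, ho]
  rw [in_mono (by simp [Dat.cab_length, ht]) (h.nodup_cab2 he hf h2.1)
    (fun k hk => hG k (Dat.mem_cab.1 hk).1)]

theorem ind_dec {x : V} (hx : ∃ e ∈ S.G, x ∈ e) {k : Lb V} (hk : S.D.y x = S.D.hi k.1)
    {G : Fn (Lb V) C} (hG : Ind k G) : Ind k (S.D.dec a x G) := by
  refine hG.loc (Dat.dec_loc a x) ?_
  rintro ⟨h1, h2⟩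
  obtain ⟨k1, -, k3, -⟩ := h.dec x hx h1
  have := h.gen.lo_lt_hi (mem_G k1)
  rw [h2] at hk
  linarith

variable {ev : Ev V} {tm tp : ℝ}

theorem pres_free {t : ℝ} (n : S.D.Near S.G ev t) (h1 : S.D.y S.u < t) (h2 : t < S.D.y S.w)
    (hs : ∀ s, S.Side s → ¬ Invo ev s) {f : Sym2 V} (hi : Invo ev f) :
    S.Pres t f ↔ f ∈ S.R ∧ (S.D.lo f < t ∧ t < S.D.hi f) ∧
      S.D.X (S.lam (S.D.lev ev)) (S.D.lev ev) < S.D.evx ev ∧
      S.D.evx ev < S.D.X (S.rho (S.D.lev ev)) (S.D.lev ev) := by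
  unfold Pres
  refine and_congr_right fun hf => and_congr_right fun ha => ?_
  rw [h.left_iff n h1 h2 hf ha (fun k => hs _ (side_lam t) k.1),
    h.right_iff n h1 h2 hf ha (fun k => hs _ (side_rho t) k.2),
    h.gen.X_inv n.hev (mem_G hf) hi]

theorem core_free (ha : Good C a) (c : S.Ctx ev tm tp) (hsg : S.Sg ε (S.D.lev ev))
    (hs : ∀ s, S.Side s → ¬ Invo ev s) {im ip : List (Sym2 V)}
    (km : Srt (fun f => S.D.X f tm) (fun f => S.Pres tm f ∧ Invo ev f) im)
    (kp : Srt (fun f => S.D.X f tp) (fun f => S.Pres tp f ∧ Invo ev f) ip)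
    {G : Fn (Lb V) C} (hG : ∀ k : Lb V, k.1 ∈ S.R → Invo ev k.1 → S.D.hi k.1 ≤ S.D.lev ev → Ind k G) :
    S.TL a ε im (S.D.evop a S.A ev G) = S.D.evop a S.A ev (S.TL a ε ip G) := by
  have pm := fun f => h.pres_free c.nm c.um c.mw hs (f := f)
  have pp := fun f => h.pres_free c.np c.up c.pw hs (f := f)
  by_cases hin : S.D.X (S.lam (S.D.lev ev)) (S.D.lev ev) < S.D.evx ev ∧
      S.D.evx ev < S.D.X (S.rho (S.D.lev ev)) (S.D.lev ev)
  swap
  · rw [km.eq_nil fun f hf => hin ((pm f hf.2).1 hf.1).2.2,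
      kp.eq_nil fun f hf => hin ((pp f hf.2).1 hf.1).2.2]
    rfl
  simp only [hin, and_true] at pm pp
  have hv : S.D.y S.v ≠ S.D.lev ev := fun e => by
    have := h.gen.g3 _ _ h.ev_v c.nm.hev e
    exact hs _ side_1 (this ▸ (by simp [Invo] : Invo (.inl S.v) s(S.u, S.v)))
  have u0 : S.D.y S.u < S.D.lev ev := c.um.trans c.lt1
  have w0 : S.D.lev ev < S.D.y S.w := c.lt2.trans c.pw
  obtain ⟨z, hz⟩ := (h.inT_side (side_lam _) (h.lam_alive u0 w0 hv).1.le
    (h.lam_alive u0 w0 hv).2.le).between (h.inT_side (side_rho _) (h.rho_alive u0 w0 hv).1.le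
    (h.rho_alive u0 w0 hv).2.le) hin.1 hin.2
  have sg : ∀ f ∈ S.R, Invo ev f → (ε f = true → S.D.Z f (S.D.lev ev) ≤ z) ∧
      (ε f = false → z ≤ S.D.Z f (S.D.lev ev)) := fun f hf hi =>
    hsg f hf (Geo.Invo.range c.nm.hev hi).1 (Geo.Invo.range c.nm.hev hi).2 z
      (by rw [h.gen.X_inv c.nm.hev (mem_G hf) hi]; exact hz)
  have inR : ∀ f ∈ S.G, Invo ev f → f ∈ S.R := fun f hf hi => hf.elim id fun k => absurd hi (hs f k)
  cases ev with
  | inr p =>
    obtain ⟨e, f⟩ := p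
    obtain ⟨he, hf, hc⟩ := c.nm.hev
    have ie : Invo (.inr (e, f)) e := Or.inl rfl
    have if' : Invo (.inr (e, f)) f := Or.inr rfl
    have he' := inR e he ie
    have hf' := inR f hf if'
    have e1 : im = [e, f] := km.eq_two (fun g => ⟨fun k => k.2, by
        rintro (rfl | rfl)
        · exact ⟨(pm _ ie).2 ⟨he', c.nm.alive' he ⟨hc.2.1, hc.2.2.1⟩⟩, ie⟩
        · exact ⟨(pm _ if').2 ⟨hf', c.nm.alive' hf hc.2.2.2⟩, if'⟩⟩)
      ((c.nm.order_down h.gen c.lt1 he hf ie if').2 hc.1)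
    have e2 : ip = [f, e] := kp.eq_two (fun g => ⟨fun k => k.2.symm, by
        rintro (rfl | rfl)
        · exact ⟨(pp _ if').2 ⟨hf', c.np.alive' hf hc.2.2.2⟩, if'⟩
        · exact ⟨(pp _ ie).2 ⟨he', c.np.alive' he ⟨hc.2.1, hc.2.2.1⟩⟩, ie⟩⟩)
      ((c.np.order_up h.gen c.lt2 hf he if' ie).2 hc.1)
    rw [e1, e2, Dat.evop_cross a (h.RA he') (h.RA hf')]
    exact h.core_cross ha he' hf' hc (sg e he' ie) (sg f hf' if') G
  | inl x =>
    have hx : ∃ e ∈ S.G, x ∈ e := c.nm.hev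
    obtain ⟨e0, he0, hx0⟩ := hx
    obtain ⟨e, f, h2, ht, ho⟩ := h.regA x ⟨e0, h.RA (inR e0 he0 hx0), hx0⟩
    have hx : ∃ e ∈ S.G, x ∈ e := c.nm.hev
    have hxs : ∀ s, S.Side s → x ∉ s := hs
    have off := h.off x hx (fun k => hxs _ side_l (by simp [k])) (fun k => hxs _ side_1 (by simp [k]))
      (fun k => hxs _ side_l (by simp [k])) z hz
    have key : ∀ e f, Two S.A x e f → e ∈ S.R ∧ (∀ g, (S.Pres tm g ∧ x ∈ g ↔
        (g = e ∨ g = f) ∧ S.D.y x = S.D.hi g) ∧ (S.Pres tp g ∧ x ∈ g ↔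
        (g = e ∨ g = f) ∧ S.D.y x < S.D.hi g)) := by
      intro e f h2
      refine ⟨inR e (h.AG h2.left.1) h2.left.2, fun g => ⟨⟨fun k => ?_, fun k => ?_⟩,
        ⟨fun k => ?_, fun k => ?_⟩⟩⟩
      · have k1 := (pm g k.2).1 k.1
        have k2 := (c.nm.alive_down c.lt1 (mem_G k1.1)).1 k1.2
        refine ⟨(h2.2 g).1 ⟨h.RA k1.1, k.2⟩, (Geo.lo_or_hi k.2).resolve_left k2.1.ne'⟩
      · have k1 := (h2.2 g).2 k.1
        have k2 := inR g (h.AG k1.1) k1.2
        refine ⟨(pm g k1.2).2 ⟨k2, (c.nm.alive_down c.lt1 (mem_G k2)).2 ⟨?_, k.2.le⟩⟩, k1.2⟩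
        rw [Geo.lev_inl, k.2]; exact h.gen.lo_lt_hi (mem_G k2)
      · have k1 := (pp g k.2).1 k.1
        have k2 := (c.np.alive_up c.lt2 (mem_G k1.1)).1 k1.2
        exact ⟨(h2.2 g).1 ⟨h.RA k1.1, k.2⟩, k2.2⟩
      · have k1 := (h2.2 g).2 k.1
        have k2 := inR g (h.AG k1.1) k1.2
        exact ⟨(pp g k1.2).2 ⟨k2, (c.np.alive_up c.lt2 (mem_G k2)).2 ⟨Geo.lo_le k1.2, k.2⟩⟩, k1.2⟩
    have he := (key e f h2).1
    have hf := (key f e h2.symm).1
    have kk := (key e f h2).2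
    have hε : ε e = ε f := by
      have s1 := sg e he h2.left.2
      have s2 := sg f hf h2.right.2
      rw [Geo.lev_inl, h.gen.Z_end (mem_G he) h2.left.2] at s1
      rw [Geo.lev_inl, h.gen.Z_end (mem_G hf) h2.right.2] at s2
      cases h1 : ε e <;> cases h3 : ε f
      · rfl
      · exact absurd (le_antisymm (s2.1 h3) (s1.2 h1)) off
      · exact absurd (le_antisymm (s1.1 h1) (s2.2 h3)) off
      · rfl
    have ind : ∀ k : Lb V, (k.1 = e ∨ k.1 = f) → S.D.y x = S.D.hi k.1 → Ind k (S.D.dec a x G) :=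
      fun k hk hy => h.ind_dec hx hy (hG k (by grind) ((h2.2 _).2 hk).2 hy.ge)
    have hne := h2.1
    unfold Dat.tau at ho
    rcases (Geo.le_hi (g := S.D.toGeo) h2.left.2).eq_or_lt with t1 | t1 <;>
      rcases (Geo.le_hi (g := S.D.toGeo) h2.right.2).eq_or_lt with t2 | t2
    · rw [kp.eq_nil fun g hg => by have := (kk g).2.1 hg; grind]
      have te := Dat.top_hi t1
      have tf := Dat.top_hi t2
      simp only [te, tf, sgn, if_true, mul_one] at ho
      have mem : ∀ g, S.Pres tm g ∧ x ∈ g ↔ g = e ∨ g = f := fun g => by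
        rw [(kk g).1]; grind
      have ne := c.nm.X_ne h.gen (mem_G he) (mem_G hf) ((mem e).2 (Or.inl rfl)).1.2.1
        ((mem f).2 (Or.inr rfl)).1.2.1 hne
      rcases lt_or_gt_of_ne ne with k | k
      · rw [km.eq_two mem k]
        exact h.core_max ha he hf h2 ht te tf hε ho fun k hk => ind k hk (by grind)
      · rw [km.eq_two (fun g => (mem g).trans or_comm) k]
        exact h.core_max ha hf he h2.symm ht.symm tf te hε.symm (by linarith)
          fun k hk => ind k hk.symm (by grind)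
    · have te := Dat.top_hi t1
      have tf := Dat.top_lo t2
      simp only [te, tf, sgn, if_true, mul_one, Bool.false_eq_true, if_false] at ho
      rw [km.eq_one (b := e) fun g => ((kk g).1).trans (by grind),
        kp.eq_one (b := f) fun g => ((kk g).2).trans (by grind)]
      exact h.core_mono ha he hf h2 ht te tf hε (by linarith) fun k hk => ind k (Or.inl hk) (by grind)
    · have te := Dat.top_lo t1
      have tf := Dat.top_hi t2
      simp only [te, tf, sgn, if_true, mul_one, Bool.false_eq_true, if_false] at ho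
      rw [km.eq_one (b := f) fun g => ((kk g).1).trans (by grind),
        kp.eq_one (b := e) fun g => ((kk g).2).trans (by grind)]
      exact h.core_mono ha hf he h2.symm ht.symm tf te hε.symm (by linarith)
        fun k hk => ind k (Or.inr hk) (by grind)
    · rw [km.eq_nil fun g hg => by have := (kk g).1.1 hg; grind]
      have te := Dat.top_lo t1
      have tf := Dat.top_lo t2
      simp only [te, tf, sgn, Bool.false_eq_true, if_false] at ho
      have mem : ∀ g, S.Pres tp g ∧ x ∈ g ↔ g = e ∨ g = f := fun g => by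
        rw [(kk g).2]; grind
      have ne := c.np.X_ne h.gen (mem_G he) (mem_G hf) ((mem e).2 (Or.inl rfl)).1.2.1
        ((mem f).2 (Or.inr rfl)).1.2.1 hne
      rcases lt_or_gt_of_ne ne with k | k
      · rw [kp.eq_two mem k]
        exact h.core_min ha he hf h2 ht te tf hε (by linarith) G
      · rw [kp.eq_two (fun g => (mem g).trans or_comm) k]
        exact h.core_min ha hf he h2.symm ht.symm tf te hε.symm (by linarith) G

theorem step_free (ha : Good C a) (c : S.Ctx ev tm tp) (hsg : S.Sg ε (S.D.lev ev))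
    (hs : ∀ s, S.Side s → ¬ Invo ev s) {F : Fn (Lb V) C} (hF : S.Fut (S.D.lev ev) F) :
    S.Hat a ε tm (S.D.evop a S.A ev F) = S.D.evop a S.B ev (S.Hat a ε tp F) := by
  obtain ⟨m₁, k₁⟩ := h.exists_mid c.nm.hev fun f => S.D.X f (S.D.lev ev) < S.D.evx ev
  obtain ⟨m₂, k₂⟩ := h.exists_mid c.nm.hev fun f => S.D.evx ev < S.D.X f (S.D.lev ev)
  obtain ⟨im, km, em⟩ := h.decomp c.nm c.um c.mw k₁ k₂
  obtain ⟨ip, kp, ep⟩ := h.decomp c.np c.up c.pw k₁ k₂
  have hv : S.D.lev ev ≠ S.D.y S.v := fun e => by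
    have := h.gen.g3 _ _ h.ev_v c.nm.hev e.symm
    exact hs _ side_1 (this ▸ (by simp [Invo] : Invo (.inl S.v) s(S.u, S.v)))
  have hE := Dat.evop_loc (C := C) a h.decA ev
  have ho := h.oo_notA
  have n1 : ∀ f ∈ m₁, ¬ Invo ev f := fun f hf => ((k₁.mem f).1 hf).1.2.1
  have n2 : ∀ f ∈ m₂, ¬ Invo ev f := fun f hf => ((k₂.mem f).1 hf).1.2.1
  have n3 := hs _ (side_lam (S.D.lev ev))
  have n4 := hs _ (side_rho (S.D.lev ev))
  rw [Hat_mid c.um c.mw, Hat_mid c.up c.pw, em, ep, h.lam_near c.nm hv, h.lam_near c.np hv,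
    h.rho_near c.nm hv, h.rho_near c.np hv, ← h.evA_eq hs]
  simp only [TL_append]
  rw [loc_comm (QR_loc _) hE (by grind), loc_comm (TL_loc m₂) hE (by grind),
    h.core_free ha c hsg hs km kp, loc_comm (TL_loc m₁) hE (by grind),
    loc_comm (PL_loc _) hE (by grind)]
  intro k h1 h2 h3
  have := h.oo_ne (mem_G h1)
  exact ((hF k (Or.inr h3)).loc (QR_loc _) (by grind)).loc (TL_loc _) (by grind)

end OK

end Setup

end Pool.Agent.P.MP_382f0d_gt

/-! Crossings with the sides of the triangle. -/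

namespace Pool.Agent.P.MP_382f0d_gt

variable {V C : Type} [DecidableEq V] [Fintype C] [DecidableEq C]

set_option linter.unusedSectionVars false

@[simp] theorem sgn_not (ε : Bool) : sgn (!ε) = -sgn ε := by cases ε <;> simp [sgn]

namespace Setup

variable {S : Setup V} {a : ℂ} {ε : Sym2 V → Bool}

namespace OK

variable (h : S.OK)
include h

theorem eps_side {s g : Sym2 V} (hs : S.Side s) (hg : g ∈ S.R) {t : ℝ} (hsg : S.Sg ε t)
    (h1 : S.D.lo s ≤ t) (h2 : t ≤ S.D.hi s) (h3 : S.D.lo g ≤ t) (h4 : t ≤ S.D.hi g)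
    (hx : S.D.X s t = S.D.X g t) (hz : S.D.Z s t ≠ S.D.Z g t) :
    (S.D.Z g t < S.D.Z s t ↔ ε g = true) ∧ (S.D.Z s t < S.D.Z g t ↔ ε g = false) := by
  have := hsg g hg h3 h4 _ (hx ▸ h.inT_side hs h1 h2)
  cases hε : ε g
  · have k := (this.2 hε).lt_of_ne hz
    simp [k, k.not_gt]
  · have k := (this.1 hε).lt_of_ne hz.symm
    simp [k, k.not_gt]

theorem xop_sg {s g : Sym2 V} (hs : S.Side s) (hg : g ∈ S.R) (hc : S.D.IsCross s g)
    (hsg : S.Sg ε (S.D.lev (.inr (s, g)))) (F : Fn (Lb V) C) :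
    S.D.xop a s g F = kap a ^ (-(S.om s * S.om g * sgn (ε g))) •
      xx (pm a (ε g)) [(s, 0)] (S.D.cab g) F := by
  have e : S.D.eps s g = ε g := by
    have := (h.eps_side hs hg hsg hc.2.1.le hc.2.2.1.le hc.2.2.2.1.le hc.2.2.2.2.le
      (Geo.X_lev hc.1.ne) (h.gen.g4 s hs.mem g (mem_G hg) hc)).1
    unfold Dat.eps
    cases hε : ε g <;> simp [this, hε]
  rw [Dat.xop, e, (h.mu s hs g hg).1, Dat.cab_one (h.th1 s hs)]
  rfl

theorem xop_gs {s g : Sym2 V} (hs : S.Side s) (hg : g ∈ S.R) (hc : S.D.IsCross g s)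
    (hsg : S.Sg ε (S.D.lev (.inr (g, s)))) (F : Fn (Lb V) C) :
    S.D.xop a g s F = kap a ^ (S.om s * S.om g * sgn (ε g)) •
      xx (pm a (ε g))⁻¹ (S.D.cab g) [(s, 0)] F := by
  have e : S.D.eps g s = !ε g := by
    have := (h.eps_side hs hg hsg hc.2.2.2.1.le hc.2.2.2.2.le hc.2.1.le hc.2.2.1.le
      (Geo.X_lev hc.1.ne).symm (h.gen.g4 g (mem_G hg) s hs.mem hc).symm).2
    unfold Dat.eps
    cases hε : ε g <;> simp [this, hε]
  rw [Dat.xop, e, (h.mu s hs g hg).2, Dat.cab_one (h.th1 s hs), pm_not, sgn_not]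
  simp

variable {ev : Ev V} {tm tp : ℝ}

theorem pres_left {t : ℝ} (n : S.D.Near S.G ev t) (h1 : S.D.y S.u < t) (h2 : t < S.D.y S.w)
    (k1 : S.D.y S.u < S.D.lev ev) (k2 : S.D.lev ev < S.D.y S.w)
    (hl : Invo ev (S.lam t)) (hr : ¬ Invo ev (S.rho t)) {g : Sym2 V} (hg : g ∈ S.R)
    (hi : Invo ev g) (ha : S.D.lo g < t ∧ t < S.D.hi g) :
    S.Pres t g ↔ S.D.X (S.lam t) t < S.D.X g t := by
  refine ⟨fun k => k.2.2.1, fun k => ⟨hg, ha, k, ?_⟩⟩
  rw [h.right_iff n h1 h2 hg ha fun k => hr k.2, h.gen.X_inv n.hev (mem_G hg) hi,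
    ← h.gen.X_inv n.hev (side_lam t).mem hl, h.X_lam n]
  exact h.lam_lt_rho' k1 k2

theorem pres_right {t : ℝ} (n : S.D.Near S.G ev t) (h1 : S.D.y S.u < t) (h2 : t < S.D.y S.w)
    (k1 : S.D.y S.u < S.D.lev ev) (k2 : S.D.lev ev < S.D.y S.w)
    (hl : ¬ Invo ev (S.lam t)) (hr : Invo ev (S.rho t)) {g : Sym2 V} (hg : g ∈ S.R)
    (hi : Invo ev g) (ha : S.D.lo g < t ∧ t < S.D.hi g) :
    S.Pres t g ↔ S.D.X g t < S.D.X (S.rho t) t := by
  refine ⟨fun k => k.2.2.2, fun k => ⟨hg, ha, ?_, k⟩⟩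
  rw [h.left_iff n h1 h2 hg ha fun k => hl k.1, h.gen.X_inv n.hev (mem_G hg) hi,
    ← h.gen.X_inv n.hev (side_rho t).mem hr, h.X_rho n]
  exact h.lam_lt_rho' k1 k2

theorem dec_left (c : S.Ctx ev tm tp) (hl : Invo ev (S.lam tm)) :
    ∃ m im ip, (∀ f ∈ m, f ∈ S.R ∧ ¬ Invo ev f) ∧
      Srt (fun f => S.D.X f tm) (fun f => S.Pres tm f ∧ Invo ev f) im ∧
      Srt (fun f => S.D.X f tp) (fun f => S.Pres tp f ∧ Invo ev f) ip ∧
      S.lst tm = im ++ m ∧ S.lst tp = ip ++ m := by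
  obtain ⟨m₁, k₁⟩ := h.exists_mid c.nm.hev fun f => S.D.X f (S.D.lev ev) < S.D.evx ev
  obtain ⟨m₂, k₂⟩ := h.exists_mid c.nm.hev fun f => S.D.evx ev < S.D.X f (S.D.lev ev)
  obtain ⟨im, km, em⟩ := h.decomp c.nm c.um c.mw k₁ k₂
  obtain ⟨ip, kp, ep⟩ := h.decomp c.np c.up c.pw k₁ k₂
  have e : m₁ = [] := k₁.eq_nil fun f hf => by
    have h1 := hf.1.2.2.2.1
    rw [← h.X_lam c.nm, h.gen.X_inv c.nm.hev (side_lam tm).mem hl] at h1
    exact h1.not_gt hf.2
  rw [e, List.nil_append] at em ep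
  exact ⟨m₂, im, ip, fun f hf => ⟨((k₂.mem f).1 hf).1.1, ((k₂.mem f).1 hf).1.2.1⟩, km, kp, em, ep⟩

theorem dec_right (c : S.Ctx ev tm tp) (hl : Invo ev (S.rho tm)) :
    ∃ m im ip, (∀ f ∈ m, f ∈ S.R ∧ ¬ Invo ev f) ∧
      Srt (fun f => S.D.X f tm) (fun f => S.Pres tm f ∧ Invo ev f) im ∧
      Srt (fun f => S.D.X f tp) (fun f => S.Pres tp f ∧ Invo ev f) ip ∧
      S.lst tm = m ++ im ∧ S.lst tp = m ++ ip := by
  obtain ⟨m₁, k₁⟩ := h.exists_mid c.nm.hev fun f => S.D.X f (S.D.lev ev) < S.D.evx ev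
  obtain ⟨m₂, k₂⟩ := h.exists_mid c.nm.hev fun f => S.D.evx ev < S.D.X f (S.D.lev ev)
  obtain ⟨im, km, em⟩ := h.decomp c.nm c.um c.mw k₁ k₂
  obtain ⟨ip, kp, ep⟩ := h.decomp c.np c.up c.pw k₁ k₂
  have e : m₂ = [] := k₂.eq_nil fun f hf => by
    have h1 := hf.1.2.2.2.2
    rw [← h.X_rho c.nm, h.gen.X_inv c.nm.hev (side_rho tm).mem hl] at h1
    exact h1.not_gt hf.2
  rw [e, List.append_nil] at em ep
  exact ⟨m₁, im, ip, fun f hf => ⟨((k₁.mem f).1 hf).1.1, ((k₁.mem f).1 hf).1.2.1⟩, km, kp, em, ep⟩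

theorem lev_ne_v {p : Sym2 V × Sym2 V} (hev : S.D.IsEv S.G (.inr p)) :
    S.D.lev (.inr p) ≠ S.D.y S.v := fun e => by
  have := h.gen.g3 _ _ h.ev_v hev e.symm
  cases this

theorem step_lx (ha : Good C a) {s g : Sym2 V} (c : S.Ctx (.inr (s, g)) tm tp)
    (hsg : S.Sg ε (S.D.lev (.inr (s, g)))) (hs : s = S.lam tm) (hg : g ∈ S.R) {F : Fn (Lb V) C}
    (hF : S.Fut (S.D.lev (.inr (s, g))) F) :
    S.Hat a ε tm (S.D.evop a S.A (.inr (s, g)) F) =
      S.D.evop a S.B (.inr (s, g)) (S.Hat a ε tp F) := by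
  have hv := h.lev_ne_v c.nm.hev
  have hc : S.D.IsCross s g := c.nm.hev.2.2
  have hs' : s = S.lam tp := by rw [h.lam_near c.np hv, ← h.lam_near c.nm hv, hs]
  have hr : S.rho tp = S.rho tm := by rw [h.rho_near c.np hv, ← h.rho_near c.nm hv]
  have ss : S.Side s := hs ▸ side_lam tm
  have sr := side_rho (S := S) tm
  have nr := h.nR _ sr
  have ns := h.nR _ ss
  have hne := h.lam_ne_rho tm tm
  have i1 : Invo (.inr (s, g)) s := Or.inl rfl
  have i2 : Invo (.inr (s, g)) g := Or.inr rfl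
  have i3 : ¬ Invo (.inr (s, g)) (S.rho tm) := by unfold Invo; grind
  have u0 := c.um.trans c.lt1
  have w0 := c.lt2.trans c.pw
  obtain ⟨m, im, ip, hm, km, kp, em, ep⟩ := h.dec_left c (hs ▸ i1)
  have uq : ∀ t f, S.Pres t f → Invo (.inr (s, g)) f → f = g := fun t f k1 k2 => by
    have := k1.1; unfold Invo at k2; grind
  have e1 := (srt_le_one km i2 (uq tm)).1 ((h.pres_left c.nm c.um c.mw u0 w0 (hs ▸ i1) i3 hg i2
    (c.nm.alive' (mem_G hg) hc.2.2.2)).2
      (hs ▸ (c.nm.order_down h.gen c.lt1 ss.mem (mem_G hg) i1 i2).2 hc.1))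
  have e2 := (srt_le_one kp i2 (uq tp)).2 fun k => hc.1.not_gt
    ((c.np.order_up h.gen c.lt2 ss.mem (mem_G hg) i1 i2).1 (hs' ▸ k.2.2.1))
  have hE := Dat.evop_loc (C := C) a h.decA (.inr (s, g))
  have ho := h.oo_notA
  have ho2 := h.oo_ne' ss.mem 0
  have om := h.om_lam tm
  have := kap_ne ha
  rw [Hat_mid c.um c.mw, Hat_mid c.up c.pw, em, ep, e1, e2, hr, ← hs, ← hs']
  simp only [List.cons_append, List.nil_append, TL_cons]
  rw [loc_comm (QR_loc _) hE (by grind), loc_comm (TL_loc m) hE (by grind)]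
  rw [← hs] at om
  by_cases hA : s ∈ S.A
  · rw [Dat.evop_ncross a (Or.inl (h.notB ss hA)), Dat.evop_cross a hA (h.RA hg),
      h.xop_sg ss hg hc hsg, PL_A hA, Tw_apply, om, bA_A hA]
    simp only [map_smul, Module.End.one_apply]
    rw [l_A_exit (ha.pm _) (h.nodup_cab hg ss), smul_smul, ← zpow_add₀ this]
    simp
  · rw [Dat.evop_ncross a (Or.inl hA), Dat.evop_cross a (h.inB ss hA) (h.RB hg),
      h.xop_sg ss hg hc hsg, PL_B hA, Tw_apply, om, bA_B hA]
    simp only [map_smul, Module.End.one_apply, mul_one]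
    rw [l_B_exit (h.nodup_cab hg ss)]
    exact ((hF _ (Or.inl hA)).loc (QR_loc _) (by grind)).loc (TL_loc _) (by grind)

theorem step_ln (ha : Good C a) {s g : Sym2 V} (c : S.Ctx (.inr (g, s)) tm tp)
    (hsg : S.Sg ε (S.D.lev (.inr (g, s)))) (hs : s = S.lam tm) (hg : g ∈ S.R) {F : Fn (Lb V) C}
    (hF : S.Fut (S.D.lev (.inr (g, s))) F) :
    S.Hat a ε tm (S.D.evop a S.A (.inr (g, s)) F) =
      S.D.evop a S.B (.inr (g, s)) (S.Hat a ε tp F) := by
  have hv := h.lev_ne_v c.nm.hev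
  have hc : S.D.IsCross g s := c.nm.hev.2.2
  have hs' : s = S.lam tp := by rw [h.lam_near c.np hv, ← h.lam_near c.nm hv, hs]
  have hr : S.rho tp = S.rho tm := by rw [h.rho_near c.np hv, ← h.rho_near c.nm hv]
  have ss : S.Side s := hs ▸ side_lam tm
  have sr := side_rho (S := S) tm
  have nr := h.nR _ sr
  have ns := h.nR _ ss
  have hne := h.lam_ne_rho tm tm
  have i1 : Invo (.inr (g, s)) s := Or.inr rfl
  have i2 : Invo (.inr (g, s)) g := Or.inl rfl
  have i3 : ¬ Invo (.inr (g, s)) (S.rho tm) := by unfold Invo; grind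
  have u0 := c.um.trans c.lt1
  have w0 := c.lt2.trans c.pw
  obtain ⟨m, im, ip, hm, km, kp, em, ep⟩ := h.dec_left c (hs ▸ i1)
  have uq : ∀ t f, S.Pres t f → Invo (.inr (g, s)) f → f = g := fun t f k1 k2 => by
    have := k1.1; unfold Invo at k2; grind
  have e1 := (srt_le_one kp i2 (uq tp)).1 ((h.pres_left c.np c.up c.pw u0 w0 (hs' ▸ i1) (hr ▸ i3)
    hg i2 (c.np.alive' (mem_G hg) ⟨hc.2.1, hc.2.2.1⟩)).2
      (hs' ▸ (c.np.order_up h.gen c.lt2 ss.mem (mem_G hg) i1 i2).2 hc.1))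
  have e2 := (srt_le_one km i2 (uq tm)).2 fun k => hc.1.not_gt
    ((c.nm.order_down h.gen c.lt1 ss.mem (mem_G hg) i1 i2).1 (hs ▸ k.2.2.1))
  have hE := Dat.evop_loc (C := C) a h.decA (.inr (g, s))
  have ho := h.oo_notA
  have ho2 := h.oo_ne' ss.mem 0
  have om := h.om_lam tm
  have := kap_ne ha
  rw [Hat_mid c.um c.mw, Hat_mid c.up c.pw, em, ep, e1, e2, hr, ← hs, ← hs']
  simp only [List.cons_append, List.nil_append, TL_cons]
  rw [loc_comm (QR_loc _) hE (by grind), loc_comm (TL_loc m) hE (by grind)]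
  rw [← hs] at om
  by_cases hA : s ∈ S.A
  · rw [Dat.evop_ncross a (Or.inr (h.notB ss hA)), Dat.evop_cross a (h.RA hg) hA,
      h.xop_gs ss hg hc hsg, PL_A hA, Tw_apply, om, bA_A hA]
    simp only [map_smul, Module.End.one_apply]
    rw [l_A_enter (h.nodup_cab hg ss)]
    simp
  · rw [Dat.evop_ncross a (Or.inr hA), Dat.evop_cross a (h.RB hg) (h.inB ss hA),
      h.xop_gs ss hg hc hsg, PL_B hA, Tw_apply, om, bA_B hA]
    simp only [map_smul, Module.End.one_apply, mul_one]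
    rw [← l_B_enter (ha.pm _) (h.nodup_cab hg ss), smul_smul, ← zpow_add₀ this]
    · simp
    exact ((hF _ (Or.inl hA)).loc (QR_loc _) (by grind)).loc (TL_loc _) (by grind)

theorem step_rn (ha : Good C a) {s g : Sym2 V} (c : S.Ctx (.inr (s, g)) tm tp)
    (hsg : S.Sg ε (S.D.lev (.inr (s, g)))) (hs : s = S.rho tm) (hg : g ∈ S.R) {F : Fn (Lb V) C}
    (hF : S.Fut (S.D.lev (.inr (s, g))) F) :
    S.Hat a ε tm (S.D.evop a S.A (.inr (s, g)) F) =
      S.D.evop a S.B (.inr (s, g)) (S.Hat a ε tp F) := by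
  have hv := h.lev_ne_v c.nm.hev
  have hc : S.D.IsCross s g := c.nm.hev.2.2
  have hs' : s = S.rho tp := by rw [h.rho_near c.np hv, ← h.rho_near c.nm hv, hs]
  have hr : S.lam tp = S.lam tm := by rw [h.lam_near c.np hv, ← h.lam_near c.nm hv]
  have ss : S.Side s := hs ▸ side_rho tm
  have sr := side_lam (S := S) tm
  have nr := h.nR _ sr
  have ns := h.nR _ ss
  have hne := h.lam_ne_rho tm tm
  have i1 : Invo (.inr (s, g)) s := Or.inl rfl
  have i2 : Invo (.inr (s, g)) g := Or.inr rfl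
  have i3 : ¬ Invo (.inr (s, g)) (S.lam tm) := by unfold Invo; grind
  have u0 := c.um.trans c.lt1
  have w0 := c.lt2.trans c.pw
  obtain ⟨m, im, ip, hm, km, kp, em, ep⟩ := h.dec_right c (hs ▸ i1)
  have uq : ∀ t f, S.Pres t f → Invo (.inr (s, g)) f → f = g := fun t f k1 k2 => by
    have := k1.1; unfold Invo at k2; grind
  have e1 := (srt_le_one kp i2 (uq tp)).1 ((h.pres_right c.np c.up c.pw u0 w0 (hr ▸ i3) (hs' ▸ i1)
    hg i2 (c.np.alive' (mem_G hg) hc.2.2.2)).2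
      (hs' ▸ (c.np.order_up h.gen c.lt2 (mem_G hg) ss.mem i2 i1).2 hc.1))
  have e2 := (srt_le_one km i2 (uq tm)).2 fun k => hc.1.not_gt
    ((c.nm.order_down h.gen c.lt1 (mem_G hg) ss.mem i2 i1).1 (hs ▸ k.2.2.2))
  have hE := Dat.evop_loc (C := C) a h.decB (.inr (s, g))
  have ho := h.oo_notB
  have ho2 := h.oo_ne' ss.mem 0
  have om := h.om_rho tm
  have := kap_ne ha
  have io := hF _ (Or.inl h.oo_notA)
  rw [Hat_mid c.um c.mw, Hat_mid c.up c.pw, em, ep, e1, e2, hr, ← hs, ← hs']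
  simp only [List.append_nil, TL_append, TL_cons, TL_nil]
  rw [loc_comm hE (PL_loc _) (by grind), loc_comm hE (TL_loc m) (by grind)]
  congr 2
  rw [← hs] at om
  by_cases hA : s ∈ S.A
  · rw [Dat.evop_ncross a (Or.inl (h.notB ss hA)), Dat.evop_cross a hA (h.RA hg),
      h.xop_sg ss hg hc hsg, QR_A hA, Tw_apply, om, bA_A hA]
    simp only [map_smul, Module.End.one_apply]
    rw [r_A_enter (h.nodup_cab hg ss) io]
    simp
  · rw [Dat.evop_ncross a (Or.inl hA), Dat.evop_cross a (h.inB ss hA) (h.RB hg),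
      h.xop_sg ss hg hc hsg, QR_B hA, Tw_apply, om, bA_B hA]
    simp only [map_smul, Module.End.one_apply, mul_one]
    rw [← r_B_enter (ha.pm _) (h.nodup_cab hg ss) io (hF _ (Or.inl hA)), smul_smul,
      ← zpow_add₀ this]
    simp

theorem step_rx (ha : Good C a) {s g : Sym2 V} (c : S.Ctx (.inr (g, s)) tm tp)
    (hsg : S.Sg ε (S.D.lev (.inr (g, s)))) (hs : s = S.rho tm) (hg : g ∈ S.R) {F : Fn (Lb V) C}
    (hF : S.Fut (S.D.lev (.inr (g, s))) F) :
    S.Hat a ε tm (S.D.evop a S.A (.inr (g, s)) F) =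
      S.D.evop a S.B (.inr (g, s)) (S.Hat a ε tp F) := by
  have hv := h.lev_ne_v c.nm.hev
  have hc : S.D.IsCross g s := c.nm.hev.2.2
  have hs' : s = S.rho tp := by rw [h.rho_near c.np hv, ← h.rho_near c.nm hv, hs]
  have hr : S.lam tp = S.lam tm := by rw [h.lam_near c.np hv, ← h.lam_near c.nm hv]
  have ss : S.Side s := hs ▸ side_rho tm
  have sr := side_lam (S := S) tm
  have nr := h.nR _ sr
  have ns := h.nR _ ss
  have hne := h.lam_ne_rho tm tm
  have i1 : Invo (.inr (g, s)) s := Or.inr rfl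
  have i2 : Invo (.inr (g, s)) g := Or.inl rfl
  have i3 : ¬ Invo (.inr (g, s)) (S.lam tm) := by unfold Invo; grind
  have u0 := c.um.trans c.lt1
  have w0 := c.lt2.trans c.pw
  obtain ⟨m, im, ip, hm, km, kp, em, ep⟩ := h.dec_right c (hs ▸ i1)
  have uq : ∀ t f, S.Pres t f → Invo (.inr (g, s)) f → f = g := fun t f k1 k2 => by
    have := k1.1; unfold Invo at k2; grind
  have e1 := (srt_le_one km i2 (uq tm)).1 ((h.pres_right c.nm c.um c.mw u0 w0 i3 (hs ▸ i1)
    hg i2 (c.nm.alive' (mem_G hg) ⟨hc.2.1, hc.2.2.1⟩)).2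
      (hs ▸ (c.nm.order_down h.gen c.lt1 (mem_G hg) ss.mem i2 i1).2 hc.1))
  have e2 := (srt_le_one kp i2 (uq tp)).2 fun k => hc.1.not_gt
    ((c.np.order_up h.gen c.lt2 (mem_G hg) ss.mem i2 i1).1 (hs' ▸ k.2.2.2))
  have hE := Dat.evop_loc (C := C) a h.decB (.inr (g, s))
  have ho := h.oo_notB
  have ho2 := h.oo_ne' ss.mem 0
  have om := h.om_rho tm
  have := kap_ne ha
  have io := hF _ (Or.inl h.oo_notA)
  rw [Hat_mid c.um c.mw, Hat_mid c.up c.pw, em, ep, e1, e2, hr, ← hs, ← hs']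
  simp only [List.append_nil, TL_append, TL_cons, TL_nil]
  rw [loc_comm hE (PL_loc _) (by grind), loc_comm hE (TL_loc m) (by grind)]
  congr 2
  rw [← hs] at om
  by_cases hA : s ∈ S.A
  · rw [Dat.evop_ncross a (Or.inr (h.notB ss hA)), Dat.evop_cross a (h.RA hg) hA,
      h.xop_gs ss hg hc hsg, QR_A hA, Tw_apply, om, bA_A hA]
    simp only [map_smul, Module.End.one_apply]
    rw [r_A_exit (ha.pm _) (h.nodup_cab hg ss) io, smul_smul, ← zpow_add₀ this]
    simp
  · rw [Dat.evop_ncross a (Or.inr hA), Dat.evop_cross a (h.RB hg) (h.inB ss hA),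
      h.xop_gs ss hg hc hsg, QR_B hA, Tw_apply, om, bA_B hA]
    simp only [Module.End.one_apply, mul_one]
    rw [r_B_exit (h.nodup_cab hg ss) io (hF _ (Or.inl hA))]
    simp

end OK

end Setup

end Pool.Agent.P.MP_382f0d_gt

/-! Events at the vertices of the triangle. -/

namespace Pool.Agent.P.MP_382f0d_gt

variable {V C : Type} [DecidableEq V] [Fintype C] [DecidableEq C]

set_option linter.unusedSectionVars false

namespace Setup

variable {S : Setup V} {a : ℂ} {ε : Sym2 V → Bool}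

namespace OK

variable (h : S.OK)
include h

theorem dj_zero {x : V} (hx : x = S.u ∨ x = S.v ∨ x = S.w) : S.D.dj x = 0 := by
  by_contra hj
  have hx' : ∃ e ∈ S.G, x ∈ e := by
    rcases hx with rfl | rfl | rfl
    exacts [h.ev_u, h.ev_v, h.ev_w]
  have := h.dec x hx' hj
  tauto

theorem vtx_A {x : V} {p q : Sym2 V} (hj : S.D.dj x = 0) (hp : S.Side p) (hq : S.Side q)
    (hpq : p ≠ q) (hxp : x ∈ p) (hxq : x ∈ q) (hx : ∀ s, S.Side s → x ∈ s → s = p ∨ s = q)
    (pA : p ∈ S.A) (qA : q ∈ S.A) : (∀ f ∈ S.R, x ∉ f) ∧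
      (S.D.evop a S.A (.inl x) : Op (Lb V) C) = jn (p, 0) (q, 0) (S.D.top p x) (S.D.top q x) ∧
      (S.D.evop a S.B (.inl x) : Op (Lb V) C) = 1 := by
  have t := (h.regA.two pA qA hxp hxq hpq).1
  have n : ∀ f ∈ S.R, x ∉ f := fun f hf hxf => by
    have := (t.2 f).1 ⟨h.RA hf, hxf⟩
    have := h.nR p hp
    have := h.nR q hq
    grind
  refine ⟨n, Dat.evop_thin a t (h.th1 p hp) (h.th1 q hq) hj, Dat.evop_none a fun e he hxe => ?_⟩
  rcases h.memB he with k | k
  · exact n e k hxe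
  · rcases hx e k hxe with rfl | rfl
    exacts [h.notB k pA he, h.notB k qA he]

theorem vtx_B {x : V} {p q : Sym2 V} (hj : S.D.dj x = 0) (hp : S.Side p) (hq : S.Side q)
    (hpq : p ≠ q) (hxp : x ∈ p) (hxq : x ∈ q) (hx : ∀ s, S.Side s → x ∈ s → s = p ∨ s = q)
    (pA : p ∉ S.A) (qA : q ∉ S.A) : (∀ f ∈ S.R, x ∉ f) ∧
      (S.D.evop a S.A (.inl x) : Op (Lb V) C) = 1 ∧
      (S.D.evop a S.B (.inl x) : Op (Lb V) C) = jn (p, 0) (q, 0) (S.D.top p x) (S.D.top q x) := by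
  have t := (h.regB.two (h.inB hp pA) (h.inB hq qA) hxp hxq hpq).1
  have n : ∀ f ∈ S.R, x ∉ f := fun f hf hxf => by
    have := (t.2 f).1 ⟨h.RB hf, hxf⟩
    have := h.nR p hp
    have := h.nR q hq
    grind
  refine ⟨n, Dat.evop_none a fun e he hxe => ?_, Dat.evop_thin a t (h.th1 p hp) (h.th1 q hq) hj⟩
  rcases h.memA he with k | k
  · exact n e k hxe
  · rcases hx e k hxe with rfl | rfl
    exacts [pA he, qA he]

theorem vtx_M {x : V} {p q : Sym2 V} (hv : x = S.u ∨ x = S.v ∨ x = S.w) (hp : S.Side p)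
    (hq : S.Side q) (hxp : x ∈ p) (hxq : x ∈ q) (hx : ∀ s, S.Side s → x ∈ s → s = p ∨ s = q)
    (pA : p ∈ S.A) (qA : q ∉ S.A) : ∃ f ∈ S.R, x ∈ f ∧ (∀ g ∈ S.R, x ∈ g → g = f) ∧
      S.D.cab f = [(f, 0)] ∧ S.om f * S.om f = 1 ∧
      S.om p * S.D.tau p x + S.om f * S.D.tau f x = 0 ∧
      (S.D.evop a S.A (.inl x) : Op (Lb V) C) = jn (p, 0) (f, 0) (S.D.top p x) (S.D.top f x) ∧
      (S.D.evop a S.B (.inl x) : Op (Lb V) C) = jn (f, 0) (q, 0) (S.D.top f x) (S.D.top q x) := by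
  obtain ⟨f, hf, t1, t2, th, k1, -⟩ := h.mixed hp hq pA qA hxp hxq hx
  have hj := h.dj_zero hv
  refine ⟨f, hf, t1.right.2, fun g hg hxg => ?_, Dat.cab_one th, h.unit f hf ?_, k1,
    Dat.evop_thin a t1 (h.th1 p hp) th hj, Dat.evop_thin a t2.symm th (h.th1 q hq) hj⟩
  · have := (t1.2 g).1 ⟨h.RA hg, hxg⟩
    have := h.nR p hp
    grind
  · have := t1.right.2
    grind

variable {tm tp : ℝ}

theorem not_alive_up {x : V} {t : ℝ} (n : S.D.Near S.G (.inl x) t) (ht : S.D.y x < t)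
    {f : Sym2 V} (hf : S.Pres t f) : S.D.y x < S.D.hi f :=
  ((n.alive_up ht (mem_G hf.1)).1 hf.2.1).2

theorem not_alive_down {x : V} {t : ℝ} (n : S.D.Near S.G (.inl x) t) (ht : t < S.D.y x)
    {f : Sym2 V} (hf : S.Pres t f) (hx : x ∈ f) : S.D.y x = S.D.hi f :=
  (Geo.lo_or_hi hx).resolve_left ((n.alive_down ht (mem_G hf.1)).1 hf.2.1).1.ne'

theorem step_vl (ha : Good C a) (c : S.Ctx (.inl S.v) tm tp) (hv : S.vl) {F : Fn (Lb V) C}
    (hF : S.Fut (S.D.y S.v) F) :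
    S.Hat a ε tm (S.D.evop a S.A (.inl S.v) F) =
      S.D.evop a S.B (.inl S.v) (S.Hat a ε tp F) := by
  have l1 : S.lam tm = s(S.u, S.v) := by rw [lam, if_pos hv, sh_lt c.lt1]
  have l2 : S.lam tp = s(S.v, S.w) := by rw [lam, if_pos hv, sh_ge c.lt2.le]
  have r1 : ∀ t, S.rho t = s(S.u, S.w) := fun t => by rw [rho, if_pos hv]
  obtain ⟨m, im, ip, hm, km, kp, em, ep⟩ := h.dec_left c (by rw [l1]; simp [Invo])
  have hE := Dat.evop_loc (C := C) a h.decA (.inl S.v)
  have ho := h.oo_notA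
  have nl : ¬ Invo (.inl S.v) s(S.u, S.w) := by simp [Invo, h.uv.symm, h.vw]
  have o1 := h.oo_ne' side_1.mem 0
  have o2 := h.oo_ne' side_2.mem 0
  have n1 := h.nR _ side_1
  have n2 := h.nR _ side_2
  have d1 := h.l_ne_1
  have d2 := h.l_ne_2
  have d3 : (s(S.u, S.v), 0) ≠ (s(S.v, S.w), 0) := fun k => h.s1_ne_2 (congrArg Prod.fst k)
  have t1 : S.D.top s(S.u, S.v) S.v = true := Dat.top_hi h.hi_1.symm
  have t2 : S.D.top s(S.v, S.w) S.v = false := Dat.top_lo (by rw [h.hi_2]; exact h.hvw)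
  have hj := h.dj_zero (Or.inr (Or.inl rfl))
  have := kap_ne ha
  rw [Hat_mid c.um c.mw, Hat_mid c.up c.pw, em, ep, l1, l2, r1, r1]
  simp only [TL_append]
  rw [loc_comm (QR_loc _) hE (by grind), loc_comm (TL_loc m) hE (by grind)]
  have iG : ∀ k : Lb V, Invo (.inl S.v) k.1 → k ≠ S.oo → Ind k F →
      Ind k (S.TL a ε m (S.QR s(S.u, S.w) F)) := fun k k1 k2 k3 =>
    (k3.loc (QR_loc _) (by grind)).loc (TL_loc _) (by grind)
  have i1 := iG (s(S.u, S.v), 0) (by simp [Invo]) o1.symm (hF _ (Or.inr h.hi_1.le))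
  have i2 := fun k => iG (s(S.v, S.w), 0) (by simp [Invo]) o2.symm (hF _ (Or.inl k))
  generalize S.TL a ε m (S.QR s(S.u, S.w) F) = G at *
  by_cases pA : s(S.u, S.v) ∈ S.A <;> by_cases qA : s(S.v, S.w) ∈ S.A
  · obtain ⟨n, e1, e2⟩ := h.vtx_A (a := a) (C := C) hj side_1 side_2 h.s1_ne_2 (by simp) (by simp)
      h.at_v pA qA
    rw [km.eq_nil fun f hf => n f hf.1.1 hf.2, kp.eq_nil fun f hf => n f hf.1.1 hf.2, e1, e2,
      PL_A pA, PL_A qA, t1, t2]
    exact vl_AA d3 o2 i1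
  · obtain ⟨f, hf, hx, uq, cb, un, om, e1, e2⟩ := h.vtx_M (a := a) (C := C) (Or.inr (Or.inl rfl))
      side_1 side_2 (by simp) (by simp) h.at_v pA qA
    have o3 := h.oo_ne' (mem_G hf) 0
    have f1 : (f, 0) ≠ (s(S.u, S.v), 0) := by grind
    have f2 : (f, 0) ≠ (s(S.v, S.w), 0) := by grind
    have ol := h.om_lam tm
    rw [l1, bA_A pA] at ol
    rw [Dat.tau, Dat.tau, t1, ol] at om
    have sm := srt_le_one km (f := f) hx fun g k1 k2 => uq g k1.1 k2
    have sp := srt_le_one kp (f := f) hx fun g k1 k2 => uq g k1.1 k2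
    rw [e1, e2, PL_A pA, PL_B qA, t1, t2]
    by_cases cm : S.Pres tm f
    · have hy := h.not_alive_down c.nm c.lt1 cm hx
      have tf := Dat.top_hi hy
      rw [sm.1 cm, sp.2 fun k => (h.not_alive_up c.np c.lt2 k).ne hy, tf]
      rw [tf] at om
      simp only [sgn, if_true] at om
      simp only [TL_cons, TL_nil, Tw_apply, cb, tt_cons, tt_nil, map_smul]
      rw [vl_AB_down ha _ o1 o2 o3 f1 i1 (i2 qA) (iG _ hx o3.symm (hF _ (Or.inr hy.ge))), smul_smul,
        ← zpow_add₀ this, show S.o0 = S.om f by linarith, un]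
      simp
    · by_cases cp : S.Pres tp f
      · have tf := Dat.top_lo (h.not_alive_up c.np c.lt2 cp)
        rw [sm.2 cm, sp.1 cp, tf]
        rw [tf] at om
        simp only [sgn, if_true, Bool.false_eq_true, if_false] at om
        simp only [TL_cons, TL_nil, Tw_apply, cb, tt_cons, tt_nil, map_smul]
        rw [← vl_AB_up ha _ o2 o3 f1 f2 i1 (i2 qA), smul_smul,
          ← zpow_add₀ this, show S.o0 = -S.om f by linarith, neg_mul, un]
        simp
      · rw [sm.2 cm, sp.2 cp]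
        exact vl_AB o2 o3 f1 _ i1 (i2 qA)
  · exact absurd (h.ok qA) pA
  · obtain ⟨n, e1, e2⟩ := h.vtx_B (a := a) (C := C) hj side_1 side_2 h.s1_ne_2 (by simp) (by simp)
      h.at_v pA qA
    rw [km.eq_nil fun f hf => n f hf.1.1 hf.2, kp.eq_nil fun f hf => n f hf.1.1 hf.2, e1, e2,
      PL_B pA, PL_B qA, t1, t2]
    exact vl_BB o1 o2 (i2 qA)

theorem step_vr (ha : Good C a) (c : S.Ctx (.inl S.v) tm tp) (hv : ¬ S.vl) {F : Fn (Lb V) C}
    (hF : S.Fut (S.D.y S.v) F) :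
    S.Hat a ε tm (S.D.evop a S.A (.inl S.v) F) =
      S.D.evop a S.B (.inl S.v) (S.Hat a ε tp F) := by
  have l1 : S.rho tm = s(S.u, S.v) := by rw [rho, if_neg hv, sh_lt c.lt1]
  have l2 : S.rho tp = s(S.v, S.w) := by rw [rho, if_neg hv, sh_ge c.lt2.le]
  have r1 : ∀ t, S.lam t = s(S.u, S.w) := fun t => by rw [lam, if_neg hv]
  obtain ⟨m, im, ip, hm, km, kp, em, ep⟩ := h.dec_right c (by rw [l1]; simp [Invo])
  have hE := Dat.evop_loc (C := C) a h.decB (.inl S.v)
  have ho := h.oo_notB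
  have nl : ¬ Invo (.inl S.v) s(S.u, S.w) := by simp [Invo, h.uv.symm, h.vw]
  have o1 := h.oo_ne' side_1.mem 0
  have o2 := h.oo_ne' side_2.mem 0
  have n1 := h.nR _ side_1
  have n2 := h.nR _ side_2
  have d1 := h.l_ne_1
  have d2 := h.l_ne_2
  have d3 : (s(S.u, S.v), 0) ≠ (s(S.v, S.w), 0) := fun k => h.s1_ne_2 (congrArg Prod.fst k)
  have t1 : S.D.top s(S.u, S.v) S.v = true := Dat.top_hi h.hi_1.symm
  have t2 : S.D.top s(S.v, S.w) S.v = false := Dat.top_lo (by rw [h.hi_2]; exact h.hvw)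
  have hj := h.dj_zero (Or.inr (Or.inl rfl))
  have := kap_ne ha
  rw [Hat_mid c.um c.mw, Hat_mid c.up c.pw, em, ep, l1, l2, r1, r1]
  simp only [TL_append]
  rw [loc_comm hE (PL_loc _) (by grind), loc_comm hE (TL_loc m) (by grind)]
  congr 2
  have io := hF _ (Or.inl h.oo_notA)
  have i1 := hF (s(S.u, S.v), 0) (Or.inr h.hi_1.le)
  have i2 := fun k => hF (s(S.v, S.w), 0) (Or.inl k)
  by_cases pA : s(S.u, S.v) ∈ S.A <;> by_cases qA : s(S.v, S.w) ∈ S.A
  · obtain ⟨n, e1, e2⟩ := h.vtx_A (a := a) (C := C) hj side_1 side_2 h.s1_ne_2 (by simp) (by simp)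
      h.at_v pA qA
    rw [km.eq_nil fun f hf => n f hf.1.1 hf.2, kp.eq_nil fun f hf => n f hf.1.1 hf.2, e1, e2,
      QR_A pA, QR_A qA, t1, t2]
    exact vr_AA d3 o2 i1
  · obtain ⟨f, hf, hx, uq, cb, un, om, e1, e2⟩ := h.vtx_M (a := a) (C := C) (Or.inr (Or.inl rfl))
      side_1 side_2 (by simp) (by simp) h.at_v pA qA
    have o3 := h.oo_ne' (mem_G hf) 0
    have f1 : (f, 0) ≠ (s(S.u, S.v), 0) := by grind
    have f2 : (f, 0) ≠ (s(S.v, S.w), 0) := by grind
    have ol := h.om_rho tm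
    rw [l1, bA_A pA] at ol
    rw [Dat.tau, Dat.tau, t1, ol] at om
    have sm := srt_le_one km (f := f) hx fun g k1 k2 => uq g k1.1 k2
    have sp := srt_le_one kp (f := f) hx fun g k1 k2 => uq g k1.1 k2
    rw [e1, e2, QR_A pA, QR_B qA, t1, t2]
    by_cases cm : S.Pres tm f
    · have hy := h.not_alive_down c.nm c.lt1 cm hx
      have tf := Dat.top_hi hy
      rw [sm.1 cm, sp.2 fun k => (h.not_alive_up c.np c.lt2 k).ne hy, tf]
      rw [tf] at om
      simp only [sgn, if_true] at om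
      simp only [TL_cons, TL_nil, Tw_apply, cb, tt_cons, tt_nil]
      rw [vr_AB_down ha _ o1 o2 o3 f1 io i1 (i2 qA) (hF _ (Or.inr hy.ge)), smul_smul,
        ← zpow_add₀ this, show S.o0 = -S.om f by linarith, neg_mul, un]
      simp
    · by_cases cp : S.Pres tp f
      · have tf := Dat.top_lo (h.not_alive_up c.np c.lt2 cp)
        rw [sm.2 cm, sp.1 cp, tf]
        rw [tf] at om
        simp only [sgn, if_true, Bool.false_eq_true, if_false] at om
        simp only [TL_cons, TL_nil, Tw_apply, cb, tt_cons, tt_nil, map_smul]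
        rw [← vr_AB_up ha _ o2 o3 f1 f2 io i1 (i2 qA), smul_smul,
          ← zpow_add₀ this, show S.o0 = S.om f by linarith, un]
        simp
      · rw [sm.2 cm, sp.2 cp]
        exact vr_AB o2 o3 f1 _ i1 (i2 qA)
  · exact absurd (h.ok qA) pA
  · obtain ⟨n, e1, e2⟩ := h.vtx_B (a := a) (C := C) hj side_1 side_2 h.s1_ne_2 (by simp) (by simp)
      h.at_v pA qA
    rw [km.eq_nil fun f hf => n f hf.1.1 hf.2, kp.eq_nil fun f hf => n f hf.1.1 hf.2, e1, e2,
      QR_B pA, QR_B qA, t1, t2]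
    exact vr_BB o1 o2 (i2 qA)

theorem pres_both {ev : Ev V} {t : ℝ} (n : S.D.Near S.G ev t) (h1 : S.D.y S.u < t)
    (h2 : t < S.D.y S.w) (hl : Invo ev (S.lam t)) (hr : Invo ev (S.rho t)) {f : Sym2 V}
    (hf : S.Pres t f) : Invo ev f := by
  by_contra hi
  have := (h.pres_iff n h1 h2 hi).1 hf
  have k1 := this.2.2.2.1
  have k2 := this.2.2.2.2
  rw [← h.X_lam n, h.gen.X_inv n.hev (side_lam t).mem hl] at k1
  rw [← h.X_rho n, h.gen.X_inv n.hev (side_rho t).mem hr] at k2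
  exact k1.not_gt k2

theorem lr_low {t : ℝ} (ht : t < S.D.y S.v) :
    (S.lam t = s(S.u, S.w) ∧ S.rho t = s(S.u, S.v)) ∨
      (S.lam t = s(S.u, S.v) ∧ S.rho t = s(S.u, S.w)) := by
  unfold lam rho
  rw [sh_lt ht]
  split_ifs <;> simp

theorem lr_high {t : ℝ} (ht : S.D.y S.v ≤ t) :
    (S.lam t = s(S.u, S.w) ∧ S.rho t = s(S.v, S.w)) ∨
      (S.lam t = s(S.v, S.w) ∧ S.rho t = s(S.u, S.w)) := by
  unfold lam rho
  rw [sh_ge ht]
  split_ifs <;> simp

theorem step_u (ha : Good C a) (hm : tm < S.D.y S.u) (np : S.D.Near S.G (.inl S.u) tp)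
    (hp : S.D.y S.u < tp) {F : Fn (Lb V) C} (hF : S.Fut (S.D.y S.u) F) :
    S.Hat a ε tm (S.D.evop a S.A (.inl S.u) F) =
      S.D.evop a S.B (.inl S.u) (S.Hat a ε tp F) := by
  have pv : tp < S.D.y S.v := by
    have k := np.free _ h.ev_v
    have := h.huv
    simp only [Set.mem_sdiff, Set.mem_uIcc, Set.mem_singleton_iff, Geo.lev_inl] at k
    grind
  have pw := pv.trans h.hvw
  have lr := h.lr_low pv
  have sp := side_lam (S := S) tp
  have sq := side_rho (S := S) tp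
  have hpq := h.lam_ne_rho tp tp
  have xp : S.u ∈ S.lam tp := by rcases lr with k | k <;> simp [k]
  have xq : S.u ∈ S.rho tp := by rcases lr with k | k <;> simp [k]
  have hx : ∀ s, S.Side s → S.u ∈ s → s = S.lam tp ∨ s = S.rho tp := fun s k1 k2 => by
    have := h.at_u s k1 k2; grind
  have t1 : S.D.top (S.lam tp) S.u = false := Dat.top_lo (hp.trans (h.lam_al np hp pw).2)
  have t2 : S.D.top (S.rho tp) S.u = false := Dat.top_lo (hp.trans (h.rho_al np hp pw).2)
  have sc : (s(S.u, S.w) ∉ S.A ∧ s(S.u, S.v) ∉ S.A) ↔ (S.lam tp ∉ S.A ∧ S.rho tp ∉ S.A) := by grind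
  have kl := (h.lst_srt fun b hb => np.not_lev hb).congr (T := fun f => S.Pres tp f ∧ S.u ∈ f)
    fun f => ⟨fun k => ⟨k, h.pres_both np hp pw xp xq k⟩, fun k => k.1⟩
  have hj := h.dj_zero (Or.inl rfl)
  have o1 := h.oo_ne' sp.mem 0
  have o2 := h.oo_ne' sq.mem 0
  have n1 := h.nR _ sp
  have n2 := h.nR _ sq
  have d3 : (S.lam tp, 0) ≠ (S.rho tp, 0) := fun k => hpq (congrArg Prod.fst k)
  have io := hF _ (Or.inl h.oo_notA)
  have i1 := fun k => hF (S.lam tp, 0) (Or.inl k)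
  have i2 := fun k => hF (S.rho tp, 0) (Or.inl k)
  have ol := h.om_lam tp
  have or := h.om_rho tp
  have := kap_ne ha
  rw [Hat_mid hp pw, Hat, if_pos hm]
  simp only [LinearMap.smul_apply, Module.End.one_apply]
  by_cases pA : S.lam tp ∈ S.A <;> by_cases qA : S.rho tp ∈ S.A
  · obtain ⟨n, e1, e2⟩ := h.vtx_A (a := a) (C := C) hj sp sq hpq xp xq hx pA qA
    rw [kl.eq_nil fun f hf => n f hf.1.1 hf.2, e1, e2, PL_A pA, QR_A qA, t1, t2,
      if_neg fun k => (sc.1 k).1 pA, one_smul]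
    exact u_AA o2 d3 io
  · obtain ⟨f, hf, hxf, uq, cb, un, om, e1, e2⟩ := h.vtx_M (a := a) (C := C) (Or.inl rfl)
      sp sq xp xq hx pA qA
    have o3 := h.oo_ne' (mem_G hf) 0
    have f1 : (f, 0) ≠ (S.lam tp, 0) := by grind
    have f2 : (f, 0) ≠ (S.rho tp, 0) := by grind
    rw [bA_A pA] at ol
    rw [Dat.tau, Dat.tau, t1, ol] at om
    have sl := srt_le_one kl (f := f) hxf fun g k1 k2 => uq g k1.1 k2
    rw [e1, e2, PL_A pA, QR_B qA, t1, t2, if_neg fun k => (sc.1 k).1 pA, one_smul, jn_symm]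
    by_cases cp : S.Pres tp f
    · have tf := Dat.top_lo (h.not_alive_up np hp cp)
      rw [sl.1 cp, tf]
      rw [tf] at om
      simp only [sgn, Bool.false_eq_true, if_false] at om
      simp only [TL_cons, TL_nil, Tw_apply, cb, tt_cons, tt_nil, map_smul]
      rw [← u_AB_in ha _ o2 d3 f1 f2 o3 io (i2 qA), smul_smul,
        ← zpow_add₀ this, show S.o0 = S.om f by linarith, un]
      simp
    · rw [sl.2 cp]
      exact u_AB o2 d3 f1 _ io (i2 qA)
  · obtain ⟨f, hf, hxf, uq, cb, un, om, e1, e2⟩ := h.vtx_M (a := a) (C := C) (Or.inl rfl)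
      sq sp xq xp (fun s k1 k2 => (hx s k1 k2).symm) qA pA
    have o3 := h.oo_ne' (mem_G hf) 0
    have f1 : (f, 0) ≠ (S.lam tp, 0) := by grind
    have f2 : (f, 0) ≠ (S.rho tp, 0) := by grind
    rw [bA_A qA] at or
    rw [Dat.tau, Dat.tau, t2, or] at om
    have sl := srt_le_one kl (f := f) hxf fun g k1 k2 => uq g k1.1 k2
    rw [e1, e2, PL_B pA, QR_A qA, t1, t2, if_neg fun k => (sc.1 k).2 qA, one_smul, jn_symm]
    by_cases cp : S.Pres tp f
    · have tf := Dat.top_lo (h.not_alive_up np hp cp)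
      rw [sl.1 cp, tf]
      rw [tf] at om
      simp only [sgn, Bool.false_eq_true, if_false] at om
      simp only [TL_cons, TL_nil, Tw_apply, cb, tt_cons, tt_nil, map_smul]
      rw [← u_BA_in ha _ o1 o2 d3 f1 f2 o3 io (i1 pA), smul_smul,
        ← zpow_add₀ this, show S.o0 = -S.om f by linarith, neg_mul, un]
      simp
    · rw [sl.2 cp]
      exact u_BA o2 d3 f2 _ io (i1 pA)
  · obtain ⟨n, e1, e2⟩ := h.vtx_B (a := a) (C := C) hj sp sq hpq xp xq hx pA qA
    rw [kl.eq_nil fun f hf => n f hf.1.1 hf.2, e1, e2, PL_B pA, QR_B qA, t1, t2,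
      if_pos (sc.2 ⟨pA, qA⟩)]
    exact u_BB o2 d3 io (i1 pA) (i2 qA)

theorem step_w (ha : Good C a) (nm : S.D.Near S.G (.inl S.w) tm) (hm : tm < S.D.y S.w)
    (hp : S.D.y S.w < tp) {F : Fn (Lb V) C} (hF : S.Fut (S.D.y S.w) F) :
    S.Hat a ε tm (S.D.evop a S.A (.inl S.w) F) =
      S.D.evop a S.B (.inl S.w) (S.Hat a ε tp F) := by
  have pv : S.D.y S.v < tm := by
    have k := nm.free _ h.ev_v
    have := h.hvw
    simp only [Set.mem_sdiff, Set.mem_uIcc, Set.mem_singleton_iff, Geo.lev_inl] at k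
    grind
  have pw := h.huv.trans pv
  have lr := h.lr_high pv.le
  have sp := side_lam (S := S) tm
  have sq := side_rho (S := S) tm
  have hpq := h.lam_ne_rho tm tm
  have xp : S.w ∈ S.lam tm := by rcases lr with k | k <;> simp [k]
  have xq : S.w ∈ S.rho tm := by rcases lr with k | k <;> simp [k]
  have hx : ∀ s, S.Side s → S.w ∈ s → s = S.lam tm ∨ s = S.rho tm := fun s k1 k2 => by
    have := h.at_w s k1 k2; grind
  have y1 : S.D.y S.w = S.D.hi (S.lam tm) := by rcases lr with k | k <;> simp [k, h.huw.le, h.hvw.le]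
  have y2 : S.D.y S.w = S.D.hi (S.rho tm) := by rcases lr with k | k <;> simp [k, h.huw.le, h.hvw.le]
  have t1 : S.D.top (S.lam tm) S.w = true := Dat.top_hi y1
  have t2 : S.D.top (S.rho tm) S.w = true := Dat.top_hi y2
  have sc : (s(S.u, S.w) ∈ S.A ∧ s(S.v, S.w) ∈ S.A) ↔ (S.lam tm ∈ S.A ∧ S.rho tm ∈ S.A) := by grind
  have kl := (h.lst_srt fun b hb => nm.not_lev hb).congr (T := fun f => S.Pres tm f ∧ S.w ∈ f)
    fun f => ⟨fun k => ⟨k, h.pres_both nm pw hm xp xq k⟩, fun k => k.1⟩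
  have hj := h.dj_zero (Or.inr (Or.inr rfl))
  have o1 := h.oo_ne' sp.mem 0
  have o2 := h.oo_ne' sq.mem 0
  have n1 := h.nR _ sp
  have n2 := h.nR _ sq
  have d3 : (S.lam tm, 0) ≠ (S.rho tm, 0) := fun k => hpq (congrArg Prod.fst k)
  have io := hF _ (Or.inl h.oo_notA)
  have i1 := hF (S.lam tm, 0) (Or.inr y1.ge)
  have i2 := hF (S.rho tm, 0) (Or.inr y2.ge)
  have ol := h.om_lam tm
  have or := h.om_rho tm
  have := kap_ne ha
  rw [Hat_mid pw hm, Hat, if_neg (h.huw.trans hp).not_gt, if_pos hp]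
  simp only [LinearMap.smul_apply, Module.End.one_apply, map_smul]
  by_cases pA : S.lam tm ∈ S.A <;> by_cases qA : S.rho tm ∈ S.A
  · obtain ⟨n, e1, e2⟩ := h.vtx_A (a := a) (C := C) hj sp sq hpq xp xq hx pA qA
    rw [kl.eq_nil fun f hf => n f hf.1.1 hf.2, e1, e2, PL_A pA, QR_A qA, t1, t2,
      if_pos (sc.2 ⟨pA, qA⟩)]
    exact w_AA o2 d3 o1 io i1 i2
  · obtain ⟨f, hf, hxf, uq, cb, un, om, e1, e2⟩ := h.vtx_M (a := a) (C := C) (Or.inr (Or.inr rfl))
      sp sq xp xq hx pA qA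
    have o3 := h.oo_ne' (mem_G hf) 0
    have f1 : (f, 0) ≠ (S.lam tm, 0) := by grind
    have f2 : (f, 0) ≠ (S.rho tm, 0) := by grind
    rw [bA_A pA] at ol
    rw [Dat.tau, Dat.tau, t1, ol] at om
    have sl := srt_le_one kl (f := f) hxf fun g k1 k2 => uq g k1.1 k2
    rw [e1, e2, PL_A pA, QR_B qA, t1, t2, if_neg fun k => qA (sc.1 k).2, one_smul, jn_symm (f, 0)]
    by_cases cp : S.Pres tm f
    · have hy := h.not_alive_down nm hm cp hxf
      have tf := Dat.top_hi hy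
      rw [sl.1 cp, tf]
      rw [tf] at om
      simp only [sgn, if_true] at om
      simp only [TL_cons, TL_nil, Tw_apply, cb, tt_cons, tt_nil, map_smul]
      rw [w_AB_in ha _ o2 d3 o1 o3 f1 f2 io i1 (hF _ (Or.inr hy.ge)), smul_smul,
        ← zpow_add₀ this, show S.o0 = S.om f by linarith, un]
      simp
    · rw [sl.2 cp]
      exact w_AB o2 d3 o1 o3 f1 f2 _ io i1
  · obtain ⟨f, hf, hxf, uq, cb, un, om, e1, e2⟩ := h.vtx_M (a := a) (C := C) (Or.inr (Or.inr rfl))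
      sq sp xq xp (fun s k1 k2 => (hx s k1 k2).symm) qA pA
    have o3 := h.oo_ne' (mem_G hf) 0
    have f1 : (f, 0) ≠ (S.lam tm, 0) := by grind
    have f2 : (f, 0) ≠ (S.rho tm, 0) := by grind
    rw [bA_A qA] at or
    rw [Dat.tau, Dat.tau, t2, or] at om
    have sl := srt_le_one kl (f := f) hxf fun g k1 k2 => uq g k1.1 k2
    rw [e1, e2, PL_B pA, QR_A qA, t1, t2, if_neg fun k => pA (sc.1 k).1, one_smul, jn_symm (f, 0)]
    by_cases cp : S.Pres tm f
    · have hy := h.not_alive_down nm hm cp hxf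
      have tf := Dat.top_hi hy
      rw [sl.1 cp, tf]
      rw [tf] at om
      simp only [sgn, if_true] at om
      simp only [TL_cons, TL_nil, Tw_apply, cb, tt_cons, tt_nil, map_smul]
      rw [w_BA_in ha _ o2 d3 o3 f1 f2 io i2 (hF _ (Or.inr hy.ge)), smul_smul,
        ← zpow_add₀ this, show S.o0 = -S.om f by linarith, neg_mul, un]
      simp
    · rw [sl.2 cp]
      exact w_BA o2 d3 o3 f1 f2 _ io i2
  · obtain ⟨n, e1, e2⟩ := h.vtx_B (a := a) (C := C) hj sp sq hpq xp xq hx pA qA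
    rw [kl.eq_nil fun f hf => n f hf.1.1 hf.2, e1, e2, PL_B pA, QR_B qA, t1, t2,
      if_neg fun k => pA (sc.1 k).1, one_smul]
    exact w_BB o2 d3 io

end OK

end Setup

end Pool.Agent.P.MP_382f0d_gt

/-! The sweep theorem. -/

namespace Pool.Agent.P.MP_382f0d_gt

variable {V C : Type} [DecidableEq V] [Fintype C] [DecidableEq C]

set_option linter.unusedSectionVars false

theorem Geo.Near.lt_iff {g : Geo V} {E : Set (Sym2 V)} {ev : Ev V} {t : ℝ} (n : g.Near E ev t)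
    {b : Ev V} (hb : g.IsEv E b) (hne : g.lev b ≠ g.lev ev) :
    (t < g.lev b ↔ g.lev ev < g.lev b) ∧ (g.lev b < t ↔ g.lev b < g.lev ev) := by
  have k := n.free _ hb
  simp only [Set.mem_sdiff, Set.mem_uIcc, Set.mem_singleton_iff] at k
  grind

/-- `l` lists the events between the levels `s` and `t`, which are not levels of events -/
structure Geo.Seg (g : Geo V) (E : Set (Sym2 V)) (s t : ℝ) (l : List (Ev V)) : Prop where
  srt : Srt g.lev (fun x => g.IsEv E x ∧ s < g.lev x ∧ g.lev x < t) l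
  ns : ∀ b, g.IsEv E b → g.lev b ≠ s
  nt : ∀ b, g.IsEv E b → g.lev b ≠ t

theorem Geo.Seg.cons {g : Geo V} {E : Set (Sym2 V)} {s t : ℝ} {x : Ev V} {l : List (Ev V)}
    (h : g.Seg E s t (x :: l)) : ∃ r, g.Near E x s ∧ g.Near E x r ∧ s < g.lev x ∧ g.lev x < r ∧
      r ≤ t ∧ g.Seg E r t l ∧ (l = [] → r = t) := by
  have hx := (h.srt.mem x).1 List.mem_cons_self
  have hp := List.pairwise_cons.1 h.srt.pw
  have hm := h.srt.mem
  simp only [List.mem_cons] at hm
  have n1 : g.Near E x s := ⟨hx.1, hx.2.1.ne, fun b hb k => by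
    rw [Set.uIcc_of_ge hx.2.1.le] at k
    have := h.ns b hb
    simp only [Set.mem_sdiff, Set.mem_Icc, Set.mem_singleton_iff] at k
    have k2 := (hm b).2 ⟨hb, by grind, by grind⟩
    grind⟩
  obtain ⟨r, r1, r2, r3, r4⟩ : ∃ r, g.lev x < r ∧ r ≤ t ∧ (∀ b ∈ l, r < g.lev b) ∧
      (l = [] → r = t) := by
    cases l with
    | nil => exact ⟨t, hx.2.2, le_rfl, by simp, fun _ => rfl⟩
    | cons y l =>
      have hy := hp.1 y List.mem_cons_self
      have hy' := ((hm y).1 (by simp)).2.2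
      refine ⟨(g.lev x + g.lev y) / 2, by linarith, by linarith, fun b hb => ?_, by simp⟩
      rcases List.mem_cons.1 hb with rfl | hb
      · linarith
      · have := (List.pairwise_cons.1 hp.2).1 b hb; linarith
  have key : ∀ b, g.IsEv E b → g.lev x < g.lev b → r < g.lev b := fun b hb k => by
    by_cases c : g.lev b < t
    · have k2 := (hm b).2 ⟨hb, by grind, c⟩
      grind
    · have := h.nt b hb
      grind
  refine ⟨r, n1, ⟨hx.1, r1.ne', fun b hb k => ?_⟩, hx.2.1, r1, r2, ⟨⟨hp.2, fun b => ?_⟩,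
    fun b hb k => ?_, h.nt⟩, r4⟩
  · rw [Set.uIcc_of_le r1.le] at k
    simp only [Set.mem_sdiff, Set.mem_Icc, Set.mem_singleton_iff] at k
    have := key b hb
    grind
  · have := hm b
    grind
  · have := key b hb
    grind

namespace Setup

variable {S : Setup V} {a : ℂ} {ε : Sym2 V → Bool}

open Classical in
theorem Hat_low {t : ℝ} (ht : t < S.D.y S.u) (F : Fn (Lb V) C) : S.Hat a ε t F =
    (if s(S.u, S.w) ∉ S.A ∧ s(S.u, S.v) ∉ S.A then (Fintype.card C : ℂ) else 1) • F := by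
  rw [Hat, if_pos ht]; rfl

namespace OK

variable (h : S.OK)
include h

open Classical in
theorem Hat_high {t : ℝ} (ht : S.D.y S.w < t) (F : Fn (Lb V) C) : S.Hat a ε t F =
    (if s(S.u, S.w) ∈ S.A ∧ s(S.v, S.w) ∈ S.A then (Fintype.card C : ℂ) else 1) • F := by
  rw [Hat, if_neg (h.huw.trans ht).not_gt, if_pos ht]; rfl

theorem side_range {s : Sym2 V} (hs : S.Side s) : S.D.y S.u ≤ S.D.lo s ∧ S.D.hi s ≤ S.D.y S.w := by
  have := h.huv
  have := h.hvw
  rcases hs with rfl | rfl | rfl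
  · rw [h.lo_l, h.hi_l]; exact ⟨le_rfl, le_rfl⟩
  · rw [h.lo_1, h.hi_1]; exact ⟨le_rfl, h.hvw.le⟩
  · rw [h.lo_2, h.hi_2]; exact ⟨h.huv.le, le_rfl⟩

theorem side_lr {s : Sym2 V} (hs : S.Side s) {t : ℝ} (h1 : S.D.lo s < t) (h2 : t < S.D.hi s) :
    s = S.lam t ∨ s = S.rho t := by
  rcases lt_or_ge t (S.D.y S.v) with k | k
  · have := h.lr_low k
    rcases hs with rfl | rfl | rfl
    · grind
    · grind
    · rw [h.lo_2] at h1; exact absurd h1 k.not_gt
  · have := h.lr_high k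
    rcases hs with rfl | rfl | rfl
    · grind
    · rw [h.hi_1] at h2; exact absurd h2 k.not_gt
    · grind

theorem step (ha : Good C a) {ev : Ev V} {tm tp : ℝ} (nm : S.D.Near S.G ev tm)
    (np : S.D.Near S.G ev tp) (lt1 : tm < S.D.lev ev) (lt2 : S.D.lev ev < tp)
    (hsg : S.Sg ε (S.D.lev ev)) {F : Fn (Lb V) C} (hF : S.Fut (S.D.lev ev) F) :
    S.Hat a ε tm (S.D.evop a S.A ev F) = S.D.evop a S.B ev (S.Hat a ε tp F) := by
  have huw := h.huw
  rcases lt_trichotomy (S.D.lev ev) (S.D.y S.u) with c1 | c1 | c1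
  · have k := (np.lt_iff h.ev_u c1.ne').1.2 c1
    rw [Geo.lev_inl] at k
    rw [Hat_low (lt1.trans c1), Hat_low k, map_smul, h.evA_eq fun s hs hi => by
      have := Geo.Invo.range nm.hev hi; have := h.side_range hs; linarith]
  · obtain rfl := h.gen.g3 _ _ nm.hev h.ev_u c1
    exact h.step_u ha lt1 np lt2 hF
  rcases lt_trichotomy (S.D.y S.w) (S.D.lev ev) with c2 | c2 | c2
  · have k := (nm.lt_iff h.ev_w c2.ne).2.2 c2
    rw [Geo.lev_inl] at k
    rw [h.Hat_high k, h.Hat_high (c2.trans lt2), map_smul, h.evA_eq fun s hs hi => by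
      have := Geo.Invo.range nm.hev hi; have := h.side_range hs; linarith]
  · obtain rfl := h.gen.g3 _ _ nm.hev h.ev_w c2.symm
    exact h.step_w ha nm lt1 lt2 hF
  have c : S.Ctx ev tm tp :=
    ⟨nm, np, lt1, lt2, (nm.lt_iff h.ev_u c1.ne).2.2 c1, (np.lt_iff h.ev_w c2.ne').1.2 c2⟩
  by_cases hs : ∀ s, S.Side s → ¬ Invo ev s
  · exact h.step_free ha c hsg hs hF
  push Not at hs
  obtain ⟨s, ss, hi⟩ := hs
  cases ev with
  | inl x =>
    have : x = S.v := by
      rw [Geo.lev_inl] at c1 c2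
      unfold Invo at hi
      rcases ss with rfl | rfl | rfl <;> simp only [Sym2.mem_iff] at hi <;> grind
    subst this
    by_cases hv : S.vl
    · exact h.step_vl ha c hv hF
    · exact h.step_vr ha c hv hF
  | inr p =>
    obtain ⟨e, f⟩ := p
    obtain ⟨he, hf, hc⟩ := nm.hev
    rcases hi with rfl | rfl
    · have hg : f ∈ S.R := hf.elim id fun k => absurd hc (h.not_cross_sides ss k)
      have al := nm.alive' he ⟨hc.2.1, hc.2.2.1⟩
      rcases h.side_lr ss al.1 al.2 with k | k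
      · exact h.step_lx ha c hsg k hg hF
      · exact h.step_rn ha c hsg k hg hF
    · have hg : e ∈ S.R := he.elim id fun k => absurd hc (h.not_cross_sides k ss)
      have al := nm.alive' hf hc.2.2.2
      rcases h.side_lr ss al.1 al.2 with k | k
      · exact h.step_ln ha c hsg k hg hF
      · exact h.step_rx ha c hsg k hg hF

theorem fut_run {s t : ℝ} (hst : s ≤ t) {l : List (Ev V)}
    (hl : ∀ x ∈ l, S.D.IsEv S.G x ∧ s < S.D.lev x) {F : Fn (Lb V) C} (hF : S.Fut t F) :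
    S.Fut s (S.D.run a S.A l F) := fun k hk => by
  refine (hF k (hk.imp id fun h => h.trans hst)).loc (Dat.run_loc a h.decA l) ?_
  rintro ⟨k1, x, hx, k2⟩
  have := Geo.Invo.range (hl x hx).1 k2
  have := (hl x hx).2
  rcases hk with hk | hk
  · exact hk k1
  · linarith

/-- the sweep theorem -/
theorem sweep (ha : Good C a) {s t : ℝ} {l : List (Ev V)} (hl : S.D.Seg S.G s t l)
    (hne : l = [] → s = t) (hsg : ∀ x ∈ l, S.Sg ε (S.D.lev x)) {F : Fn (Lb V) C}
    (hF : S.Fut t F) :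
    S.Hat a ε s (S.D.run a S.A l F) = S.D.run a S.B l (S.Hat a ε t F) := by
  induction l generalizing s with
  | nil => rw [hne rfl]; rfl
  | cons x l ih =>
    obtain ⟨r, n1, n2, r1, r2, r3, sg, r4⟩ := hl.cons
    rw [Dat.run_cons, Dat.run_cons, h.step ha n1 n2 r1 r2 (hsg x List.mem_cons_self)
      (h.fut_run (r2.le.trans r3) (fun y hy => ?_) hF),
      ih sg r4 fun y hy => hsg y (List.mem_cons_of_mem _ hy)]
    have := (sg.srt.mem y).1 hy
    exact ⟨this.1, r2.trans this.2.1⟩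

end OK

end Setup

end Pool.Agent.P.MP_382f0d_gt

/-! Consequences of the sweep theorem: triangle moves and pierced triangles. -/

namespace Pool.Agent.P.MP_382f0d_gt

variable {V C : Type} [DecidableEq V] [Fintype C] [DecidableEq C]

set_option linter.unusedSectionVars false

theorem Geo.exists_bounds {g : Geo V} {E : Set (Sym2 V)} (hE : E.Finite) :
    ∃ s t : ℝ, ∀ b, g.IsEv E b → s < g.lev b ∧ g.lev b < t := by
  have hf := (Geo.finite_ev (g := g) hE).image g.lev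
  obtain ⟨s, hs⟩ := hf.bddBelow
  obtain ⟨t, ht⟩ := hf.bddAbove
  refine ⟨s - 1, t + 1, fun b hb => ?_⟩
  have h1 := hs ⟨b, hb, rfl⟩
  have h2 := ht ⟨b, hb, rfl⟩
  constructor <;> linarith

theorem Geo.Gen.exists_seg {g : Geo V} {E : Set (Sym2 V)} (hg : g.Gen E) {s t : ℝ}
    (hs : ∀ b, g.IsEv E b → g.lev b ≠ s) (ht : ∀ b, g.IsEv E b → g.lev b ≠ t) :
    ∃ l, g.Seg E s t l := by
  obtain ⟨l, hl⟩ := exists_srt g.lev (fun x => g.IsEv E x ∧ s < g.lev x ∧ g.lev x < t)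
    ((Geo.finite_ev hg.fin).subset fun x hx => hx.1) fun x y hx hy => hg.g3 x y hx.1 hy.1
  exact ⟨l, hl, hs, ht⟩

/-- signs depending on the strand -/
noncomputable def ts {ι : Type} [DecidableEq ι] (a : ℂ) (η : ι → Bool) (o : ι) (l : List ι) :
    Op ι C := (l.map fun k => rr (pm a (η k)) o k).prod

section
variable {ι : Type} [DecidableEq ι] {a : ℂ} {η : ι → Bool}

@[simp] theorem ts_nil (o : ι) (F : Fn ι C) : ts a η o [] F = F := rfl
@[simp] theorem ts_cons (o k : ι) (l : List ι) (F : Fn ι C) :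
    ts a η o (k :: l) F = rr (pm a (η k)) o k (ts a η o l F) := rfl
@[simp] theorem ts_append (o : ι) (l m : List ι) (F : Fn ι C) :
    ts a η o (l ++ m) F = ts a η o l (ts a η o m F) := by simp [ts]

theorem ts_loc (o : ι) (l : List ι) : (ts a η o l : Op ι C) ∈ loc {k | k = o ∨ k ∈ l} := by
  refine list_prod_mem fun X hX => ?_
  obtain ⟨t, ht, rfl⟩ := List.mem_map.1 hX
  exact rr_mem _ (by simp) (by simp [ht])

theorem ts_eq_tt {o : ι} {l : List ι} {b : Bool} (h : ∀ k ∈ l, η k = b) (F : Fn ι C) :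
    ts a η o l F = tt (pm a b) o l F := by
  induction l with
  | nil => rfl
  | cons k l ih => simp only [List.mem_cons] at h; rw [ts_cons, tt_cons, h k, ih] <;> grind

theorem ts_congr {η' : ι → Bool} {o : ι} {l : List ι} (h : ∀ k ∈ l, η k = η' k) (F : Fn ι C) :
    ts a η o l F = ts a η' o l F := by
  induction l with
  | nil => rfl
  | cons k l ih => simp only [List.mem_cons] at h; rw [ts_cons, ts_cons, h k, ih] <;> grind

theorem cpy_ts {s m : ι} {l : List ι} (hm : m ∉ l) (hs : s ∉ l) (hsm : s ≠ m)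
    {F : Fn ι C} (hF : Ind s F) : cpy s m (ts a η m l F) = ts a η s l (cpy s m F) := by
  induction l with
  | nil => rfl
  | cons t l ih =>
    simp only [List.mem_cons, not_or] at hm hs
    rw [ts_cons, cpy_rr _ hm.1 hs.1 (hF.loc (ts_loc _ _) (by simp [hsm, hs.2])), ih hm.2 hs.2,
      ts_cons]

theorem ts_ts_cap (ha : Good C a) {s o : ι} {l : List ι} (hn : (s :: o :: l).Nodup) {F : Fn ι C}
    (hs : Ind s F) (ho : Ind o F) : ts a η o l (ts a η s l (cap o s F)) = cap o s F := by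
  induction l with
  | nil => rfl
  | cons t l ih =>
    simp only [List.nodup_cons, List.mem_cons] at hn ih
    rw [ts_cons, ts_cons, loc_comm (ts_loc o l) (rr_loc _ s t) (by grind), ih (by grind),
      rr_symm _ o t, rr_symm _ s t, rr_rr_cap (ha.pm _) (by grind) (by grind) (by grind) ho hs]

theorem cup_ts_ts (ha : Good C a) {s o : ι} {l : List ι} (hn : (s :: o :: l).Nodup) (F : Fn ι C) :
    cup s o (ts a η o l (ts a η s l F)) = cup s o F := by
  induction l with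
  | nil => rfl
  | cons t l ih =>
    simp only [List.nodup_cons, List.mem_cons] at hn ih
    rw [ts_cons, ts_cons, loc_comm (ts_loc o l) (rr_loc _ s t) (by grind),
      rr_symm _ o t, rr_symm _ s t, cup_symm, cup_rr_rr (ha.pm _) (by grind) (by grind) (by grind),
      cup_symm, ih (by grind)]

theorem pierce_alg (ha : Good C a) {s o r : ι} {p l q : List ι} (b : Bool)
    (hn : (s :: o :: r :: (p ++ l ++ q)).Nodup) {G : Fn ι C} (hs : Ind s G) (ho : Ind o G)
    (hr : Ind r G) :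
    cup s o (ts a η o p (tt (pm a b) o l (ts a η o q (cpy o r (cpy s o (ts a η o p
      (tt (pm a b)⁻¹ o l (ts a η o q (cap o r G))))))))) = cc a l G := by
  simp only [List.nodup_cons, List.mem_cons, List.nodup_append, List.mem_append] at hn
  have i1 : Ind s (cap o r G) := hs.loc (cap_loc _ _) (by grind)
  have i2 : Ind s (ts a η o q (cap o r G)) := i1.loc (ts_loc _ _) (by grind)
  rw [cpy_ts (by grind) (by grind) (by grind) (i2.loc (tt_loc _ _ _) (by grind)),
    cpy_tt _ (by grind) (by grind) (by grind) i2, cpy_ts (by grind) (by grind) (by grind) i1,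
    cpy_cap (by grind) ho, loc_comm (cpy_loc o r) (ts_loc s p) (by grind),
    loc_comm (cpy_loc o r) (tt_loc _ s l) (by grind),
    loc_comm (cpy_loc o r) (ts_loc s q) (by grind), cap_symm s r, cpy_cap (by grind) hr,
    loc_comm (ts_loc o q) (ts_loc s p) (by grind),
    loc_comm (ts_loc o q) (tt_loc _ s l) (by grind),
    ts_ts_cap ha (by simp only [List.nodup_cons, List.mem_cons]; grind) hs ho,
    loc_comm (tt_loc _ o l) (ts_loc s p) (by grind),
    cup_ts_ts ha (by simp only [List.nodup_cons, List.mem_cons]; grind), cap_symm o s,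
    tt_cap _ (by grind) (by grind) (by grind) (by grind) ho hs, inv_inv, cap_symm s o, ← jj_apply,
    cup_jj_cap (ha.pm b) (by simp only [List.nodup_cons, List.mem_cons]; grind) hs ho,
    cc_pm ha b (by grind)]

end

namespace Setup

variable {S : Setup V} {a : ℂ} {ε : Sym2 V → Bool}

theorem TL_eq_ts (h0 : ∀ f, S.om f = 0) (l : List (Sym2 V)) (F : Fn (Lb V) C) :
    S.TL a ε l F = ts a (fun k => ε k.1) S.oo (l.flatMap S.D.cab) F := by
  induction l with
  | nil => rfl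
  | cons f l ih =>
    rw [TL_cons, Tw_apply, h0, List.flatMap_cons, ts_append, ih,
      ts_eq_tt (l := S.D.cab f) (b := ε f) fun k hk => by rw [(Dat.mem_cab.1 hk).1]]
    simp

/-- exchange the two links -/
def swap (S : Setup V) : Setup V := { S with A := S.B, B := S.A }

theorem fut_one (t : ℝ) : S.Fut t (fun _ => 1 : Fn (Lb V) C) := fun _ _ _ _ => rfl

theorem nodup_flat {l : List (Sym2 V)} (hl : l.Nodup) : (l.flatMap S.D.cab).Nodup := by
  rw [List.nodup_flatMap]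
  refine ⟨fun f _ => Dat.cab_nodup f, hl.imp fun {e f} hef => ?_⟩
  exact List.disjoint_of_nodup_append (Dat.cab_nodup2 hef)

namespace OK

variable (h : S.OK)
include h

open Classical in
theorem full_move [Inhabited C] (ha : Good C a) (hsg : ∀ t, S.Sg ε t) :
    (if s(S.u, S.w) ∉ S.A ∧ s(S.u, S.v) ∉ S.A then (Fintype.card C : ℂ) else 1) *
      S.D.br C a S.A =
    (if s(S.u, S.w) ∈ S.A ∧ s(S.v, S.w) ∈ S.A then (Fintype.card C : ℂ) else 1) *
      S.D.br C a S.B := by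
  obtain ⟨s, t, hst⟩ := Geo.exists_bounds (g := S.D.toGeo) h.gen.fin
  obtain ⟨l, hl⟩ := h.gen.exists_seg (fun b hb => (hst b hb).1.ne') fun b hb => (hst b hb).2.ne
  have hl' : Srt S.D.lev (S.D.IsEv S.G) l :=
    hl.srt.congr fun x => ⟨fun k => k.1, fun k => ⟨k, hst x k⟩⟩
  have := h.sweep (ε := ε) ha hl (fun e => by
    have := (hl'.mem _).2 h.ev_u; rw [e] at this; simp at this) (fun x _ => hsg _) (fut_one t)
  rw [Hat_low (hst _ h.ev_u).1, h.Hat_high (hst _ h.ev_w).2, map_smul] at this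
  rw [Dat.br_eq h.AG hl', Dat.br_eq h.BG hl']
  exact congrFun this _

theorem pierce [Inhabited C] (ha : Good C a) (h' : S.swap.OK) (hA : ∀ s, S.Side s → s ∈ S.A)
    (h0 : ∀ f, S.om f = 0) {ε' : Sym2 V → Bool} {e : Sym2 V} (he : ∀ f, f ≠ e → ε' f = ε f)
    (he' : ε' e = !ε e) {r : ℝ} (hr : ∀ b, S.D.IsEv S.G b → S.D.lev b ≠ r)
    (h1 : S.D.y S.u < r) (h2 : r < S.D.y S.w) (hp : S.Pres r e)
    (s1 : ∀ b, S.D.IsEv S.G b → S.D.lev b < r → S.Sg ε (S.D.lev b))
    (s2 : ∀ b, S.D.IsEv S.G b → r < S.D.lev b → S.Sg ε' (S.D.lev b)) :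
    ∃ l₁ l₂, Srt S.D.lev (S.D.IsEv S.G) (l₁ ++ l₂) ∧ (∀ x ∈ l₁, S.D.lev x < r) ∧
      (∀ x ∈ l₂, r < S.D.lev x) ∧ S.D.br C a S.A =
        S.D.run a S.B l₁ (cc a (S.D.cab e) (S.D.run a S.B l₂ fun _ => 1)) fun _ => (default : C) := by
  obtain ⟨s, t, hst⟩ := Geo.exists_bounds (g := S.D.toGeo) h.gen.fin
  obtain ⟨l₁, k₁⟩ := h.gen.exists_seg (fun b hb => (hst b hb).1.ne') hr
  obtain ⟨l₂, k₂⟩ := h.gen.exists_seg hr fun b hb => (hst b hb).2.ne
  have m₁ := fun x hx => (k₁.srt.mem x).1 hx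
  have m₂ := fun x hx => (k₂.srt.mem x).1 hx
  have hl : Srt S.D.lev (S.D.IsEv S.G) (l₁ ++ l₂) :=
    (k₁.srt.append k₂.srt fun x y hx hy => hx.2.2.trans hy.2.1).congr fun x =>
      ⟨fun k => k.elim (·.1) (·.1), fun k => by
        have := hst x k
        have := hr x k
        grind⟩
  refine ⟨l₁, l₂, hl, fun x hx => (m₁ x hx).2.2, fun x hx => (m₂ x hx).2.1, ?_⟩
  have nB := fun s hs => h.notB hs (hA s hs)
  have e2 := h'.sweep (ε := ε') ha k₂ (fun e => by
    have := (k₂.srt.mem _).2 ⟨h.ev_w, h2, (hst _ h.ev_w).2⟩; rw [e] at this; simp at this)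
    (fun x hx => s2 x (m₂ x hx).1 (m₂ x hx).2.1) (fut_one (C := C) t)
  rw [h'.Hat_high (hst _ h.ev_w).2, if_neg fun k => nB _ side_l k.1, one_smul] at e2
  have f2 : S.Fut r (S.D.run a S.A l₂ fun _ => 1 : Fn (Lb V) C) :=
    h.fut_run (h2.trans (hst _ h.ev_w).2).le (fun x hx => ⟨(m₂ x hx).1, (m₂ x hx).2.1⟩) (fut_one t)
  have e1 := h.sweep (ε := ε) ha k₁ (fun e => by
    have := (k₁.srt.mem _).2 ⟨h.ev_u, (hst _ h.ev_u).1, h1⟩; rw [e] at this; simp at this)
    (fun x hx => s1 x (m₁ x hx).1 (m₁ x hx).2.2) f2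
  rw [Hat_low (hst _ h.ev_u).1, if_neg fun k => k.1 (hA _ side_l), one_smul] at e1
  rw [Dat.br_eq h.AG hl, Dat.run_append, e1]
  refine congrFun (congrArg _ ?_) _
  change S.swap.Hat a ε' r (S.D.run a S.B l₂ fun _ => 1) = S.D.run a S.A l₂ _ at e2
  rw [← e2]
  have f3 : S.swap.Fut r (S.D.run a S.B l₂ fun _ => 1 : Fn (Lb V) C) :=
    h'.fut_run (h2.trans (hst _ h.ev_w).2).le (fun x hx => ⟨(m₂ x hx).1, (m₂ x hx).2.1⟩) (fut_one t)
  generalize (S.D.run a S.B l₂ fun _ => 1 : Fn (Lb V) C) = G at *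
  have sl := side_lam (S := S) r
  have sr := side_rho (S := S) r
  rw [Hat_mid (S := S.swap) h1 h2, Hat_mid h1 h2, PL_A (hA _ sl), QR_A (hA _ sr),
    PL_B (S := S.swap) (s := S.swap.lam r) (nB _ sl),
    QR_B (S := S.swap) (s := S.swap.rho r) (nB _ sr), TL_eq_ts h0,
    TL_eq_ts (S := S.swap) h0]
  change cup _ _ (ts _ _ _ _ (cpy _ _ (cpy (S.lam r, 0) S.oo (ts a _ S.oo ((S.lst r).flatMap S.D.cab)
    (cap S.oo (S.rho r, 0) G))))) = _
  have ks := h.lst_srt hr
  obtain ⟨p, q, hpq⟩ := List.append_of_mem ((ks.mem e).2 hp)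
  have hn := ks.nodup
  have hR : ∀ f ∈ S.lst r, f ∈ S.R := fun f hf => ((ks.mem f).1 hf).1
  have hn' := nodup_flat (S := S) hn
  rw [hpq] at hn hR hn' ⊢
  simp only [List.nodup_append, List.nodup_cons, List.mem_cons, List.mem_append] at hn hR
  simp only [List.flatMap_append, List.flatMap_cons, ts_append] at hn' ⊢
  have c1 : ∀ l : List (Sym2 V), e ∉ l → ∀ k ∈ l.flatMap S.D.cab, ε' k.1 = ε k.1 := fun l hl k hk => by
    obtain ⟨f, hf, hk⟩ := List.mem_flatMap.1 hk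
    refine he _ fun k' => hl ?_
    rw [← k', (Dat.mem_cab.1 hk).1]; exact hf
  rw [ts_congr (c1 p (by grind)), ts_congr (c1 q (by grind)),
    ts_eq_tt (l := S.D.cab e) (b := ε e) fun k hk => by rw [(Dat.mem_cab.1 hk).1],
    ts_eq_tt (l := S.D.cab e) (b := !ε e) fun k hk => by rw [(Dat.mem_cab.1 hk).1, he'], pm_not]
  refine pierce_alg ha _ ?_ (f3 _ (Or.inl (nB _ sl))) (f3 _ (Or.inl h.oo_notB))
    (f3 _ (Or.inl (nB _ sr)))
  have o1 := h.oo_ne' sl.mem 0
  have o2 := h.oo_ne' sr.mem 0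
  have o3 := h.lam_ne_rho r r
  have hm : ∀ k ∈ List.flatMap S.D.cab p ++ S.D.cab e ++ List.flatMap S.D.cab q, k.1 ∈ S.R := by
    simp only [List.mem_append, List.mem_flatMap, Dat.mem_cab]
    grind
  have n1 := h.nR _ sl
  have n2 := h.nR _ sr
  have n3 : S.oo.1 ∉ S.R := fun k => h.oo_notA (h.RA k)
  rw [← List.append_assoc] at hn'
  simp only [List.nodup_cons, List.mem_cons, hn']
  grind

end OK

end Setup

end Pool.Agent.P.MP_382f0d_gt

/-! Sliding a loop along a cable; the Kauffman relation; dependence on the weights. -/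

namespace Pool.Agent.P.MP_382f0d_gt

variable {V C : Type} [DecidableEq V] [Fintype C] [DecidableEq C]

set_option linter.unusedSectionVars false

namespace Dat

variable {D : Dat V} {a : ℂ} {E Γ : Set (Sym2 V)}

theorem cc_cc (e f : Sym2 V) :
    Commute (cc a (D.cab e) : Op (Lb V) C) (cc a (D.cab f)) := by
  by_cases h : e = f
  · rw [h]
  · exact loc_commute (cc_cab_loc _ _) (cc_cab_loc _ _) (by simp only [Set.mem_ofPred_eq]; grind)

theorem cc_dec (e : Sym2 V) (x : V) (F : Fn (Lb V) C) :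
    cc a (D.cab e) (D.dec a x F) = D.dec a x (cc a (D.cab e) F) :=
  LinearMap.congr_fun ((cc_cc e (D.dw x)).pow_right _).eq F

theorem cc_evop (ha : Good C a) (hd : D.DecOK E) {e : Sym2 V} {x : Ev V} (hx : D.IsEv Γ x)
    (h1 : D.lo e < D.lev x) (h2 : D.lev x < D.hi e) (F : Fn (Lb V) C) :
    D.evop a E x (cc a (D.cab e) F) = cc a (D.cab e) (D.evop a E x F) := by
  cases x with
  | inl v =>
    refine loc_comm (evop_loc a hd _) (cc_cab_loc _ _) ?_ F
    rintro k ⟨-, hk⟩ (rfl : k.1 = e)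
    rw [Geo.lev_inl] at h1 h2
    rcases Geo.lo_or_hi (g := D.toGeo) hk with k | k <;> linarith
  | inr p =>
    obtain ⟨f, g⟩ := p
    have hne := hx.2.2.ne
    by_cases c : f ∈ E ∧ g ∈ E
    · rw [evop_cross a c.1 c.2]
      by_cases c1 : f = e
      · subst c1
        simp only [xop, LinearMap.smul_apply, map_smul, xx_cc_left ha _ (cab_nodup2 hne)]
      by_cases c2 : g = e
      · subst c2
        simp only [xop, LinearMap.smul_apply, map_smul, xx_cc_right ha _ (cab_nodup2 hne)]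
      exact loc_comm (xop_loc _ _ _) (cc_cab_loc _ _) (by simp only [Set.mem_ofPred_eq]; grind) F
    · rw [evop_ncross a (by tauto)]; rfl

theorem cc_run (ha : Good C a) (hd : D.DecOK E) {e : Sym2 V} {l : List (Ev V)}
    (hl : ∀ x ∈ l, D.IsEv Γ x ∧ D.lo e < D.lev x ∧ D.lev x < D.hi e) (F : Fn (Lb V) C) :
    D.run a E l (cc a (D.cab e) F) = cc a (D.cab e) (D.run a E l F) := by
  induction l with
  | nil => rfl
  | cons x l ih =>
    have := hl x List.mem_cons_self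
    rw [run_cons, run_cons, ih fun y hy => hl y (List.mem_cons_of_mem _ hy),
      cc_evop ha hd this.1 this.2.1 this.2.2]

/-- the state sum with one more loop around the edge `e` just above its lower end `p` -/
def W (D : Dat V) (C : Type) [Fintype C] [DecidableEq C] [Inhabited C] (a : ℂ)
    (E Γ : Set (Sym2 V)) (e : Sym2 V) (p : V) (z : ℂ) : Prop :=
  ∃ l₁ l₂, Srt D.lev (D.IsEv Γ) (l₁ ++ .inl p :: l₂) ∧
    z = D.run a E l₁ (D.evop a E (.inl p) (cc a (D.cab e) (D.run a E l₂ fun _ => 1)))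
      fun _ => (default : C)

variable [Inhabited C]

theorem W_of_cut (ha : Good C a) (hd : D.DecOK E) {e : Sym2 V} (he : e ∈ Γ) {p : V} (hp : p ∈ e)
    (hy : D.y p = D.lo e) {l₁ l₂ : List (Ev V)} (hl : Srt D.lev (D.IsEv Γ) (l₁ ++ l₂))
    (h1 : ∀ x ∈ l₁, D.lev x < D.hi e) (h2 : ∀ x ∈ l₂, D.lo e < D.lev x) :
    D.W C a E Γ e p (D.run a E l₁ (cc a (D.cab e) (D.run a E l₂ fun _ => 1))
      fun _ => (default : C)) := by
  have hm : Sum.inl p ∈ l₁ := by
    rcases List.mem_append.1 ((hl.mem (.inl p)).2 ⟨e, he, hp⟩) with k | k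
    · exact k
    · exact absurd (h2 _ k) (by rw [Geo.lev_inl, hy]; exact lt_irrefl _)
  obtain ⟨m₁, m₂, rfl⟩ := List.append_of_mem hm
  refine ⟨m₁, m₂ ++ l₂, by simpa using hl, ?_⟩
  rw [run_append, run_cons, run_append, cc_run (Γ := Γ) ha hd]
  intro x hx
  refine ⟨(hl.mem x).1 (by simp [hx]), ?_, h1 x (by simp [hx])⟩
  have := (List.pairwise_cons.1 (List.pairwise_append.1 (List.pairwise_append.1 hl.pw).1).2.1).1 x hx
  rwa [Geo.lev_inl, hy] at this

theorem ind_diag (hg : D.Gen E) (hd : D.DecOK E) (p : V) (i : ℕ) {x : V} (hx : ∃ e ∈ E, x ∈ e)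
    (l : List (Ev V)) : Ind (s(p, p), i) (D.dec a x (D.run a E l fun _ => 1) : Fn (Lb V) C) := by
  have n : s(p, p) ∉ E := fun k => hg.nd _ k (by simp)
  refine Ind.loc (Ind.loc (fun _ _ => rfl) (run_loc a hd l) fun k => n k.1) (dec_loc a x) ?_
  rintro ⟨h1, h2⟩
  exact n ((show s(p, p) = D.dw x from h2) ▸ (hd x hx h1).1)

theorem nodup_aux (hg : D.Gen E) {e f : Sym2 V} (he : e ∈ E) (hf : f ∈ E) (p : V) {l : List (Lb V)}
    (hl : l.Nodup) (hm : ∀ k ∈ l, k.1 = e ∨ k.1 = f) :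
    ((s(p, p), 0) :: (s(p, p), 1) :: l).Nodup := by
  have n : s(p, p) ∉ E := fun k => hg.nd _ k (by simp)
  simp only [List.nodup_cons, List.mem_cons, hl]
  grind

theorem W.min (ha : Good C a) (hg : D.Gen E) (hd : D.DecOK E) {e f : Sym2 V} {p : V}
    (h2 : Two E p e f) (ht : D.th e = D.th f) (te : D.top e p = false) (tf : D.top f p = false)
    {z : ℂ} (h : D.W C a E Γ e p z) : D.W C a E Γ f p z := by
  obtain ⟨l₁, l₂, hl, rfl⟩ := h
  refine ⟨l₁, l₂, hl, congrFun (congrArg _ ?_) _⟩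
  have len : (D.cab e).length = (D.cab f).length := by simp [cab_length, ht]
  have hx : ∃ e ∈ E, p ∈ e := ⟨e, h2.left⟩
  have := cupP_cc ha (ps := (D.cab e).zip (D.cab f).reverse) (nodup_aux hg h2.left.1 h2.right.1 p
    (nodup_lab_zip_rev len (cab_nodup2 h2.1)) fun k hk => by
      have := mem_lab_zip hk
      simp only [List.mem_reverse, mem_cab] at this
      tauto) (ind_diag (a := a) hg hd p 0 hx l₂) (ind_diag hg hd p 1 hx l₂)
  rw [List.map_snd_zip (by simp [len]), List.map_fst_zip (by simp [len]),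
    List.reverse_reverse] at this
  rw [evop_two a h2 ht]
  simp only [Module.End.mul_apply, ← cc_dec, join, te, tf, joinL, this]

theorem W.mono (ha : Good C a) (hg : D.Gen Γ) (hE : E ⊆ Γ) (hd : D.DecOK E) {e f : Sym2 V} {p q : V}
    (h2 : Two E p f e) (ht : D.th f = D.th e) (tf : D.y p = D.hi f) (te : D.top e p = false)
    (hq : q ∈ f) (hy : D.y q = D.lo f) {z : ℂ} (h : D.W C a E Γ e p z) : D.W C a E Γ f q z := by
  obtain ⟨l₁, l₂, hl, rfl⟩ := h
  have hg' := hg.mono hE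
  have len : (D.cab f).length = (D.cab e).length := by simp [cab_length, ht]
  have hx : ∃ e ∈ E, p ∈ e := ⟨e, h2.right⟩
  have hp := List.pairwise_append.1 hl.pw
  have hp2 := (List.pairwise_cons.1 hp.2.1).1
  have lt := hg'.lo_lt_hi h2.left.1
  have := cpyP_cc ha (ps := (D.cab f).zip (D.cab e)) (nodup_aux hg' h2.left.1 h2.right.1 p
    (by rw [lab_zip len]; exact cab_nodup2 h2.1) fun k hk => by
      have := mem_lab_zip hk
      simp only [mem_cab] at this
      tauto) (ind_diag (a := a) hg' hd p 0 hx l₂) (ind_diag hg' hd p 1 hx l₂) (by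
    rw [List.map_fst_zip len.le]
    intro k hk
    rw [mem_cab] at hk
    refine Ind.loc (Ind.loc (fun _ _ => rfl) (run_loc a hd l₂) ?_) (dec_loc a p) ?_
    · rintro ⟨-, x, hx, k2⟩
      have := (Geo.Invo.range ((hl.mem x).1 (by simp [hx])) k2).2
      have := hp2 x hx
      rw [Geo.lev_inl] at this
      rw [hk.1] at *
      linarith
    · rintro ⟨k1, k2⟩
      have := (hd p hx k1).2.2
      rw [← k2, hk.1] at this
      linarith)
  rw [List.map_snd_zip len.ge, List.map_fst_zip len.le] at this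
  have e1 : D.evop a E (.inl p) (cc a (D.cab e) (D.run a E l₂ fun _ => 1)) =
      cc a (D.cab f) (D.run a E (.inl p :: l₂) fun _ => 1 : Fn (Lb V) C) := by
    rw [run_cons, evop_two a h2 ht]
    simp only [Module.End.mul_apply, ← cc_dec, join, te, top_hi tf, joinL, this]
  rw [e1]
  refine W_of_cut ha hd (hE h2.left.1) hq hy hl (fun x hx => ?_) fun x hx => ?_
  · rw [← tf]; exact hp.2.2 x hx _ List.mem_cons_self
  · rcases List.mem_cons.1 hx with rfl | hx
    · rw [Geo.lev_inl, tf]; exact lt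
    · have := hp2 x hx
      rw [Geo.lev_inl] at this
      linarith

omit [Inhabited C] in
theorem run_congr {D' : Dat V} {E' : Set (Sym2 V)} {l : List (Ev V)}
    (h : ∀ x ∈ l, (D.evop a E x : Op (Lb V) C) = D'.evop a E' x) :
    (D.run a E l : Op (Lb V) C) = D'.run a E' l := by
  rw [run, run, List.map_congr_left h]

/-- one more loop at the vertex `p` -/
def bump (D : Dat V) (p : V) : Dat V := { D with dj := Function.update D.dj p (D.dj p + 1) }

theorem W.br (hE : E ⊆ Γ) {p : V} (hp : ∃ e ∈ E, p ∈ e) {z : ℂ}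
    (h : D.W C a E Γ (D.dw p) p z) : z = (D.bump p).br C a E := by
  obtain ⟨l₁, l₂, hl, rfl⟩ := h
  have hn := hl.nodup
  simp only [List.nodup_append, List.nodup_cons, List.mem_cons] at hn
  have key : ∀ x, x ≠ Sum.inl p → ((D.bump p).evop a E x : Op (Lb V) C) = D.evop a E x := by
    intro x hx
    cases x with
    | inl v =>
      have : (D.bump p).dj v = D.dj v := Function.update_of_ne (by grind) _ _
      have e : ((D.bump p).dec a v : Op (Lb V) C) = D.dec a v := by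
        rw [dec, dec, this]; rfl
      rw [evop, evop, e]; rfl
    | inr p => rfl
  rw [br_eq (D := D.bump p) hE hl, run_append, run_cons, run_congr fun x hx => key x (by grind),
    run_congr (l := l₂) fun x hx => key x (by grind)]
  refine congrFun (congrArg _ ?_) _
  have : (D.bump p).dj p = D.dj p + 1 := Function.update_self _ _ _
  rw [evop, evop, if_pos hp, if_pos hp, dec, dec, this, pow_succ]
  rfl

/-- change of the writhe weights -/
def wmu (D : Dat V) (m : Sym2 V → Sym2 V → ℤ) : Dat V := { D with mu := m }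

open Classical in
noncomputable def wt (D : Dat V) (E : Set (Sym2 V)) : Ev V → ℤ
  | .inl _ => 0
  | .inr p => if p.1 ∈ E ∧ p.2 ∈ E then D.mu p.1 p.2 * sgn (D.eps p.1 p.2) else 0

omit [Inhabited C] in
theorem run_wt (ha : Good C a) (l : List (Ev V)) (F : Fn (Lb V) C) :
    D.run a E l F = kap a ^ (-(l.map (D.wt E)).sum) • (D.wmu 0).run a E l F := by
  have := kap_ne ha
  induction l with
  | nil => simp
  | cons x l ih =>
    have key : ∀ G : Fn (Lb V) C,
        D.evop a E x G = kap a ^ (-D.wt E x) • (D.wmu 0).evop a E x G := fun G => by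
      cases x with
      | inl v => simp only [wt, neg_zero, zpow_zero, one_smul]; rfl
      | inr p =>
        rw [evop, evop, wt]
        split_ifs
        · simp only [xop, LinearMap.smul_apply, wmu, Pi.zero_apply, zero_mul, neg_zero, zpow_zero,
            one_smul]
          rfl
        · simp
    rw [run_cons, run_cons, ih, key, map_smul, smul_smul, ← zpow_add₀ this]
    simp [add_comm]

theorem br_wt (ha : Good C a) {l : List (Ev V)} (hl : Srt D.lev (D.IsEv E) l) :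
    D.br C a E = kap a ^ (-(l.map (D.wt E)).sum) * (D.wmu 0).br C a E := by
  rw [br_eq subset_rfl hl, br_eq (D := D.wmu 0) subset_rfl hl, run_wt ha]
  rfl

theorem br_mu (hg : D.Gen E) {m : Sym2 V → Sym2 V → ℤ} (h : ∀ e ∈ E, ∀ f ∈ E, m e f = D.mu e f) :
    (D.wmu m).br C a E = D.br C a E := by
  obtain ⟨l, hl⟩ := exists_evlist hg
  rw [br_eq subset_rfl hl, br_eq (D := D.wmu m) subset_rfl hl, run_congr]
  intro x _
  cases x with
  | inl v => rfl
  | inr p =>
    rw [evop, evop]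
    split_ifs with c
    · rw [xop, xop, ← h _ c.1 _ c.2]; rfl
    · rfl

end Dat

end Pool.Agent.P.MP_382f0d_gt
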