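import Mathlib

/-!
Polygonal framed links in the complement of a polygonal link `L` in `ℝ³`, and the
Kauffman bracket skein module of that complement over `ℚ(A)`.
-/

namespace Pool.Agent.P.MP_382f0d_gt

/-- Points of `ℝ³`, written `(x, y, z)`. -/
abbrev Pt : Type := ℝ × ℝ × ℝ

/-- A polygonal link in `ℝ³`: finitely many disjoint simple closed polygons.  The vertices are
the points moved by the permutation `next`, the edges are the segments `[v, next v]`, the
components are the cycles of `next`.  Two different edges meet at most in common endpoints. -/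
structure PLink where
  next : Equiv.Perm Pt
  finite : {v | next v ≠ v}.Finite
  simple : ∀ v w, next v ≠ v → next w ≠ w → v ≠ w →
    segment ℝ v (next v) ∩ segment ℝ w (next w) ⊆ {v, next v} ∩ {w, next w}

/-- The unoriented edges of a polygonal link. -/
def PLink.edges (K : PLink) : Set (Sym2 Pt) := {e | ∃ v, K.next v ≠ v ∧ e = s(v, K.next v)}

/-- The subset of `ℝ³` covered by a polygonal link. -/
def PLink.carrier (K : PLink) : Set Pt := {x | ∃ v, K.next v ≠ v ∧ x ∈ segment ℝ v (K.next v)}

/-- A framed link in the complement of `L`: a polygonal link disjoint from `L`, with an integer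
on each component (the linking number of the component with its framing curve). -/
structure Framed (L : PLink) extends PLink where
  fr : Pt → ℤ
  fr_next : ∀ v, fr (next v) = fr v
  disj : Disjoint toPLink.carrier L.carrier

/-- Vertical projection to the `(x, y)` plane. -/
def proj (p : Pt) : ℝ × ℝ := (p.1, p.2.1)

/-- Determinant of the projections of two vectors. -/
def det2 (u v : Pt) : ℝ := u.1 * v.2.1 - u.2.1 * v.1

/-- Determinant of three vectors. -/
def det3 (u v w : Pt) : ℝ :=
  u.1 * (v.2.1 * w.2.2 - v.2.2 * w.2.1) - u.2.1 * (v.1 * w.2.2 - v.2.2 * w.1)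
    + u.2.2 * (v.1 * w.2.1 - v.2.1 * w.1)

/-- In the projection, the segment `pq` passes over the segment `rs`. -/
def Over (p q r s : Pt) : Prop :=
  ∃ x ∈ openSegment ℝ p q, ∃ y ∈ openSegment ℝ r s, proj x = proj y ∧ y.2.2 < x.2.2

/-- Regular projection: no vertex projects into the projection of an edge not containing it. -/
def PLink.Regular (K : PLink) : Prop :=
  ∀ v w, K.next v ≠ v → K.next w ≠ w → v ≠ w → v ≠ K.next w →
    proj v ∉ segment ℝ (proj w) (proj (K.next w))

open Classical in
/-- The self-writhe of the component through `v`: the sum of the signs of its self-crossings. -/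
noncomputable def PLink.writhe (K : PLink) (v : Pt) : ℤ :=
  ∑ p ∈ K.finite.toFinset ×ˢ K.finite.toFinset with
      K.next.SameCycle v p.1 ∧ K.next.SameCycle v p.2 ∧ Over p.1 (K.next p.1) p.2 (K.next p.2),
    (SignType.sign (det2 (K.next p.1 - p.1) (K.next p.2 - p.2)) : ℤ)

variable {L : PLink}

/-- The projection is regular and the framing is the blackboard (vertical) framing. -/
def Framed.Blackboard (K : Framed L) : Prop :=
  K.Regular ∧ ∀ v, K.next v ≠ v → K.fr v = K.writhe v

/-- The framing numbers of `K'` and `K` agree at the vertices of `K`. -/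
def SameFr (K K' : Framed L) : Prop := ∀ v, K.next v ≠ v → K'.fr v = K.fr v

/-- Elementary isotopy in the complement of `L`: the same unoriented framed link, or
Reidemeister's Δ-move replacing the edge `ab` by `ac, cb` across a triangle `abc` that misses
`L` and meets `K` only along `ab`. -/
def Isotopy (K K' : Framed L) : Prop :=
  SameFr K K' ∧ (K'.edges = K.edges ∨ ∃ a b c : Pt, s(a, b) ∈ K.edges ∧
    K'.edges = (K.edges \ {s(a, b)}) ∪ {s(a, c), s(c, b)} ∧
    convexHull ℝ {a, b, c} ∩ K.carrier = segment ℝ a b ∧
    Disjoint (convexHull ℝ {a, b, c}) L.carrier)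

/-- `K'` is `K` together with the `0`-framed boundary of a triangle `abc` that misses `K`. -/
def AddTriangle (K K' : Framed L) (a b c : Pt) : Prop :=
  SameFr K K' ∧ K'.fr a = 0 ∧ K'.edges = K.edges ∪ {s(a, b), s(b, c), s(c, a)} ∧
    Disjoint (convexHull ℝ {a, b, c}) K.carrier

/-- `K' = K ⊔ U` with `U` a trivial framed unknot: the triangle also misses `L`. -/
def AddUnknot (K K' : Framed L) : Prop :=
  ∃ a b c : Pt, AddTriangle K K' a b c ∧ Disjoint (convexHull ℝ {a, b, c}) L.carrier

/-- `K'` is `K` with a meridian of a component of `L` stacked on it: the triangle meets `L` in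
one point, where an edge of `L` pierces it transversally. -/
def AddMeridian (K K' : Framed L) : Prop :=
  ∃ a b c : Pt, AddTriangle K K' a b c ∧ ∃ v, L.next v ≠ v ∧
    det3 (b - a) (c - a) (L.next v - v) ≠ 0 ∧
    ∃ p ∈ openSegment ℝ v (L.next v), convexHull ℝ {a, b, c} ∩ L.carrier = {p}

/-- A Kauffman triple: three blackboard framed diagrams that agree outside a quadrilateral
`abcd` (counterclockwise) meeting nothing else; inside it `K` has the diagonal `ac` over the
diagonal `bd`, `K₀` is the `A`-smoothing `ad, bc` and `K₁` the other smoothing `ab, cd`. -/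
def Kauffman (K K₀ K₁ : Framed L) : Prop :=
  K.Blackboard ∧ K₀.Blackboard ∧ K₁.Blackboard ∧ ∃ (R : Set (Sym2 Pt)) (a b c d : Pt),
    K.edges = R ∪ {s(a, c), s(b, d)} ∧ K₀.edges = R ∪ {s(a, d), s(b, c)} ∧
    K₁.edges = R ∪ {s(a, b), s(c, d)} ∧ Over a c b d ∧ 0 < det2 (c - a) (d - b) ∧
    (∀ p q, s(p, q) ∈ R →
      segment ℝ (proj p) (proj q) ∩ convexHull ℝ {proj a, proj b, proj c, proj d} ⊆
        {proj a, proj b, proj c, proj d}) ∧
    Disjoint (proj '' L.carrier) (convexHull ℝ {proj a, proj b, proj c, proj d})

/-- The indeterminate `A` of `ℚ(A)`. -/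
noncomputable abbrev A : RatFunc ℚ := RatFunc.X

/-- The defining relations: isotopy, the Kauffman relation and the trivial loop relation. -/
def relations (L : PLink) : Set (Framed L →₀ RatFunc ℚ) :=
  {x | (∃ K K', Isotopy K K' ∧ x = Finsupp.single K' 1 - Finsupp.single K 1) ∨
    (∃ K K₀ K₁, Kauffman K K₀ K₁ ∧
      x = Finsupp.single K 1 - Finsupp.single K₀ A - Finsupp.single K₁ A⁻¹) ∨
    (∃ K K', AddUnknot K K' ∧
      x = Finsupp.single K' 1 - Finsupp.single K (-A ^ 2 - A⁻¹ ^ 2))}

/-- The Kauffman bracket skein module of the complement of `L` over `ℚ(A)`. -/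
abbrev Skein (L : PLink) : Type :=
  (Framed L →₀ RatFunc ℚ) ⧸ Submodule.span (RatFunc ℚ) (relations L)

/-- The class of a framed link in the skein module. -/
noncomputable def cls (K : Framed L) : Skein L := Submodule.Quotient.mk (Finsupp.single K 1)

/-- Finite generation over `ℚ(A)[m₁, …, mₙ]`: there are finitely many links `K` such that the
classes `m₁^e₁ ⋯ mₙ^eₙ · [K]`, that is the links got from some `K` by stacking meridians
finitely many times, span the skein module over `ℚ(A)`. -/
def FGOverMeridians (L : PLink) : Prop :=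
  ∃ S : Finset (Framed L), Submodule.span (RatFunc ℚ)
    {x | ∃ K ∈ S, ∃ K', Relation.ReflTransGen AddMeridian K K' ∧ x = cls K'} = ⊤

end Pool.Agent.P.MP_382f0d_gt
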