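import Pool.Agent.P.MP_382f0d_gt.B
import Pool.Agent.P.MP_382f0d_gt.Defs

/-! The Kauffman relation for the state sum. -/

namespace Pool.Agent.P.MP_382f0d_gt

variable {V C : Type} [DecidableEq V] [Fintype C] [DecidableEq C]

set_option linter.unusedSectionVars false

section
variable {ι : Type} [DecidableEq ι] {T : Set ι} {M₀ M₁ M₂ : Op ι C}

theorem jn_ren {s t m h : ι} (hM : M₁ ∈ loc T) (hm : m ∉ T) (hh : h ∉ T) (h1 : s ≠ h) (h2 : t ≠ m)
    (h3 : t ≠ h) (h4 : m ≠ h) (α β : Bool) {Z : Fn ι C} (i1 : Ind m Z) (i2 : Ind h Z) :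
    jn s m α false (M₁ (jn t m β true Z)) = jn s h α false (M₁ (jn t h β true Z)) := by
  rw [jn_symm t m, ← jn_comp h3.symm h2.symm true β i2, loc_comm hM (jn_loc _ _ _ _) (by grind),
    jn_comp h4 h1 _ _ ((i1.loc (jn_loc _ _ _ _) (by grind)).loc hM hm), jn_symm h t]

theorem up_H {e f h r₁ r₂ : ι} (m0 : M₀ ∈ loc T) (m1 : M₁ ∈ loc T) (he : e ∉ T) (hf : f ∉ T)
    (hh : h ∉ T) (h1 : r₁ ∈ T) (h2 : r₂ ∈ T) (hef : e ≠ f) (hfh : f ≠ h) (α β : Bool) {Z : Fn ι C}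
    (i1 : Ind e Z) (i2 : Ind f Z) (i3 : Ind h Z) :
    cup e f (M₀ (jn r₁ e α true (M₁ (jn r₂ f β true Z)))) =
      M₀ (jn r₁ h α false (M₁ (jn r₂ h β true Z))) := by
  rw [loc_comm (cup_loc _ _) m0 (by grind), cup_symm, jn_symm r₁ e]
  congr 1
  rw [← jn_ren m1 hf hh (by grind) (by grind) (by grind) hfh α β i2 i3, jn_symm r₁ f]
  exact jn_comp (s := f) (m := e) (by grind) (by grind) false α
    ((i1.loc (jn_loc _ _ _ _) (by grind)).loc m1 he)

theorem up_V {e f g g' r₁ r₂ : ι} (m0 : M₀ ∈ loc T) (m1 : M₁ ∈ loc T) (he : e ∉ T) (hf : f ∉ T)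
    (hg : g ∉ T) (hg' : g' ∉ T) (h1 : r₁ ∈ T) (h2 : r₂ ∈ T) (d1 : g ≠ g') (d2 : f ≠ g)
    (α β : Bool) {Z : Fn ι C} (i1 : Ind g Z) (i2 : Ind g' Z) :
    M₀ (jn r₁ e α true (M₁ (jn r₂ f β true Z))) =
      cpy e g (cpy f g' (M₀ (jn r₁ g α true (M₁ (jn r₂ g' β true Z))))) := by
  rw [loc_comm (cpy_loc f g') m0 (by grind), loc_comm (cpy_loc e g) m0 (by grind),
    loc_comm (cpy_loc f g') (jn_loc _ _ _ _) (by grind), loc_comm (cpy_loc f g') m1 (by grind),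
    jn_symm r₂ g', jn_symm r₁ g, jn_symm r₁ e, jn_symm r₂ f]
  have k1 := jn_comp (s := f) (m := g') (t := r₂) (by grind) (by grind) true β i2
  rw [jn] at k1
  rw [k1]
  congr 1
  exact (jn_comp (s := e) (m := g) (by grind) (by grind) true α
    ((i1.loc (jn_loc _ _ _ _) (by grind)).loc m1 hg)).symm

theorem low_H {e f h r₁ r₂ : ι} (m1 : M₁ ∈ loc T) (m2 : M₂ ∈ loc T) (he : e ∉ T) (hf : f ∉ T)
    (hh : h ∉ T) (h1 : r₁ ∈ T) (h2 : r₂ ∈ T) (hef : e ≠ f) (heh : e ≠ h) (α β : Bool) {Z : Fn ι C}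
    (i1 : Ind e Z) (i2 : Ind f Z) (i3 : Ind h Z) :
    jn r₁ e α false (M₁ (jn r₂ f β false (M₂ (cap e f Z)))) =
      jn r₁ h α false (M₁ (jn r₂ h β true (M₂ Z))) := by
  rw [loc_comm m2 (cap_loc _ _) (by grind), cap_symm,
    ← jn_ren m1 he hh (by grind) (by grind) (by grind) heh α β (i1.loc m2 he) (i3.loc m2 hh)]
  congr 2
  exact jn_comp (m := f) (t := e) hef.symm (by grind) β true (i2.loc m2 hf)

theorem low_V {e f g g' r₁ r₂ : ι} (m1 : M₁ ∈ loc T) (m2 : M₂ ∈ loc T) (he : e ∉ T) (hf : f ∉ T)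
    (hg : g ∉ T) (hg' : g' ∉ T) (h1 : r₁ ∈ T) (h2 : r₂ ∈ T) (hef : e ≠ f) (d1 : e ≠ g) (d2 : e ≠ g')
    (d3 : f ≠ g) (d4 : f ≠ g') (α β : Bool) {Z : Fn ι C} (i1 : Ind e Z)
    (i2 : Ind f Z) :
    jn r₁ e α false (M₁ (jn r₂ f β false (M₂ (cpy e g (cpy f g' Z))))) =
      jn r₁ g α false (M₁ (jn r₂ g' β false (M₂ Z))) := by
  rw [loc_comm m2 (cpy_loc e g) (by grind), loc_comm m2 (cpy_loc f g') (by grind),
    loc_comm (jn_loc r₂ f _ _) (cpy_loc e g) (by grind), loc_comm m1 (cpy_loc e g) (by grind)]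
  have k1 := jn_comp (s := r₂) (m := f) (t := g') d4 (by grind) β false (i2.loc m2 hf)
  rw [jn] at k1
  rw [k1]
  exact jn_comp (m := e) (t := g) d1 (by grind) α false
    (((i1.loc m2 he).loc (jn_loc _ _ _ _) (by grind)).loc m1 he)

omit [Fintype C] [DecidableEq C] in
theorem swp_cpy_cpy {e f g g' : ι} (d3 : f ≠ g) (d4 : f ≠ g')
    (d5 : g ≠ g') (hef : e ≠ f) {Z : Fn ι C} (i1 : Ind e Z) (i2 : Ind f Z) :
    swp e f (cpy e g (cpy f g' Z)) = cpy e g' (cpy f g Z) := by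
  funext x
  simp only [swp_apply, cpy_apply]
  refine i1.eq_of2 i2 fun k h1 h2 => ?_
  simp only [Function.update_apply]
  split_ifs <;> simp_all

end

theorem split_two {α : Type} {k : α → ℝ} {l : List α} (hl : l.Pairwise fun a b => k a < k b)
    {x y : α} (hx : x ∈ l) (hy : y ∈ l) (h : k x < k y) :
    ∃ m₀ m₁ m₂, l = m₀ ++ x :: (m₁ ++ y :: m₂) ∧
      ∀ z, z ∈ m₀ ∨ z ∈ m₁ ∨ z ∈ m₂ → z ∈ l ∧ z ≠ x ∧ z ≠ y := by
  obtain ⟨m₀, m, rfl⟩ := List.append_of_mem hx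
  have hp := List.pairwise_append.1 hl
  have : y ∈ m := by
    rcases List.mem_append.1 hy with c | c
    · exact absurd (hp.2.2 y c x List.mem_cons_self) h.not_gt
    · rcases List.mem_cons.1 c with rfl | c
      · exact absurd h (lt_irrefl _)
      · exact c
  obtain ⟨m₁, m₂, rfl⟩ := List.append_of_mem this
  refine ⟨m₀, m₁, m₂, rfl, fun z hz => ?_⟩
  have hn : (m₀ ++ x :: (m₁ ++ y :: m₂)).Nodup :=
    hl.imp fun {a b} hab e => by rw [e] at hab; exact lt_irrefl _ hab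
  simp only [List.nodup_append, List.nodup_cons, List.mem_cons, List.mem_append] at hn ⊢
  grind

namespace Dat

variable {D : Dat V} {a : ℂ} {R : Set (Sym2 V)}

/-- `r` is the only edge of `R` at `v`, and everything is thin there -/
structure Port (D : Dat V) (R : Set (Sym2 V)) (v : V) (r : Sym2 V) : Prop where
  uq : ∀ r', (r' ∈ R ∧ v ∈ r') ↔ r' = r
  th : D.th r = 1
  dj : D.dj v = 0

theorem Port.evop {v : V} {r s t : Sym2 V} (h : D.Port R v r) (hs : s ∉ R) (h1 : v ∈ s)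
    (h2 : v ∉ t) (th : D.th s = 1) {E : Set (Sym2 V)} (hE : ∀ e, e ∈ E ↔ e ∈ R ∨ e = s ∨ e = t) :
    (D.evop a E (.inl v) : Op (Lb V) C) = jn (r, 0) (s, 0) (D.top r v) (D.top s v) := by
  have := (h.uq r).2 rfl
  refine evop_thin a ⟨by grind, fun e => ?_⟩ h.th th h.dj
  have := h.uq e
  have := hE e
  grind

theorem run_R {E : Set (Sym2 V)} {l : List (Ev V)} (hE : R ⊆ E)
    (hl : ∀ x ∈ l, ∀ e ∈ E, Invo x e → e ∈ R) :
    (D.run a E l : Op (Lb V) C) = D.run a R l :=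
  run_congr fun x hx => evop_congr a fun e he => ⟨fun k => hl x hx e k he, fun k => hE k⟩

theorem upper (hd : D.DecOK R) {l : List (Ev V)} (hl : l.Pairwise fun a b => D.lev a < D.lev b)
    {x y : V} (hx : .inl x ∈ l) (hy : .inl y ∈ l) (hxy : D.y x < D.y y)
    {e f g g' h k r₁ r₂ : Sym2 V} {E₀ E₁ E₂ : Set (Sym2 V)} (p1 : D.Port R x r₁) (p2 : D.Port R y r₂)
    (c0 : ∀ s, s ∈ E₀ ↔ s ∈ R ∨ s = e ∨ s = f) (c1 : ∀ s, s ∈ E₁ ↔ s ∈ R ∨ s = g ∨ s = g')
    (c2 : ∀ s, s ∈ E₂ ↔ s ∈ R ∨ s = h ∨ s = k)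
    (hR : ∀ s, s = e ∨ s = f ∨ s = g ∨ s = g' ∨ s = h ∨ s = k → s ∉ R ∧ D.th s = 1 ∧
      ∀ z ∈ l, z ≠ .inl x → z ≠ .inl y → ¬ Invo z s)
    (xe : x ∈ e ∧ y ∉ e ∧ D.y x = D.hi e) (xg : x ∈ g ∧ y ∉ g ∧ D.y x = D.hi g)
    (yf : y ∈ f ∧ x ∉ f ∧ D.y y = D.hi f) (yg : y ∈ g' ∧ x ∉ g' ∧ D.y y = D.hi g')
    (hh : h = s(x, y)) (hk : x ∉ k ∧ y ∉ k) :
    cup (e, 0) (f, 0) (D.run a E₀ l fun _ => 1) = (D.run a E₂ l fun _ => 1 : Fn (Lb V) C) ∧
      (D.run a E₀ l fun _ => 1 : Fn (Lb V) C) =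
        cpy (e, 0) (g, 0) (cpy (f, 0) (g', 0) (D.run a E₁ l fun _ => 1)) := by
  obtain ⟨m₀, m₁, m₂, rfl, hm⟩ := split_two hl hx hy hxy
  have rr : ∀ {E : Set (Sym2 V)} {s t : Sym2 V}, (∀ u, u ∈ E ↔ u ∈ R ∨ u = s ∨ u = t) →
      (s = e ∨ s = f ∨ s = g ∨ s = g' ∨ s = h ∨ s = k) →
      (t = e ∨ t = f ∨ t = g ∨ t = g' ∨ t = h ∨ t = k) → ∀ m : List (Ev V),
      (∀ z ∈ m, z ∈ m₀ ∨ z ∈ m₁ ∨ z ∈ m₂) → (D.run a E m : Op (Lb V) C) = D.run a R m :=
    fun {E s t} c hs ht m hm' => run_R (fun u hu => (c u).2 (Or.inl hu)) fun z hz u hu hi => by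
      have := hm z (hm' z hz)
      have := (hR s hs).2.2 z
      have := (hR t ht).2.2 z
      have := (c u).1 hu
      grind
  have lc : ∀ m, (D.run a R m : Op (Lb V) C) ∈ loc {k | k.1 ∈ R} := fun m =>
    mem_loc_mono (run_loc a hd m) fun k hk => hk.1
  have th : D.top h x = false := top_lo (by simp [hh, hxy])
  have th' : D.top h y = true := top_hi (by simp [hh, hxy.le])
  have n1 := (hR e (by simp))
  have n2 := (hR f (by simp))
  have n3 := (hR g (by simp))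
  have n4 := (hR g' (by simp))
  have n5 := (hR h (by simp))
  have q1 := ((p1.uq r₁).2 rfl).1
  have q2 := ((p2.uq r₂).2 rfl).1
  have i1 : ∀ s, s ∉ R → Ind (s, 0) (D.run a R m₂ fun _ => 1 : Fn (Lb V) C) := fun s hs =>
    Ind.loc (fun _ _ => rfl) (lc m₂) hs
  simp only [run_append, run_cons]
  rw [rr c0 (by simp) (by simp) m₀ (by grind), rr c0 (by simp) (by simp) m₁ (by grind),
    rr c0 (by simp) (by simp) m₂ (by grind), rr c1 (by simp) (by simp) m₀ (by grind),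
    rr c1 (by simp) (by simp) m₁ (by grind), rr c1 (by simp) (by simp) m₂ (by grind),
    rr c2 (by simp) (by simp) m₀ (by grind), rr c2 (by simp) (by simp) m₁ (by grind),
    rr c2 (by simp) (by simp) m₂ (by grind), p1.evop n1.1 xe.1 yf.2.1 n1.2.1 c0,
    p2.evop n2.1 yf.1 xe.2.1 n2.2.1 (fun s => (c0 s).trans (by grind)),
    p1.evop n3.1 xg.1 yg.2.1 n3.2.1 c1,
    p2.evop n4.1 yg.1 xg.2.1 n4.2.1 (fun s => (c1 s).trans (by grind)),
    p1.evop n5.1 (by simp [hh]) hk.1 n5.2.1 c2, p2.evop n5.1 (by simp [hh]) hk.2 n5.2.1 c2,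
    top_hi xe.2.2, top_hi xg.2.2, top_hi yf.2.2, top_hi yg.2.2, th, th']
  have : x ∈ h := by simp [hh]
  exact ⟨up_H (lc _) (lc _) n1.1 n2.1 n5.1 q1 q2 (by grind) (by grind) _ _ (i1 _ n1.1) (i1 _ n2.1)
    (i1 _ n5.1), up_V (lc _) (lc _) n1.1 n2.1 n3.1 n4.1 q1 q2 (by grind) (by grind) _ _
    (i1 _ n3.1) (i1 _ n4.1)⟩

theorem lower (hd : D.DecOK R) {l : List (Ev V)} (hl : l.Pairwise fun a b => D.lev a < D.lev b)
    {x y : V} (hx : .inl x ∈ l) (hy : .inl y ∈ l) (hxy : D.y x < D.y y)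
    {e f g g' h k r₁ r₂ : Sym2 V} {E₀ E₁ E₂ : Set (Sym2 V)} (p1 : D.Port R x r₁) (p2 : D.Port R y r₂)
    (c0 : ∀ s, s ∈ E₀ ↔ s ∈ R ∨ s = e ∨ s = f) (c1 : ∀ s, s ∈ E₁ ↔ s ∈ R ∨ s = g ∨ s = g')
    (c2 : ∀ s, s ∈ E₂ ↔ s ∈ R ∨ s = h ∨ s = k)
    (hR : ∀ s, s = e ∨ s = f ∨ s = g ∨ s = g' ∨ s = h ∨ s = k → s ∉ R ∧ D.th s = 1 ∧
      ∀ z ∈ l, z ≠ .inl x → z ≠ .inl y → ¬ Invo z s)
    (xe : x ∈ e ∧ y ∉ e ∧ D.y x < D.hi e) (xg : x ∈ g ∧ y ∉ g ∧ D.y x < D.hi g)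
    (yf : y ∈ f ∧ x ∉ f ∧ D.y y < D.hi f) (yg : y ∈ g' ∧ x ∉ g' ∧ D.y y < D.hi g')
    (hh : h = s(x, y)) (hk : x ∉ k ∧ y ∉ k) (d1 : e ≠ g) (d2 : f ≠ g') {Z : Fn (Lb V) C}
    (i1 : Ind (e, 0) Z) (i2 : Ind (f, 0) Z) :
    (Ind (h, 0) Z → D.run a E₀ l (cap (e, 0) (f, 0) Z) = D.run a E₂ l Z) ∧
      D.run a E₀ l (cpy (e, 0) (g, 0) (cpy (f, 0) (g', 0) Z)) = D.run a E₁ l Z := by
  obtain ⟨m₀, m₁, m₂, rfl, hm⟩ := split_two hl hx hy hxy
  have rr : ∀ {E : Set (Sym2 V)} {s t : Sym2 V}, (∀ u, u ∈ E ↔ u ∈ R ∨ u = s ∨ u = t) →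
      (s = e ∨ s = f ∨ s = g ∨ s = g' ∨ s = h ∨ s = k) →
      (t = e ∨ t = f ∨ t = g ∨ t = g' ∨ t = h ∨ t = k) → ∀ m : List (Ev V),
      (∀ z ∈ m, z ∈ m₀ ∨ z ∈ m₁ ∨ z ∈ m₂) → (D.run a E m : Op (Lb V) C) = D.run a R m :=
    fun {E s t} c hs ht m hm' => run_R (fun u hu => (c u).2 (Or.inl hu)) fun z hz u hu hi => by
      have := hm z (hm' z hz)
      have := (hR s hs).2.2 z
      have := (hR t ht).2.2 z
      have := (c u).1 hu
      grind
  have lc : ∀ m, (D.run a R m : Op (Lb V) C) ∈ loc {k | k.1 ∈ R} := fun m =>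
    mem_loc_mono (run_loc a hd m) fun k hk => hk.1
  have th : D.top h x = false := top_lo (by simp [hh, hxy])
  have th' : D.top h y = true := top_hi (by simp [hh, hxy.le])
  have n1 := (hR e (by simp))
  have n2 := (hR f (by simp))
  have n3 := (hR g (by simp))
  have n4 := (hR g' (by simp))
  have n5 := (hR h (by simp))
  have q1 := ((p1.uq r₁).2 rfl).1
  have q2 := ((p2.uq r₂).2 rfl).1
  simp only [run_append, run_cons]
  rw [rr c0 (by simp) (by simp) m₀ (by grind), rr c0 (by simp) (by simp) m₁ (by grind),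
    rr c0 (by simp) (by simp) m₂ (by grind), rr c1 (by simp) (by simp) m₀ (by grind),
    rr c1 (by simp) (by simp) m₁ (by grind), rr c1 (by simp) (by simp) m₂ (by grind),
    rr c2 (by simp) (by simp) m₀ (by grind), rr c2 (by simp) (by simp) m₁ (by grind),
    rr c2 (by simp) (by simp) m₂ (by grind), p1.evop n1.1 xe.1 yf.2.1 n1.2.1 c0,
    p2.evop n2.1 yf.1 xe.2.1 n2.2.1 (fun s => (c0 s).trans (by grind)),
    p1.evop n3.1 xg.1 yg.2.1 n3.2.1 c1,
    p2.evop n4.1 yg.1 xg.2.1 n4.2.1 (fun s => (c1 s).trans (by grind)),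
    p1.evop n5.1 (by simp [hh]) hk.1 n5.2.1 c2, p2.evop n5.1 (by simp [hh]) hk.2 n5.2.1 c2,
    top_lo xe.2.2, top_lo xg.2.2, top_lo yf.2.2, top_lo yg.2.2, th, th']
  have : y ∈ h := by simp [hh]
  exact ⟨fun i3 => congrArg _ (low_H (lc _) (lc _) n1.1 n2.1 n5.1 q1 q2 (by grind) (by grind) _ _
    i1 i2 i3), congrArg _ (low_V (lc _) (lc _) n1.1 n2.1 n3.1 n4.1 q1 q2 (by grind) (by grind)
    (by grind) (by grind) (by grind) _ _ i1 i2)⟩

theorem kauff [Inhabited C] {Γ E₀ E₁ E₂ : Set (Sym2 V)} (hg : D.Gen Γ)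
    (hd : D.DecOK R) {p q p' q' : V} {r₁ r₂ r₃ r₄ : Sym2 V}
    (cΓ : ∀ s, s ∈ Γ ↔ s ∈ R ∨ s = s(p, p') ∨ s = s(q, q') ∨ s = s(p, q') ∨ s = s(q, p') ∨
      s = s(p, q) ∨ s = s(p', q'))
    (c0 : ∀ s, s ∈ E₀ ↔ s ∈ R ∨ s = s(p, p') ∨ s = s(q, q'))
    (c1 : ∀ s, s ∈ E₁ ↔ s ∈ R ∨ s = s(p, q') ∨ s = s(q, p'))
    (c2 : ∀ s, s ∈ E₂ ↔ s ∈ R ∨ s = s(p, q) ∨ s = s(p', q'))
    (hR : ∀ s, s = s(p, p') ∨ s = s(q, q') ∨ s = s(p, q') ∨ s = s(q, p') ∨
      s = s(p, q) ∨ s = s(p', q') → s ∉ R ∧ D.th s = 1)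
    (p1 : D.Port R p r₁) (p2 : D.Port R q r₂) (p3 : D.Port R p' r₃) (p4 : D.Port R q' r₄)
    (hc : D.IsCross s(p, p') s(q, q')) (h1 : D.y p < D.y p') (h2 : D.y q < D.y q')
    (hx : ∀ x ∈ Γ, ∀ y ∈ Γ, D.IsCross x y → (x ∈ R ∧ y ∈ R) ∨ (x = s(p, p') ∧ y = s(q, q')))
    (hmu : D.mu s(p, p') s(q, q') = 0) :
    D.br C a E₀ = pm a (D.eps s(p, p') s(q, q')) * D.br C a E₁ +
      (pm a (D.eps s(p, p') s(q, q')))⁻¹ * D.br C a E₂ := by
  obtain ⟨l, hl⟩ := exists_evlist hg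
  have m1 : s(p, p') ∈ Γ := (cΓ _).2 (by simp)
  have m2 : s(q, q') ∈ Γ := (cΓ _).2 (by simp)
  obtain ⟨l₁, l₂, rfl⟩ := List.append_of_mem ((hl.mem (.inr (s(p, p'), s(q, q')))).2 ⟨m1, m2, hc⟩)
  have hp := List.pairwise_append.1 hl.pw
  have hp2 := List.pairwise_cons.1 hp.2.1
  obtain ⟨-, t1, t2, t3, t4⟩ := id hc
  simp only [Geo.lo_mk, Geo.hi_mk, min_eq_left h1.le, min_eq_left h2.le, max_eq_right h1.le,
    max_eq_right h2.le] at t1 t2 t3 t4
  have lo : ∀ x ∈ l₁, D.lev x < D.lev (.inr (s(p, p'), s(q, q'))) := fun x hx =>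
    hp.2.2 x hx _ List.mem_cons_self
  have mem : ∀ v, v = p ∨ v = q ∨ v = p' ∨ v = q' → .inl v ∈ l₁ ∨ .inl v ∈ l₂ := fun v hv => by
    have := (hl.mem (.inl v)).2 (by
      rcases hv with rfl | rfl | rfl | rfl
      exacts [⟨_, m1, by simp⟩, ⟨_, m2, by simp⟩, ⟨_, m1, by simp⟩, ⟨_, m2, by simp⟩])
    simpa using this
  have v1 : ∀ v, .inl v ∈ l₁ → D.y v < D.lev (.inr (s(p, p'), s(q, q'))) := fun v hv => lo _ hv
  have v2 : ∀ v, .inl v ∈ l₂ → D.lev (.inr (s(p, p'), s(q, q'))) < D.y v := fun v hv => hp2.1 _ hv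
  have mp : .inl p ∈ l₁ := (mem p (by simp)).resolve_right fun k => (v2 _ k).not_gt t1
  have mq : .inl q ∈ l₁ := (mem q (by simp)).resolve_right fun k => (v2 _ k).not_gt t3
  have mp' : .inl p' ∈ l₂ := (mem p' (by simp)).resolve_left fun k => (v1 _ k).not_gt t2
  have mq' : .inl q' ∈ l₂ := (mem q' (by simp)).resolve_left fun k => (v1 _ k).not_gt t4
  have y1 : D.y p < D.y q' := t1.trans t4
  have y2 : D.y q < D.y p' := t3.trans t2
  have npq : D.y p ≠ D.y q := hg.y_ne ((cΓ _).2 (by simp))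
  have npq' : D.y p' ≠ D.y q' := hg.y_ne ((cΓ _).2 (by simp))
  have d1 : p ≠ q := ne_of_apply_ne D.y npq
  have d2 : p ≠ p' := ne_of_apply_ne D.y h1.ne
  have d3 : p ≠ q' := ne_of_apply_ne D.y y1.ne
  have d4 : q ≠ p' := ne_of_apply_ne D.y y2.ne
  have d5 : q ≠ q' := ne_of_apply_ne D.y h2.ne
  have d6 : p' ≠ q' := ne_of_apply_ne D.y npq'
  have cr : ∀ s, s ∉ R → ∀ z, .inr z ∈ l₁ ∨ .inr z ∈ l₂ → ¬ Invo (.inr z) s := fun s hs z hz hi => by
    have k := (hl.mem (.inr z)).1 (by rcases hz with hz | hz <;> simp [hz])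
    rcases hx _ k.1 _ k.2.1 k.2.2 with c | c
    · rcases hi with rfl | rfl
      exacts [hs c.1, hs c.2]
    · have : z = (s(p, p'), s(q, q')) := Prod.ext c.1 c.2
      subst this
      rcases hz with hz | hz
      exacts [lt_irrefl _ (lo _ hz), lt_irrefl _ (hp2.1 _ hz)]
  have ni1 : ∀ s, s = s(p, p') ∨ s = s(q, q') ∨ s = s(p, q') ∨ s = s(q, p') ∨
      s = s(p, q) ∨ s = s(p', q') → s ∉ R ∧ D.th s = 1 ∧
      ∀ z ∈ l₁, z ≠ .inl p → z ≠ .inl q → ¬ Invo z s := fun s hs =>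
    ⟨(hR s hs).1, (hR s hs).2, fun z hz k1 k2 hi => by
      cases z with
      | inl v =>
        have k3 : v ≠ p' := fun e => (v1 v hz).not_gt (e ▸ t2)
        have k4 : v ≠ q' := fun e => (v1 v hz).not_gt (e ▸ t4)
        simp only [ne_eq, Sum.inl.injEq] at k1 k2
        rcases hs with rfl | rfl | rfl | rfl | rfl | rfl <;> simp [Invo, k1, k2, k3, k4] at hi
      | inr z => exact cr s (hR s hs).1 z (Or.inl hz) hi⟩
  have ni2 : ∀ s, s = s(p, p') ∨ s = s(q, q') ∨ s = s(p, q') ∨ s = s(q, p') ∨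
      s = s(p, q) ∨ s = s(p', q') → s ∉ R ∧ D.th s = 1 ∧
      ∀ z ∈ l₂, z ≠ .inl p' → z ≠ .inl q' → ¬ Invo z s := fun s hs =>
    ⟨(hR s hs).1, (hR s hs).2, fun z hz k1 k2 hi => by
      cases z with
      | inl v =>
        have k3 : v ≠ p := fun e => (v2 v hz).not_gt (e ▸ t1)
        have k4 : v ≠ q := fun e => (v2 v hz).not_gt (e ▸ t3)
        simp only [ne_eq, Sum.inl.injEq] at k1 k2
        rcases hs with rfl | rfl | rfl | rfl | rfl | rfl <;> simp [Invo, k1, k2, k3, k4] at hi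
      | inr z => exact cr s (hR s hs).1 z (Or.inr hz) hi⟩
  have U : cup (s(p, p'), 0) (s(q, q'), 0) (D.run a E₀ l₂ fun _ => 1) =
      (D.run a E₂ l₂ fun _ => 1 : Fn (Lb V) C) ∧ (D.run a E₀ l₂ fun _ => 1 : Fn (Lb V) C) =
        cpy (s(p, p'), 0) (s(q, p'), 0) (cpy (s(q, q'), 0) (s(p, q'), 0)
          (D.run a E₁ l₂ fun _ => 1)) := by
    rcases lt_or_gt_of_ne npq' with c | c
    · exact upper (k := s(p, q)) hd hp2.2 mp' mq' c p3 p4 c0 (fun s => (c1 s).trans (or_congr_right or_comm))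
        (fun s => (c2 s).trans (or_congr_right or_comm)) (fun s hs => ni2 s (by clear * - hs; tauto))
        (by simp [h1.le, d3.symm, d6.symm]) (by simp [y2.le, d5.symm, d6.symm])
        (by simp [h2.le, d4.symm, d6]) (by simp [y1.le, d2.symm, d6]) rfl
        (by simp [d2.symm, d3.symm, d4.symm, d5.symm])
    · have := upper (a := a) (C := C) (k := s(p, q)) (e := s(q, q')) (f := s(p, p'))
        (g := s(p, q')) (g' := s(q, p')) (h := s(p', q')) hd hp2.2 mq' mp' c p4 p3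
        (fun s => (c0 s).trans (or_congr_right or_comm)) c1
        (fun s => (c2 s).trans (or_congr_right or_comm)) (fun s hs => by
          have := ni2 s (by clear * - hs; tauto); clear * - this; tauto)
        (by simp [h2.le, d4.symm, d6]) (by simp [y1.le, d2.symm, d6])
        (by simp [h1.le, d3.symm, d6.symm]) (by simp [y2.le, d5.symm, d6.symm]) Sym2.eq_swap
        (by simp [d2.symm, d3.symm, d4.symm, d5.symm])
      rw [cup_symm, loc_comm (cpy_loc _ _) (cpy_loc _ _) (by clear * - d1 d2 d3 d4 d5 d6; simp; grind)] at this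
      exact this
  have Lw : ∀ Z : Fn (Lb V) C, Ind (s(p, p'), 0) Z → Ind (s(q, q'), 0) Z →
      (Ind (s(p, q), 0) Z → D.run a E₀ l₁ (cap (s(p, p'), 0) (s(q, q'), 0) Z) = D.run a E₂ l₁ Z) ∧
      D.run a E₀ l₁ (cpy (s(p, p'), 0) (s(p, q'), 0) (cpy (s(q, q'), 0) (s(q, p'), 0) Z)) =
        D.run a E₁ l₁ Z := fun Z i1 i2 => by
    rcases lt_or_gt_of_ne npq with c | c
    · exact lower (k := s(p', q')) hd hp.1 mp mq c p1 p2 c0 c1 c2 (fun s hs => ni1 s (by clear * - hs; tauto))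
        (by simp [h1, d1.symm, d4]) (by simp [y1, d1.symm, d5]) (by simp [h2, d1, d3])
        (by simp [y2, d1, d2]) rfl (by simp [d2, d3, d4, d5]) (by clear * - d1 d2 d3 d4 d5 d6; simp; grind) (by clear * - d1 d2 d3 d4 d5 d6; simp; grind) i1 i2
    · have := lower (a := a) (k := s(p', q')) (e := s(q, q')) (f := s(p, p'))
        (g := s(q, p')) (g' := s(p, q')) (h := s(p, q)) hd hp.1 mq mp c p2 p1
        (fun s => (c0 s).trans (or_congr_right or_comm)) (fun s => (c1 s).trans (or_congr_right or_comm)) c2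
        (fun s hs => by
          have := ni1 s (by clear * - hs; tauto); clear * - this; tauto)
        (by simp [h2, d1, d3]) (by simp [y2, d1, d2]) (by simp [h1, d1.symm, d4])
        (by simp [y1, d1.symm, d5]) Sym2.eq_swap (by simp [d2, d3, d4, d5]) (by clear * - d1 d2 d3 d4 d5 d6; simp; grind)
        (by clear * - d1 d2 d3 d4 d5 d6; simp; grind) i2 i1
      rw [cap_symm, loc_comm (cpy_loc _ _) (cpy_loc _ _) (by clear * - d1 d2 d3 d4 d5 d6; simp; grind)] at this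
      exact this
  have n1 := (hR s(p, p') (by simp))
  have n2 := (hR s(q, q') (by simp))
  have dj : ∀ {E : Set (Sym2 V)} {s t : Sym2 V}, (∀ u, u ∈ E ↔ u ∈ R ∨ u = s ∨ u = t) →
      (∀ v, v ∈ s ∨ v ∈ t → D.dj v = 0) → D.DecOK E := fun {E s t} c k v hv hj => by
    obtain ⟨e, he, hv⟩ := hv
    have := hd v ⟨e, ((c e).1 he).resolve_right fun k' => hj (k v (by
      rcases k' with rfl | rfl
      exacts [Or.inl hv, Or.inr hv])), hv⟩ hj
    exact ⟨(c _).2 (Or.inl this.1), this.2⟩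
  have j1 := p1.dj
  have j2 := p2.dj
  have j3 := p3.dj
  have j4 := p4.dj
  have dc1 := dj c1 (by clear * - j1 j2 j3 j4; simp only [Sym2.mem_iff]; grind)
  have dc2 := dj c2 (by clear * - j1 j2 j3 j4; simp only [Sym2.mem_iff]; grind)
  have e1 : s(p, p') ∉ E₁ := by
    rw [c1]; clear * - d1 d2 d3 d4 d5 d6 n1 n2; simp; grind
  have e2 : s(p, p') ∉ E₂ := by
    rw [c2]; clear * - d1 d2 d3 d4 d5 d6 n1 n2; simp; grind
  have f1 : s(q, q') ∉ E₁ := by
    rw [c1]; clear * - d1 d2 d3 d4 d5 d6 n1 n2; simp; grind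
  have f2 : s(q, q') ∉ E₂ := by
    rw [c2]; clear * - d1 d2 d3 d4 d5 d6 n1 n2; simp; grind
  have i1 : ∀ {E : Set (Sym2 V)}, D.DecOK E → ∀ s ∉ E,
      Ind (s, 0) (D.run a E l₂ fun _ => 1 : Fn (Lb V) C) := fun hd s hs =>
    Ind.loc (fun _ _ => rfl) (run_loc a hd l₂) fun k => hs k.1
  have i2 : Ind (s(p, q), 0) (D.run a E₂ l₂ fun _ => 1 : Fn (Lb V) C) := by
    refine Ind.loc (fun _ _ => rfl) (run_loc a dc2 l₂) ?_
    rintro ⟨-, x, hx, k⟩
    have k1 := (Geo.Invo.range ((hl.mem x).1 (by simp [hx])) k).2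
    have k2 := hp2.1 x hx
    simp only [Geo.hi_mk, le_max_iff] at k1
    rcases k1 with k1 | k1 <;> linarith
  rw [br_eq (fun s hs => (cΓ s).2 (by have := (c0 s).1 hs; clear * - this; tauto)) hl,
    br_eq (fun s hs => (cΓ s).2 (by have := (c1 s).1 hs; clear * - this; tauto)) hl,
    br_eq (fun s hs => (cΓ s).2 (by have := (c2 s).1 hs; clear * - this; tauto)) hl]
  simp only [run_append, run_cons]
  rw [evop_cross a ((c0 _).2 (by simp)) ((c0 _).2 (by simp)), evop_ncross a (Or.inl e1),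
    evop_ncross a (Or.inl e2), xop, hmu, cab_one n1.2, cab_one n2.2]
  simp only [zero_mul, neg_zero, zpow_zero, one_smul, xx_cons, xx_nil, tt_cons, tt_nil, rr,
    LinearMap.add_apply, LinearMap.smul_apply, map_add, map_smul, Module.End.one_apply, qq_apply]
  rw [U.1, (Lw _ (i1 dc2 _ e2) (i1 dc2 _ f2)).1 i2, U.2,
    swp_cpy_cpy (by clear * - d1 d2 d3 d4 d5 d6; simp; grind) (by clear * - d1 d2 d3 d4 d5 d6; simp; grind) (by clear * - d1 d2 d3 d4 d5 d6; simp; grind) (by clear * - d1 d2 d3 d4 d5 d6; simp; grind)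
      (i1 dc1 _ e1) (i1 dc1 _ f1), (Lw _ (i1 dc1 _ e1) (i1 dc1 _ f1)).2]
  rfl

end Dat

end Pool.Agent.P.MP_382f0d_gt

/-! Combinatorics of polygonal links: edges, components, orientations. -/

namespace Pool.Agent.P.MP_382f0d_gt

open Equiv

/-- connectedness of vertices along the edges of `E` -/
def VConn {V : Type} (E : Set (Sym2 V)) : V → V → Prop :=
  Relation.ReflTransGen fun p q => s(p, q) ∈ E

theorem VConn.symm {V : Type} {E : Set (Sym2 V)} {p q : V} (h : VConn E p q) : VConn E q p := by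
  induction h with
  | refl => exact Relation.ReflTransGen.refl
  | tail _ k ih => exact Relation.ReflTransGen.head (by rwa [Sym2.eq_swap]) ih

theorem VConn.trans {V : Type} {E : Set (Sym2 V)} {p q r : V} (h : VConn E p q) (k : VConn E q r) :
    VConn E p r := Relation.ReflTransGen.trans h k

theorem VConn.refl {V : Type} {E : Set (Sym2 V)} (p : V) : VConn E p p :=
  Relation.ReflTransGen.refl

theorem VConn.edge {V : Type} {E : Set (Sym2 V)} {p q : V} (h : s(p, q) ∈ E) : VConn E p q :=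
  Relation.ReflTransGen.single h

theorem VConn.of_mem {V : Type} {E : Set (Sym2 V)} {e : Sym2 V} (he : e ∈ E) {p q : V}
    (hp : p ∈ e) (hq : q ∈ e) : VConn E p q := by
  by_cases h : p = q
  · rw [h]; exact VConn.refl _
  · exact VConn.edge ((Sym2.mem_and_mem_iff h).1 ⟨hp, hq⟩ ▸ he)

theorem VConn.map {V : Type} {E E' : Set (Sym2 V)} (ρ : V → V)
    (h : ∀ p q, s(p, q) ∈ E → VConn E' (ρ p) (ρ q)) {p q : V} (k : VConn E p q) :
    VConn E' (ρ p) (ρ q) := by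
  induction k with
  | refl => exact VConn.refl _
  | tail _ k ih => exact ih.trans (h _ _ k)

/-- every vertex lies on exactly two edges -/
def TwoReg {V : Type} (E : Set (Sym2 V)) : Prop := ∀ e ∈ E, ∀ x ∈ e, ∃ f, Two E x e f

theorem TwoReg.two {V : Type} {E : Set (Sym2 V)} (h : TwoReg E) {e f : Sym2 V} {x : V}
    (he : e ∈ E) (hf : f ∈ E) (hx : x ∈ e) (hx' : x ∈ f) (hef : e ≠ f) : Two E x e f := by
  obtain ⟨f', h'⟩ := h e he x hx
  rcases (h'.2 f).1 ⟨hf, hx'⟩ with k | k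
  · exact absurd k.symm hef
  · exact k ▸ h'

open Classical in
noncomputable def Geo.tau {V : Type} (g : Geo V) (e : Sym2 V) (x : V) : ℤ :=
  sgn (decide (g.y x = g.hi e))

theorem sgn_sq (b : Bool) : sgn b * sgn b = 1 := by cases b <;> rfl

theorem Geo.tau_sq {V : Type} (g : Geo V) (e : Sym2 V) (x : V) : g.tau e x * g.tau e x = 1 :=
  sgn_sq _

theorem Geo.tau_mk {V : Type} {g : Geo V} {p q : V} (h : g.y p ≠ g.y q) :
    g.tau s(p, q) p + g.tau s(p, q) q = 0 := by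
  rcases lt_or_gt_of_ne h with k | k <;> simp [Geo.tau, sgn, k.le, k.ne]

/-- coherent weights: constant along a component oriented consistently -/
def Coh {V : Type} (g : Geo V) (E : Set (Sym2 V)) (o : Sym2 V → ℤ) : Prop :=
  ∀ x e f, Two E x e f → o e * g.tau e x + o f * g.tau f x = 0

def Conn {V : Type} (E : Set (Sym2 V)) (e f : Sym2 V) : Prop :=
  e ∈ E ∧ f ∈ E ∧ ∃ x ∈ e, ∃ y ∈ f, VConn E x y

open Classical in
/-- the writhe weight of a pair of edges -/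
noncomputable def muE {V : Type} (g : Geo V) (E : Set (Sym2 V)) (e f : Sym2 V) : ℤ :=
  if Conn E e f then (if ∀ o, Coh g E o → o f = o e then 1 else -1) else 0

theorem coh_sign {V : Type} {g : Geo V} {E : Set (Sym2 V)} (hE : TwoReg E) {e : Sym2 V}
    (he : e ∈ E) {x y : V} (hx : x ∈ e) (h : VConn E x y) :
    ∀ f ∈ E, y ∈ f → ∃ s : ℤ, s * s = 1 ∧ ∀ o, Coh g E o → o f = s * o e := by
  have base : ∀ e ∈ E, ∀ x ∈ e, ∀ f ∈ E, x ∈ f →
      ∃ s : ℤ, s * s = 1 ∧ ∀ o, Coh g E o → o f = s * o e := fun e he x hx f hf hx' => by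
    by_cases c : e = f
    · exact ⟨1, rfl, fun o _ => by rw [c, one_mul]⟩
    · have h1 := g.tau_sq e x
      have h2 := g.tau_sq f x
      refine ⟨-(g.tau e x * g.tau f x), by linear_combination (g.tau f x * g.tau f x) * h1 + h2,
        fun o ho => ?_⟩
      have := ho x e f (hE.two he hf hx hx' c)
      linear_combination (g.tau f x) * this - o f * h2
  induction h with
  | refl => exact base e he x hx
  | tail _ k ih =>
    intro f hf hy
    obtain ⟨s, s1, s2⟩ := ih _ k (by simp)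
    obtain ⟨t, t1, t2⟩ := base _ k _ (by simp) f hf hy
    exact ⟨t * s, by linear_combination (s * s) * t1 + s1, fun o ho => by
      rw [t2 o ho, s2 o ho, mul_assoc]⟩

open Classical in
theorem muE_eq {V : Type} {g : Geo V} {E : Set (Sym2 V)} (hE : TwoReg E) {o : Sym2 V → ℤ}
    (ho : Coh g E o) (hu : ∀ e ∈ E, o e * o e = 1) (e f : Sym2 V) :
    muE g E e f = if Conn E e f then o e * o f else 0 := by
  rw [muE]
  split_ifs with c d
  · rw [d o ho, hu e c.1]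
  · obtain ⟨he, hf, x, hx, y, hy, k⟩ := c
    obtain ⟨s, s1, s2⟩ := coh_sign (g := g) hE he hx k f hf hy
    rcases Int.eq_one_or_neg_one_of_mul_eq_one s1 with rfl | rfl
    · exact absurd (fun o ho => by rw [s2 o ho, one_mul]) d
    · rw [s2 o ho]; linarith [hu e he]
  · rfl

theorem muE_not {V : Type} {g : Geo V} {E : Set (Sym2 V)} {e f : Sym2 V} (h : e ∉ E ∨ f ∉ E) :
    muE g E e f = 0 := by
  rw [muE, if_neg]
  rintro ⟨h1, h2, -⟩
  tauto

namespace PLink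

variable (K : PLink)

theorem mk_mem {v : Pt} (h : K.next v ≠ v) : s(v, K.next v) ∈ K.edges := ⟨v, h, rfl⟩

variable {K}

theorem moved_next {v : Pt} (h : K.next v ≠ v) : K.next (K.next v) ≠ K.next v :=
  K.next.injective.ne h

theorem moved_prev {v : Pt} (h : K.next v ≠ v) : K.next (K.next⁻¹ v) ≠ K.next⁻¹ v := by
  intro k
  have k2 : v = K.next⁻¹ v := by simpa using k
  apply h
  conv_lhs => rw [k2]
  simp

theorem moved {e : Sym2 Pt} (he : e ∈ K.edges) {x : Pt} (hx : x ∈ e) : K.next x ≠ x := by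
  obtain ⟨v, hv, rfl⟩ := he
  rcases Sym2.mem_iff.1 hx with rfl | rfl
  exacts [hv, moved_next hv]

theorem ne_of_mem {p q : Pt} (h : s(p, q) ∈ K.edges) : p ≠ q := by
  obtain ⟨v, hv, e⟩ := h
  rintro rfl
  simp only [Sym2.eq_iff] at e
  grind

theorem not_diag {e : Sym2 Pt} (he : e ∈ K.edges) : ¬ e.IsDiag := by
  induction e using Sym2.ind with | _ p q => simpa using ne_of_mem he

theorem open_not_end {p q x : Pt} (h : p ≠ q) (hx : x ∈ openSegment ℝ p q) : x ≠ p ∧ x ≠ q :=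
  ⟨fun e => h (left_mem_openSegment_iff.1 (e ▸ hx)),
    fun e => h (right_mem_openSegment_iff.1 (e ▸ hx))⟩

theorem seg_not_finite {E : Type} [AddCommGroup E] [Module ℝ E] {p q : E} (h : p ≠ q) :
    (segment ℝ p q).Infinite := by
  rw [segment_eq_image_lineMap]
  exact (Set.Icc_infinite zero_lt_one).image (AffineMap.lineMap_injective ℝ h).injOn

theorem next_next_ne {v : Pt} (h : K.next v ≠ v) : K.next (K.next v) ≠ v := fun k => by
  have := K.simple v (K.next v) h (moved_next h) h.symm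
  rw [k, segment_symm ℝ (K.next v) v, Set.inter_self] at this
  exact seg_not_finite h.symm (((Set.toFinite _).inter_of_left _).subset this)

theorem edge_inj {v w : Pt} (hv : K.next v ≠ v) (h : s(v, K.next v) = s(w, K.next w)) : v = w := by
  rcases Sym2.eq_iff.1 h with k | k
  · exact k.1
  · exact absurd (by rw [k.2, ← k.1]) (next_next_ne hv)

theorem two {x : Pt} (h : K.next x ≠ x) : Two K.edges x s(x, K.next x) s(K.next⁻¹ x, x) := by
  have hp := moved_prev h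
  have e : s(K.next⁻¹ x, x) = s(K.next⁻¹ x, K.next (K.next⁻¹ x)) := by simp
  refine ⟨fun k => ?_, fun e' => ⟨?_, ?_⟩⟩
  · have := edge_inj h (k.trans e)
    rw [← this] at hp
    rw [← this] at k
    simp only [Sym2.eq_iff] at k
    grind
  · rintro ⟨⟨v, hv, rfl⟩, hx⟩
    rcases Sym2.mem_iff.1 hx with rfl | rfl
    · exact Or.inl rfl
    · exact Or.inr (by simp)
  · rintro (rfl | rfl)
    · exact ⟨K.mk_mem h, by simp⟩
    · exact ⟨e ▸ K.mk_mem hp, by simp⟩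

theorem twoReg : TwoReg K.edges := fun e he x hx => by
  have h := two (moved he hx)
  rcases (h.2 e).1 ⟨he, hx⟩ with rfl | rfl
  exacts [⟨_, h⟩, ⟨_, h.symm⟩]

theorem edges_finite (K : PLink) : K.edges.Finite :=
  (K.finite.image fun v => s(v, K.next v)).subset fun _ ⟨v, hv, e⟩ => ⟨v, hv, e.symm⟩

theorem seg_sub {p q : Pt} (h : s(p, q) ∈ K.edges) : segment ℝ p q ⊆ K.carrier := by
  obtain ⟨v, hv, e⟩ := h
  rcases Sym2.eq_iff.1 e with ⟨rfl, rfl⟩ | ⟨rfl, rfl⟩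
  · exact fun x hx => ⟨_, hv, hx⟩
  · exact fun x hx => ⟨_, hv, by rwa [segment_symm]⟩

theorem mem_carrier {e : Sym2 Pt} (he : e ∈ K.edges) {x : Pt} (hx : x ∈ e) : x ∈ K.carrier :=
  ⟨x, moved he hx, left_mem_segment _ _ _⟩

theorem simple' {p q r t : Pt} (h : s(p, q) ∈ K.edges) (h' : s(r, t) ∈ K.edges)
    (hne : s(p, q) ≠ s(r, t)) {x : Pt} (h1 : x ∈ segment ℝ p q) (h2 : x ∈ segment ℝ r t) :
    (x = p ∨ x = q) ∧ (x = r ∨ x = t) := by
  obtain ⟨v, hv, e⟩ := h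
  obtain ⟨w, hw, e'⟩ := h'
  have := @K.simple v w hv hw (by rintro rfl; exact hne (e.trans e'.symm)) x
  simp only [Set.mem_inter_iff, Set.mem_insert_iff, Set.mem_singleton_iff] at this
  rcases Sym2.eq_iff.1 e with ⟨rfl, rfl⟩ | ⟨rfl, rfl⟩ <;>
    rcases Sym2.eq_iff.1 e' with ⟨rfl, rfl⟩ | ⟨rfl, rfl⟩
  · exact this ⟨h1, h2⟩
  · have := this ⟨h1, by rwa [segment_symm]⟩; tauto
  · have := this ⟨by rwa [segment_symm], h2⟩; tauto
  · have := this ⟨by rwa [segment_symm], by rwa [segment_symm]⟩; tauto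

theorem regular' (hK : K.Regular) {p q x : Pt} (h : s(p, q) ∈ K.edges) (hx : K.next x ≠ x)
    (h1 : x ≠ p) (h2 : x ≠ q) : proj x ∉ segment ℝ (proj p) (proj q) := by
  obtain ⟨v, hv, e⟩ := h
  rcases Sym2.eq_iff.1 e with ⟨rfl, rfl⟩ | ⟨rfl, rfl⟩
  · exact hK x _ hx hv h1 h2
  · rw [segment_symm]; exact hK x _ hx hv h2 h1

theorem vconn_next (x : Pt) : VConn K.edges x (K.next x) := by
  by_cases h : K.next x = x
  · rw [h]; exact VConn.refl _
  · exact VConn.edge (K.mk_mem h)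

theorem vconn_iff {x y : Pt} : VConn K.edges x y ↔ K.next.SameCycle x y := by
  constructor
  · intro h
    induction h with
    | refl => exact Perm.SameCycle.refl _ _
    | tail _ k ih =>
      obtain ⟨v, -, e⟩ := k
      rcases Sym2.eq_iff.1 e with ⟨rfl, rfl⟩ | ⟨rfl, rfl⟩
      · exact ih.apply_right
      · exact ih.of_apply_right
  · rintro ⟨i, rfl⟩
    induction i using Int.induction_on with
    | zero => exact VConn.refl _
    | succ i ih =>
      rw [add_comm, zpow_add, zpow_one, Perm.mul_apply]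
      exact ih.trans (vconn_next _)
    | pred i ih =>
      have : (K.next ^ (-(i : ℤ))) x = K.next ((K.next ^ (-(i : ℤ) - 1)) x) := by
        rw [← Perm.mul_apply, ← zpow_one_add]; congr 2; ring
      rw [this] at ih
      exact ih.trans (vconn_next _).symm

open Classical in
/-- the direction of an edge: up or down -/
noncomputable def ori (K : PLink) (g : Geo Pt) (e : Sym2 Pt) : ℤ :=
  if h : e ∈ K.edges then g.tau e (K.next h.choose) else 0

theorem ori_mk (g : Geo Pt) {v : Pt} (h : K.next v ≠ v) :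
    K.ori g s(v, K.next v) = g.tau s(v, K.next v) (K.next v) := by
  have h' := K.mk_mem h
  rw [ori, dif_pos h', ← edge_inj h h'.choose_spec.2]

theorem ori_sq (g : Geo Pt) : ∀ e ∈ K.edges, K.ori g e * K.ori g e = 1 := by
  rintro e ⟨v, hv, rfl⟩
  rw [ori_mk g hv, g.tau_sq]

theorem ori_coh {g : Geo Pt} (hy : ∀ p q, s(p, q) ∈ K.edges → g.y p ≠ g.y q) :
    Coh g K.edges (K.ori g) := by
  intro x e f h
  have hx := moved h.left.1 h.left.2
  have h1 := ori_mk g hx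
  have h2 := ori_mk g (moved_prev hx)
  simp only [Perm.coe_inv, apply_symm_apply] at h2
  have h3 := Geo.tau_mk (hy _ _ (K.mk_mem hx))
  have h4 := g.tau_sq s(x, K.next x) x
  have h5 := g.tau_sq s(K.next⁻¹ x, x) x
  simp only [Perm.coe_inv] at h5
  rcases (two hx).cases h with ⟨rfl, rfl⟩ | ⟨rfl, rfl⟩ <;> simp only [Perm.coe_inv] <;>
    rw [h1, h2] <;> linear_combination (g.tau s(x, K.next x) x) * h3 - h4 + h5

end PLink

/-! ### Total framing -/

/-- `T` contains exactly one vertex of each component -/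
def Trans (K : PLink) (T : Finset Pt) : Prop :=
  (∀ v ∈ T, K.next v ≠ v) ∧ ∀ x, K.next x ≠ x → ∃! v, v ∈ T ∧ VConn K.edges v x

theorem exists_trans (K : PLink) : ∃ T, Trans K T := by
  classical
  let r : Setoid Pt := ⟨VConn K.edges, VConn.refl, VConn.symm, VConn.trans⟩
  have ho : ∀ x, VConn K.edges (Quotient.mk r x).out x := fun x => Quotient.mk_out (s := r) x
  refine ⟨K.finite.toFinset.image fun x => (Quotient.mk r x).out, fun v hv => ?_,
    fun x hx => ⟨_, ⟨Finset.mem_image_of_mem _ (by simpa using hx), ho x⟩, ?_⟩⟩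
  · obtain ⟨x, hx, rfl⟩ := Finset.mem_image.1 hv
    have := (PLink.vconn_iff.1 (ho x)).apply_eq_self_iff
    simp only [Set.Finite.mem_toFinset, Set.mem_ofPred_eq] at hx
    tauto
  · rintro v ⟨hv, k⟩
    obtain ⟨y, -, rfl⟩ := Finset.mem_image.1 hv
    rw [Quotient.sound (s := r) ((ho y).symm.trans k)]

variable {L : PLink}

theorem Framed.fr_conn (K : Framed L) {x y : Pt} (h : VConn K.edges x y) : K.fr y = K.fr x := by
  induction h with
  | refl => rfl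
  | tail _ k ih =>
    obtain ⟨v, -, e⟩ := k
    rcases Sym2.eq_iff.1 e with ⟨rfl, rfl⟩ | ⟨rfl, rfl⟩
    · rw [K.fr_next, ih]
    · rw [← ih, K.fr_next]

/-- the sum of the framings of the components -/
noncomputable def Framed.tot (K : Framed L) : ℤ := ∑ v ∈ (exists_trans K.toPLink).choose, K.fr v

theorem Framed.tot_eq (K : Framed L) {T : Finset Pt} (hT : Trans K.toPLink T) :
    K.tot = ∑ v ∈ T, K.fr v := by
  have hT' := (exists_trans K.toPLink).choose_spec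
  rw [Framed.tot]
  generalize (exists_trans K.toPLink).choose = T' at hT'
  refine Finset.sum_bij (fun v hv => (hT.2 v (hT'.1 v hv)).choose)
    (fun v hv => (hT.2 v (hT'.1 v hv)).choose_spec.1.1) (fun v hv w hw e => ?_)
    (fun w hw => ?_) fun v hv => K.fr_conn (hT.2 v (hT'.1 v hv)).choose_spec.1.2
  · have h1 := (hT.2 v (hT'.1 v hv)).choose_spec.1.2
    have h2 := (hT.2 w (hT'.1 w hw)).choose_spec.1.2
    rw [e] at h1
    exact (hT'.2 w (hT'.1 w hw)).unique ⟨hv, h1.symm.trans h2⟩ ⟨hw, VConn.refl _⟩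
  · obtain ⟨v, hv, -⟩ := hT'.2 w (hT.1 w hw)
    exact ⟨v, hv.1, ((hT.2 v (hT'.1 v hv.1)).choose_spec.2 w ⟨hw, hv.2.symm⟩).symm⟩

end Pool.Agent.P.MP_382f0d_gt

/-! Perturbation into general position. -/

namespace Pool.Agent.P.MP_382f0d_gt

open Filter Topology

namespace Geo

variable {V : Type} {g : Geo V}

theorem val_param {p q : V} (h : g.y p ≠ g.y q) (f : V → ℝ) (α : ℝ) :
    g.val f s(p, q) ((1 - α) * g.y p + α * g.y q) = (1 - α) * f p + α * f q := by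
  have : g.y q - g.y p ≠ 0 := sub_ne_zero.2 h.symm
  simp only [val, icp, slp, Sym2.lift_mk]
  field_simp
  ring

theorem exists_param {p q : V} (h : g.y p ≠ g.y q) (t : ℝ) :
    ∃ α, t = (1 - α) * g.y p + α * g.y q ∧
      (g.lo s(p, q) ≤ t → t ≤ g.hi s(p, q) → 0 ≤ α ∧ α ≤ 1) ∧
      (g.lo s(p, q) < t → t < g.hi s(p, q) → 0 < α ∧ α < 1) := by
  have : g.y q - g.y p ≠ 0 := sub_ne_zero.2 h.symm
  have e : t = (1 - (t - g.y p) / (g.y q - g.y p)) * g.y p +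
      (t - g.y p) / (g.y q - g.y p) * g.y q := by field_simp; ring
  refine ⟨_, e, ?_⟩
  generalize (t - g.y p) / (g.y q - g.y p) = α at e
  rcases lt_or_gt_of_ne h with k | k
  · simp only [lo_mk, hi_mk, min_eq_left k.le, max_eq_right k.le]
    refine ⟨fun _ _ => ⟨?_, ?_⟩, fun _ _ => ⟨?_, ?_⟩⟩ <;> nlinarith
  · simp only [lo_mk, hi_mk, min_eq_right k.le, max_eq_left k.le]
    refine ⟨fun _ _ => ⟨?_, ?_⟩, fun _ _ => ⟨?_, ?_⟩⟩ <;> nlinarith

theorem param_range {p q : V} (h : g.y p ≠ g.y q) {α : ℝ} (h0 : 0 < α) (h1 : α < 1) :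
    g.lo s(p, q) < (1 - α) * g.y p + α * g.y q ∧ (1 - α) * g.y p + α * g.y q < g.hi s(p, q) := by
  rcases lt_or_gt_of_ne h with k | k
  · simp only [lo_mk, hi_mk, min_eq_left k.le, max_eq_right k.le]
    constructor <;> nlinarith
  · simp only [lo_mk, hi_mk, min_eq_right k.le, max_eq_left k.le]
    constructor <;> nlinarith

theorem y_ne_of_lt {p q : V} {t : ℝ} (h1 : g.lo s(p, q) < t) (h2 : t < g.hi s(p, q)) :
    g.y p ≠ g.y q := fun e => by
  simp only [lo_mk, hi_mk, e, min_self, max_self] at h1 h2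
  linarith

/-- the point `(c, t)` lies in the interior of the edge -/
def On (g : Geo V) (e : Sym2 V) (c t : ℝ) : Prop := g.lo e < t ∧ t < g.hi e ∧ g.X e t = c

theorem On.param {p q : V} {c t : ℝ} (h : g.On s(p, q) c t) : ∃ α, 0 < α ∧ α < 1 ∧
    t = (1 - α) * g.y p + α * g.y q ∧ c = (1 - α) * g.x p + α * g.x q ∧
    g.Z s(p, q) t = (1 - α) * g.z p + α * g.z q := by
  have hy := y_ne_of_lt h.1 h.2.1
  obtain ⟨α, e, -, k⟩ := exists_param hy t
  refine ⟨α, (k h.1 h.2.1).1, (k h.1 h.2.1).2, e, ?_, ?_⟩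
  · rw [← h.2.2, e, X, val_param hy]
  · rw [e, Z, val_param hy]

theorem IsCross.on {e f : Sym2 V} (h : g.IsCross e f) :
    g.On e (g.evx (.inr (e, f))) (g.lev (.inr (e, f))) ∧
      g.On f (g.evx (.inr (e, f))) (g.lev (.inr (e, f))) :=
  ⟨⟨h.2.1, h.2.2.1, rfl⟩, ⟨h.2.2.2.1, h.2.2.2.2, (X_lev h.1.ne).symm⟩⟩

theorem On.not_mem {e : Sym2 V} {c : ℝ} {p : V} (h : g.On e c (g.y p)) : p ∉ e := fun k => by
  have := h.1
  have := h.2.1
  rcases lo_or_hi (g := g) k with k | k <;> linarith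

theorem IsCross.not_share {e f : Sym2 V} (h : g.IsCross e f) {x : V} (h1 : x ∈ e) : x ∉ f := by
  intro h2
  have k : ∀ e : Sym2 V, x ∈ e → ∀ t, g.lo e < t → t < g.hi e → g.X e (g.y x) = g.x x := by
    intro e he t k1 k2
    induction e using Sym2.ind with | _ a b =>
    rcases Sym2.mem_iff.1 he with rfl | rfl
    · exact val_mk_left _ (y_ne_of_lt k1 k2)
    · exact val_mk_right _ (y_ne_of_lt k1 k2)
  have hl := lev_eq h.1.ne ((k e h1 _ h.2.1 h.2.2.1).trans (k f h2 _ h.2.2.2.1 h.2.2.2.2).symm)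
  exact (hl ▸ h.on.1).not_mem h1

/-- conditions of general position that do not depend on the direction of the sweep -/
structure Pre (g : Geo V) (S : Set V) : Prop where
  dx : ∀ p ∈ S, ∀ q ∈ S, p ≠ q → g.x p ≠ g.x q
  col : ∀ p ∈ S, ∀ q ∈ S, ∀ r ∈ S, p ≠ q → p ≠ r → q ≠ r →
    (g.x q - g.x p) * (g.y r - g.y p) - (g.y q - g.y p) * (g.x r - g.x p) ≠ 0
  con : ∀ p ∈ S, ∀ q ∈ S, ∀ r ∈ S, ∀ s ∈ S, ∀ u ∈ S, ∀ v ∈ S, [p, q, r, s, u, v].Nodup →
    ∀ α β γ c t : ℝ, t = (1 - α) * g.y p + α * g.y q → c = (1 - α) * g.x p + α * g.x q →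
      t = (1 - β) * g.y r + β * g.y s → c = (1 - β) * g.x r + β * g.x s →
      t = (1 - γ) * g.y u + γ * g.y v → c ≠ (1 - γ) * g.x u + γ * g.x v
  cop : ∀ p ∈ S, ∀ q ∈ S, ∀ r ∈ S, ∀ s ∈ S, [p, q, r, s].Nodup →
    det3 (g.x q - g.x p, g.y q - g.y p, g.z q - g.z p) (g.x r - g.x p, g.y r - g.y p, g.z r - g.z p)
      (g.x s - g.x p, g.y s - g.y p, g.z s - g.z p) ≠ 0

/-- vertices and intersection points of edges -/
def Spot (g : Geo V) (S : Set V) (c : ℝ × ℝ) : Prop :=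
  (∃ p ∈ S, c = (g.x p, g.y p)) ∨ ∃ p ∈ S, ∃ q ∈ S, ∃ r ∈ S, ∃ s ∈ S, [p, q, r, s].Nodup ∧
    ∃ α β : ℝ, c = ((1 - α) * g.x p + α * g.x q, (1 - α) * g.y p + α * g.y q) ∧
      c = ((1 - β) * g.x r + β * g.x s, (1 - β) * g.y r + β * g.y s)

theorem Pre.spot_finite {S : Set V} (h : g.Pre S) (hS : S.Finite) : {c | g.Spot S c}.Finite := by
  refine Set.Finite.union (s := {c | ∃ p ∈ S, c = (g.x p, g.y p)})
    ((hS.image fun p => (g.x p, g.y p)).subset fun _ ⟨p, hp, e⟩ => ⟨p, hp, e.symm⟩) ?_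
  refine (hS.biUnion fun p hp => hS.biUnion fun q hq => hS.biUnion fun r hr => hS.biUnion
    fun s _ => Set.Subsingleton.finite (s := {c : ℝ × ℝ | [p, q, r, s].Nodup ∧
      ∃ α β : ℝ, c = ((1 - α) * g.x p + α * g.x q, (1 - α) * g.y p + α * g.y q) ∧
      c = ((1 - β) * g.x r + β * g.x s, (1 - β) * g.y r + β * g.y s)}) ?_).subset ?_
  · rintro c ⟨hn, α, β, rfl, h1⟩ c' ⟨-, α', β', rfl, h2⟩
    simp only [List.nodup_cons, List.mem_cons, not_or] at hn
    have hc := h.col p hp q hq r hr hn.1.1 hn.1.2.1 hn.2.1.1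
    simp only [Prod.mk.injEq] at h1 h2
    by_cases e : α = α'
    · rw [e]
    by_cases e' : β = β'
    · rw [Prod.mk.injEq, h1.1, h1.2, h2.1, h2.2, e']; exact ⟨rfl, rfl⟩
    exfalso
    apply hc
    apply mul_left_cancel₀ (sub_ne_zero.2 e')
    linear_combination β' * (g.x q - g.x p) * h1.2 - β' * (g.y q - g.y p) * h1.1
      - β * (g.x q - g.x p) * h2.2 + β * (g.y q - g.y p) * h2.1
  · rintro c ⟨p, hp, q, hq, r, hr, s, hs, k⟩
    simp only [Set.mem_iUnion]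
    exact ⟨p, hp, q, hq, r, hr, s, hs, k⟩

theorem Pre.on_nodup {S : Set V} (h : g.Pre S) {p q r s : V} (hp : p ∈ S) (hq : q ∈ S)
    (hr : r ∈ S) (hs : s ∈ S) {c t : ℝ} (h1 : g.On s(p, q) c t) (h2 : g.On s(r, s) c t)
    (hne : s(p, q) ≠ s(r, s)) : [p, q, r, s].Nodup := by
  have key : ∀ p ∈ S, ∀ q ∈ S, ∀ r ∈ S, g.On s(p, q) c t → g.On s(p, r) c t → q = r := by
    intro p hp q hq r hr h1 h2
    by_contra hqr
    have n1 : p ≠ q := ne_of_apply_ne _ (y_ne_of_lt h1.1 h1.2.1)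
    have n2 : p ≠ r := ne_of_apply_ne _ (y_ne_of_lt h2.1 h2.2.1)
    obtain ⟨α, a0, -, a1, a2, -⟩ := h1.param
    obtain ⟨β, -, -, b1, b2, -⟩ := h2.param
    apply h.col p hp q hq r hr n1 n2 hqr
    apply mul_left_cancel₀ a0.ne'
    linear_combination (g.y r - g.y p) * (b2 - a2) - (g.x r - g.x p) * (b1 - a1)
  have n1 : p ≠ q := ne_of_apply_ne _ (y_ne_of_lt h1.1 h1.2.1)
  have n2 : r ≠ s := ne_of_apply_ne _ (y_ne_of_lt h2.1 h2.2.1)
  have h1' : g.On s(q, p) c t := Sym2.eq_swap ▸ h1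
  have h2' : g.On s(s, r) c t := Sym2.eq_swap ▸ h2
  have n3 : p ≠ r := by rintro rfl; exact hne (by rw [key _ hp _ hq _ hs h1 h2])
  have n4 : p ≠ s := by rintro rfl; exact hne (by rw [key _ hp _ hq _ hr h1 h2', Sym2.eq_swap])
  have n5 : q ≠ r := by rintro rfl; exact hne (by rw [key _ hq _ hp _ hs h1' h2, Sym2.eq_swap])
  have n6 : q ≠ s := by rintro rfl; exact hne (by rw [key _ hq _ hp _ hr h1' h2'])
  simp [n1, n2, n3, n4, n5, n6]

theorem Pre.not_on {S : Set V} (h : g.Pre S) {p q r : V} (hp : p ∈ S) (hq : q ∈ S) (hr : r ∈ S)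
    (hy : g.y p ≠ g.y q) (hn : r ∉ s(p, q)) : g.X s(p, q) (g.y r) ≠ g.x r := fun k => by
  obtain ⟨α, e, -⟩ := exists_param hy (g.y r)
  rw [e, X, val_param hy] at k
  simp only [Sym2.mem_iff, not_or] at hn
  apply h.col p hp q hq r hr (ne_of_apply_ne _ hy) (Ne.symm hn.1) (Ne.symm hn.2)
  rw [← k, e]; ring

theorem Pre.gen {S : Set V} (h : g.Pre S)
    (hl : ∀ c c', g.Spot S c → g.Spot S c' → c.2 = c'.2 → c = c') {E : Set (Sym2 V)}
    (hE : E.Finite) (hd : ∀ e ∈ E, ¬ e.IsDiag) (hS : ∀ e ∈ E, ∀ p ∈ e, p ∈ S) : g.Gen E := by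
  have yi : ∀ p ∈ S, ∀ q ∈ S, g.y p = g.y q → p = q := fun p hp q hq e => by
    by_contra k
    exact h.dx p hp q hq k (congrArg Prod.fst
      (hl _ _ (Or.inl ⟨p, hp, rfl⟩) (Or.inl ⟨q, hq, rfl⟩) e))
  have yn : ∀ p q, s(p, q) ∈ E → g.y p ≠ g.y q := fun p q he e =>
    hd _ he (by simpa using yi p (hS _ he _ (by simp)) q (hS _ he _ (by simp)) e)
  have nd : ∀ p q r s, s(p, q) ∈ E → s(r, s) ∈ E → ∀ c t, g.On s(p, q) c t → g.On s(r, s) c t →
      s(p, q) ≠ s(r, s) → [p, q, r, s].Nodup := fun p q r s he hf c t =>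
    h.on_nodup (hS _ he _ (by simp)) (hS _ he _ (by simp)) (hS _ hf _ (by simp))
      (hS _ hf _ (by simp))
  have sp : ∀ a, g.IsEv E a → g.Spot S (g.evx a, g.lev a) := by
    rintro (p | ⟨e, f⟩) ha
    · obtain ⟨e, he, hp⟩ := ha
      exact Or.inl ⟨p, hS e he p hp, rfl⟩
    · obtain ⟨he, hf, hc⟩ := ha
      induction e using Sym2.ind with | _ p q =>
      induction f using Sym2.ind with | _ r s =>
      obtain ⟨α, -, -, a1, a2, -⟩ := hc.on.1.param
      obtain ⟨β, -, -, b1, b2, -⟩ := hc.on.2.param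
      exact Or.inr ⟨p, hS _ he _ (by simp), q, hS _ he _ (by simp), r, hS _ hf _ (by simp), s,
        hS _ hf _ (by simp), nd _ _ _ _ he hf _ _ hc.on.1 hc.on.2 hc.ne, α, β,
        Prod.ext a2 a1, Prod.ext b2 b1⟩
  have vc : ∀ p e f, g.IsEv E (.inl p) → g.IsEv E (.inr (e, f)) →
      g.lev (.inl p) ≠ g.lev (.inr (e, f)) := fun p e f ha hb k => by
    have k2 := congrArg Prod.fst (hl _ _ (sp _ ha) (sp _ hb) k)
    obtain ⟨e', he', hp⟩ := ha
    have ho := hb.2.2.on.1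
    simp only at k2 ho
    rw [← k, ← k2] at ho
    have he := hb.1
    induction e using Sym2.ind with | _ q r =>
    exact h.not_on (hS _ he _ (by simp)) (hS _ he _ (by simp)) (hS _ he' _ hp) (yn _ _ he)
      ho.not_mem ho.2.2
  have tr : ∀ e ∈ E, ∀ f ∈ E, ∀ k ∈ E, ∀ c t, g.On e c t → g.On f c t → g.On k c t → e ≠ f →
      k = e ∨ k = f := fun e he f hf k hk c t h1 h2 h3 hef => by
    by_contra hn
    rw [not_or] at hn
    induction e using Sym2.ind with | _ p q =>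
    induction f using Sym2.ind with | _ r s =>
    induction k using Sym2.ind with | _ u v =>
    have n1 := nd _ _ _ _ he hf _ _ h1 h2 hef
    have n2 := nd _ _ _ _ hk he _ _ h3 h1 hn.1
    have n3 := nd _ _ _ _ hk hf _ _ h3 h2 hn.2
    obtain ⟨α, -, -, a1, a2, -⟩ := h1.param
    obtain ⟨β, -, -, b1, b2, -⟩ := h2.param
    obtain ⟨γ, -, -, c1, c2, -⟩ := h3.param
    refine h.con p (hS _ he _ (by simp)) q (hS _ he _ (by simp)) r (hS _ hf _ (by simp)) s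
      (hS _ hf _ (by simp)) u (hS _ hk _ (by simp)) v (hS _ hk _ (by simp)) ?_ α β γ c t
      a1 a2 b1 b2 c1 c2
    simp only [List.nodup_cons, List.mem_cons] at n1 n2 n3 ⊢
    clear * - n1 n2 n3
    grind
  refine ⟨hE, hd, fun e he p hp hn _ _ => ?_, ?_, fun e he f hf hc k => ?_⟩
  · obtain ⟨f, hf, hp⟩ := hp
    induction e using Sym2.ind with | _ q r =>
    exact h.not_on (hS _ he _ (by simp)) (hS _ he _ (by simp)) (hS _ hf _ hp) (yn _ _ he) hn
  · rintro (p | ⟨e, f⟩) (q | ⟨e', f'⟩) ha hb k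
    · obtain ⟨e, he, hp⟩ := ha
      obtain ⟨f, hf, hq⟩ := hb
      rw [yi p (hS e he p hp) q (hS f hf q hq) k]
    · exact absurd k (vc _ _ _ ha hb)
    · exact absurd k.symm (vc _ _ _ hb ha)
    · have k2 := congrArg Prod.fst (hl _ _ (sp _ ha) (sp _ hb) k)
      have o1 := ha.2.2.on
      have o2 := hb.2.2.on
      simp only at k2 o1 o2
      rw [← k, ← k2] at o2
      have t1 := tr e ha.1 f ha.2.1 e' hb.1 _ _ o1.1 o1.2 o2.1 ha.2.2.ne
      have t2 := tr e ha.1 f ha.2.1 f' hb.2.1 _ _ o1.1 o1.2 o2.2 ha.2.2.ne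
      have s1 := ha.2.2.1
      have s2 := hb.2.2.1
      simp only at s1 s2
      rcases t1 with rfl | rfl <;> rcases t2 with rfl | rfl
      · exact absurd s2 (lt_irrefl _)
      · rfl
      · exact absurd s2 s1.not_gt
      · exact absurd s2 (lt_irrefl _)
  · induction e using Sym2.ind with | _ p q =>
    induction f using Sym2.ind with | _ r s =>
    obtain ⟨α, -, -, a1, a2, a3⟩ := hc.on.1.param
    obtain ⟨β, -, b0, b1, b2, b3⟩ := hc.on.2.param
    apply h.cop p (hS _ he _ (by simp)) q (hS _ he _ (by simp)) r (hS _ hf _ (by simp)) s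
      (hS _ hf _ (by simp)) (nd _ _ _ _ he hf _ _ hc.on.1 hc.on.2 hc.ne)
    rw [a3, b3] at k
    have k1 := a1.symm.trans b1
    have k2 := a2.symm.trans b2
    apply mul_left_cancel₀ (sub_pos.2 b0).ne'
    simp only [det3]
    linear_combination
      -((g.y s - g.y p) * (g.z q - g.z p) - (g.z s - g.z p) * (g.y q - g.y p)) * k2
      + ((g.x s - g.x p) * (g.z q - g.z p) - (g.z s - g.z p) * (g.x q - g.x p)) * k1
      - ((g.x s - g.x p) * (g.y q - g.y p) - (g.y s - g.y p) * (g.x q - g.x p)) * k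

theorem Pre.off {S : Set V} (h : g.Pre S) {p u v w : V} (hp : p ∈ S) (hu : u ∈ S) (hv : v ∈ S)
    (hw : w ∈ S) (hn : [u, v, w, p].Nodup) (t : ℝ) (ht : g.InT u v w (g.x p) (g.y p) t) :
    g.z p ≠ t := fun k => by
  obtain ⟨α, β, γ, -, -, -, hs, h1, h2, h3⟩ := ht
  apply h.cop u hu v hv w hw p hp hn
  have : α = 1 - β - γ := by linarith
  simp only [det3]
  rw [k, h1, h2, h3, this]
  ring

/-- shear of the plane -/
def shear (g : Geo V) (ε : ℝ) : Geo V := ⟨g.x, fun p => g.y p + ε * g.x p, g.z⟩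

theorem Pre.shear {S : Set V} (h : g.Pre S) (ε : ℝ) : (g.shear ε).Pre S where
  dx := h.dx
  col p hp q hq r hr h1 h2 h3 k := h.col p hp q hq r hr h1 h2 h3 (by
    simp only [Geo.shear] at k; linear_combination k)
  con p hp q hq r hr s hs u hu v hv hn α β γ c t h1 h2 h3 h4 h5 k := by
    simp only [Geo.shear] at h1 h2 h3 h4 h5 k
    exact h.con p hp q hq r hr s hs u hu v hv hn α β γ c (t - ε * c)
      (by linear_combination h1 - ε * h2) h2 (by linear_combination h3 - ε * h4) h4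
      (by linear_combination h5 - ε * k) k
  cop p hp q hq r hr s hs hn k := h.cop p hp q hq r hr s hs hn (by
    simp only [Geo.shear, det3] at k ⊢; linear_combination k)

theorem Spot.shear {S : Set V} {ε : ℝ} {c : ℝ × ℝ} (h : (g.shear ε).Spot S c) :
    g.Spot S (c.1, c.2 - ε * c.1) := by
  rcases h with ⟨p, hp, rfl⟩ | ⟨p, hp, q, hq, r, hr, s, hs, hn, α, β, h1, h2⟩
  · exact Or.inl ⟨p, hp, by simp [Geo.shear]⟩
  · refine Or.inr ⟨p, hp, q, hq, r, hr, s, hs, hn, α, β, ?_, ?_⟩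
    · rw [h1]; simp only [Geo.shear, Prod.mk.injEq, true_and]; ring
    · rw [h2]; simp only [Geo.shear, Prod.mk.injEq, true_and]; ring

theorem Pre.exists_shear {S : Set V} (h : g.Pre S) (hS : S.Finite) {δ : ℝ} (hδ : 0 < δ) :
    ∃ ε, 0 < ε ∧ ε < δ ∧
      ∀ c c', (g.shear ε).Spot S c → (g.shear ε).Spot S c' → c.2 = c'.2 → c = c' := by
  have hf := h.spot_finite hS
  obtain ⟨ε, h1, h2⟩ := (Set.Ioo_infinite hδ).exists_notMem_finite
    ((hf.prod hf).image fun c => (c.2.2 - c.1.2) / (c.1.1 - c.2.1))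
  refine ⟨ε, h1.1, h1.2, fun c c' k k' e => ?_⟩
  by_contra hn
  have : c.1 - c'.1 ≠ 0 := fun k => hn (Prod.ext (sub_eq_zero.1 k) e)
  refine h2 ⟨(_, _), ⟨k.shear, k'.shear⟩, ?_⟩
  simp only
  field_simp
  linarith

end Geo

end Pool.Agent.P.MP_382f0d_gt

/-! Existence of small perturbations into general position. -/

namespace Pool.Agent.P.MP_382f0d_gt

open Filter Topology MvPolynomial

/-- properties that hold outside the zero set of a nonzero polynomial -/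
def gf (σ : Type) : Filter (σ → ℝ) where
  sets := {Q | ∃ P : MvPolynomial σ ℝ, P ≠ 0 ∧ ∀ x, eval x P ≠ 0 → x ∈ Q}
  univ_sets := ⟨1, one_ne_zero, fun _ _ => trivial⟩
  sets_of_superset := fun ⟨P, h1, h2⟩ h => ⟨P, h1, fun x hx => h (h2 x hx)⟩
  inter_sets := fun ⟨P, h1, h2⟩ ⟨Q, k1, k2⟩ => ⟨P * Q, mul_ne_zero h1 k1, fun x hx => by
    rw [map_mul] at hx
    exact ⟨h2 x (left_ne_zero_of_mul hx), k2 x (right_ne_zero_of_mul hx)⟩⟩

theorem gf_of {σ : Type} (P : MvPolynomial σ ℝ) (w : σ → ℝ) (h : eval w P ≠ 0) :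
    ∀ᶠ x in gf σ, eval x P ≠ 0 :=
  ⟨P, fun e => h (by rw [e, map_zero]), fun _ hx => hx⟩

theorem gf_box {σ : Type} {Q : (σ → ℝ) → Prop} (h : ∀ᶠ x in gf σ, Q x) (c : σ → ℝ) {δ : ℝ}
    (hδ : 0 < δ) : ∃ x, (∀ i, |x i - c i| < δ) ∧ Q x := by
  obtain ⟨P, h1, h2⟩ := h
  by_contra hn
  refine h1 (funext_set (fun i => Set.Ioo (c i - δ) (c i + δ))
    (fun i => Set.Ioo_infinite (by linarith)) fun x hx => ?_)
  by_contra k
  refine hn ⟨x, fun i => ?_, h2 x (by simpa using k)⟩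
  have := hx i trivial
  rw [abs_lt]
  constructor <;> linarith [this.1, this.2]

def geoOf {V : Type} (x : V × Fin 3 → ℝ) : Geo V :=
  ⟨fun p => x (p, 0), fun p => x (p, 1), fun p => x (p, 2)⟩

theorem pre_gf {V : Type} {S : Set V} (hS : S.Finite) :
    ∀ᶠ x in gf (V × Fin 3), (geoOf x).Pre S := by
  classical
  have h1 : ∀ᶠ x in gf (V × Fin 3), ∀ p ∈ S, ∀ q ∈ S, p ≠ q → (geoOf x).x p ≠ (geoOf x).x q := by
    refine (eventually_all_finite hS).2 fun p _ => (eventually_all_finite hS).2 fun q _ => ?_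
    by_cases h : p = q
    · simp [h]
    · refine (gf_of (X (p, 0) - X (q, 0)) (fun k => if k.1 = p then 1 else 0)
        (by simp [Ne.symm h])).mono fun x hx _ => ?_
      simpa [geoOf, sub_eq_zero] using hx
  have h2 : ∀ᶠ x in gf (V × Fin 3), ∀ p ∈ S, ∀ q ∈ S, ∀ r ∈ S, p ≠ q → p ≠ r → q ≠ r →
      ((geoOf x).x q - (geoOf x).x p) * ((geoOf x).y r - (geoOf x).y p) -
        ((geoOf x).y q - (geoOf x).y p) * ((geoOf x).x r - (geoOf x).x p) ≠ 0 := by
    refine (eventually_all_finite hS).2 fun p _ => (eventually_all_finite hS).2 fun q _ =>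
      (eventually_all_finite hS).2 fun r _ => ?_
    by_cases h : p ≠ q ∧ p ≠ r ∧ q ≠ r
    · refine (gf_of ((X (q, 0) - X (p, 0)) * (X (r, 1) - X (p, 1)) -
        (X (q, 1) - X (p, 1)) * (X (r, 0) - X (p, 0)))
        (fun k => if k = (q, 0) ∨ k = (r, 1) then 1 else 0)
        (by simp [h.1, h.2.1, h.2.2, h.2.2.symm])).mono fun x hx _ _ _ => ?_
      simpa [geoOf] using hx
    · exact Eventually.of_forall fun x => by tauto
  have h3 : ∀ᶠ x in gf (V × Fin 3), ∀ p ∈ S, ∀ q ∈ S, ∀ r ∈ S, ∀ s ∈ S, ∀ u ∈ S, ∀ v ∈ S,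
      [p, q, r, s, u, v].Nodup → ∀ α β γ c t : ℝ,
      t = (1 - α) * (geoOf x).y p + α * (geoOf x).y q →
      c = (1 - α) * (geoOf x).x p + α * (geoOf x).x q →
      t = (1 - β) * (geoOf x).y r + β * (geoOf x).y s →
      c = (1 - β) * (geoOf x).x r + β * (geoOf x).x s →
      t = (1 - γ) * (geoOf x).y u + γ * (geoOf x).y v →
      c ≠ (1 - γ) * (geoOf x).x u + γ * (geoOf x).x v := by
    refine (eventually_all_finite hS).2 fun p _ => (eventually_all_finite hS).2 fun q _ =>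
      (eventually_all_finite hS).2 fun r _ => (eventually_all_finite hS).2 fun s _ =>
      (eventually_all_finite hS).2 fun u _ => (eventually_all_finite hS).2 fun v _ => ?_
    by_cases h : [p, q, r, s, u, v].Nodup
    · refine (gf_of ((X (p, 0) * X (q, 1) - X (q, 0) * X (p, 1)) *
          ((X (r, 1) - X (s, 1)) * (X (v, 0) - X (u, 0)) -
            (X (u, 1) - X (v, 1)) * (X (s, 0) - X (r, 0))) +
        (X (r, 0) * X (s, 1) - X (s, 0) * X (r, 1)) *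
          ((X (u, 1) - X (v, 1)) * (X (q, 0) - X (p, 0)) -
            (X (p, 1) - X (q, 1)) * (X (v, 0) - X (u, 0))) +
        (X (u, 0) * X (v, 1) - X (v, 0) * X (u, 1)) *
          ((X (p, 1) - X (q, 1)) * (X (s, 0) - X (r, 0)) -
            (X (r, 1) - X (s, 1)) * (X (q, 0) - X (p, 0))))
        (fun k => if k = (q, 0) ∨ k = (u, 0) ∨ k = (s, 1) ∨ k = (v, 1) then 1 else 0) ?_).mono
        fun x hx _ α β γ c t a1 a2 b1 b2 c1 c2 => hx ?_
      · simp only [List.nodup_cons, List.mem_cons, not_or, List.not_mem_nil, not_false_eq_true,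
          and_true, List.nodup_nil] at h
        obtain ⟨⟨a1, a2, a3, a4, a5⟩, ⟨b1, b2, b3, b4⟩, ⟨c1, c2, c3⟩, ⟨d1, d2⟩, e1⟩ := h
        simp [a1, a3, a4, a5, b2, b4, c1, c2, c3, d1, e1, Ne.symm b1, Ne.symm b2, Ne.symm b4,
          Ne.symm d1, Ne.symm e1]
      · simp only [geoOf] at a1 a2 b1 b2 c1 c2
        simp only [map_add, map_mul, map_sub, eval_X]
        have l1 : (x (p, 1) - x (q, 1)) * c + (x (q, 0) - x (p, 0)) * t +
          (x (p, 0) * x (q, 1) - x (q, 0) * x (p, 1)) = 0 := by rw [a1, a2]; ring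
        have l2 : (x (r, 1) - x (s, 1)) * c + (x (s, 0) - x (r, 0)) * t +
          (x (r, 0) * x (s, 1) - x (s, 0) * x (r, 1)) = 0 := by rw [b1, b2]; ring
        have l3 : (x (u, 1) - x (v, 1)) * c + (x (v, 0) - x (u, 0)) * t +
          (x (u, 0) * x (v, 1) - x (v, 0) * x (u, 1)) = 0 := by rw [c1, c2]; ring
        linear_combination ((x (r, 1) - x (s, 1)) * (x (v, 0) - x (u, 0)) -
            (x (u, 1) - x (v, 1)) * (x (s, 0) - x (r, 0))) * l1 +
          ((x (u, 1) - x (v, 1)) * (x (q, 0) - x (p, 0)) -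
            (x (p, 1) - x (q, 1)) * (x (v, 0) - x (u, 0))) * l2 +
          ((x (p, 1) - x (q, 1)) * (x (s, 0) - x (r, 0)) -
            (x (r, 1) - x (s, 1)) * (x (q, 0) - x (p, 0))) * l3
    · exact Eventually.of_forall fun x => by tauto
  have h4 : ∀ᶠ x in gf (V × Fin 3), ∀ p ∈ S, ∀ q ∈ S, ∀ r ∈ S, ∀ s ∈ S, [p, q, r, s].Nodup →
      det3 ((geoOf x).x q - (geoOf x).x p, (geoOf x).y q - (geoOf x).y p,
          (geoOf x).z q - (geoOf x).z p)
        ((geoOf x).x r - (geoOf x).x p, (geoOf x).y r - (geoOf x).y p,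
          (geoOf x).z r - (geoOf x).z p)
        ((geoOf x).x s - (geoOf x).x p, (geoOf x).y s - (geoOf x).y p,
          (geoOf x).z s - (geoOf x).z p) ≠ 0 := by
    refine (eventually_all_finite hS).2 fun p _ => (eventually_all_finite hS).2 fun q _ =>
      (eventually_all_finite hS).2 fun r _ => (eventually_all_finite hS).2 fun s _ => ?_
    by_cases h : [p, q, r, s].Nodup
    · refine (gf_of ((X (q, 0) - X (p, 0)) * ((X (r, 1) - X (p, 1)) * (X (s, 2) - X (p, 2)) -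
          (X (r, 2) - X (p, 2)) * (X (s, 1) - X (p, 1))) -
        (X (q, 1) - X (p, 1)) * ((X (r, 0) - X (p, 0)) * (X (s, 2) - X (p, 2)) -
          (X (r, 2) - X (p, 2)) * (X (s, 0) - X (p, 0))) +
        (X (q, 2) - X (p, 2)) * ((X (r, 0) - X (p, 0)) * (X (s, 1) - X (p, 1)) -
          (X (r, 1) - X (p, 1)) * (X (s, 0) - X (p, 0))))
        (fun k => if k = (q, 0) ∨ k = (r, 1) ∨ k = (s, 2) then 1 else 0) ?_).mono
        fun x hx _ => ?_
      · simp only [List.nodup_cons, List.mem_cons, not_or, List.not_mem_nil, not_false_eq_true,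
          and_true, List.nodup_nil] at h
        obtain ⟨⟨a1, a2, a3⟩, ⟨b1, b2⟩, c1⟩ := h
        simp [a1, a2, a3, b1, b2, c1, Ne.symm b1, Ne.symm b2, Ne.symm c1]
      · simpa [geoOf, det3] using hx
    · exact Eventually.of_forall fun x => by tauto
  filter_upwards [h1, h2, h3, h4] with x k1 k2 k3 k4 using ⟨k1, k2, k3, k4⟩

/-- strong general position on `S` -/
def Geo.SG {V : Type} (g : Geo V) (S : Set V) : Prop :=
  g.Pre S ∧ ∀ c c', g.Spot S c → g.Spot S c' → c.2 = c'.2 → c = c'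

theorem exists_pert (S : Finset Pt) (n : ℕ) : ∃ g : Geo Pt, g.SG S ∧ ∀ p : Pt,
    |g.x p - p.1| ≤ 1 / (n + 1) ∧ |g.y p - p.2.1| ≤ (2 + |p.1|) * (1 / (n + 1)) ∧
      |g.z p - p.2.2| ≤ 1 / (n + 1) := by
  have hδ : (0 : ℝ) < 1 / (n + 1) := Nat.one_div_pos_of_nat
  have hδ1 : (1 : ℝ) / (n + 1) ≤ 1 := by
    rw [div_le_one (by positivity)]; linarith [(Nat.cast_nonneg n : (0 : ℝ) ≤ n)]
  obtain ⟨x, h1, h2⟩ := gf_box (pre_gf S.finite_toSet) (fun k => ![k.1.1, k.1.2.1, k.1.2.2] k.2) hδ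
  obtain ⟨ε, e1, e2, e3⟩ := h2.exists_shear S.finite_toSet hδ
  refine ⟨_, ⟨h2.shear ε, e3⟩, fun p => ⟨(h1 (p, 0)).le, ?_, (h1 (p, 2)).le⟩⟩
  have a := h1 (p, 0)
  have b := h1 (p, 1)
  simp only [Matrix.cons_val_zero, Matrix.cons_val_one] at a b
  simp only [Geo.shear, geoOf]
  generalize (1 : ℝ) / (n + 1) = δ at *
  have c : |x (p, 0)| ≤ |p.1| + 1 := by
    have := abs_add_le (x (p, 0) - p.1) p.1
    rw [sub_add_cancel] at this
    linarith
  have d : |x (p, 1) + ε * x (p, 0) - p.2.1| ≤ |x (p, 1) - p.2.1| + ε * |x (p, 0)| := by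
    have := abs_add_le (x (p, 1) - p.2.1) (ε * x (p, 0))
    rw [abs_mul, abs_of_pos e1] at this
    rwa [show x (p, 1) + ε * x (p, 0) - p.2.1 = x (p, 1) - p.2.1 + ε * x (p, 0) by ring]
  nlinarith [abs_nonneg (x (p, 0)), abs_nonneg p.1]

/-- index set of the perturbations -/
abbrev Ix : Type := Finset Pt × ℕ

/-- the perturbed positions -/
noncomputable def gg (i : Ix) : Geo Pt := (exists_pert i.1 i.2).choose

/-- the position of a vertex -/
def Geo.pos {V : Type} (g : Geo V) (p : V) : Pt := (g.x p, g.y p, g.z p)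

theorem ix_snd : Tendsto (fun i : Ix => i.2) atTop atTop := by
  rw [← prod_atTop_atTop_eq]; exact Filter.tendsto_snd

theorem gg_tendsto (p : Pt) : Tendsto (fun i => (gg i).pos p) atTop (𝓝 p) := by
  have h0 : Tendsto (fun i : Ix => (1 : ℝ) / (i.2 + 1)) atTop (𝓝 0) :=
    tendsto_one_div_add_atTop_nhds_zero_nat.comp ix_snd
  have key : ∀ (f : Ix → ℝ) (c M : ℝ), (∀ i, |f i - c| ≤ M * (1 / (i.2 + 1))) →
      Tendsto f atTop (𝓝 c) := fun f c M h => by
    rw [tendsto_iff_norm_sub_tendsto_zero]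
    exact squeeze_zero (fun _ => norm_nonneg _) h (by simpa using h0.const_mul M)
  exact (key _ _ 1 fun i => by
      rw [one_mul]; exact ((exists_pert i.1 i.2).choose_spec.2 p).1).prodMk_nhds
    ((key _ _ _ fun i => ((exists_pert i.1 i.2).choose_spec.2 p).2.1).prodMk_nhds
      (key _ _ 1 fun i => by
        rw [one_mul]; exact ((exists_pert i.1 i.2).choose_spec.2 p).2.2))

theorem Geo.Pre.mono {V : Type} {g : Geo V} {S T : Set V} (h : g.Pre T) (hS : S ⊆ T) : g.Pre S :=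
  ⟨fun p hp q hq => h.dx p (hS hp) q (hS hq),
    fun p hp q hq r hr => h.col p (hS hp) q (hS hq) r (hS hr),
    fun p hp q hq r hr s hs u hu v hv =>
      h.con p (hS hp) q (hS hq) r (hS hr) s (hS hs) u (hS hu) v (hS hv),
    fun p hp q hq r hr s hs => h.cop p (hS hp) q (hS hq) r (hS hr) s (hS hs)⟩

theorem gg_gen {E : Set (Sym2 Pt)} (hE : E.Finite) (hd : ∀ e ∈ E, ¬ e.IsDiag) :
    ∀ᶠ i in atTop, (gg i).Gen E ∧ (gg i).Pre {p | ∃ e ∈ E, p ∈ e} := by
  classical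
  have h1 : {v | ∃ e ∈ E, v ∈ e}.Finite := by
    refine (hE.biUnion (t := fun e => (e.toFinset : Set Pt))
      fun e _ => Finset.finite_toSet _).subset ?_
    rintro v ⟨e, he, hv⟩
    simp only [Set.mem_iUnion]
    exact ⟨e, he, by simpa using hv⟩
  filter_upwards [eventually_ge_atTop (h1.toFinset, 0)] with i hi
  have hs : {v | ∃ e ∈ E, v ∈ e} ⊆ i.1 := fun v hv => hi.1 (by simpa using hv)
  have := (exists_pert i.1 i.2).choose_spec.1
  exact ⟨this.1.gen this.2 hE hd fun e he p hp => hs ⟨e, he, hp⟩, this.1.mono hs⟩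

end Pool.Agent.P.MP_382f0d_gt

/-! Triangle moves in symmetric form. -/

namespace Pool.Agent.P.MP_382f0d_gt

open Filter Topology

variable {V C : Type} [DecidableEq V] [Fintype C] [DecidableEq C]

set_option linter.unusedSectionVars false

namespace Geo

variable {g : Geo V}

theorem InT.swap1 {u v w : V} {p t h : ℝ} (k : g.InT u v w p t h) : g.InT v u w p t h := by
  obtain ⟨α, β, γ, a, b, c, s, h1, h2, h3⟩ := k
  exact ⟨β, α, γ, b, a, c, by linarith, by linarith, by linarith, by linarith⟩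

theorem InT.swap2 {u v w : V} {p t h : ℝ} (k : g.InT u v w p t h) : g.InT u w v p t h := by
  obtain ⟨α, β, γ, a, b, c, s, h1, h2, h3⟩ := k
  exact ⟨α, γ, β, a, c, b, by linarith, by linarith, by linarith, by linarith⟩

/-- the point lies in the interior of the triangle -/
def InT' (g : Geo V) (u v w : V) (p t h : ℝ) : Prop :=
  ∃ α β γ : ℝ, 0 < α ∧ 0 < β ∧ 0 < γ ∧ α + β + γ = 1 ∧ p = α * g.x u + β * g.x v + γ * g.x w ∧
    t = α * g.y u + β * g.y v + γ * g.y w ∧ h = α * g.z u + β * g.z v + γ * g.z w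

theorem InT'.swap1 {u v w : V} {p t h : ℝ} (k : g.InT' u v w p t h) : g.InT' v u w p t h := by
  obtain ⟨α, β, γ, a, b, c, s, h1, h2, h3⟩ := k
  exact ⟨β, α, γ, b, a, c, by linarith, by linarith, by linarith, by linarith⟩

theorem InT'.swap2 {u v w : V} {p t h : ℝ} (k : g.InT' u v w p t h) : g.InT' u w v p t h := by
  obtain ⟨α, β, γ, a, b, c, s, h1, h2, h3⟩ := k
  exact ⟨α, γ, β, a, c, b, by linarith, by linarith, by linarith, by linarith⟩

theorem InT'.inT {u v w : V} {p t h : ℝ} (k : g.InT' u v w p t h) : g.InT u v w p t h := by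
  obtain ⟨α, β, γ, a, b, c, s⟩ := k
  exact ⟨α, β, γ, a.le, b.le, c.le, s⟩

theorem sort3 {a b c : V} (h1 : g.y a ≠ g.y b) (h2 : g.y a ≠ g.y c) (h3 : g.y b ≠ g.y c) :
    ∃ u v w, g.y u < g.y v ∧ g.y v < g.y w ∧
      (∀ e, (e = s(u, w) ∨ e = s(u, v) ∨ e = s(v, w)) ↔ (e = s(a, b) ∨ e = s(a, c) ∨ e = s(c, b))) ∧
      (∀ x, (x = u ∨ x = v ∨ x = w) ↔ (x = a ∨ x = b ∨ x = c)) ∧
      (∀ p t h, g.InT u v w p t h → g.InT a b c p t h) ∧
      ∀ p t h, g.InT' a b c p t h → g.InT' u v w p t h := by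
  have e1 : s(b, a) = s(a, b) := Sym2.eq_swap
  have e2 : s(c, a) = s(a, c) := Sym2.eq_swap
  have e3 : s(b, c) = s(c, b) := Sym2.eq_swap
  rcases lt_or_gt_of_ne h1 with k1 | k1 <;> rcases lt_or_gt_of_ne h2 with k2 | k2 <;>
    rcases lt_or_gt_of_ne h3 with k3 | k3
  · exact ⟨a, b, c, k1, k3, fun e => by rw [e3]; tauto, fun x => Iff.rfl, fun _ _ _ k => k,
      fun _ _ _ k => k⟩
  · exact ⟨a, c, b, k2, k3, fun e => Iff.rfl, fun x => by tauto, fun _ _ _ k => k.swap2,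
      fun _ _ _ k => k.swap2⟩
  · linarith
  · exact ⟨c, a, b, k2, k1, fun e => by rw [e2]; tauto, fun x => by tauto,
      fun _ _ _ k => k.swap1.swap2, fun _ _ _ k => k.swap2.swap1⟩
  · exact ⟨b, a, c, k1, k2, fun e => by rw [e1, e3]; tauto, fun x => by tauto,
      fun _ _ _ k => k.swap1, fun _ _ _ k => k.swap1⟩
  · linarith
  · exact ⟨b, c, a, k3, k2, fun e => by rw [e1, e2, e3]; tauto, fun x => by tauto,
      fun _ _ _ k => k.swap2.swap1, fun _ _ _ k => k.swap1.swap2⟩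
  · exact ⟨c, b, a, k3, k1, fun e => by rw [e1, e2]; tauto, fun x => by tauto,
      fun _ _ _ k => k.swap1.swap2.swap1, fun _ _ _ k => k.swap1.swap2.swap1⟩

/-- the edge does not meet the triangle -/
def Miss (g : Geo V) (u v w : V) (f : Sym2 V) : Prop :=
  ∀ t, g.lo f ≤ t → t ≤ g.hi f → ¬ g.InT u v w (g.X f t) t (g.Z f t)

theorem Miss.sign {u v w : V} {f : Sym2 V} (hm : g.Miss u v w f) : ∃ b : Bool, ∀ t, g.lo f ≤ t →
    t ≤ g.hi f → ∀ h, g.InT u v w (g.X f t) t h →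
      (b = true → g.Z f t ≤ h) ∧ (b = false → h ≤ g.Z f t) := by
  by_cases c : ∃ t, g.lo f ≤ t ∧ t ≤ g.hi f ∧ ∃ h, g.InT u v w (g.X f t) t h ∧ g.Z f t < h
  · refine ⟨true, fun t h1 h2 h hh => ⟨fun _ => ?_, by simp⟩⟩
    by_contra hn
    rw [not_le] at hn
    obtain ⟨s, s1, s2, k, ⟨a1, b1, c1, ha1, hb1, hc1, d1, e1, f1, g1⟩, hk⟩ := c
    obtain ⟨a2, b2, c2, ha2, hb2, hc2, d2, e2, f2, g2⟩ := hh
    have hd : 0 < (k - g.Z f s) + (g.Z f t - h) := by linarith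
    set r := (k - g.Z f s) / ((k - g.Z f s) + (g.Z f t - h)) with hr
    have r0 : 0 ≤ r := div_nonneg (by linarith) hd.le
    have r1 : 0 ≤ 1 - r := sub_nonneg.2 ((div_le_one hd).2 (by linarith))
    have hz : (1 - r) * (k - g.Z f s) = r * (g.Z f t - h) := by rw [hr]; field_simp; ring
    clear_value r
    refine hm ((1 - r) * s + r * t) (by nlinarith) (by nlinarith) ⟨(1 - r) * a1 + r * a2,
      (1 - r) * b1 + r * b2, (1 - r) * c1 + r * c2, by positivity, by positivity, by positivity,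
      by linear_combination (1 - r) * d1 + r * d2, ?_, by linear_combination (1 - r) * f1 + r * f2,
      ?_⟩
    · simp only [X, val] at *
      linear_combination (1 - r) * e1 + r * e2
    · simp only [Z, val] at *
      linear_combination (1 - r) * g1 + r * g2 - hz
  · refine ⟨false, fun t h1 h2 h hh => ⟨by simp, fun _ => ?_⟩⟩
    by_contra hn
    exact c ⟨t, h1, h2, h, hh, not_le.1 hn⟩

theorem sign_aff {u v w : V}
    (hc : (g.x v - g.x u) * (g.y w - g.y u) - (g.y v - g.y u) * (g.x w - g.x u) ≠ 0)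
    {f : Sym2 V} {s : ℝ} (hs : g.InT u v w (g.X f s) s (g.Z f s)) : ∃ b : Bool, ∀ t h,
      g.InT u v w (g.X f t) t h → (t ≤ s → (b = true → g.Z f t ≤ h) ∧ (b = false → h ≤ g.Z f t)) ∧
        (s ≤ t → ((!b) = true → g.Z f t ≤ h) ∧ ((!b) = false → h ≤ g.Z f t)) := by
  obtain ⟨A, B, H⟩ : ∃ A B : ℝ, ∀ p t h, g.InT u v w p t h →
      h = g.z u + A * (p - g.x u) + B * (t - g.y u) := by
    refine ⟨((g.z v - g.z u) * (g.y w - g.y u) - (g.y v - g.y u) * (g.z w - g.z u)) /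
      ((g.x v - g.x u) * (g.y w - g.y u) - (g.y v - g.y u) * (g.x w - g.x u)),
      ((g.x v - g.x u) * (g.z w - g.z u) - (g.z v - g.z u) * (g.x w - g.x u)) /
      ((g.x v - g.x u) * (g.y w - g.y u) - (g.y v - g.y u) * (g.x w - g.x u)), ?_⟩
    rintro p t h ⟨α, β, γ, -, -, -, d, rfl, rfl, rfl⟩
    obtain rfl : α = 1 - β - γ := by linarith
    have hd := mul_inv_cancel₀ hc
    simp only [div_eq_mul_inv]
    generalize ((g.x v - g.x u) * (g.y w - g.y u) - (g.y v - g.y u) * (g.x w - g.x u))⁻¹ = δ at *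
    linear_combination (-(β * (g.z v - g.z u) + γ * (g.z w - g.z u))) * hd
  have h0 := H _ _ _ hs
  have key : ∀ t h, g.InT u v w (g.X f t) t h →
      h - g.Z f t = (A * g.sl f + B - g.slp g.z f) * (t - s) := fun t h k => by
    have h1 := H _ _ _ k
    simp only [X, Z, val, sl] at *
    linear_combination h1 - h0
  generalize A * g.sl f + B - g.slp g.z f = κ at key
  rcases le_total κ 0 with c | c
  · refine ⟨true, fun t h k => ?_⟩
    have := key t h k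
    refine ⟨fun _ => ⟨fun _ => ?_, by simp⟩, fun _ => ⟨by simp, fun _ => ?_⟩⟩ <;> nlinarith
  · refine ⟨false, fun t h k => ?_⟩
    have := key t h k
    refine ⟨fun _ => ⟨by simp, fun _ => ?_⟩, fun _ => ⟨fun _ => ?_, by simp⟩⟩ <;> nlinarith

end Geo

namespace Setup

variable {S : Setup V}

namespace OK

variable (h : S.OK)
include h

theorem col : (S.D.x S.v - S.D.x S.u) * (S.D.y S.w - S.D.y S.u) -
    (S.D.y S.v - S.D.y S.u) * (S.D.x S.w - S.D.x S.u) ≠ 0 := by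
  have h1 := h.X_l (S.D.y S.v)
  have h2 := h.X_l (S.D.y S.w)
  rw [h.gen.X_end side_l.mem (by simp)] at h2
  have h3 : S.D.X s(S.u, S.w) (S.D.y S.v) ≠ S.D.x S.v := by
    by_cases hv : S.vl
    exacts [ne_of_gt hv, (h.not_vl hv).ne]
  intro k
  apply h3
  apply mul_left_cancel₀ (sub_pos.2 h.huw).ne'
  rw [h1]
  linear_combination (-1 : ℝ) * k - (S.D.y S.v - S.D.y S.u) * h2

theorem exists_sign {f : Sym2 V} (hf : f ∈ S.R)
    (k : S.D.Miss S.u S.v S.w f ∨ S.u ∈ f ∨ S.v ∈ f ∨ S.w ∈ f) : ∃ b : Bool, ∀ t, S.D.lo f ≤ t →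
    t ≤ S.D.hi f → ∀ z, S.D.InT S.u S.v S.w (S.D.X f t) t z →
      (b = true → S.D.Z f t ≤ z) ∧ (b = false → z ≤ S.D.Z f t) := by
  rcases k with k | k
  · exact k.sign
  obtain ⟨x, hx, hi⟩ : ∃ x ∈ f, S.D.InT S.u S.v S.w (S.D.x x) (S.D.y x) (S.D.z x) := by
    rcases k with k | k | k
    · exact ⟨_, k, 1, 0, 0, by simp⟩
    · exact ⟨_, k, 0, 1, 0, by simp⟩
    · exact ⟨_, k, 0, 0, 1, by simp⟩
  rw [← h.gen.X_end (mem_G hf) hx, ← h.gen.Z_end (mem_G hf) hx] at hi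
  obtain ⟨b, hb⟩ := Geo.sign_aff h.col hi
  rcases Geo.lo_or_hi (g := S.D.toGeo) hx with c | c
  · exact ⟨!b, fun t h1 _ z hz => (hb t z hz).2 (c ▸ h1)⟩
  · exact ⟨b, fun t _ h2 z hz => (hb t z hz).1 (c ▸ h2)⟩

theorem exists_sg (k : ∀ f ∈ S.R, S.D.Miss S.u S.v S.w f ∨ S.u ∈ f ∨ S.v ∈ f ∨ S.w ∈ f) :
    ∃ ε, ∀ t, S.Sg ε t := by
  choose! ε hε using fun f hf => h.exists_sign hf (k f hf)
  exact ⟨ε, fun t f hf => hε f hf t⟩

theorem interior {c t z : ℝ} (k : S.D.InT' S.u S.v S.w c t z) : S.D.y S.u < t ∧ t < S.D.y S.w ∧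
    ∀ s, S.D.X (S.lam s) t < c ∧ c < S.D.X (S.rho s) t := by
  obtain ⟨α, β, γ, a0, b0, c0, d, e1, e2, -⟩ := k
  have := h.huv
  have := h.hvw
  obtain rfl : α = 1 - β - γ := by linarith
  have l1 := h.X_l (S.D.y S.w)
  have l2 := h.X_1 (S.D.y S.v)
  have l3 := h.X_2 (S.D.y S.v)
  rw [h.gen.X_end side_l.mem (by simp)] at l1
  rw [h.X_1v] at l2
  rw [h.X_2v] at l3
  have q0 : c - S.D.X s(S.u, S.w) t =
      β * ((S.D.sl s(S.u, S.v) - S.D.sl s(S.u, S.w)) * (S.D.y S.v - S.D.y S.u)) := by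
    rw [h.X_l, e1, e2]; linear_combination β * l2 + γ * l1
  have q1 : c - S.D.X s(S.u, S.v) t =
      γ * ((S.D.sl s(S.u, S.w) - S.D.sl s(S.u, S.v)) * (S.D.y S.w - S.D.y S.u)) := by
    rw [h.X_1, e1, e2]; linear_combination β * l2 + γ * l1
  have q2 : c - S.D.X s(S.v, S.w) t =
      (1 - β - γ) * ((S.D.sl s(S.v, S.w) - S.D.sl s(S.u, S.w)) * (S.D.y S.w - S.D.y S.u)) := by
    rw [h.X_2, e1, e2]; linear_combination β * l3 - (1 - β - γ) * l1
  refine ⟨by nlinarith, by nlinarith, fun s => ?_⟩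
  have p1 := sub_pos.2 h.huv
  have p2 := sub_pos.2 h.huw
  unfold lam rho sh
  by_cases hv : S.vl
  · have k1 := sub_pos.2 (h.sl_vl hv).1
    have k2 := sub_pos.2 (h.sl_vl hv).2
    have := mul_pos b0 (mul_pos k1 p1)
    have := mul_pos c0 (mul_pos k1 p2)
    have := mul_pos a0 (mul_pos k2 p2)
    simp only [hv, if_true]
    split_ifs <;> constructor <;> linarith
  · have k1 := sub_pos.2 (h.sl_nvl hv).1
    have k2 := sub_pos.2 (h.sl_nvl hv).2
    have := mul_pos b0 (mul_pos k1 p1)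
    have := mul_pos c0 (mul_pos k1 p2)
    have := mul_pos a0 (mul_pos k2 p2)
    simp only [hv, if_false]
    split_ifs <;> constructor <;> linarith

theorem pierce' [Inhabited C] {a : ℂ} (ha : Good C a) (h' : S.swap.OK)
    (hA : ∀ s, S.Side s → s ∈ S.A) (h0 : ∀ f, S.om f = 0) {e : Sym2 V} (he : e ∈ S.R) {t : ℝ}
    (h1 : S.D.lo e < t) (h2 : t < S.D.hi e) (hi : S.D.InT' S.u S.v S.w (S.D.X e t) t (S.D.Z e t))
    (k : ∀ f ∈ S.R, f ≠ e → S.D.Miss S.u S.v S.w f) {p : V} (hp : p ∈ e)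
    (hy : S.D.y p = S.D.lo e) : S.D.W C a S.B S.G e p (S.D.br C a S.A) := by
  obtain ⟨b, hb⟩ := Geo.sign_aff h.col hi.inT
  choose! ε hε using fun f hf hne => (k f hf hne).sign
  obtain ⟨i1, i2, i3⟩ := h.interior hi
  have cx : ∀ f, Continuous fun r => S.D.X f r := fun f => by
    simp only [Geo.X, Geo.val]; fun_prop
  have ev1 : ∀ᶠ r in 𝓝[>] t, ∀ x ∈ {x | S.D.IsEv S.G x}, t < S.D.lev x → r < S.D.lev x := by
    refine (eventually_all_finite (Geo.finite_ev h.gen.fin)).2 fun x _ => ?_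
    by_cases c : t < S.D.lev x
    · exact nhdsWithin_le_nhds ((gt_mem_nhds c).mono fun r k _ => k)
    · exact Eventually.of_forall fun r k => absurd k c
  have ev2 : ∀ s, ∀ᶠ r in 𝓝 t, (S.D.X s t < S.D.X e t → S.D.X s r < S.D.X e r) ∧
      (S.D.X e t < S.D.X s t → S.D.X e r < S.D.X s r) := fun s => by
    refine Eventually.and ?_ ?_
    · by_cases c : S.D.X s t < S.D.X e t
      · exact ((cx s).continuousAt.eventually_lt (cx e).continuousAt c).mono fun r k _ => k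
      · exact Eventually.of_forall fun r k => absurd k c
    · by_cases c : S.D.X e t < S.D.X s t
      · exact ((cx e).continuousAt.eventually_lt (cx s).continuousAt c).mono fun r k _ => k
      · exact Eventually.of_forall fun r k => absurd k c
  obtain ⟨r, ⟨r1, r2⟩, r3, r4, r5, r6, r7⟩ := ((ev1.and self_mem_nhdsWithin).and
    (nhdsWithin_le_nhds ((gt_mem_nhds h2).and ((gt_mem_nhds i2).and ((ev2 s(S.u, S.w)).and
      ((ev2 s(S.u, S.v)).and (ev2 s(S.v, S.w)))))))).exists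
  have r2' : t < r := r2
  have r8 : ∀ s, S.Side s → (S.D.X s t < S.D.X e t → S.D.X s r < S.D.X e r) ∧
      (S.D.X e t < S.D.X s t → S.D.X e r < S.D.X s r) := by
    rintro s (rfl | rfl | rfl)
    exacts [r5, r6, r7]
  have lv : ∀ x, S.D.IsEv S.G x → S.D.lev x ≤ t ∨ r < S.D.lev x := fun x hx =>
    (le_or_gt _ _).imp id (r1 x hx)
  obtain ⟨l₁, l₂, hl, m₁, m₂, e1⟩ := h.pierce (C := C) (ε := Function.update ε e b)
    (ε' := Function.update ε e (!b)) (e := e) ha h' hA h0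
    (fun f hf => by simp [Function.update_of_ne hf]) (by simp) (r := r)
    (fun x hx => by rcases lv x hx with c | c; exacts [(c.trans_lt r2').ne, c.ne'])
    (i1.trans r2') r4 ⟨he, ⟨h1.trans r2', r3⟩, (r8 _ (side_lam r)).1 (i3 r).1,
      (r8 _ (side_rho r)).2 (i3 r).2⟩
    (fun x hx c f hf k1 k2 z hz => by
      by_cases d : f = e
      · subst d
        rw [Function.update_self]
        exact (hb _ z hz).1 ((lv x hx).resolve_right c.not_gt)
      · rw [Function.update_of_ne d]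
        exact hε f hf d _ k1 k2 z hz)
    (fun x hx c f hf k1 k2 z hz => by
      by_cases d : f = e
      · subst d
        rw [Function.update_self]
        exact (hb _ z hz).2 (r2'.trans c).le
      · rw [Function.update_of_ne d]
        exact hε f hf d _ k1 k2 z hz)
  rw [e1]
  exact Dat.W_of_cut ha h.decB (mem_G he) hp hy hl (fun x hx => (m₁ x hx).trans r3)
    fun x hx => (h1.trans r2').trans (m₂ x hx)

end OK

end Setup

/-- data common to all triangle moves -/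
structure TriOK (D : Dat V) (R Γ : Set (Sym2 V)) (a b c : V) (om : Sym2 V → ℤ) : Prop where
  cG : ∀ e, e ∈ Γ ↔ e ∈ R ∨ e = s(a, b) ∨ e = s(a, c) ∨ e = s(c, b)
  gen : D.Gen Γ
  nR : ∀ e, e = s(a, b) ∨ e = s(a, c) ∨ e = s(c, b) → e ∉ R ∧ D.th e = 1 ∧
    ∀ f ∈ R, D.mu e f = om e * om f ∧ D.mu f e = om e * om f
  dec : ∀ x, D.dj x ≠ 0 →
    D.dw x ∈ R ∧ x ∈ D.dw x ∧ D.y x = D.lo (D.dw x) ∧ x ≠ a ∧ x ≠ b ∧ x ≠ c
  unit : ∀ f ∈ R, a ∈ f ∨ b ∈ f ∨ c ∈ f → om f * om f = 1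
  off : ∀ x, (∃ e ∈ Γ, x ∈ e) → x ≠ a → x ≠ b → x ≠ c → ∀ h,
    D.InT a b c (D.x x) (D.y x) h → D.z x ≠ h

namespace TriOK

variable {D : Dat V} {R Γ : Set (Sym2 V)} {a b c : V} {om : Sym2 V → ℤ}

theorem setup (h : TriOK D R Γ a b c om) : ∃ u v w,
    (∀ e, (e = s(u, w) ∨ e = s(u, v) ∨ e = s(v, w)) ↔ (e = s(a, b) ∨ e = s(a, c) ∨ e = s(c, b))) ∧
    (∀ x, (x = u ∨ x = v ∨ x = w) ↔ (x = a ∨ x = b ∨ x = c)) ∧
    (∀ p t h, D.InT u v w p t h → D.InT a b c p t h) ∧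
    (∀ p t h, D.InT' a b c p t h → D.InT' u v w p t h) ∧
    Γ = (Setup.mk D ∅ ∅ R u v w om).G ∧
    ∀ A B, R ⊆ A → R ⊆ B → A ⊆ Γ → B ⊆ Γ → D.Reg om A → D.Reg om B →
      (∀ e, e = s(a, b) ∨ e = s(a, c) ∨ e = s(c, b) → (e ∈ A ↔ e ∉ B)) →
      (s(v, w) ∈ A → s(u, v) ∈ A) → (Setup.mk D A B R u v w om).OK := by
  obtain ⟨u, v, w, h1, h2, h3, h4, h5, h6⟩ := Geo.sort3 (g := D.toGeo)
    (h.gen.y_ne ((h.cG s(a, b)).2 (by simp))) (h.gen.y_ne ((h.cG s(a, c)).2 (by simp)))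
    (h.gen.y_ne ((h.cG s(c, b)).2 (by simp))).symm
  have hG : Γ = {e | e ∈ R ∨ (e = s(u, w) ∨ e = s(u, v) ∨ e = s(v, w))} :=
    Set.ext fun e => (h.cG e).trans (or_congr_right (h3 e).symm)
  refine ⟨u, v, w, h3, h4, h5, h6, hG, fun A B a1 a2 a3 a4 a5 a6 a7 a8 => ?_⟩
  subst hG
  refine ⟨h.gen, h1, h2, fun e he => (h.nR e ((h3 e).1 he)).1, a1, a2, a3, a4,
    fun e he => a7 e ((h3 e).1 he), a8, fun e he => (h.nR e ((h3 e).1 he)).2.1, a5, a6,
    fun x _ hj => ?_, fun e he => (h.nR e ((h3 e).1 he)).2.2, fun f hf k => h.unit f hf ?_,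
    fun x hx k1 k2 k3 z hz => ?_⟩
  · obtain ⟨k1, k2, k3, k4⟩ := h.dec x hj
    have := h4 x
    exact ⟨k1, k2, k3, by clear * - this k4; tauto⟩
  · have k1 := h4 u
    have k2 := h4 v
    have k3 := h4 w
    clear * - k k1 k2 k3
    grind
  · have := h4 x
    have k4 : x ≠ a ∧ x ≠ b ∧ x ≠ c := by clear * - this k1 k2 k3; tauto
    exact h.off x hx k4.1 k4.2.1 k4.2.2 z (h5 _ _ _ hz)

theorem delta [Inhabited C] {q : ℂ} (hq : Good C q) (h : TriOK D R Γ a b c om)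
    {A B : Set (Sym2 V)} (cA : ∀ e, e ∈ A ↔ e ∈ R ∨ e = s(a, b))
    (cB : ∀ e, e ∈ B ↔ e ∈ R ∨ e = s(a, c) ∨ e = s(c, b)) (rA : D.Reg om A) (rB : D.Reg om B)
    (k : ∀ f ∈ R, D.Miss a b c f ∨ a ∈ f ∨ b ∈ f) : D.br C q A = D.br C q B := by
  obtain ⟨u, v, w, h3, h4, h5, -, hG, ok⟩ := h.setup
  have y1 := h.gen.y_ne ((h.cG s(a, b)).2 (by simp))
  have y2 := h.gen.y_ne ((h.cG s(a, c)).2 (by simp))
  have y3 := h.gen.y_ne ((h.cG s(c, b)).2 (by simp))
  have d1 : a ≠ b := ne_of_apply_ne _ y1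
  have d2 : a ≠ c := ne_of_apply_ne _ y2
  have d3 : c ≠ b := ne_of_apply_ne _ y3
  have e1 : s(a, b) ≠ s(a, c) := by simp [d2, d3.symm]
  have e2 : s(a, b) ≠ s(c, b) := by simp [d1, d2]
  have nR := fun e he => (h.nR e he).1
  have sA : ∀ e, e = s(a, b) ∨ e = s(a, c) ∨ e = s(c, b) → (e ∈ A ↔ e = s(a, b)) ∧
      (e ∈ B ↔ e ≠ s(a, b)) := fun e he => by
    have := nR e he
    rw [cA, cB]
    clear * - this he e1 e2
    grind
  have RA : R ⊆ A := fun e he => (cA e).2 (Or.inl he)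
  have RB : R ⊆ B := fun e he => (cB e).2 (Or.inl he)
  have AG : A ⊆ Γ := fun e he => (h.cG e).2 (by have := (cA e).1 he; clear * - this; tauto)
  have BG : B ⊆ Γ := fun e he => (h.cG e).2 (by have := (cB e).1 he; clear * - this; tauto)
  have t1 := sA _ ((h3 s(u, w)).1 (by simp))
  have t2 := sA _ ((h3 s(u, v)).1 (by simp))
  have t3 := sA _ ((h3 s(v, w)).1 (by simp))
  have k' : ∀ f ∈ R, D.Miss u v w f ∨ u ∈ f ∨ v ∈ f ∨ w ∈ f := fun f hf => by
    rcases k f hf with k | k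
    · exact Or.inl fun t h1 h2 hi => k t h1 h2 (h5 _ _ _ hi)
    · have k1 := h4 a
      have k2 := h4 b
      clear * - k k1 k2
      grind
  by_cases c2 : s(v, w) = s(a, b)
  · have o := ok B A RB RA BG AG rB rA (fun e he => by rw [(sA e he).1, (sA e he).2])
      fun k => absurd c2 (t3.2.1 k)
    obtain ⟨ε, hε⟩ := o.exists_sg k'
    have := o.full_move (C := C) hq hε
    rw [if_neg fun k => k.1 (t1.2.2 (c2 ▸ o.l_ne_2)), if_neg fun k => t3.2.1 k.2 c2, one_mul,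
      one_mul] at this
    exact this.symm
  · have o := ok A B RA RB AG BG rA rB (fun e he => by rw [(sA e he).1, (sA e he).2, not_not])
      fun k => absurd (t3.1.1 k) c2
    obtain ⟨ε, hε⟩ := o.exists_sg k'
    have := o.full_move (C := C) hq hε
    rw [if_neg fun k => ?_, if_neg fun k => c2 (t3.1.1 k.2), one_mul, one_mul] at this
    · exact this
    · rcases (h3 s(a, b)).2 (by simp) with n | n | n
      exacts [k.1 (t1.1.2 n.symm), k.2 (t2.1.2 n.symm), c2 n.symm]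

theorem loop [Inhabited C] {q : ℂ} (hq : Good C q) (h : TriOK D R Γ a b c om)
    (rA : D.Reg om R) (rB : D.Reg om Γ) (k : ∀ f ∈ R, D.Miss a b c f) :
    D.br C q Γ = Fintype.card C * D.br C q R := by
  obtain ⟨u, v, w, h3, h4, h5, -, hG, ok⟩ := h.setup
  have nR := fun e he => (h.nR e he).1
  have RB : R ⊆ Γ := fun e he => (h.cG e).2 (Or.inl he)
  have o := ok R Γ subset_rfl RB RB subset_rfl rA rB
    (fun e he => by simp [nR e he, (h.cG e).2 (Or.inr he)])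
    fun k => absurd k (nR _ ((h3 _).1 (by simp)))
  obtain ⟨ε, hε⟩ := o.exists_sg fun f hf => Or.inl fun t h1 h2 hi => k f hf t h1 h2 (h5 _ _ _ hi)
  have := o.full_move (C := C) hq hε
  rw [if_pos ⟨nR _ ((h3 _).1 (by simp)), nR _ ((h3 _).1 (by simp))⟩,
    if_neg fun k => nR _ ((h3 _).1 (by simp)) k.1, one_mul] at this
  exact this.symm

theorem mer [Inhabited C] {q : ℂ} (hq : Good C q) (h : TriOK D R Γ a b c 0)
    (rA : D.Reg 0 R) (rB : D.Reg 0 Γ) {e : Sym2 V} (he : e ∈ R) {t : ℝ}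
    (h1 : D.lo e < t) (h2 : t < D.hi e) (hi : D.InT' a b c (D.X e t) t (D.Z e t))
    (k : ∀ f ∈ R, f ≠ e → D.Miss a b c f) {p : V} (hp : p ∈ e)
    (hy : D.y p = D.lo e) : D.W C q R Γ e p (D.br C q Γ) := by
  obtain ⟨u, v, w, h3, h4, h5, h6, hG, ok⟩ := h.setup
  have nR := fun e he => (h.nR e he).1
  have RB : R ⊆ Γ := fun e he => (h.cG e).2 (Or.inl he)
  have o := ok R Γ subset_rfl RB RB subset_rfl rA rB
    (fun e he => by simp [nR e he, (h.cG e).2 (Or.inr he)])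
    fun k => absurd k (nR _ ((h3 _).1 (by simp)))
  have o' := ok Γ R RB subset_rfl subset_rfl RB rB rA
    (fun e he => by simp [nR e he, (h.cG e).2 (Or.inr he)])
    fun _ => (h.cG _).2 (Or.inr ((h3 _).1 (by simp)))
  have := o'.pierce' (C := C) hq o (fun s hs => (h.cG _).2 (Or.inr ((h3 _).1 hs))) (fun _ => rfl)
    he h1 h2 (h6 _ _ _ hi) (fun f hf hne t h1 h2 hi => k f hf hne t h1 h2 (h5 _ _ _ hi)) hp hy
  subst hG
  exact this

end TriOK

end Pool.Agent.P.MP_382f0d_gt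

/-! Stability of geometric conditions under small perturbations. -/

namespace Pool.Agent.P.MP_382f0d_gt

open Filter Topology

theorem ev_ne {I Y X Z : Type} [TopologicalSpace Y] [TopologicalSpace X] [TopologicalSpace Z]
    [T2Space Z] {K : Set X} (hK : IsCompact K) {F G : Y × X → Z} (hF : Continuous F)
    (hG : Continuous G) {y₀ : Y} (h : ∀ x ∈ K, F (y₀, x) ≠ G (y₀, x)) {l : Filter I} {y : I → Y}
    (hy : Tendsto y l (𝓝 y₀)) : ∀ᶠ i in l, ∀ x ∈ K, F (y i, x) ≠ G (y i, x) :=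
  hy.eventually (hK.eventually_forall_of_forall_eventually
    (P := fun y x => F (y, x) ≠ G (y, x)) fun x hx => (isOpen_ne_fun hF hG).mem_nhds (h x hx))

theorem mem_hull3 {E : Type} [AddCommGroup E] [Module ℝ E] {a b c x : E} :
    x ∈ convexHull ℝ {a, b, c} ↔ ∃ α β γ : ℝ, 0 ≤ α ∧ 0 ≤ β ∧ 0 ≤ γ ∧ α + β + γ = 1 ∧
      x = α • a + β • b + γ • c := by
  constructor
  · intro hx
    refine convexHull_min (t := {x | ∃ α β γ : ℝ, 0 ≤ α ∧ 0 ≤ β ∧ 0 ≤ γ ∧ α + β + γ = 1 ∧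
      x = α • a + β • b + γ • c}) ?_ ?_ hx
    · rintro x (rfl | rfl | rfl)
      · exact ⟨1, 0, 0, by simp⟩
      · exact ⟨0, 1, 0, by simp⟩
      · exact ⟨0, 0, 1, by simp⟩
    · rintro x ⟨a1, b1, c1, h1, h2, h3, h4, rfl⟩ y ⟨a2, b2, c2, k1, k2, k3, k4, rfl⟩ s t hs ht hst
      exact ⟨s * a1 + t * a2, s * b1 + t * b2, s * c1 + t * c2, by positivity, by positivity,
        by positivity, by linear_combination s * h4 + t * k4 + hst, by module⟩
  · rintro ⟨α, β, γ, h1, h2, h3, h4, rfl⟩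
    have := (convex_convexHull ℝ {a, b, c}).sum_mem (t := Finset.univ) (w := ![α, β, γ])
      (z := ![a, b, c]) (fun i _ => by fin_cases i <;> simpa) (by simpa [Fin.sum_univ_three])
      (fun i _ => subset_convexHull ℝ _ (by fin_cases i <;> simp))
    simpa [Fin.sum_univ_three] using this

theorem mem_seg {E : Type} [AddCommGroup E] [Module ℝ E] {p q x : E} :
    x ∈ segment ℝ p q ↔ ∃ s : ℝ, 0 ≤ s ∧ s ≤ 1 ∧ x = (1 - s) • p + s • q := by
  rw [segment_eq_image]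
  exact ⟨fun ⟨s, h, e⟩ => ⟨s, h.1, h.2, e.symm⟩, fun ⟨s, h1, h2, e⟩ => ⟨s, ⟨h1, h2⟩, e.symm⟩⟩

theorem mem_oseg {E : Type} [AddCommGroup E] [Module ℝ E] {p q x : E} :
    x ∈ openSegment ℝ p q ↔ ∃ s : ℝ, 0 < s ∧ s < 1 ∧ x = (1 - s) • p + s • q := by
  rw [openSegment_eq_image]
  exact ⟨fun ⟨s, h, e⟩ => ⟨s, h.1, h.2, e.symm⟩, fun ⟨s, h1, h2, e⟩ => ⟨s, ⟨h1, h2⟩, e.symm⟩⟩

theorem proj_comb (s t : ℝ) (p q : Pt) : proj (s • p + t • q) = s • proj p + t • proj q := rfl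

theorem continuous_proj : Continuous proj := by unfold proj; fun_prop

namespace Geo

variable {g : Geo Pt}

theorem miss_of {p q a b c : Pt} (hy : g.y p ≠ g.y q) (h : ∀ s α β γ : ℝ, 0 ≤ s → s ≤ 1 →
    0 ≤ α → 0 ≤ β → 0 ≤ γ → α + β + γ = 1 →
    (1 - s) • g.pos p + s • g.pos q ≠ α • g.pos a + β • g.pos b + γ • g.pos c) :
    g.Miss a b c s(p, q) := by
  rintro t h1 h2 ⟨α, β, γ, a0, b0, c0, d, e1, e2, e3⟩
  obtain ⟨s, e, k, -⟩ := exists_param hy t
  refine h s α β γ (k h1 h2).1 (k h1 h2).2 a0 b0 c0 d ?_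
  rw [e, X, val_param hy] at e1
  rw [e, Z, val_param hy] at e3
  rw [e] at e2
  exact Prod.ext e1 (Prod.ext e2 e3)

theorem not_cross_of {p q a b : Pt} (h : ∀ s r : ℝ, 0 ≤ s → s ≤ 1 → 0 ≤ r → r ≤ 1 →
    proj ((1 - s) • g.pos p + s • g.pos q) ≠ proj ((1 - r) • g.pos a + r • g.pos b)) :
    ¬ g.IsCross s(p, q) s(a, b) ∧ ¬ g.IsCross s(a, b) s(p, q) := by
  constructor <;> intro hc
  · obtain ⟨α, a0, a1, a2, a3, -⟩ := hc.on.1.param
    obtain ⟨β, b0, b1, b2, b3, -⟩ := hc.on.2.param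
    exact h α β a0.le a1.le b0.le b1.le (Prod.ext (a3.symm.trans b3) (a2.symm.trans b2))
  · obtain ⟨α, a0, a1, a2, a3, -⟩ := hc.on.2.param
    obtain ⟨β, b0, b1, b2, b3, -⟩ := hc.on.1.param
    exact h α β a0.le a1.le b0.le b1.le (Prod.ext (a3.symm.trans b3) (a2.symm.trans b2))

theorem pierce_of {p q a b c : Pt} (hy : g.y p ≠ g.y q) {s α β γ : ℝ} (s0 : 0 < s) (s1 : s < 1)
    (a0 : 0 < α) (b0 : 0 < β) (c0 : 0 < γ) (d : α + β + γ = 1)
    (h : (1 - s) • g.pos p + s • g.pos q = α • g.pos a + β • g.pos b + γ • g.pos c) :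
    ∃ t, g.lo s(p, q) < t ∧ t < g.hi s(p, q) ∧ g.InT' a b c (g.X s(p, q) t) t (g.Z s(p, q) t) := by
  refine ⟨_, (param_range hy s0 s1).1, (param_range hy s0 s1).2, α, β, γ, a0, b0, c0, d, ?_⟩
  rw [X, Z, val_param hy, val_param hy]
  exact ⟨congrArg (·.1) h, congrArg (·.2.1) h, congrArg (·.2.2) h⟩

theorem sl_mk {V : Type} {g : Geo V} (p q : V) :
    g.sl s(p, q) = (g.x q - g.x p) / (g.y q - g.y p) := rfl

theorem det_sl {p q a b : Pt} (h1 : g.y p ≠ g.y q) (h2 : g.y a ≠ g.y b) :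
    det2 (g.pos q - g.pos p) (g.pos b - g.pos a) =
      (g.y q - g.y p) * (g.y b - g.y a) * (g.sl s(p, q) - g.sl s(a, b)) := by
  have := sub_ne_zero.2 h1.symm
  have := sub_ne_zero.2 h2.symm
  simp only [det2, pos, sl_mk, Prod.fst_sub, Prod.snd_sub]
  field_simp

/-- the edge `pq` crosses over `ab` -/
def Ov (g : Geo Pt) (p q a b : Pt) : Prop :=
  ∃ s r : ℝ, 0 < s ∧ s < 1 ∧ 0 < r ∧ r < 1 ∧
    proj ((1 - s) • g.pos p + s • g.pos q) = proj ((1 - r) • g.pos a + r • g.pos b) ∧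
    ((1 - r) • g.pos a + r • g.pos b).2.2 < ((1 - s) • g.pos p + s • g.pos q).2.2

theorem Ov.cross {p q a b : Pt} (h : g.Ov p q a b) (h1 : g.y p ≠ g.y q) (h2 : g.y a ≠ g.y b) :
    (g.sl s(a, b) < g.sl s(p, q) → g.IsCross s(p, q) s(a, b) ∧
      g.Z s(a, b) (g.lev (.inr (s(p, q), s(a, b)))) <
        g.Z s(p, q) (g.lev (.inr (s(p, q), s(a, b))))) ∧
    (g.sl s(p, q) < g.sl s(a, b) → g.IsCross s(a, b) s(p, q) ∧
      g.Z s(a, b) (g.lev (.inr (s(a, b), s(p, q)))) <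
        g.Z s(p, q) (g.lev (.inr (s(a, b), s(p, q))))) := by
  obtain ⟨s, r, s0, s1, r0, r1, e, hz⟩ := h
  have e1 : (1 - s) * g.x p + s * g.x q = (1 - r) * g.x a + r * g.x b := congrArg (·.1) e
  have e2 : (1 - s) * g.y p + s * g.y q = (1 - r) * g.y a + r * g.y b := congrArg (·.2) e
  have k1 := param_range h1 s0 s1
  have k2 := param_range h2 r0 r1
  have hx : g.X s(p, q) ((1 - s) * g.y p + s * g.y q) =
      g.X s(a, b) ((1 - s) * g.y p + s * g.y q) := by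
    rw [X, val_param h1, e2, X, val_param h2, e1]
  have hz' : g.Z s(a, b) ((1 - s) * g.y p + s * g.y q) <
      g.Z s(p, q) ((1 - s) * g.y p + s * g.y q) := by
    rw [Z, Z, val_param h1, e2, val_param h2]; exact hz
  rw [← e2] at k2
  exact ⟨fun k => ⟨isCross_of k hx k1.1 k1.2 k2.1 k2.2, by rwa [lev_eq k.ne hx]⟩,
    fun k => ⟨isCross_of k hx.symm k2.1 k2.2 k1.1 k1.2, by rwa [lev_eq k.ne hx.symm]⟩⟩

end Geo

variable {I : Type} {l : Filter I} {G : I → Geo Pt}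
  (hG : ∀ p, Tendsto (fun i => (G i).pos p) l (𝓝 p))
include hG

theorem ev_miss {p q a b c : Pt} (h : Disjoint (segment ℝ p q) (convexHull ℝ {a, b, c})) :
    ∀ᶠ i in l, (G i).y p ≠ (G i).y q → (G i).Miss a b c s(p, q) := by
  have hK : IsCompact ((Set.Icc (0 : ℝ) 1 ×ˢ Set.Icc (0 : ℝ) 1 ×ˢ Set.Icc (0 : ℝ) 1 ×ˢ
      Set.Icc (0 : ℝ) 1) ∩ {x | x.2.1 + x.2.2.1 + x.2.2.2 = 1}) :=
    (isCompact_Icc.prod (isCompact_Icc.prod (isCompact_Icc.prod isCompact_Icc))).inter_right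
      (isClosed_eq (by fun_prop) continuous_const)
  have := ev_ne (Y := Pt × Pt × Pt × Pt × Pt) hK
    (F := fun z => (1 - z.2.1) • z.1.1 + z.2.1 • z.1.2.1)
    (G := fun z => z.2.2.1 • z.1.2.2.1 + z.2.2.2.1 • z.1.2.2.2.1 + z.2.2.2.2 • z.1.2.2.2.2)
    (by fun_prop) (by fun_prop) (y₀ := (p, q, a, b, c)) (fun x hx e => Set.disjoint_left.1 h
      (mem_seg.2 ⟨x.1, hx.1.1.1, hx.1.1.2, rfl⟩)
      (mem_hull3.2 ⟨_, _, _, hx.1.2.1.1, hx.1.2.2.1.1, hx.1.2.2.2.1, hx.2, e⟩))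
    ((hG p).prodMk_nhds ((hG q).prodMk_nhds ((hG a).prodMk_nhds ((hG b).prodMk_nhds (hG c)))))
  refine this.mono fun i hi hy => Geo.miss_of hy fun s α β γ h1 h2 h3 h4 h5 h6 => ?_
  exact hi (s, α, β, γ) ⟨⟨⟨h1, h2⟩, ⟨h3, by linarith⟩, ⟨h4, by linarith⟩, ⟨h5, by linarith⟩⟩, h6⟩

theorem ev_ncross {p q a b : Pt}
    (h : Disjoint (segment ℝ (proj p) (proj q)) (segment ℝ (proj a) (proj b))) :
    ∀ᶠ i in l, ¬ (G i).IsCross s(p, q) s(a, b) ∧ ¬ (G i).IsCross s(a, b) s(p, q) := by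
  have := continuous_proj
  have := ev_ne (Y := Pt × Pt × Pt × Pt) (isCompact_Icc.prod isCompact_Icc :
      IsCompact (Set.Icc (0 : ℝ) 1 ×ˢ Set.Icc (0 : ℝ) 1))
    (F := fun z => proj ((1 - z.2.1) • z.1.1 + z.2.1 • z.1.2.1))
    (G := fun z => proj ((1 - z.2.2) • z.1.2.2.1 + z.2.2 • z.1.2.2.2))
    (by fun_prop) (by fun_prop) (y₀ := (p, q, a, b)) (fun x hx e => Set.disjoint_left.1 h
      (mem_seg.2 ⟨x.1, hx.1.1, hx.1.2, rfl⟩) (mem_seg.2 ⟨x.2, hx.2.1, hx.2.2, e⟩))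
    ((hG p).prodMk_nhds ((hG q).prodMk_nhds ((hG a).prodMk_nhds (hG b))))
  exact this.mono fun i hi => Geo.not_cross_of fun s r h1 h2 h3 h4 => hi (s, r) ⟨⟨h1, h2⟩, h3, h4⟩

theorem ev_lt {p q : Pt} (h : p.2.1 < q.2.1) : ∀ᶠ i in l, (G i).y p < (G i).y q :=
  ((continuous_fst.comp continuous_snd).tendsto _ |>.comp (hG p)).eventually_lt
    ((continuous_fst.comp continuous_snd).tendsto _ |>.comp (hG q)) h

theorem ev_pierce {p q a b c : Pt} (hd : det3 (b - a) (c - a) (q - p) ≠ 0) {s α β γ : ℝ}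
    (s0 : 0 < s) (s1 : s < 1) (a0 : 0 < α) (b0 : 0 < β) (c0 : 0 < γ) (d : α + β + γ = 1)
    (h : (1 - s) • p + s • q = α • a + β • b + γ • c) :
    ∀ᶠ i in l, (G i).y p ≠ (G i).y q → ∃ t, (G i).lo s(p, q) < t ∧ t < (G i).hi s(p, q) ∧
      (G i).InT' a b c ((G i).X s(p, q) t) t ((G i).Z s(p, q) t) := by
  let Δ : Pt × Pt × Pt × Pt × Pt → ℝ := fun z =>
    det3 (z.2.2.2.1 - z.2.2.1) (z.2.2.2.2 - z.2.2.1) (z.2.1 - z.1)
  let B : Pt × Pt × Pt × Pt × Pt → ℝ := fun z =>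
    det3 (z.1 - z.2.2.1) (z.2.2.2.2 - z.2.2.1) (z.2.1 - z.1)
  let Γ : Pt × Pt × Pt × Pt × Pt → ℝ := fun z =>
    det3 (z.2.2.2.1 - z.2.2.1) (z.1 - z.2.2.1) (z.2.1 - z.1)
  let S : Pt × Pt × Pt × Pt × Pt → ℝ := fun z =>
    -det3 (z.2.2.2.1 - z.2.2.1) (z.2.2.2.2 - z.2.2.1) (z.1 - z.2.2.1)
  have cΔ : Continuous Δ := by simp only [Δ, det3]; fun_prop
  have cB : Continuous B := by simp only [B, det3]; fun_prop
  have cΓ : Continuous Γ := by simp only [Γ, det3]; fun_prop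
  have cS : Continuous S := by simp only [S, det3]; fun_prop
  have T := (hG p).prodMk_nhds ((hG q).prodMk_nhds ((hG a).prodMk_nhds
    ((hG b).prodMk_nhds (hG c))))
  have tΔ := (cΔ.tendsto _).comp T
  obtain rfl : α = 1 - β - γ := by linarith
  have h1 : (1 - s) * p.1 + s * q.1 = (1 - β - γ) * a.1 + β * b.1 + γ * c.1 := congrArg (·.1) h
  have h2 : (1 - s) * p.2.1 + s * q.2.1 = (1 - β - γ) * a.2.1 + β * b.2.1 + γ * c.2.1 :=
    congrArg (·.2.1) h
  have h3 : (1 - s) * p.2.2 + s * q.2.2 = (1 - β - γ) * a.2.2 + β * b.2.2 + γ * c.2.2 :=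
    congrArg (·.2.2) h
  have eB : B (p, q, a, b, c) / Δ (p, q, a, b, c) = β := by
    rw [div_eq_iff hd]
    simp only [B, det3, Prod.fst_sub, Prod.snd_sub]
    linear_combination ((c.2.1 - a.2.1) * (q.2.2 - p.2.2) - (c.2.2 - a.2.2) * (q.2.1 - p.2.1)) * h1
      - ((c.1 - a.1) * (q.2.2 - p.2.2) - (c.2.2 - a.2.2) * (q.1 - p.1)) * h2
      + ((c.1 - a.1) * (q.2.1 - p.2.1) - (c.2.1 - a.2.1) * (q.1 - p.1)) * h3
  have eΓ : Γ (p, q, a, b, c) / Δ (p, q, a, b, c) = γ := by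
    rw [div_eq_iff hd]
    simp only [Γ, det3, Prod.fst_sub, Prod.snd_sub]
    linear_combination -((b.2.1 - a.2.1) * (q.2.2 - p.2.2) - (b.2.2 - a.2.2) * (q.2.1 - p.2.1)) * h1
      + ((b.1 - a.1) * (q.2.2 - p.2.2) - (b.2.2 - a.2.2) * (q.1 - p.1)) * h2
      - ((b.1 - a.1) * (q.2.1 - p.2.1) - (b.2.1 - a.2.1) * (q.1 - p.1)) * h3
  have eS : S (p, q, a, b, c) / Δ (p, q, a, b, c) = s := by
    rw [div_eq_iff hd]
    simp only [S, det3, Prod.fst_sub, Prod.snd_sub]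
    linear_combination -((b.2.1 - a.2.1) * (c.2.2 - a.2.2) - (b.2.2 - a.2.2) * (c.2.1 - a.2.1)) * h1
      + ((b.1 - a.1) * (c.2.2 - a.2.2) - (b.2.2 - a.2.2) * (c.1 - a.1)) * h2
      - ((b.1 - a.1) * (c.2.1 - a.2.1) - (b.2.1 - a.2.1) * (c.1 - a.1)) * h3
  have tB := ((cB.tendsto _).comp T).div tΔ hd
  have tΓ := ((cΓ.tendsto _).comp T).div tΔ hd
  have tS := ((cS.tendsto _).comp T).div tΔ hd
  rw [eB] at tB
  rw [eΓ] at tΓ
  rw [eS] at tS
  filter_upwards [tΔ.eventually_ne hd, tB.eventually_const_lt b0, tΓ.eventually_const_lt c0,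
    tS.eventually_const_lt s0, tS.eventually_lt_const s1,
    ((tB.const_sub 1).sub tΓ).eventually_const_lt a0] with i k0 k1 k2 k3 k4 k5 hy
  refine Geo.pierce_of hy k3 k4 k5 k1 k2 (by ring) ?_
  simp only [Pi.div_apply, Function.comp_apply, div_eq_mul_inv] at *
  have hd := mul_inv_cancel₀ k0
  generalize (Δ _)⁻¹ = δ at *
  simp only [Δ, B, Γ, S, det3, Prod.fst_sub, Prod.snd_sub] at *
  generalize (G i).pos p = p' at *
  generalize (G i).pos q = q' at *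
  generalize (G i).pos a = a' at *
  generalize (G i).pos b = b' at *
  generalize (G i).pos c = c' at *
  refine Prod.ext ?_ (Prod.ext ?_ ?_) <;> simp only [Prod.fst_add, Prod.snd_add, Prod.smul_fst,
    Prod.smul_snd, smul_eq_mul]
  · linear_combination (a'.1 - p'.1) * hd
  · linear_combination (a'.2.1 - p'.2.1) * hd
  · linear_combination (a'.2.2 - p'.2.2) * hd

theorem ev_over {p q a b : Pt} (h : Over p q a b) (hd : det2 (q - p) (b - a) ≠ 0) :
    ∀ᶠ i in l, (G i).Ov p q a b ∧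
      SignType.sign (det2 ((G i).pos q - (G i).pos p) ((G i).pos b - (G i).pos a)) =
        SignType.sign (det2 (q - p) (b - a)) := by
  obtain ⟨x, hx, y, hy, e, hz⟩ := h
  obtain ⟨s, s0, s1, rfl⟩ := mem_oseg.1 hx
  obtain ⟨r, r0, r1, rfl⟩ := mem_oseg.1 hy
  let Δ : Pt × Pt × Pt × Pt → ℝ := fun z => det2 (z.2.1 - z.1) (z.2.2.2 - z.2.2.1)
  let S : Pt × Pt × Pt × Pt → ℝ := fun z => det2 (z.2.2.1 - z.1) (z.2.2.2 - z.2.2.1)
  let R : Pt × Pt × Pt × Pt → ℝ := fun z => det2 (z.2.2.1 - z.1) (z.2.1 - z.1)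
  have cΔ : Continuous Δ := by simp only [Δ, det2]; fun_prop
  have cS : Continuous S := by simp only [S, det2]; fun_prop
  have cR : Continuous R := by simp only [R, det2]; fun_prop
  have T := (hG p).prodMk_nhds ((hG q).prodMk_nhds ((hG a).prodMk_nhds (hG b)))
  have tΔ := (cΔ.tendsto _).comp T
  have h1 : (1 - s) * p.1 + s * q.1 = (1 - r) * a.1 + r * b.1 := congrArg (·.1) e
  have h2 : (1 - s) * p.2.1 + s * q.2.1 = (1 - r) * a.2.1 + r * b.2.1 := congrArg (·.2) e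
  have eS : S (p, q, a, b) / Δ (p, q, a, b) = s := by
    rw [div_eq_iff hd]
    simp only [S, det2, Prod.fst_sub, Prod.snd_sub]
    linear_combination -(b.2.1 - a.2.1) * h1 + (b.1 - a.1) * h2
  have eR : R (p, q, a, b) / Δ (p, q, a, b) = r := by
    rw [div_eq_iff hd]
    simp only [R, det2, Prod.fst_sub, Prod.snd_sub]
    linear_combination -(q.2.1 - p.2.1) * h1 + (q.1 - p.1) * h2
  have tS := ((cS.tendsto _).comp T).div tΔ hd
  have tR := ((cR.tendsto _).comp T).div tΔ hd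
  rw [eS] at tS
  rw [eR] at tR
  have z1 := (continuous_snd.comp continuous_snd).tendsto _ |>.comp
    (((tS.const_sub 1).smul (hG p)).add (tS.smul (hG q)))
  have z2 := (continuous_snd.comp continuous_snd).tendsto _ |>.comp
    (((tR.const_sub 1).smul (hG a)).add (tR.smul (hG b)))
  have sg : ∀ᶠ i in l, SignType.sign (det2 ((G i).pos q - (G i).pos p)
      ((G i).pos b - (G i).pos a)) = SignType.sign (det2 (q - p) (b - a)) := by
    rcases lt_or_gt_of_ne hd with k | k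
    · exact (tΔ.eventually_lt_const k).mono fun i hi => by rw [sign_neg k]; exact sign_neg hi
    · exact (tΔ.eventually_const_lt k).mono fun i hi => by rw [sign_pos k]; exact sign_pos hi
  filter_upwards [tΔ.eventually_ne hd, tS.eventually_const_lt s0, tS.eventually_lt_const s1,
    tR.eventually_const_lt r0, tR.eventually_lt_const r1, z2.eventually_lt z1 hz, sg]
    with i k0 k1 k2 k3 k4 k5 k6
  refine ⟨⟨_, _, k1, k2, k3, k4, ?_, k5⟩, k6⟩
  simp only [Pi.div_apply, Function.comp_apply, div_eq_mul_inv] at *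
  have hd := mul_inv_cancel₀ k0
  generalize (Δ _)⁻¹ = δ at *
  simp only [Δ, S, R, det2, Prod.fst_sub, Prod.snd_sub] at *
  generalize (G i).pos p = p' at *
  generalize (G i).pos q = q' at *
  generalize (G i).pos a = a' at *
  generalize (G i).pos b = b' at *
  refine Prod.ext ?_ ?_ <;> simp only [proj, Prod.fst_add, Prod.snd_add, Prod.smul_fst,
    Prod.smul_snd, smul_eq_mul]
  · linear_combination (a'.1 - p'.1) * hd
  · linear_combination (a'.2.1 - p'.2.1) * hd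

end Pool.Agent.P.MP_382f0d_gt
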