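import Pool.Agent.P.MP_382f0d_gt.C

/-! The invariant of a framed link; invariance under isotopy. -/

namespace Pool.Agent.P.MP_382f0d_gt

open Filter Topology

/-- cabling and loops put on the link `L` -/
structure Deco where
  th : Sym2 Pt → ℕ
  dj : Pt → ℕ
  dw : Pt → Sym2 Pt

structure Deco.OK (d : Deco) (L : PLink) : Prop where
  th1 : ∀ e, e ∉ L.edges → d.th e = 1
  thc : ∀ x e f, Two L.edges x e f → d.th e = d.th f
  dec : ∀ x, d.dj x ≠ 0 → ∃ y, d.dw x = s(x, y) ∧ s(x, y) ∈ L.edges ∧ x.2.1 < y.2.1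

noncomputable def dat (g : Geo Pt) (d : Deco) (m : Sym2 Pt → Sym2 Pt → ℤ) : Dat Pt :=
  ⟨g, d.th, m, d.dj, d.dw⟩

variable {L : PLink}

/-- the invariant, for fixed positions -/
noncomputable def phi (K : Framed L) (d : Deco) (g : Geo Pt) (C : Type) [Fintype C]
    [DecidableEq C] [Inhabited C] (a : ℂ) : ℂ :=
  kap a ^ K.tot * (dat g d (muE g K.edges)).br C a (K.edges ∪ L.edges)

/-- the loops sit at lower ends of edges -/
def Deco.Low (d : Deco) (L : PLink) (g : Geo Pt) : Prop :=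
  ∀ x, d.dj x ≠ 0 → d.dw x ∈ L.edges ∧ x ∈ d.dw x ∧ g.y x = g.lo (d.dw x)

theorem ev_low {I : Type} {l : Filter I} {G : I → Geo Pt}
    (hG : ∀ p, Tendsto (fun i => (G i).pos p) l (𝓝 p)) {d : Deco} (hd : d.OK L) :
    ∀ᶠ i in l, d.Low L (G i) := by
  have : ∀ᶠ i in l, ∀ x ∈ {v | L.next v ≠ v}, d.dj x ≠ 0 →
      d.dw x ∈ L.edges ∧ x ∈ d.dw x ∧ (G i).y x = (G i).lo (d.dw x) := by
    refine (eventually_all_finite L.finite).2 fun x _ => ?_
    by_cases h : d.dj x = 0
    · simp [h]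
    obtain ⟨y, h1, h2, h3⟩ := hd.dec x h
    refine (ev_lt hG h3).mono fun i hi _ => ?_
    rw [h1]
    exact ⟨h2, by simp, by simp [hi.le]⟩
  refine this.mono fun i hi x hx => hi x ?_ hx
  obtain ⟨y, -, h2, -⟩ := hd.dec x hx
  exact PLink.moved h2 (by simp)

theorem Framed.not_mem (K : Framed L) {e f : Sym2 Pt} (he : e ∈ K.edges) (hf : f ∈ L.edges)
    {x : Pt} (hx : x ∈ e) : x ∉ f := fun k =>
  Set.disjoint_left.1 K.disj (PLink.mem_carrier he hx) (PLink.mem_carrier hf k)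

theorem Framed.not_edge (K : Framed L) {e : Sym2 Pt} (he : e ∈ K.edges) : e ∉ L.edges := fun k =>
  K.not_mem he k (Sym2.out_fst_mem e) (Sym2.out_fst_mem e)

theorem Two.congr {V : Type} {E E' : Set (Sym2 V)} {x : V} {e f : Sym2 V} (h : Two E x e f)
    (k : ∀ g, x ∈ g → (g ∈ E ↔ g ∈ E')) : Two E' x e f :=
  ⟨h.1, fun g => by have := h.2 g; have := k g; tauto⟩

theorem reg_union {V : Type} {D : Dat V} {om : Sym2 V → ℤ} {E F U : Set (Sym2 V)}
    (hU : ∀ e, e ∈ U ↔ e ∈ E ∨ e ∈ F) (hE : TwoReg E) (hF : TwoReg F)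
    (hd : ∀ e ∈ E, ∀ f ∈ F, ∀ x, x ∈ e → x ∉ f)
    (h1 : ∀ x e f, Two E x e f → D.th e = D.th f ∧ om e * D.tau e x + om f * D.tau f x = 0)
    (h2 : ∀ x e f, Two F x e f → D.th e = D.th f ∧ om e * D.tau e x + om f * D.tau f x = 0) :
    D.Reg om U := by
  rintro x ⟨e, he, hx⟩
  rcases (hU e).1 he with k | k
  · obtain ⟨f, t⟩ := hE e k x hx
    exact ⟨e, f, t.congr fun g hg => by have := hU g; have := hd e k g; tauto, h1 x e f t⟩
  · obtain ⟨f, t⟩ := hF e k x hx
    exact ⟨e, f, t.congr fun g hg => by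
      have := hU g; have := fun h => hd g h e k x hg; tauto, h2 x e f t⟩

theorem reg_link (K : Framed L) {d : Deco} (hd : d.OK L) (g : Geo Pt) (m : Sym2 Pt → Sym2 Pt → ℤ)
    {om : Sym2 Pt → ℤ} (h1 : Coh g K.edges om) (h2 : ∀ f ∈ L.edges, om f = 0) :
    (dat g d m).Reg om (K.edges ∪ L.edges) :=
  reg_union (fun _ => Iff.rfl) PLink.twoReg PLink.twoReg (fun _ he _ hf _ => K.not_mem he hf)
    (fun x e f t => ⟨(hd.th1 e (K.not_edge t.left.1)).trans (hd.th1 f (K.not_edge t.right.1)).symm,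
      h1 x e f t⟩)
    fun x e f t => ⟨hd.thc x e f t, by rw [h2 e t.left.1, h2 f t.right.1]; simp⟩

theorem PLink.moved_iff {K : PLink} {x : Pt} : K.next x ≠ x ↔ ∃ e ∈ K.edges, x ∈ e :=
  ⟨fun h => ⟨_, K.mk_mem h, by simp⟩, fun ⟨_, he, hx⟩ => PLink.moved he hx⟩

theorem phi_same {K K' : Framed L} (h : SameFr K K') (he : K'.edges = K.edges) (d : Deco)
    (g : Geo Pt) (C : Type) [Fintype C] [DecidableEq C] [Inhabited C] (a : ℂ) :
    phi K' d g C a = phi K d g C a := by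
  obtain ⟨T, hT⟩ := exists_trans K.toPLink
  have hT' : Trans K'.toPLink T := by
    unfold Trans at *
    simp only [PLink.moved_iff, he] at *
    exact hT
  rw [phi, phi, he, K.tot_eq hT, K'.tot_eq hT', Finset.sum_congr rfl fun v hv => h v (hT.1 v hv)]

/-- the combinatorial situation of a Δ-move -/
structure Del (K K' : PLink) (a b c : Pt) : Prop where
  ab : s(a, b) ∈ K.edges
  ed : ∀ e, e ∈ K'.edges ↔ (e ∈ K.edges ∧ e ≠ s(a, b)) ∨ e = s(a, c) ∨ e = s(c, b)
  nc : ∀ e ∈ K.edges, c ∉ e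

namespace Del

variable {K K' : PLink} {a b c : Pt} (h : Del K K' a b c)
include h

theorem ac : s(a, c) ∈ K'.edges := (h.ed _).2 (by simp)
theorem cb : s(c, b) ∈ K'.edges := (h.ed _).2 (by simp)

theorem conn1 {x y : Pt} (k : VConn K.edges x y) : VConn K'.edges x y :=
  k.map id fun p q he => by
    by_cases e : s(p, q) = s(a, b)
    · have := (VConn.edge h.ac).trans (VConn.edge h.cb)
      rcases Sym2.eq_iff.1 e with ⟨rfl, rfl⟩ | ⟨rfl, rfl⟩
      exacts [this, this.symm]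
    · exact VConn.edge ((h.ed _).2 (Or.inl ⟨he, e⟩))

theorem conn2 {x y : Pt} (hx : x ≠ c) (hy : y ≠ c) (k : VConn K'.edges x y) :
    VConn K.edges x y := by
  classical
  have := k.map (E' := K.edges) (fun p => if p = c then a else p) fun p q he => by
    have h1 : a ≠ c := PLink.ne_of_mem h.ac
    have h2 : b ≠ c := (PLink.ne_of_mem h.cb).symm
    rcases (h.ed _).1 he with k | k | k
    · have := h.nc _ k.1
      simp only [Sym2.mem_iff, not_or] at this
      rw [if_neg (Ne.symm this.1), if_neg (Ne.symm this.2)]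
      exact VConn.edge k.1
    · rcases Sym2.eq_iff.1 k with ⟨rfl, rfl⟩ | ⟨rfl, rfl⟩ <;> simp [h1, VConn.refl]
    · rcases Sym2.eq_iff.1 k with ⟨rfl, rfl⟩ | ⟨rfl, rfl⟩ <;> simp only [h2, if_true, if_false]
      exacts [VConn.edge h.ab, (VConn.edge h.ab).symm]
  rwa [if_neg hx, if_neg hy] at this

theorem trans {T : Finset Pt} (hT : Trans K T) : Trans K' T := by
  have nc : ∀ v, K.next v ≠ v → v ≠ c := fun v hv e => h.nc _ (K.mk_mem hv) (by simp [e])
  have key : ∀ x, K.next x ≠ x → ∃! v, v ∈ T ∧ VConn K'.edges v x := fun x hx => by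
    obtain ⟨v, hv, hu⟩ := hT.2 x hx
    exact ⟨v, ⟨hv.1, h.conn1 hv.2⟩, fun w hw =>
      hu w ⟨hw.1, h.conn2 (nc w (hT.1 w hw.1)) (nc x hx) hw.2⟩⟩
  refine ⟨fun v hv => ?_, fun x hx => ?_⟩
  · obtain ⟨e, he, hx⟩ := PLink.moved_iff.1 (hT.1 v hv)
    by_cases k : e = s(a, b)
    · rw [k, Sym2.mem_iff] at hx
      rcases hx with rfl | rfl
      exacts [PLink.moved h.ac (by simp), PLink.moved h.cb (by simp)]
    · exact PLink.moved ((h.ed e).2 (Or.inl ⟨he, k⟩)) hx
  · have ha := PLink.moved h.ab (x := a) (by simp)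
    by_cases k : x = c
    · subst k
      obtain ⟨v, hv, hu⟩ := key a ha
      exact ⟨v, ⟨hv.1, hv.2.trans (VConn.edge h.ac)⟩, fun w hw =>
        hu w ⟨hw.1, hw.2.trans (VConn.edge h.ac).symm⟩⟩
    · refine key x ?_
      obtain ⟨e, he, hxe⟩ := PLink.moved_iff.1 hx
      rcases (h.ed e).1 he with k' | rfl | rfl
      · exact PLink.moved k'.1 hxe
      · exact PLink.moved h.ab (by simpa [k] using Or.inl (by simpa [k] using hxe))
      · exact PLink.moved h.ab (by simpa [k] using Or.inr (by simpa [k] using hxe))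

theorem exists_ori {g : Geo Pt} (hy : ∀ p q, s(p, q) ∈ K.edges ∪ K'.edges → g.y p ≠ g.y q) :
    ∃ o, Coh g K.edges o ∧ Coh g K'.edges o ∧ ∀ e ∈ K.edges ∪ K'.edges, o e * o e = 1 := by
  classical
  have h1 : a ≠ c := PLink.ne_of_mem h.ac
  have h2 : c ≠ b := PLink.ne_of_mem h.cb
  have h3 : a ≠ b := PLink.ne_of_mem h.ab
  have n1 : s(c, b) ≠ s(a, c) := by simp [h1.symm, h3.symm]
  let o : Sym2 Pt → ℤ := fun e =>
    if e = s(a, c) then K.ori g s(a, b) * g.tau s(a, b) a * g.tau s(a, c) a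
    else if e = s(c, b) then K.ori g s(a, b) * g.tau s(a, b) b * g.tau s(c, b) b else K.ori g e
  have o1 : o s(a, c) = K.ori g s(a, b) * g.tau s(a, b) a * g.tau s(a, c) a := if_pos rfl
  have o2 : o s(c, b) = K.ori g s(a, b) * g.tau s(a, b) b * g.tau s(c, b) b := by
    simp only [o, if_neg n1, if_true]
  have o3 : ∀ e ∈ K.edges, o e = K.ori g e := fun e he => by
    have := h.nc e he
    simp only [o]
    rw [if_neg (by rintro rfl; simp at this), if_neg (by rintro rfl; simp at this)]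
  have c0 := PLink.ori_coh (K := K) fun p q he => hy p q (Or.inl he)
  have s0 := PLink.ori_sq g _ h.ab
  have t1 := g.tau_sq s(a, b) a
  have t2 := g.tau_sq s(a, b) b
  have t3 := g.tau_sq s(a, c) a
  have t4 := g.tau_sq s(c, b) b
  have u1 := Geo.tau_mk (hy _ _ (Or.inl h.ab))
  have u2 := Geo.tau_mk (hy _ _ (Or.inr h.ac))
  have u3 := Geo.tau_mk (hy _ _ (Or.inr h.cb))
  refine ⟨o, fun x e f t => by rw [o3 e t.left.1, o3 f t.right.1]; exact c0 x e f t, ?_, ?_⟩
  · have key : ∀ x e f, Two K'.edges x e f → ∃ e' f', Two K'.edges x e' f' ∧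
        o e' * g.tau e' x + o f' * g.tau f' x = 0 := fun x e f t => by
      by_cases k1 : x = c
      · subst k1
        refine ⟨_, _, PLink.twoReg.two h.ac h.cb (by simp) (by simp) n1.symm, ?_⟩
        rw [o1, o2]
        linear_combination (K.ori g s(a, b) * g.tau s(a, b) a * g.tau s(a, x) a) * u2
          + (K.ori g s(a, b) * g.tau s(a, b) b * g.tau s(x, b) b) * u3
          - (K.ori g s(a, b) * g.tau s(a, b) a) * t3 - (K.ori g s(a, b) * g.tau s(a, b) b) * t4
          - K.ori g s(a, b) * u1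
      by_cases k2 : x = a
      · subst k2
        obtain ⟨r, t'⟩ := PLink.twoReg _ h.ab x (by simp)
        have := h.nc r t'.right.1
        refine ⟨_, r, PLink.twoReg.two h.ac ((h.ed r).2 (Or.inl ⟨t'.right.1, t'.1.symm⟩))
          (by simp) t'.right.2 (by rintro rfl; simp at this), ?_⟩
        rw [o1, o3 r t'.right.1]
        linear_combination c0 x _ r t' + (K.ori g s(x, b) * g.tau s(x, b) x) * t3
      by_cases k3 : x = b
      · subst k3
        obtain ⟨r, t'⟩ := PLink.twoReg _ h.ab x (by simp)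
        have := h.nc r t'.right.1
        refine ⟨_, r, PLink.twoReg.two h.cb ((h.ed r).2 (Or.inl ⟨t'.right.1, t'.1.symm⟩))
          (by simp) t'.right.2 (by rintro rfl; simp at this), ?_⟩
        rw [o2, o3 r t'.right.1]
        linear_combination c0 x _ r t' + (K.ori g s(a, x) * g.tau s(a, x) x) * t4
      have t' : Two K.edges x e f := t.congr fun k hk => by
        rw [h.ed]
        constructor
        · rintro (k' | rfl | rfl)
          · exact k'.1
          · simp [k1, k2] at hk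
          · simp [k1, k3] at hk
        · exact fun k' => Or.inl ⟨k', by rintro rfl; simp [k2, k3] at hk⟩
      exact ⟨e, f, t, by rw [o3 e t'.left.1, o3 f t'.right.1]; exact c0 x e f t'⟩
    intro x e f t
    obtain ⟨e', f', t', k⟩ := key x e f t
    rcases t.cases t' with ⟨rfl, rfl⟩ | ⟨rfl, rfl⟩ <;> linarith
  · intro e he
    rcases he with he | he
    · rw [o3 e he, PLink.ori_sq g e he]
    · rcases (h.ed e).1 he with k | rfl | rfl
      · rw [o3 e k.1, PLink.ori_sq g e k.1]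
      · rw [o1]
        linear_combination (g.tau s(a, b) a * g.tau s(a, c) a) ^ 2 * s0
          + (g.tau s(a, c) a) ^ 2 * t1 + t3
      · rw [o2]
        linear_combination (g.tau s(a, b) b * g.tau s(c, b) b) ^ 2 * s0
          + (g.tau s(c, b) b) ^ 2 * t2 + t4

end Del

theorem off_of_pre {g : Geo Pt} {Γ : Set (Sym2 Pt)} (hp : g.Pre {p | ∃ e ∈ Γ, p ∈ e}) {a b c : Pt}
    (h1 : s(a, b) ∈ Γ) (h2 : s(a, c) ∈ Γ) (d1 : a ≠ b) (d2 : a ≠ c) (d3 : c ≠ b) :
    ∀ x, (∃ e ∈ Γ, x ∈ e) → x ≠ a → x ≠ b → x ≠ c → ∀ h,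
      g.InT a b c (g.x x) (g.y x) h → g.z x ≠ h := fun x hx k1 k2 k3 =>
  hp.off hx ⟨_, h1, by simp⟩ ⟨_, h1, by simp⟩ ⟨_, h2, by simp⟩
    (by simp [d1, d2, d3.symm, k1.symm, k2.symm, k3.symm])

theorem phi_del {K K' : Framed L} (hf : SameFr K K') {a b c : Pt}
    (h : Del K.toPLink K'.toPLink a b c) {d : Deco} (hd : d.OK L) {g : Geo Pt} (hl : d.Low L g)
    (hg : g.Gen (K.edges ∪ K'.edges ∪ L.edges))
    (hp : g.Pre {p | ∃ e ∈ K.edges ∪ K'.edges ∪ L.edges, p ∈ e})
    (hm : ∀ f ∈ K.edges ∪ L.edges, g.Miss a b c f ∨ a ∈ f ∨ b ∈ f)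
    (C : Type) [Fintype C] [DecidableEq C] [Inhabited C] {q : ℂ} (hq : Good C q) :
    phi K' d g C q = phi K d g C q := by
  classical
  obtain ⟨T, hT⟩ := exists_trans K.toPLink
  rw [phi, phi, K.tot_eq hT, K'.tot_eq (h.trans hT),
    Finset.sum_congr rfl fun v hv => hf v (hT.1 v hv)]
  congr 1
  obtain ⟨o, o1, o2, o3⟩ := h.exists_ori (g := g) fun p q he => hg.y_ne (Or.inl he)
  have h1 : a ≠ c := PLink.ne_of_mem h.ac
  have h2 : c ≠ b := PLink.ne_of_mem h.cb
  have h3 : a ≠ b := PLink.ne_of_mem h.ab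
  have nL : ∀ e ∈ K.edges ∪ K'.edges, e ∉ L.edges := fun e he =>
    he.elim K.not_edge K'.not_edge
  have vc : ∀ e ∈ K.edges ∪ K'.edges, ∀ x ∈ e, ∀ y ∈ e, VConn K'.edges x y :=
    fun e he x hx y hy => he.elim (fun k => h.conn1 (VConn.of_mem k hx hy))
      fun k => VConn.of_mem k hx hy
  let M : Sym2 Pt → Sym2 Pt → ℤ := fun e f => if e ∈ K.edges ∪ K'.edges ∧
    f ∈ K.edges ∪ K'.edges ∧ ∃ x ∈ e, ∃ y ∈ f, VConn K'.edges x y then o e * o f else 0
  let om : Sym2 Pt → ℤ := fun f =>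
    if f ∈ K.edges ∪ K'.edges ∧ ∃ y ∈ f, VConn K'.edges a y then o f else 0
  have omL : ∀ f ∈ L.edges, om f = 0 := fun f hf => if_neg fun k => nL f k.1 hf
  have omc : ∀ {E : Set (Sym2 Pt)}, E ⊆ K.edges ∪ K'.edges → Coh g E o → Coh g E om :=
    fun {E} hE ho x e f t => by
      by_cases k : VConn K'.edges a x
      · simp only [om]
        rw [if_pos ⟨hE t.left.1, x, t.left.2, k⟩, if_pos ⟨hE t.right.1, x, t.right.2, k⟩]
        exact ho x e f t
      · simp only [om]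
        rw [if_neg fun ⟨k1, y, hy, k2⟩ => k (k2.trans (vc e k1 y hy x t.left.2)),
          if_neg fun ⟨k1, y, hy, k2⟩ => k (k2.trans (vc f k1 y hy x t.right.2))]
        simp
  have sd : ∀ e, e = s(a, b) ∨ e = s(a, c) ∨ e = s(c, b) → e ∈ K.edges ∪ K'.edges ∧
      ∀ x ∈ e, VConn K'.edges a x := by
    have k1 := VConn.edge h.ac
    have k2 := k1.trans (VConn.edge h.cb)
    rintro e (rfl | rfl | rfl)
    · exact ⟨Or.inl h.ab, by simp [VConn.refl, k2]⟩
    · exact ⟨Or.inr h.ac, by simp [VConn.refl, k1]⟩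
    · exact ⟨Or.inr h.cb, by simp [k1, k2]⟩
  have ok : TriOK (dat g d M) ((K.edges \ {s(a, b)}) ∪ L.edges) (K.edges ∪ K'.edges ∪ L.edges)
      a b c om := by
    refine ⟨fun e => ?_, hg, fun e he => ⟨?_, hd.th1 e (nL e (sd e he).1), fun f _ => ?_⟩,
      fun x hx => ?_, fun f hf k => ?_, off_of_pre hp (Or.inl (Or.inl h.ab))
        (Or.inl (Or.inr h.ac)) h3 h1 h2⟩
    · have := h.ab
      simp only [Set.mem_union, Set.mem_sdiff, Set.mem_singleton_iff, h.ed]
      grind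
    · rintro (k | k)
      · have := h.nc e k.1
        rcases he with rfl | rfl | rfl
        · exact k.2 rfl
        · simp at this
        · simp at this
      · exact nL e (sd e he).1 k
    · obtain ⟨s1, s2⟩ := sd e he
      have e1 : om e = o e := if_pos ⟨s1, _, Sym2.out_fst_mem e, s2 _ (Sym2.out_fst_mem e)⟩
      simp only [dat, M, e1, om]
      by_cases k : f ∈ K.edges ∪ K'.edges ∧ ∃ y ∈ f, VConn K'.edges a y
      · obtain ⟨k1, y, hy, k2⟩ := id k
        have k3 := (s2 _ (Sym2.out_fst_mem e)).symm.trans k2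
        rw [if_pos k, if_pos ⟨s1, k1, _, Sym2.out_fst_mem e, y, hy, k3⟩,
          if_pos ⟨k1, s1, y, hy, _, Sym2.out_fst_mem e, k3.symm⟩]
        exact ⟨rfl, mul_comm _ _⟩
      · rw [if_neg k, if_neg fun ⟨_, k1, x, hx, y, hy, k2⟩ => k ⟨k1, y, hy, (s2 x hx).trans k2⟩,
          if_neg fun ⟨k1, _, x, hx, y, hy, k2⟩ => k ⟨k1, x, hx, (s2 y hy).trans k2.symm⟩]
        simp
    · obtain ⟨k1, k2, k3⟩ := hl x hx
      exact ⟨Or.inr k1, k2, k3, fun e => K.not_mem h.ab k1 (by simp [e]) k2,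
        fun e => K.not_mem h.ab k1 (by simp [e]) k2,
        fun e => K'.not_mem h.ac k1 (by simp [e]) k2⟩
    · rcases hf with hf | hf
      · have e1 : om f = o f := by
          refine if_pos ⟨Or.inl hf.1, ?_⟩
          rcases k with k | k | k
          · exact ⟨a, k, VConn.refl _⟩
          · exact ⟨b, k, (sd s(a, b) (by simp)).2 b (by simp)⟩
          · exact ⟨c, k, (sd s(a, c) (by simp)).2 c (by simp)⟩
        rw [e1, o3 f (Or.inl hf.1)]
      · rcases k with k | k | k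
        · exact absurd k (K.not_mem h.ab hf (by simp))
        · exact absurd k (K.not_mem h.ab hf (by simp))
        · exact absurd k (K'.not_mem h.ac hf (by simp))
  have main := ok.delta (C := C) hq (A := K.edges ∪ L.edges) (B := K'.edges ∪ L.edges)
    (fun e => by
      have := h.ab
      simp only [Set.mem_union, Set.mem_sdiff, Set.mem_singleton_iff]
      grind)
    (fun e => by
      simp only [Set.mem_union, Set.mem_sdiff, Set.mem_singleton_iff, h.ed]
      tauto)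
    (reg_link K hd g M (omc Set.subset_union_left o1) omL)
    (reg_link K' hd g M (omc Set.subset_union_right o2) omL)
    fun f hf => hm f (hf.imp (·.1) id)
  have m1 := Dat.br_mu (C := C) (a := q) (D := dat g d M) (m := muE g K.edges)
    (hg.mono (E := K.edges ∪ L.edges) (by intro e; simp only [Set.mem_union]; tauto))
    fun e he f hf => by
      rw [muE_eq PLink.twoReg o1 fun e he => o3 e (Or.inl he)]
      refine if_congr ⟨fun ⟨k1, k2, x, hx, y, hy, k3⟩ =>
        ⟨Or.inl k1, Or.inl k2, x, hx, y, hy, h.conn1 k3⟩, fun ⟨k1, k2, x, hx, y, hy, k3⟩ => ?_⟩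
        rfl rfl
      have k4 := he.resolve_right (nL e k1)
      have k5 := hf.resolve_right (nL f k2)
      exact ⟨k4, k5, x, hx, y, hy, h.conn2 (fun e' => h.nc e k4 (e' ▸ hx))
        (fun e' => h.nc f k5 (e' ▸ hy)) k3⟩
  have m2 := Dat.br_mu (C := C) (a := q) (D := dat g d M) (m := muE g K'.edges)
    (hg.mono (E := K'.edges ∪ L.edges) (by intro e; simp only [Set.mem_union]; tauto))
    fun e he f hf => by
      rw [muE_eq PLink.twoReg o2 fun e he => o3 e (Or.inr he)]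
      exact if_congr ⟨fun ⟨k1, k2, k3⟩ => ⟨Or.inr k1, Or.inr k2, k3⟩, fun ⟨k1, k2, k3⟩ =>
        ⟨he.resolve_right (nL e k1), hf.resolve_right (nL f k2), k3⟩⟩ rfl rfl
  exact m2.trans (main.symm.trans m1.symm)

end Pool.Agent.P.MP_382f0d_gt

/-! Adding a triangle: trivial loops and meridians. -/

namespace Pool.Agent.P.MP_382f0d_gt

open Filter Topology

variable {L : PLink}

/-- the combinatorial situation of an added triangle -/
structure Add (K K' : PLink) (a b c : Pt) : Prop where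
  ed : ∀ e, e ∈ K'.edges ↔ e ∈ K.edges ∨ e = s(a, b) ∨ e = s(a, c) ∨ e = s(c, b)
  na : ∀ e ∈ K.edges, a ∉ e ∧ b ∉ e ∧ c ∉ e

namespace Add

variable {K K' : PLink} {a b c : Pt} (h : Add K K' a b c)
include h

theorem ab : s(a, b) ∈ K'.edges := (h.ed _).2 (by simp)
theorem ac : s(a, c) ∈ K'.edges := (h.ed _).2 (by simp)
theorem cb : s(c, b) ∈ K'.edges := (h.ed _).2 (by simp)

theorem conn1 {x y : Pt} (k : VConn K.edges x y) : VConn K'.edges x y :=
  k.map id fun _ _ he => VConn.edge ((h.ed _).2 (Or.inl he))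

theorem conn2 {x y : Pt} (hx : x ≠ a ∧ x ≠ b ∧ x ≠ c) (k : VConn K'.edges x y) :
    VConn K.edges x y ∧ y ≠ a ∧ y ≠ b ∧ y ≠ c := by
  induction k with
  | refl => exact ⟨VConn.refl _, hx⟩
  | tail _ k ih =>
    rcases (h.ed _).1 k with k | k
    · have := h.na _ k
      simp only [Sym2.mem_iff] at this
      exact ⟨ih.1.trans (VConn.edge k), by grind⟩
    · simp only [Sym2.eq_iff] at k
      grind

theorem ne {e : Sym2 Pt} (he : e ∈ K.edges) {x : Pt} (hx : x ∈ e) : x ≠ a ∧ x ≠ b ∧ x ≠ c := by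
  have := h.na e he
  grind

theorem trans {T : Finset Pt} (hT : Trans K T) : a ∉ T ∧ Trans K' (insert a T) := by
  have nc : ∀ v, K.next v ≠ v → v ≠ a ∧ v ≠ b ∧ v ≠ c := fun v hv =>
    h.ne (K.mk_mem hv) (by simp)
  refine ⟨fun k => (nc a (hT.1 a k)).1 rfl, fun v hv => ?_, fun x hx => ?_⟩
  · rcases Finset.mem_insert.1 hv with rfl | hv
    · exact PLink.moved h.ab (by simp)
    · exact PLink.moved ((h.ed _).2 (Or.inl (K.mk_mem (hT.1 v hv)))) (by simp)
  · obtain ⟨e, he, hxe⟩ := PLink.moved_iff.1 hx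
    rcases (h.ed e).1 he with k | k
    · obtain ⟨v, hv, hu⟩ := hT.2 x (PLink.moved k hxe)
      refine ⟨v, ⟨Finset.mem_insert_of_mem hv.1, h.conn1 hv.2⟩, fun w hw => ?_⟩
      have := h.conn2 (h.ne k hxe) hw.2.symm
      exact hu w ⟨(Finset.mem_insert.1 hw.1).resolve_left this.2.1, this.1.symm⟩
    · have k1 : VConn K'.edges a x ∧ (x = a ∨ x = b ∨ x = c) := by
        rcases k with rfl | rfl | rfl <;> rcases Sym2.mem_iff.1 hxe with rfl | rfl <;>
          simp [VConn.refl, VConn.edge h.ab, VConn.edge h.ac]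
      refine ⟨a, ⟨Finset.mem_insert_self _ _, k1.1⟩, fun w hw => ?_⟩
      rcases Finset.mem_insert.1 hw.1 with k2 | k2
      · exact k2
      · have := (h.conn2 (nc w (hT.1 w k2)) hw.2).2
        tauto

end Add

theorem add_ok {K K' : Framed L} {a b c : Pt} (h : Add K.toPLink K'.toPLink a b c) {d : Deco}
    (hd : d.OK L) {g : Geo Pt} (hl : d.Low L g) (hg : g.Gen (K'.edges ∪ L.edges))
    (hp : g.Pre {p | ∃ e ∈ K'.edges ∪ L.edges, p ∈ e}) :
    TriOK (dat g d (muE g K'.edges)) (K.edges ∪ L.edges) (K'.edges ∪ L.edges) a b c 0 := by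
  have sd : ∀ e, e = s(a, b) ∨ e = s(a, c) ∨ e = s(c, b) → e ∈ K'.edges ∧ e ∉ K.edges ∧
      ∀ x ∈ e, x = a ∨ x = b ∨ x = c := fun e he =>
    ⟨(h.ed e).2 (Or.inr he), fun k => by
      have := h.na e k
      rcases he with rfl | rfl | rfl <;> simp at this, by
      rcases he with rfl | rfl | rfl <;> simp⟩
  refine ⟨fun e => ?_, hg, fun e he => ⟨?_, hd.th1 e (K'.not_edge (sd e he).1), fun f hf => ?_⟩,
    fun x hx => ?_, fun f hf k => ?_, off_of_pre hp (Or.inl h.ab) (Or.inl h.ac)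
      (PLink.ne_of_mem h.ab) (PLink.ne_of_mem h.ac) (PLink.ne_of_mem h.cb)⟩
  · simp only [Set.mem_union, h.ed]; tauto
  · rintro (k | k)
    exacts [(sd e he).2.1 k, K'.not_edge (sd e he).1 k]
  · simp only [dat, Pi.zero_apply, mul_zero]
    rcases hf with hf | hf
    · have key : ∀ x ∈ e, ∀ y ∈ f, ¬ VConn K'.edges y x := fun x hx y hy k => by
        have := (h.conn2 (h.ne hf hy) k).2
        have := (sd e he).2.2 x hx
        tauto
      exact ⟨if_neg fun ⟨_, _, x, hx, y, hy, k⟩ => key x hx y hy k.symm,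
        if_neg fun ⟨_, _, x, hx, y, hy, k⟩ => key y hy x hx k⟩
    · exact ⟨muE_not (Or.inr fun k => K'.not_edge k hf), muE_not (Or.inl fun k => K'.not_edge k hf)⟩
  · obtain ⟨k1, k2, k3⟩ := hl x hx
    exact ⟨Or.inr k1, k2, k3, fun e => K'.not_mem h.ab k1 (by simp [e]) k2,
      fun e => K'.not_mem h.ab k1 (by simp [e]) k2, fun e => K'.not_mem h.ac k1 (by simp [e]) k2⟩
  · exfalso
    rcases hf with hf | hf
    · have := h.na f hf; tauto
    · rcases k with k | k | k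
      · exact K'.not_mem h.ab hf (by simp) k
      · exact K'.not_mem h.ab hf (by simp) k
      · exact K'.not_mem h.ac hf (by simp) k

theorem add_tot {K K' : Framed L} {a b c : Pt} (h : Add K.toPLink K'.toPLink a b c)
    (hf : SameFr K K') (ha : K'.fr a = 0) : K'.tot = K.tot := by
  classical
  obtain ⟨T, hT⟩ := exists_trans K.toPLink
  have := h.trans hT
  rw [K.tot_eq hT, K'.tot_eq (by convert this.2), Finset.sum_insert this.1, ha, zero_add,
    Finset.sum_congr rfl fun v hv => hf v (hT.1 v hv)]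

theorem add_mu {K K' : Framed L} {a b c : Pt} (h : Add K.toPLink K'.toPLink a b c) {g : Geo Pt}
    (hg : g.Gen (K'.edges ∪ L.edges)) : ∀ e ∈ K.edges ∪ L.edges, ∀ f ∈ K.edges ∪ L.edges,
      muE g K.edges e f = muE g K'.edges e f := by
  classical
  intro e he f hf
  have o1 := PLink.ori_coh (K := K'.toPLink) (g := g) fun p q he => hg.y_ne (Or.inl he)
  have sub : K.edges ⊆ K'.edges := fun e he => (h.ed e).2 (Or.inl he)
  have o2 : Coh g K.edges (K'.ori g) := fun x e f t => o1 x e f (t.congr fun k hk =>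
    ⟨fun k' => sub k', fun k' => ((h.ed k).1 k').resolve_right fun k'' => by
      have := h.ne t.left.1 t.left.2
      rcases k'' with rfl | rfl | rfl <;> simp only [Sym2.mem_iff] at hk <;> tauto⟩)
  rw [muE_eq PLink.twoReg o1 (PLink.ori_sq g),
    muE_eq PLink.twoReg o2 fun e he => PLink.ori_sq g e (sub he)]
  refine if_congr ⟨fun ⟨k1, k2, x, hx, y, hy, k3⟩ => ⟨sub k1, sub k2, x, hx, y, hy, h.conn1 k3⟩,
    fun ⟨k1, k2, x, hx, y, hy, k3⟩ => ?_⟩ rfl rfl
  have k4 := he.resolve_right (K'.not_edge k1)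
  exact ⟨k4, hf.resolve_right (K'.not_edge k2), x, hx, y, hy, (h.conn2 (h.ne k4 hx) k3).1⟩

theorem coh_zero {V : Type} (g : Geo V) (E : Set (Sym2 V)) : Coh g E 0 := fun _ _ _ _ => by simp

theorem phi_loop {K K' : Framed L} {a b c : Pt} (h : Add K.toPLink K'.toPLink a b c)
    (hf : SameFr K K') (ha : K'.fr a = 0) {d : Deco}
    (hd : d.OK L) {g : Geo Pt} (hl : d.Low L g) (hg : g.Gen (K'.edges ∪ L.edges))
    (hp : g.Pre {p | ∃ e ∈ K'.edges ∪ L.edges, p ∈ e})
    (hm : ∀ f ∈ K.edges ∪ L.edges, g.Miss a b c f)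
    (C : Type) [Fintype C] [DecidableEq C] [Inhabited C] {q : ℂ} (hq : Good C q) :
    phi K' d g C q = (-q ^ 2 - q⁻¹ ^ 2) * phi K d g C q := by
  have ok := add_ok h hd hl hg hp
  have := ok.loop (C := C) hq (reg_link K hd g _ (coh_zero _ _) fun _ _ => rfl)
    (reg_link K' hd g _ (coh_zero _ _) fun _ _ => rfl) hm
  have m1 := Dat.br_mu (C := C) (a := q) (D := dat g d (muE g K'.edges)) (m := muE g K.edges)
    (hg.mono fun e he => (ok.cG e).2 (Or.inl he)) (add_mu h hg)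
  rw [phi, phi, add_tot h hf ha, this, ← m1, hq.eq, mul_left_comm]
  rfl

/-- a link of three triangles -/
structure TriL (L : PLink) where
  P : Fin 3 → Pt
  Q : Fin 3 → Pt
  R : Fin 3 → Pt
  comp : Pt → Fin 3
  ed : ∀ e, e ∈ L.edges ↔ ∃ i, e = s(P i, Q i) ∨ e = s(Q i, R i) ∨ e = s(P i, R i)
  lt1 : ∀ i, (P i).2.1 < (Q i).2.1
  lt2 : ∀ i, (Q i).2.1 < (R i).2.1
  cP : ∀ i, comp (P i) = i
  cQ : ∀ i, comp (Q i) = i
  cR : ∀ i, comp (R i) = i

namespace TriL

variable (t : TriL L)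

open Classical in
noncomputable def deco (n j : Fin 3 → ℕ) : Deco where
  th e := if e ∈ L.edges then n (t.comp e.out.1) else 1
  dj x := if x = t.P (t.comp x) then j (t.comp x) else 0
  dw x := s(x, t.R (t.comp x))

theorem comp_eq {e : Sym2 Pt} (he : e ∈ L.edges) {x y : Pt} (hx : x ∈ e) (hy : y ∈ e) :
    t.comp x = t.comp y := by
  obtain ⟨i, rfl | rfl | rfl⟩ := (t.ed e).1 he <;> rcases Sym2.mem_iff.1 hx with rfl | rfl <;>
    rcases Sym2.mem_iff.1 hy with rfl | rfl <;> simp [t.cP, t.cQ, t.cR]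

theorem th_eq (n j : Fin 3 → ℕ) {e : Sym2 Pt} (he : e ∈ L.edges) {x : Pt} (hx : x ∈ e) :
    (t.deco n j).th e = n (t.comp x) := by
  simp only [deco, if_pos he, t.comp_eq he (Sym2.out_fst_mem e) hx]

theorem deco_ok (n j : Fin 3 → ℕ) : (t.deco n j).OK L where
  th1 e he := if_neg he
  thc x e f h := by rw [t.th_eq n j h.left.1 h.left.2, t.th_eq n j h.right.1 h.right.2]
  dec x hx := by
    have h : x = t.P (t.comp x) := by
      by_contra k
      exact hx (if_neg k)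
    refine ⟨_, rfl, (t.ed _).2 ⟨t.comp x, Or.inr (Or.inr (by rw [← h]))⟩, ?_⟩
    conv_lhs => rw [h]
    exact (t.lt1 _).trans (t.lt2 _)

theorem bump (n j : Fin 3 → ℕ) (i : Fin 3) (g : Geo Pt) (m : Sym2 Pt → Sym2 Pt → ℤ) :
    (dat g (t.deco n j) m).bump (t.P i) = dat g (t.deco n (Function.update j i (j i + 1))) m := by
  simp only [Dat.bump, dat, deco, Dat.mk.injEq, true_and, and_true]
  funext x
  by_cases h : x = t.P i
  · subst h; simp [t.cP]
  · rw [Function.update_of_ne h]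
    split_ifs with k
    · rw [Function.update_of_ne]
      rintro rfl
      exact h k
    · rfl

end TriL

theorem phi_mer {K K' : Framed L} {a b c : Pt} (h : Add K.toPLink K'.toPLink a b c)
    (hf : SameFr K K') (ha : K'.fr a = 0) (t : TriL L) (n j : Fin 3 → ℕ)
    {g : Geo Pt} (hl : (t.deco n j).Low L g) (hg : g.Gen (K'.edges ∪ L.edges))
    (hp : g.Pre {p | ∃ e ∈ K'.edges ∪ L.edges, p ∈ e}) {e : Sym2 Pt} {i : Fin 3}
    (he : e = s(t.P i, t.Q i) ∨ e = s(t.Q i, t.R i) ∨ e = s(t.P i, t.R i))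
    (y1 : g.y (t.P i) < g.y (t.Q i)) (y2 : g.y (t.Q i) < g.y (t.R i))
    (hi : ∃ s, g.lo e < s ∧ s < g.hi e ∧ g.InT' a b c (g.X e s) s (g.Z e s))
    (hm : ∀ f ∈ K.edges ∪ L.edges, f ≠ e → g.Miss a b c f)
    (C : Type) [Fintype C] [DecidableEq C] [Inhabited C] {q : ℂ} (hq : Good C q) :
    phi K' (t.deco n j) g C q = phi K (t.deco n (Function.update j i (j i + 1))) g C q := by
  have hd := t.deco_ok n j
  have ok := add_ok h hd hl hg hp
  obtain ⟨s, s1, s2, s3⟩ := hi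
  have m1 : s(t.P i, t.Q i) ∈ L.edges := (t.ed _).2 ⟨i, by simp⟩
  have m2 : s(t.Q i, t.R i) ∈ L.edges := (t.ed _).2 ⟨i, by simp⟩
  have m3 : s(t.P i, t.R i) ∈ L.edges := (t.ed _).2 ⟨i, by simp⟩
  have sub : K.edges ∪ L.edges ⊆ K'.edges ∪ L.edges := fun e he => (ok.cG e).2 (Or.inl he)
  have W0 := fun p => ok.mer (C := C) hq (reg_link K hd g _ (coh_zero _ _) fun _ _ => rfl)
    (reg_link K' hd g _ (coh_zero _ _) fun _ _ => rfl) (e := e)
    (Or.inr ((t.ed e).2 ⟨i, he⟩)) s1 s2 s3 hm (p := p)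
  have rg := reg_link K hd g (muE g K'.edges) (coh_zero _ _) fun _ _ => rfl
  have dc : (dat g (t.deco n j) (muE g K'.edges)).DecOK (K.edges ∪ L.edges) := fun x _ hx =>
    ⟨Or.inr (hl x hx).1, (hl x hx).2⟩
  have d1 := PLink.ne_of_mem m1
  have d2 := PLink.ne_of_mem m2
  have d3 := PLink.ne_of_mem m3
  have y3 := y1.trans y2
  have t1 := rg.two (Or.inr m1) (Or.inr m3) (x := t.P i) (by simp) (by simp) (by simp [d2, d3])
  have t2 := rg.two (Or.inr m1) (Or.inr m2) (x := t.Q i) (by simp) (by simp) (by simp [d1, d3])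
  have W1 : ∀ z, (dat g (t.deco n j) (muE g K'.edges)).W C q (K.edges ∪ L.edges)
      (K'.edges ∪ L.edges) s(t.P i, t.Q i) (t.P i) z → (dat g (t.deco n j) (muE g K'.edges)).W C q
      (K.edges ∪ L.edges) (K'.edges ∪ L.edges) s(t.P i, t.R i) (t.P i) z := fun z hz =>
    hz.min hq (hg.mono sub) dc t1.1 t1.2.1 (Dat.top_lo (by simp [dat, y1]))
      (Dat.top_lo (by simp [dat, y3]))
  have W2 : (dat g (t.deco n j) (muE g K'.edges)).W C q (K.edges ∪ L.edges) (K'.edges ∪ L.edges)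
      s(t.P i, t.R i) (t.P i) ((dat g (t.deco n j) (muE g K'.edges)).br C q
        (K'.edges ∪ L.edges)) := by
    rcases he with rfl | rfl | rfl
    · exact W1 _ (W0 _ (by simp) (by simp [dat, y1.le]))
    · exact W1 _ ((W0 (t.Q i) (by simp) (by simp [dat, y2.le])).mono hq hg sub dc t2.1 t2.2.1
        (by simp [dat, y1.le]) (Dat.top_lo (by simp [dat, y2])) (by simp) (by simp [dat, y1.le]))
    · exact W0 _ (by simp) (by simp [dat, y3.le])
  have e1 : s(t.P i, t.R i) = (dat g (t.deco n j) (muE g K'.edges)).dw (t.P i) := by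
    simp [dat, TriL.deco, t.cP]
  rw [e1] at W2
  have := W2.br sub ⟨_, Or.inr m1, by simp⟩
  rw [t.bump] at this
  have m4 := Dat.br_mu (C := C) (a := q)
    (D := dat g (t.deco n (Function.update j i (j i + 1))) (muE g K'.edges)) (m := muE g K.edges)
    (hg.mono sub) (add_mu h hg)
  rw [phi, phi, add_tot h hf ha, this, ← m4]
  rfl

end Pool.Agent.P.MP_382f0d_gt

/-! Blackboard framing: the writhe of the perturbed diagram. -/

namespace Pool.Agent.P.MP_382f0d_gt

open Filter Topology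

variable {L : PLink}

theorem par_cases {P Q R S : ℝ × ℝ} (hPQ : P ≠ Q) {κ s r : ℝ} (hκ : 0 < κ) (s0 : 0 < s)
    (s1 : s < 1) (r0 : 0 < r) (r1 : r < 1) (h1 : S - R = κ • (Q - P))
    (h2 : (1 - s) • P + s • Q = (1 - r) • R + r • S) :
    (R ∈ segment ℝ P Q ∧ R ≠ Q) ∨ (P ∈ segment ℝ R S ∧ P ≠ R ∧ P ≠ S) := by
  have hS : S = R + κ • (Q - P) := by rw [← h1]; abel
  have hR : R = P + (s - r * κ) • (Q - P) := by
    rw [hS] at h2; linear_combination (norm := module) -h2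
  have inj : ∀ α β : ℝ, P + α • (Q - P) = P + β • (Q - P) → α = β := fun α β h =>
    smul_left_injective ℝ (sub_ne_zero.2 hPQ.symm) (add_left_cancel h)
  have hS' : S = P + (s - r * κ + κ) • (Q - P) := by rw [hS, hR]; module
  have : 0 < r * κ := mul_pos r0 hκ
  have : 0 < (1 - r) * κ := mul_pos (by linarith) hκ
  rcases le_or_gt 0 (s - r * κ) with c | c
  · refine Or.inl ⟨mem_seg.2 ⟨_, c, by linarith, by rw [hR]; module⟩, fun e => ?_⟩
    have := inj (s - r * κ) 1 (by rw [← hR, e]; module)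
    linarith
  · refine Or.inr ⟨mem_seg.2 ⟨-(s - r * κ) / κ, div_nonneg (by linarith) hκ.le,
      (div_le_one hκ).2 (by linarith), ?_⟩, fun e => ?_, fun e => ?_⟩
    · rw [hS', hR]
      match_scalars <;> field_simp <;> ring
    · have := inj (s - r * κ) 0 (by rw [← hR, ← e]; module)
      linarith
    · have := inj (s - r * κ + κ) 0 (by rw [← hS', ← e]; module)
      linarith

namespace PLink

variable {K : PLink}

theorem proj_ne (hK : K.Regular) {p q : Pt} (h : s(p, q) ∈ K.edges) : proj p ≠ proj q := by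
  obtain ⟨f, t⟩ := twoReg _ h q (by simp)
  obtain ⟨x, rfl⟩ := Sym2.mem_iff_exists.1 t.right.2
  intro e
  refine regular' hK t.right.1 (moved h (x := p) (by simp)) (ne_of_mem h) ?_
    (e ▸ left_mem_segment _ _ _)
  rintro rfl
  exact t.1 Sym2.eq_swap

theorem over_det (hK : K.Regular) {p q r s : Pt} (h1 : s(p, q) ∈ K.edges) (h2 : s(r, s) ∈ K.edges)
    (hne : s(p, q) ≠ s(r, s)) (h : Over p q r s) : det2 (q - p) (s - r) ≠ 0 := by
  intro hd
  obtain ⟨x, hx, y, hy, e, -⟩ := h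
  obtain ⟨α, a0, a1, rfl⟩ := mem_oseg.1 hx
  obtain ⟨β, b0, b1, rfl⟩ := mem_oseg.1 hy
  rw [proj_comb, proj_comb] at e
  have n1 := proj_ne hK h1
  have n2 := proj_ne hK h2
  have key : ∀ {p q r s : Pt}, s(p, q) ∈ K.edges → s(r, s) ∈ K.edges → ∀ {κ α β : ℝ}, 0 < κ →
      0 < α → α < 1 → 0 < β → β < 1 → proj s - proj r = κ • (proj q - proj p) →
      (1 - α) • proj p + α • proj q = (1 - β) • proj r + β • proj s → r = p := by
    intro p q r s h1 h2 κ α β k a0 a1 b0 b1 e1 e2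
    rcases par_cases (proj_ne hK h1) k a0 a1 b0 b1 e1 e2 with c | c
    · by_contra hn
      exact regular' hK h1 (moved h2 (by simp)) hn (ne_of_apply_ne _ c.2) c.1
    · exact absurd c.1 (regular' hK h2 (moved h1 (by simp)) (ne_of_apply_ne _ c.2.1)
        (ne_of_apply_ne _ c.2.2))
  obtain ⟨κ, hκ⟩ : ∃ κ : ℝ, proj s - proj r = κ • (proj q - proj p) := by
    simp only [det2, Prod.fst_sub, Prod.snd_sub] at hd
    by_cases c : q.1 - p.1 = 0
    · have c' : q.2.1 - p.2.1 ≠ 0 := fun k =>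
        n1 (Prod.ext (sub_eq_zero.1 c).symm (sub_eq_zero.1 k).symm)
      refine ⟨(s.2.1 - r.2.1) / (q.2.1 - p.2.1), Prod.ext ?_ ?_⟩ <;>
        simp only [proj, Prod.fst_sub, Prod.snd_sub, Prod.smul_fst, Prod.smul_snd, smul_eq_mul] <;>
        field_simp
      linear_combination -hd
    · refine ⟨(s.1 - r.1) / (q.1 - p.1), Prod.ext ?_ ?_⟩ <;>
        simp only [proj, Prod.fst_sub, Prod.snd_sub, Prod.smul_fst, Prod.smul_snd, smul_eq_mul] <;>
        field_simp
      linear_combination hd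
  have h1' : s(q, p) ∈ K.edges := Sym2.eq_swap ▸ h1
  have h2' : s(s, r) ∈ K.edges := Sym2.eq_swap ▸ h2
  rcases lt_trichotomy κ 0 with c | c | c
  · have k1 := key h1 h2' (κ := -κ) (β := 1 - β) (by linarith) a0 a1 (by linarith) (by linarith)
      (by linear_combination (norm := module) -hκ) (by rw [e]; module)
    have k2 := key h1' h2 (κ := -κ) (α := 1 - α) (by linarith) (by linarith) (by linarith) b0 b1
      (by rw [hκ]; module) (by rw [← e]; module)
    exact hne (by rw [k1, k2, Sym2.eq_swap])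
  · rw [c, zero_smul, sub_eq_zero] at hκ
    exact n2 hκ.symm
  · have k1 := key h1 h2 c a0 a1 b0 b1 hκ e
    have k2 := key h1' h2' (κ := κ) (α := 1 - α) (β := 1 - β) c (by linarith) (by linarith)
      (by linarith) (by linarith) (by linear_combination (norm := module) -hκ)
      (by linear_combination (norm := module) e)
    exact hne (by rw [k1, k2])

theorem disj_of (hK : K.Regular) {p q r s : Pt} (h1 : s(p, q) ∈ K.edges) (h2 : s(r, s) ∈ K.edges)
    (hs : ∀ x ∈ s(p, q), x ∉ s(r, s)) (o1 : ¬ Over p q r s) (o2 : ¬ Over r s p q) :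
    Disjoint (segment ℝ (proj p) (proj q)) (segment ℝ (proj r) (proj s)) := by
  rw [Set.disjoint_left]
  intro z z1 z2
  have a := hs p (by simp)
  have b := hs q (by simp)
  simp only [Sym2.mem_iff, not_or] at a b
  have n1 := regular' hK h2 (moved h1 (x := p) (by simp)) a.1 a.2
  have n2 := regular' hK h2 (moved h1 (x := q) (by simp)) b.1 b.2
  have n3 := regular' hK h1 (moved h2 (x := r) (by simp)) (Ne.symm a.1) (Ne.symm b.1)
  have n4 := regular' hK h1 (moved h2 (x := s) (by simp)) (Ne.symm a.2) (Ne.symm b.2)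
  obtain ⟨α, a0, a1, e1⟩ := mem_seg.1 z1
  obtain ⟨β, b0, b1, e2⟩ := mem_seg.1 z2
  have a0' : 0 < α := a0.lt_of_ne (by rintro rfl; apply n1; simpa [e1] using z2)
  have a1' : α < 1 := a1.lt_of_ne (by rintro rfl; apply n2; simpa [e1] using z2)
  have b0' : 0 < β := b0.lt_of_ne (by rintro rfl; apply n3; simpa [e2] using z1)
  have b1' : β < 1 := b1.lt_of_ne (by rintro rfl; apply n4; simpa [e2] using z1)
  have x1 := mem_oseg.2 ⟨α, a0', a1', (rfl : (1 - α) • p + α • q = _)⟩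
  have x2 := mem_oseg.2 ⟨β, b0', b1', (rfl : (1 - β) • r + β • s = _)⟩
  have e : proj ((1 - α) • p + α • q) = proj ((1 - β) • r + β • s) := e1.symm.trans e2
  rcases lt_trichotomy ((1 - α) • p + α • q).2.2 ((1 - β) • r + β • s).2.2 with c | c | c
  · exact o2 ⟨_, x2, _, x1, e.symm, c⟩
  · have e' : (1 - α) • p + α • q = (1 - β) • r + β • s :=
      Prod.ext (congrArg (·.1) e) (Prod.ext (congrArg (·.2) e) c)
    have := simple' h1 h2 (fun k => hs p (by simp) (by simp [← k]))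
      (openSegment_subset_segment _ _ _ x1) (e' ▸ openSegment_subset_segment _ _ _ x2)
    have := open_not_end (ne_of_mem h1) x1
    tauto
  · exact o1 ⟨_, x1, _, x2, e, c⟩

/-- the perturbed diagram has the same crossings -/
def Stab (K : PLink) (g : Geo Pt) : Prop :=
  ∀ v, K.next v ≠ v → ∀ w, K.next w ≠ w → v ≠ w →
    (Over v (K.next v) w (K.next w) → det2 (K.next v - v) (K.next w - w) ≠ 0 ∧
      g.Ov v (K.next v) w (K.next w) ∧
      SignType.sign (det2 (g.pos (K.next v) - g.pos v) (g.pos (K.next w) - g.pos w)) =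
        SignType.sign (det2 (K.next v - v) (K.next w - w))) ∧
    (¬ Over v (K.next v) w (K.next w) → ¬ Over w (K.next w) v (K.next v) →
      ¬ g.IsCross s(v, K.next v) s(w, K.next w))

theorem ev_stab {I : Type} {l : Filter I} {G : I → Geo Pt}
    (hG : ∀ p, Tendsto (fun i => (G i).pos p) l (𝓝 p)) (hK : K.Regular) :
    ∀ᶠ i in l, K.Stab (G i) := by
  refine (eventually_all_finite K.finite).2 fun v hv => (eventually_all_finite K.finite).2
    fun w hw => ?_
  by_cases h : v = w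
  · simp [h]
  have hne : s(v, K.next v) ≠ s(w, K.next w) := fun k => h (edge_inj hv k)
  refine Eventually.mono (Eventually.and ?_ ?_) fun i hi _ => hi
  · by_cases o : Over v (K.next v) w (K.next w)
    · have d := over_det hK (K.mk_mem hv) (K.mk_mem hw) hne o
      exact (ev_over hG o d).mono fun i hi _ => ⟨d, hi⟩
    · exact Eventually.of_forall fun i k => absurd k o
  · by_cases o : ¬ Over v (K.next v) w (K.next w) ∧ ¬ Over w (K.next w) v (K.next v)
    · by_cases c : ∀ x ∈ s(v, K.next v), x ∉ s(w, K.next w)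
      · exact (ev_ncross hG (disj_of hK (K.mk_mem hv) (K.mk_mem hw) c o.1 o.2)).mono
          fun i hi _ _ => hi.1
      · exact Eventually.of_forall fun i _ _ k => c fun x => k.not_share
    · exact Eventually.of_forall fun i k k' => absurd ⟨k, k'⟩ o

end PLink

theorem Geo.tau_sign {V : Type} {g : Geo V} {p q : V} (h : g.y p ≠ g.y q) :
    g.tau s(p, q) q = SignType.sign (g.y q - g.y p) := by
  rcases lt_or_gt_of_ne h with k | k
  · simp [Geo.tau, sgn, k.le, sign_pos (sub_pos.2 k)]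
  · simp [Geo.tau, sgn, k.le, k.ne, sign_neg (sub_neg.2 k)]

open Classical in
theorem writhe_sum (K : PLink) {T : Finset Pt} (hT : Trans K T) :
    ∑ v ∈ T, K.writhe v = ∑ p ∈ K.finite.toFinset ×ˢ K.finite.toFinset,
      if K.next.SameCycle p.1 p.2 ∧ Over p.1 (K.next p.1) p.2 (K.next p.2) then
        (SignType.sign (det2 (K.next p.1 - p.1) (K.next p.2 - p.2)) : ℤ) else 0 := by
  simp only [PLink.writhe, Finset.sum_filter]
  rw [Finset.sum_comm]
  refine Finset.sum_congr rfl fun p hp => ?_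
  obtain ⟨v, hv, hu⟩ := hT.2 p.1 (by simpa using (Finset.mem_product.1 hp).1)
  rw [Finset.sum_eq_single_of_mem v hv.1 fun w hw hne => if_neg fun k =>
    hne (hu w ⟨hw, PLink.vconn_iff.2 k.1⟩)]
  have := PLink.vconn_iff.1 hv.2
  exact if_congr ⟨fun k => ⟨this.symm.trans k.2.1, k.2.2⟩,
    fun k => ⟨this, this.trans k.1, k.2⟩⟩ rfl rfl

open Classical in
theorem wt_sum (K : Framed L) (g : Geo Pt) (d : Deco) {l : List (Ev Pt)}
    (hl : Srt g.lev (g.IsEv (K.edges ∪ L.edges)) l) :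
    (l.map ((dat g d (muE g K.edges)).wt (K.edges ∪ L.edges))).sum =
      ∑ p ∈ K.finite.toFinset ×ˢ K.finite.toFinset,
        if g.IsCross s(p.1, K.next p.1) s(p.2, K.next p.2) then
          muE g K.edges s(p.1, K.next p.1) s(p.2, K.next p.2) *
            sgn ((dat g d 0).eps s(p.1, K.next p.1) s(p.2, K.next p.2)) else 0 := by
  rw [← List.sum_toFinset _ hl.nodup, ← Finset.sum_filter, eq_comm]
  refine Finset.sum_bij_ne_zero (fun p _ _ => .inr (s(p.1, K.next p.1), s(p.2, K.next p.2)))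
    (fun p hp _ => ?_) (fun p hp _ q _ _ e => ?_) (fun x hx h0 => ?_) fun p hp _ => ?_
  · simp only [Finset.mem_filter, Finset.mem_product, Set.Finite.mem_toFinset,
      Set.mem_ofPred_eq] at hp
    exact List.mem_toFinset.2 ((hl.mem _).2
      ⟨Or.inl (K.mk_mem hp.1.1), Or.inl (K.mk_mem hp.1.2), hp.2⟩)
  · simp only [Finset.mem_filter, Finset.mem_product, Set.Finite.mem_toFinset,
      Set.mem_ofPred_eq] at hp
    simp only [Sum.inr.injEq, Prod.mk.injEq] at e
    exact Prod.ext (PLink.edge_inj hp.1.1 e.1) (PLink.edge_inj hp.1.2 e.2)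
  · have hx' := (hl.mem x).1 (List.mem_toFinset.1 hx)
    rcases x with v | ⟨e, f⟩
    · exact absurd rfl h0
    · rw [Dat.wt, if_pos ⟨hx'.1, hx'.2.1⟩] at h0
      have h1 : e ∈ K.edges ∧ f ∈ K.edges := by
        by_contra k
        exact left_ne_zero_of_mul h0 (muE_not (by tauto))
      obtain ⟨⟨v, hv, rfl⟩, w, hw, rfl⟩ := h1
      exact ⟨(v, w), by simpa [hv, hw] using hx'.2.2, h0, rfl⟩
  · simp only [Finset.mem_filter, Finset.mem_product, Set.Finite.mem_toFinset,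
      Set.mem_ofPred_eq] at hp
    rw [Dat.wt, if_pos ⟨Or.inl (K.mk_mem hp.1.1), Or.inl (K.mk_mem hp.1.2)⟩]
    rfl

theorem sum_symm {α : Type} {s : Finset α} {A B : α × α → ℤ}
    (h : ∀ v ∈ s, ∀ w ∈ s, A (v, w) + A (w, v) = B (v, w) + B (w, v)) :
    ∑ p ∈ s ×ˢ s, A p = ∑ p ∈ s ×ˢ s, B p := by
  have k : ∀ F : α × α → ℤ, 2 * ∑ p ∈ s ×ˢ s, F p = ∑ v ∈ s, ∑ w ∈ s, (F (v, w) + F (w, v)) :=
    fun F => by
      simp only [Finset.sum_add_distrib]
      rw [Finset.sum_comm (f := fun v w => F (w, v)), Finset.sum_product, two_mul]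
  apply mul_left_cancel₀ (two_ne_zero' ℤ)
  rw [k, k]
  exact Finset.sum_congr rfl fun v hv => Finset.sum_congr rfl fun w hw => h v hv w hw

theorem phi_black {K : Framed L} (hK : K.Blackboard) (d : Deco) {g : Geo Pt}
    (hg : g.Gen (K.edges ∪ L.edges)) (hs : K.Stab g)
    (C : Type) [Fintype C] [DecidableEq C] [Inhabited C] {q : ℂ} (hq : Good C q) :
    phi K d g C q = (dat g d 0).br C q (K.edges ∪ L.edges) := by
  classical
  obtain ⟨l, hl⟩ := Dat.exists_evlist (D := dat g d (muE g K.edges)) hg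
  obtain ⟨T, hT⟩ := exists_trans K.toPLink
  rw [phi, Dat.br_wt hq hl, ← mul_assoc, ← zpow_add₀ (kap_ne hq), wt_sum K g d hl, K.tot_eq hT,
    Finset.sum_congr rfl fun v hv => hK.2 v (hT.1 v hv), writhe_sum _ hT, sum_symm, add_neg_cancel,
    zpow_zero, one_mul]
  · rfl
  intro v hv w hw
  simp only [Set.Finite.mem_toFinset, Set.mem_ofPred_eq] at hv hw
  by_cases h : v = w
  · subst h
    simp [det2, mul_comm, fun e => show ¬ g.IsCross e e from fun k => k.ne rfl]
  have yy : ∀ p q, s(p, q) ∈ K.edges → g.y p ≠ g.y q := fun p q he => hg.y_ne (Or.inl he)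
  have mu : ∀ v w, K.next v ≠ v → K.next w ≠ w → muE g K.edges s(v, K.next v) s(w, K.next w) =
      if K.next.SameCycle v w then (SignType.sign (g.y (K.next v) - g.y v) : ℤ) *
        SignType.sign (g.y (K.next w) - g.y w) else 0 := fun v w hv hw => by
    rw [muE_eq PLink.twoReg (PLink.ori_coh yy) (PLink.ori_sq g), PLink.ori_mk g hv,
      PLink.ori_mk g hw, Geo.tau_sign (yy _ _ (K.mk_mem hv)), Geo.tau_sign (yy _ _ (K.mk_mem hw))]
    refine if_congr ⟨fun ⟨k1, k2, x, hx, y, hy, k⟩ => PLink.vconn_iff.1 ?_, fun k =>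
      ⟨K.mk_mem hv, K.mk_mem hw, v, by simp, w, by simp, PLink.vconn_iff.2 k⟩⟩ rfl rfl
    exact ((VConn.of_mem k1 (by simp) hx).trans k).trans (VConn.of_mem k2 hy (by simp))
  have key : ∀ v w, K.next v ≠ v → K.next w ≠ w → v ≠ w → Over v (K.next v) w (K.next w) →
      ¬ Over w (K.next w) v (K.next v) ∧
      (if K.next.SameCycle v w then
        (SignType.sign (det2 (K.next v - v) (K.next w - w)) : ℤ) else 0) =
      (if g.IsCross s(v, K.next v) s(w, K.next w) then muE g K.edges s(v, K.next v) s(w, K.next w) *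
        sgn ((dat g d 0).eps s(v, K.next v) s(w, K.next w)) else 0) +
      (if g.IsCross s(w, K.next w) s(v, K.next v) then muE g K.edges s(w, K.next w) s(v, K.next v) *
        sgn ((dat g d 0).eps s(w, K.next w) s(v, K.next v)) else 0) := fun v w hv hw h o => by
    obtain ⟨d0, o1, o2⟩ := (hs v hv w hw h).1 o
    have y1 := yy _ _ (K.mk_mem hv)
    have y2 := yy _ _ (K.mk_mem hw)
    have c := o1.cross y1 y2
    rw [Geo.det_sl y1 y2] at o2
    have ne : g.sl s(v, K.next v) ≠ g.sl s(w, K.next w) := fun e => by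
      rw [e, sub_self, mul_zero, sign_zero, eq_comm, sign_eq_zero_iff] at o2
      exact d0 o2
    rw [mu v w hv hw, mu w v hw hv, ← o2, sign_mul, sign_mul]
    refine ⟨fun o' => ?_, ?_⟩
    · have c' := ((hs w hw v hv (Ne.symm h)).1 o').2.1.cross y2 y1
      rcases lt_or_gt_of_ne ne with k | k
      · exact (c.2 k).2.not_gt (c'.1 k).2
      · exact (c.1 k).2.not_gt (c'.2 k).2
    rcases lt_or_gt_of_ne ne with k | k
    · have e : (dat g d 0).eps s(w, K.next w) s(v, K.next v) = false :=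
        decide_eq_false (c.2 k).2.not_gt
      rw [if_neg (c := g.IsCross _ _) fun c => k.not_gt c.1, if_pos (c.2 k).1, e,
        sign_neg (sub_neg.2 k)]
      by_cases sc : K.next.SameCycle v w
      · simp [sc, sc.symm, sgn, mul_comm]
      · simp [sc, mt Equiv.Perm.SameCycle.symm sc]
    · have e : (dat g d 0).eps s(v, K.next v) s(w, K.next w) = true := decide_eq_true (c.1 k).2
      rw [if_pos (c.1 k).1, if_neg (c := g.IsCross _ _) fun c => k.not_gt c.1, e,
        sign_pos (sub_pos.2 k)]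
      by_cases sc : K.next.SameCycle v w <;> simp [sc, sgn]
  simp only
  by_cases o1 : Over v (K.next v) w (K.next w)
  · obtain ⟨k1, k2⟩ := key v w hv hw h o1
    rw [← k2]; simp [o1, k1]
  by_cases o2 : Over w (K.next w) v (K.next v)
  · obtain ⟨k1, k2⟩ := key w v hw hv (Ne.symm h) o2
    rw [add_comm (if g.IsCross _ _ then _ else _), ← k2]; simp [o1, o2]
  simp [o1, o2, (hs v hv w hw h).2 o1 o2, (hs w hw v hv (Ne.symm h)).2 o2 o1]

end Pool.Agent.P.MP_382f0d_gt

/-! The skein relations hold for small perturbations. -/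

namespace Pool.Agent.P.MP_382f0d_gt

open Filter Topology

variable {L : PLink}

theorem quad {a b c d : Pt} (h : Over a c b d) (hd : det2 (c - a) (d - b) ≠ 0) :
    Disjoint (segment ℝ (proj a) (proj d)) (segment ℝ (proj b) (proj c)) ∧
      Disjoint (segment ℝ (proj a) (proj b)) (segment ℝ (proj c) (proj d)) := by
  obtain ⟨x, hx, y, hy, e, -⟩ := h
  obtain ⟨s, s0, s1, rfl⟩ := mem_oseg.1 hx
  obtain ⟨r, r0, r1, rfl⟩ := mem_oseg.1 hy
  have h1 : (1 - s) * a.1 + s * c.1 = (1 - r) * b.1 + r * d.1 := congrArg (·.1) e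
  have h2 : (1 - s) * a.2.1 + s * c.2.1 = (1 - r) * b.2.1 + r * d.2.1 := congrArg (·.2) e
  simp only [det2, Prod.fst_sub, Prod.snd_sub] at hd
  constructor <;> rw [Set.disjoint_left] <;> intro z z1 z2
  · obtain ⟨α, a0, a1, e1⟩ := mem_seg.1 z1
    obtain ⟨β, b0, b1, e2⟩ := mem_seg.1 z2
    have k1 : (1 - α) * a.1 + α * d.1 = (1 - β) * b.1 + β * c.1 := congrArg (·.1) (e1.symm.trans e2)
    have k2 : (1 - α) * a.2.1 + α * d.2.1 = (1 - β) * b.2.1 + β * c.2.1 :=
      congrArg (·.2) (e1.symm.trans e2)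
    have u : (1 - α) * s + β * (1 - s) = 0 := mul_left_cancel₀ hd (by
      linear_combination -(d.2.1 - b.2.1) * k1 + (d.1 - b.1) * k2
        + (1 - α - β) * (d.2.1 - b.2.1) * h1 - (1 - α - β) * (d.1 - b.1) * h2)
    have v : α * (1 - r) + (1 - β) * r = 0 := mul_left_cancel₀ hd (by
      linear_combination -(c.2.1 - a.2.1) * k1 + (c.1 - a.1) * k2
        + (1 - α - β) * (c.2.1 - a.2.1) * h1 - (1 - α - β) * (c.1 - a.1) * h2)
    have : α = 1 := by nlinarith
    have : β = 1 := by nlinarith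
    nlinarith
  · obtain ⟨α, a0, a1, e1⟩ := mem_seg.1 z1
    obtain ⟨β, b0, b1, e2⟩ := mem_seg.1 z2
    have k1 : (1 - α) * a.1 + α * b.1 = (1 - β) * c.1 + β * d.1 := congrArg (·.1) (e1.symm.trans e2)
    have k2 : (1 - α) * a.2.1 + α * b.2.1 = (1 - β) * c.2.1 + β * d.2.1 :=
      congrArg (·.2) (e1.symm.trans e2)
    have u : (1 - α) * s + (1 - β) * (1 - s) = 0 := mul_left_cancel₀ hd (by
      linear_combination -(d.2.1 - b.2.1) * k1 + (d.1 - b.1) * k2
        + (β - α) * (d.2.1 - b.2.1) * h1 - (β - α) * (d.1 - b.1) * h2)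
    have v : α * r + β * (1 - r) = 0 := mul_left_cancel₀ hd (by
      linear_combination (c.2.1 - a.2.1) * k1 - (c.1 - a.1) * k2
        - (β - α) * (c.2.1 - a.2.1) * h1 + (β - α) * (c.1 - a.1) * h2)
    have : α = 1 := by nlinarith
    have : β = 0 := by nlinarith
    nlinarith

theorem kauff_g {g : Geo Pt} {dd : Deco} {R Γ E₀ E₁ E₂ : Set (Sym2 Pt)} {a b c d : Pt}
    (hg : g.Gen Γ) (hd : (dat g dd 0).DecOK R) {r₁ r₂ r₃ r₄ : Sym2 Pt}
    (cΓ : ∀ s, s ∈ Γ ↔ s ∈ R ∨ s = s(a, c) ∨ s = s(b, d) ∨ s = s(a, d) ∨ s = s(b, c) ∨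
      s = s(a, b) ∨ s = s(c, d))
    (c0 : ∀ s, s ∈ E₀ ↔ s ∈ R ∨ s = s(a, c) ∨ s = s(b, d))
    (c1 : ∀ s, s ∈ E₁ ↔ s ∈ R ∨ s = s(a, d) ∨ s = s(b, c))
    (c2 : ∀ s, s ∈ E₂ ↔ s ∈ R ∨ s = s(a, b) ∨ s = s(c, d))
    (hR : ∀ s, s = s(a, c) ∨ s = s(b, d) ∨ s = s(a, d) ∨ s = s(b, c) ∨
      s = s(a, b) ∨ s = s(c, d) → s ∉ R ∧ dd.th s = 1)
    (p1 : (dat g dd 0).Port R a r₁) (p2 : (dat g dd 0).Port R b r₂)
    (p3 : (dat g dd 0).Port R c r₃) (p4 : (dat g dd 0).Port R d r₄)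
    (ho : g.Ov a c b d) (hs : 0 < det2 (g.pos c - g.pos a) (g.pos d - g.pos b))
    (hx : ∀ x ∈ Γ, ∀ y ∈ Γ, g.IsCross x y → (x ∈ R ∧ y ∈ R) ∨ (x = s(a, c) ∧ y = s(b, d)) ∨
      (x = s(b, d) ∧ y = s(a, c)))
    (C : Type) [Fintype C] [DecidableEq C] [Inhabited C] (q : ℂ) :
    (dat g dd 0).br C q E₀ = q * (dat g dd 0).br C q E₁ + q⁻¹ * (dat g dd 0).br C q E₂ := by
  have y1 := hg.y_ne ((cΓ s(a, c)).2 (by simp))
  have y2 := hg.y_ne ((cΓ s(b, d)).2 (by simp))
  have cr := ho.cross y1 y2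
  rw [Geo.det_sl y1 y2] at hs
  have e1 : s(c, a) = s(a, c) := Sym2.eq_swap
  have e2 : s(d, b) = s(b, d) := Sym2.eq_swap
  have e3 : s(d, a) = s(a, d) := Sym2.eq_swap
  have e4 : s(c, b) = s(b, c) := Sym2.eq_swap
  have e5 : s(b, a) = s(a, b) := Sym2.eq_swap
  have e6 : s(d, c) = s(c, d) := Sym2.eq_swap
  rcases lt_trichotomy (g.sl s(a, c)) (g.sl s(b, d)) with k | k | k
  · have ep : (dat g dd 0).eps s(b, d) s(a, c) = false := decide_eq_false (cr.2 k).2.not_gt
    have hx' : ∀ x ∈ Γ, ∀ y ∈ Γ, g.IsCross x y → (x ∈ R ∧ y ∈ R) ∨ (x = s(b, d) ∧ y = s(a, c)) :=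
      fun x h1 y h2 h3 => (hx x h1 y h2 h3).imp id fun k' => k'.resolve_left fun k'' =>
        k.not_gt (by have := h3.1; rwa [k''.1, k''.2] at this)
    have hs' : (g.y c - g.y a) * (g.y d - g.y b) < 0 := by
      by_contra hn
      nlinarith [mul_nonneg (not_lt.1 hn) (sub_pos.2 k).le]
    rcases lt_or_gt_of_ne y1 with k1 | k1
    · have k2 : g.y d < g.y b := by nlinarith
      have := Dat.kauff (C := C) (a := q) (D := dat g dd 0) (p := d) (p' := b) (q := a) (q' := c)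
        (E₀ := E₀) (E₁ := E₂) (E₂ := E₁) hg hd
        (fun s => by rw [cΓ, e2, e3, e6]; clear * -; tauto) (fun s => by rw [c0, e2, or_comm (b := s = _)])
        (fun s => by rw [c2, e6, or_comm (b := s = _)]) (fun s => by rw [c1, e3])
        (fun s hs => hR s (by rw [e2, e3, e6] at hs; clear * - hs; tauto)) p4 p1 p2 p3
        (e2 ▸ (cr.2 k).1) k2 k1 (e2 ▸ hx') rfl
      rw [this, e2, ep, pm_false, inv_inv, add_comm]
    · have k2 : g.y b < g.y d := by nlinarith
      have := Dat.kauff (C := C) (a := q) (D := dat g dd 0) (p := b) (p' := d) (q := c) (q' := a)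
        (E₀ := E₀) (E₁ := E₂) (E₂ := E₁) hg hd
        (fun s => by rw [cΓ, e1, e3, e5]; clear * -; tauto) (fun s => by rw [c0, e1, or_comm (b := s = _)])
        (fun s => by rw [c2, e5]) (fun s => by rw [c1, e3, or_comm (b := s = _)])
        (fun s hs => hR s (by rw [e1, e3, e5] at hs; clear * - hs; tauto)) p2 p3 p4 p1
        (e1 ▸ (cr.2 k).1) k2 k1 (e1 ▸ hx') rfl
      rw [this, e1, ep, pm_false, inv_inv, add_comm]
  · rw [k, sub_self, mul_zero] at hs
    exact absurd hs (lt_irrefl _)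
  · have ep : (dat g dd 0).eps s(a, c) s(b, d) = true := decide_eq_true (cr.1 k).2
    have hx' : ∀ x ∈ Γ, ∀ y ∈ Γ, g.IsCross x y → (x ∈ R ∧ y ∈ R) ∨ (x = s(a, c) ∧ y = s(b, d)) :=
      fun x h1 y h2 h3 => (hx x h1 y h2 h3).imp id fun k' => k'.resolve_right fun k'' =>
        k.not_gt (by have := h3.1; rwa [k''.1, k''.2] at this)
    have hs' : 0 < (g.y c - g.y a) * (g.y d - g.y b) := pos_of_mul_pos_left hs (sub_pos.2 k).le
    rcases lt_or_gt_of_ne y1 with k1 | k1
    · have k2 : g.y b < g.y d := by nlinarith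
      have := Dat.kauff (C := C) (a := q) (D := dat g dd 0) hg hd cΓ c0 c1 c2 hR p1 p2 p3 p4
        (cr.1 k).1 k1 k2 hx' rfl
      rw [this, ep, pm_true]
    · have k2 : g.y d < g.y b := by nlinarith
      have := Dat.kauff (C := C) (a := q) (D := dat g dd 0) (p := c) (p' := a) (q := d) (q' := b)
        (E₀ := E₀) (E₁ := E₁) (E₂ := E₂) hg hd
        (fun s => by rw [cΓ, e1, e2, e3, e4]; clear * -; tauto) (fun s => by rw [c0, e1, e2])
        (fun s => by rw [c1, e3, e4, or_comm (b := s = _)])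
        (fun s => by rw [c2, or_comm (b := s = _)])
        (fun s hs => hR s (by rw [e1, e2, e3, e4] at hs; clear * - hs; tauto)) p3 p4 p1 p2
        (e1 ▸ e2 ▸ (cr.1 k).1) k1 k2 (e1 ▸ e2 ▸ hx') rfl
      rw [this, e1, e2, ep, pm_true]

variable {I : Type} {l : Filter I} {G : I → Geo Pt}
  (hG : ∀ p, Tendsto (fun i => (G i).pos p) l (𝓝 p))
  (hgen : ∀ E : Set (Sym2 Pt), E.Finite → (∀ e ∈ E, ¬ e.IsDiag) →
    ∀ᶠ i in l, (G i).Gen E ∧ (G i).Pre {p | ∃ e ∈ E, p ∈ e})

include hG in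
theorem ev_miss' {E : Set (Sym2 Pt)} (hE : E.Finite) {a b c : Pt} {P : Sym2 Pt → Prop}
    (h : ∀ p q, s(p, q) ∈ E → Disjoint (segment ℝ p q) (convexHull ℝ {a, b, c}) ∨ P s(p, q)) :
    ∀ᶠ i in l, (G i).Gen E → ∀ f ∈ E, (G i).Miss a b c f ∨ P f := by
  have : ∀ᶠ i in l, ∀ f ∈ E, (G i).Gen E → (G i).Miss a b c f ∨ P f := by
    refine (eventually_all_finite hE).2 fun f hf => ?_
    induction f using Sym2.ind with | _ p q =>
    rcases h p q hf with k | k
    · exact (ev_miss hG k).mono fun i hi hg => Or.inl (hi (hg.y_ne hf))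
    · exact Eventually.of_forall fun i _ => Or.inr k
  exact this.mono fun i hi hg f hf => hi f hf hg

theorem fin2 (K : PLink) : (K.edges ∪ L.edges).Finite := K.edges_finite.union L.edges_finite

theorem nd2 (K : PLink) : ∀ e ∈ K.edges ∪ L.edges, ¬ e.IsDiag := fun _ he =>
  he.elim PLink.not_diag PLink.not_diag

include hG hgen

theorem ev_isotopy {K K' : Framed L} (h : Isotopy K K') {d : Deco} (hd : d.OK L) :
    ∀ᶠ i in l, ∀ (C : Type) [Fintype C] [DecidableEq C] [Inhabited C] (q : ℂ), Good C q →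
      phi K' d (G i) C q = phi K d (G i) C q := by
  obtain ⟨hf, he | ⟨a, b, c, h1, h2, h3, h4⟩⟩ := h
  · exact Eventually.of_forall fun i C _ _ _ q _ => phi_same hf he d _ C q
  have ed : ∀ e, e ∈ K'.edges ↔ (e ∈ K.edges ∧ e ≠ s(a, b)) ∨ e = s(a, c) ∨ e = s(c, b) :=
    fun e => by rw [h2]; rfl
  have hs : ∀ p q, s(p, q) ∈ K.edges → s(p, q) ≠ s(a, b) → ∀ x ∈ segment ℝ p q,
      x ∈ convexHull ℝ {a, b, c} → (x = p ∨ x = q) ∧ (x = a ∨ x = b) := fun p q k1 k2 x x1 x2 =>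
    PLink.simple' k1 h1 k2 x1 (h3 ▸ ⟨x2, PLink.seg_sub k1 x1⟩)
  have dl : Del K.toPLink K'.toPLink a b c := ⟨h1, ed, fun e he hc => by
    obtain ⟨x, rfl⟩ := Sym2.mem_iff_exists.1 hc
    have n1 := PLink.ne_of_mem ((ed s(a, c)).2 (by simp))
    have n2 := PLink.ne_of_mem ((ed s(c, b)).2 (by simp))
    have := (hs c x he (by simp [n1.symm, n2]) c (left_mem_segment _ _ _)
      (subset_convexHull _ _ (by simp))).2
    grind⟩
  have key : ∀ p q, s(p, q) ∈ K.edges ∪ L.edges →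
      Disjoint (segment ℝ p q) (convexHull ℝ {a, b, c}) ∨ a ∈ s(p, q) ∨ b ∈ s(p, q) := by
    rintro p q (he | he)
    · by_cases k : a ∈ s(p, q) ∨ b ∈ s(p, q)
      · exact Or.inr k
      · refine Or.inl (Set.disjoint_left.2 fun x x1 x2 => k ?_)
        have := hs p q he (fun e => k (by simp [e])) x x1 x2
        simp only [Sym2.mem_iff]
        grind
    · exact Or.inl (h4.symm.mono_left (PLink.seg_sub he))
  filter_upwards [ev_low hG hd, hgen _ ((K.edges_finite.union K'.edges_finite).union L.edges_finite)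
    fun e he => he.elim (fun k => k.elim PLink.not_diag PLink.not_diag) PLink.not_diag,
    ev_miss' hG (fin2 (L := L) K.toPLink) (P := fun f => a ∈ f ∨ b ∈ f) key]
    with i k1 k2 k3 C _ _ _ q hq
  exact phi_del hf dl hd k1 k2.1 k2.2
    (k3 (k2.1.mono (by intro e; simp only [Set.mem_union]; tauto))) C hq

omit hG hgen in
theorem add_of {K K' : Framed L} {a b c : Pt} (h : AddTriangle K K' a b c) :
    Add K.toPLink K'.toPLink a b c := by
  refine ⟨fun e => ?_, fun e he => ?_⟩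
  · rw [h.2.2.1, Sym2.eq_swap (a := b), Sym2.eq_swap (a := c) (b := a)]
    simp only [Set.mem_union, Set.mem_insert_iff, Set.mem_singleton_iff]
    tauto
  · have := fun x (hx : x ∈ e) k => Set.disjoint_left.1 h.2.2.2
      (subset_convexHull ℝ {a, b, c} k) (PLink.mem_carrier he hx)
    exact ⟨fun k => this a k (by simp), fun k => this b k (by simp), fun k => this c k (by simp)⟩

theorem ev_unknot {K K' : Framed L} (h : AddUnknot K K') {d : Deco} (hd : d.OK L) :
    ∀ᶠ i in l, ∀ (C : Type) [Fintype C] [DecidableEq C] [Inhabited C] (q : ℂ), Good C q →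
      phi K' d (G i) C q = (-q ^ 2 - q⁻¹ ^ 2) * phi K d (G i) C q := by
  obtain ⟨a, b, c, h, h'⟩ := h
  have ad := add_of h
  filter_upwards [ev_low hG hd, hgen _ (fin2 (L := L) K'.toPLink) (nd2 _),
    ev_miss' hG (fin2 (L := L) K.toPLink) (a := a) (b := b) (c := c) (P := fun _ => False)
      fun p q he => Or.inl (he.elim (fun k => h.2.2.2.symm.mono_left (PLink.seg_sub k))
        fun k => h'.symm.mono_left (PLink.seg_sub k))] with i k1 k2 k3 C _ _ _ q hq
  exact phi_loop ad h.1 h.2.1 hd k1 k2.1 k2.2 (fun f hf => (k3 (k2.1.mono fun e he =>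
    he.imp (fun k => (ad.ed e).2 (Or.inl k)) id) f hf).resolve_right id) C hq

theorem ev_meridian {K K' : Framed L} (h : AddMeridian K K') (t : TriL L) :
    ∃ k, ∀ n j, ∀ᶠ i in l, ∀ (C : Type) [Fintype C] [DecidableEq C] [Inhabited C] (q : ℂ),
      Good C q → phi K' (t.deco n j) (G i) C q =
        phi K (t.deco n (Function.update j k (j k + 1))) (G i) C q := by
  obtain ⟨a, b, c, h, v, hv, hd, p, hp, hh⟩ := h
  have ad := add_of h
  obtain ⟨k, hk⟩ := (t.ed _).1 (L.mk_mem hv)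
  refine ⟨k, fun n j => ?_⟩
  have p1 : p ∈ convexHull ℝ {a, b, c} ∩ L.carrier := hh ▸ rfl
  obtain ⟨s, s0, s1, e1⟩ := mem_oseg.1 hp
  obtain ⟨α, β, γ, a0, b0, c0, e0, e2⟩ := mem_hull3.1 p1.1
  have nb : ∀ x y, s(x, y) ∈ K'.edges → p ∉ segment ℝ x y := fun x y k k' =>
    Set.disjoint_left.1 K'.disj (PLink.seg_sub k k') p1.2
  have a0' : 0 < α := a0.lt_of_ne (by
    rintro rfl
    exact nb _ _ ad.cb ⟨γ, β, c0, b0, by linarith, by rw [e2]; module⟩)
  have b0' : 0 < β := b0.lt_of_ne (by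
    rintro rfl
    exact nb _ _ ad.ac ⟨α, γ, a0, c0, by linarith, by rw [e2]; module⟩)
  have c0' : 0 < γ := c0.lt_of_ne (by
    rintro rfl
    exact nb _ _ ad.ab ⟨α, β, a0, b0, by linarith, by rw [e2]; module⟩)
  have key : ∀ x y, s(x, y) ∈ K.edges ∪ L.edges →
      Disjoint (segment ℝ x y) (convexHull ℝ {a, b, c}) ∨ s(x, y) = s(v, L.next v) := by
    rintro x y (he | he)
    · exact Or.inl (h.2.2.2.symm.mono_left (PLink.seg_sub he))
    · by_cases k : s(x, y) = s(v, L.next v)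
      · exact Or.inr k
      · refine Or.inl (Set.disjoint_left.2 fun z z1 z2 => ?_)
        obtain rfl : z = p := by
          have : z ∈ convexHull ℝ {a, b, c} ∩ L.carrier := ⟨z2, PLink.seg_sub he z1⟩
          rwa [hh] at this
        have := (PLink.simple' he (L.mk_mem hv) k z1 (openSegment_subset_segment _ _ _ hp)).2
        have := PLink.open_not_end (Ne.symm hv) hp
        tauto
  filter_upwards [ev_low hG (t.deco_ok n j), hgen _ (fin2 (L := L) K'.toPLink) (nd2 _),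
    ev_miss' hG (fin2 (L := L) K.toPLink) (P := fun f => f = s(v, L.next v)) key,
    ev_lt hG (t.lt1 k), ev_lt hG (t.lt2 k),
    ev_pierce hG hd s0 s1 a0' b0' c0' e0 (e1.symm.trans e2)] with i k1 k2 k3 k4 k5 k6 C _ _ _ q hq
  exact phi_mer ad h.1 h.2.1 t n j k1 k2.1 k2.2 hk k4 k5 (k6 (k2.1.y_ne (Or.inr (L.mk_mem hv))))
    (fun f hf hne => (k3 (k2.1.mono fun e he =>
      he.imp (fun k => (ad.ed e).2 (Or.inl k)) id) f hf).resolve_right hne) C hq

theorem ev_kauffman {K K₀ K₁ : Framed L} (h : Kauffman K K₀ K₁) {dd : Deco} (hd : dd.OK L) :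
    ∀ᶠ i in l, ∀ (C : Type) [Fintype C] [DecidableEq C] [Inhabited C] (q : ℂ), Good C q →
      phi K dd (G i) C q = q * phi K₀ dd (G i) C q + q⁻¹ * phi K₁ dd (G i) C q := by
  obtain ⟨b0, b1, b2, R, a, b, c, d, e0, e1, e2, ho, hs, hR, hL⟩ := h
  have c0 : ∀ s, s ∈ K.edges ↔ s ∈ R ∨ s = s(a, c) ∨ s = s(b, d) := fun s => by rw [e0]; rfl
  have c1 : ∀ s, s ∈ K₀.edges ↔ s ∈ R ∨ s = s(a, d) ∨ s = s(b, c) := fun s => by rw [e1]; rfl
  have c2 : ∀ s, s ∈ K₁.edges ↔ s ∈ R ∨ s = s(a, b) ∨ s = s(c, d) := fun s => by rw [e2]; rfl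
  obtain ⟨q1, q2⟩ := quad ho hs.ne'
  have l1 := fun x y : ℝ × ℝ => left_mem_segment ℝ x y
  have l2 := fun x y : ℝ × ℝ => right_mem_segment ℝ x y
  have d1 : proj a ≠ proj b := fun e => Set.disjoint_left.1 q1 (l1 _ _) (e ▸ l1 _ _)
  have d2 : proj a ≠ proj c := fun e => Set.disjoint_left.1 q1 (l1 _ _) (e ▸ l2 _ _)
  have d3 : proj a ≠ proj d := fun e => Set.disjoint_left.1 q2 (l1 _ _) (e ▸ l2 _ _)
  have d4 : proj b ≠ proj c := fun e => Set.disjoint_left.1 q2 (l2 _ _) (e ▸ l1 _ _)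
  have d5 : proj b ≠ proj d := fun e => Set.disjoint_left.1 q2 (l2 _ _) (e ▸ l2 _ _)
  have d6 : proj c ≠ proj d := fun e => Set.disjoint_left.1 q1 (l2 _ _) (e ▸ l2 _ _)
  have n1 : a ≠ b := ne_of_apply_ne _ d1
  have n2 : a ≠ c := ne_of_apply_ne _ d2
  have n3 : a ≠ d := ne_of_apply_ne _ d3
  have n4 : b ≠ c := ne_of_apply_ne _ d4
  have n5 : b ≠ d := ne_of_apply_ne _ d5
  have n6 : c ≠ d := ne_of_apply_ne _ d6
  have six : ∀ s, s = s(a, c) ∨ s = s(b, d) ∨ s = s(a, d) ∨ s = s(b, c) ∨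
      s = s(a, b) ∨ s = s(c, d) → ∃ x y, s = s(x, y) ∧ proj x ≠ proj y ∧
      segment ℝ (proj x) (proj y) ⊆ convexHull ℝ {proj a, proj b, proj c, proj d} ∧
      ∃ K' : Framed L, K'.Regular ∧ s ∈ K'.edges ∧
        ∀ v, v = a ∨ v = b ∨ v = c ∨ v = d → K'.next v ≠ v := by
    have m0 : ∀ v, v = a ∨ v = b ∨ v = c ∨ v = d → K.next v ≠ v := by
      rintro v (rfl | rfl | rfl | rfl)
      exacts [PLink.moved ((c0 _).2 (Or.inr (Or.inl rfl))) (by simp),
        PLink.moved ((c0 _).2 (Or.inr (Or.inr rfl))) (by simp),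
        PLink.moved ((c0 _).2 (Or.inr (Or.inl rfl))) (by simp),
        PLink.moved ((c0 _).2 (Or.inr (Or.inr rfl))) (by simp)]
    have m1 : ∀ v, v = a ∨ v = b ∨ v = c ∨ v = d → K₀.next v ≠ v := by
      rintro v (rfl | rfl | rfl | rfl)
      exacts [PLink.moved ((c1 _).2 (Or.inr (Or.inl rfl))) (by simp),
        PLink.moved ((c1 _).2 (Or.inr (Or.inr rfl))) (by simp),
        PLink.moved ((c1 _).2 (Or.inr (Or.inr rfl))) (by simp),
        PLink.moved ((c1 _).2 (Or.inr (Or.inl rfl))) (by simp)]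
    have m2 : ∀ v, v = a ∨ v = b ∨ v = c ∨ v = d → K₁.next v ≠ v := by
      rintro v (rfl | rfl | rfl | rfl)
      exacts [PLink.moved ((c2 _).2 (Or.inr (Or.inl rfl))) (by simp),
        PLink.moved ((c2 _).2 (Or.inr (Or.inl rfl))) (by simp),
        PLink.moved ((c2 _).2 (Or.inr (Or.inr rfl))) (by simp),
        PLink.moved ((c2 _).2 (Or.inr (Or.inr rfl))) (by simp)]
    rintro s (rfl | rfl | rfl | rfl | rfl | rfl)
    · exact ⟨_, _, rfl, d2, segment_subset_convexHull (by simp) (by simp), K, b0.1,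
        (c0 _).2 (by simp), m0⟩
    · exact ⟨_, _, rfl, d5, segment_subset_convexHull (by simp) (by simp), K, b0.1,
        (c0 _).2 (by simp), m0⟩
    · exact ⟨_, _, rfl, d3, segment_subset_convexHull (by simp) (by simp), K₀, b1.1,
        (c1 _).2 (by simp), m1⟩
    · exact ⟨_, _, rfl, d4, segment_subset_convexHull (by simp) (by simp), K₀, b1.1,
        (c1 _).2 (by simp), m1⟩
    · exact ⟨_, _, rfl, d1, segment_subset_convexHull (by simp) (by simp), K₁, b2.1,
        (c2 _).2 (by simp), m2⟩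
    · exact ⟨_, _, rfl, d6, segment_subset_convexHull (by simp) (by simp), K₁, b2.1,
        (c2 _).2 (by simp), m2⟩
  have nR : ∀ s, s = s(a, c) ∨ s = s(b, d) ∨ s = s(a, d) ∨ s = s(b, c) ∨
      s = s(a, b) ∨ s = s(c, d) → s ∉ R ∪ L.edges ∧ dd.th s = 1 := fun s hs => by
    obtain ⟨x, y, rfl, k1, k2, K', -, k3, -⟩ := six s hs
    refine ⟨?_, hd.th1 _ (K'.not_edge k3)⟩
    rintro (k | k)
    · exact PLink.seg_not_finite k1 ((Set.toFinite _).subset
        ((Set.subset_inter subset_rfl k2).trans (hR x y k)))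
    · exact K'.not_edge k3 k
  have RK : R ⊆ K.edges := fun s hs => (c0 s).2 (Or.inl hs)
  have mK := (six s(a, c) (by simp))
  have port : ∀ v s t, v ∈ s → v ∉ t → s ∉ R → (∀ u, u ∈ K.edges ↔ u ∈ R ∨ u = s ∨ u = t) →
      ∃ r, ∀ g, (dat g dd 0).Port (R ∪ L.edges) v r := fun v s t k1 k2 k3 k4 => by
    have ms := (k4 s).2 (by simp)
    obtain ⟨r, tw⟩ := PLink.twoReg s ms v k1
    refine ⟨r, fun g => ⟨fun r' => ⟨?_, ?_⟩, hd.th1 r (K.not_edge tw.right.1), ?_⟩⟩
    · rintro ⟨k | k, k'⟩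
      · exact ((tw.2 r').1 ⟨RK k, k'⟩).resolve_left fun e => k3 (e ▸ k)
      · exact absurd k' (K.not_mem ms k k1)
    · rintro rfl
      refine ⟨Or.inl ?_, tw.right.2⟩
      rcases (k4 _).1 tw.right.1 with k | k | k
      exacts [k, absurd k.symm tw.1, absurd (k ▸ tw.right.2) k2]
    · by_contra hj
      obtain ⟨y, -, k, -⟩ := hd.dec v hj
      exact K.not_mem ms k k1 (by simp)
  have a1 : s(a, c) ∉ R := fun k => (nR s(a, c) (by simp)).1 (Or.inl k)
  have a2 : s(b, d) ∉ R := fun k => (nR s(b, d) (by simp)).1 (Or.inl k)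
  obtain ⟨r₁, p1⟩ := port a _ _ (by simp) (by simp [n1, n3]) a1 c0
  obtain ⟨r₃, p3⟩ := port c _ _ (by simp) (by simp [n4.symm, n6]) a1 c0
  obtain ⟨r₂, p2⟩ := port b _ s(a, c) (by simp) (by simp [n1.symm, n4]) a2
    fun s => (c0 s).trans (or_congr_right or_comm)
  obtain ⟨r₄, p4⟩ := port d _ s(a, c) (by simp) (by simp [n3.symm, n6.symm]) a2
    fun s => (c0 s).trans (or_congr_right or_comm)
  have cΓ : ∀ s, s ∈ K.edges ∪ K₀.edges ∪ K₁.edges ∪ L.edges ↔ s ∈ R ∪ L.edges ∨ s = s(a, c) ∨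
      s = s(b, d) ∨ s = s(a, d) ∨ s = s(b, c) ∨ s = s(a, b) ∨ s = s(c, d) := fun s => by
    simp only [Set.mem_union, c0, c1, c2]
    clear * -
    tauto
  have fΓ : (K.edges ∪ K₀.edges ∪ K₁.edges ∪ L.edges).Finite :=
    ((K.edges_finite.union K₀.edges_finite).union K₁.edges_finite).union L.edges_finite
  have sep : ∀ x, x = s(a, c) ∨ x = s(b, d) ∨ x = s(a, d) ∨ x = s(b, c) ∨
      x = s(a, b) ∨ x = s(c, d) → ∀ y ∈ R ∪ L.edges,
      ∀ᶠ i in l, ¬ (G i).IsCross x y ∧ ¬ (G i).IsCross y x := fun x hx y hy => by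
    by_cases sh : ∃ v ∈ x, v ∈ y
    · obtain ⟨v, v1, v2⟩ := sh
      exact Eventually.of_forall fun i => ⟨fun k => k.not_share v1 v2, fun k => k.not_share v2 v1⟩
    obtain ⟨p, q, rfl, -, k2, K', k3, k4, k5⟩ := six x hx
    induction y using Sym2.ind with | _ r s =>
    refine ev_ncross hG (Set.disjoint_left.2 fun z z1 z2 => ?_)
    rcases hy with hy | hy
    · obtain ⟨v, hv, rfl⟩ : ∃ v, (v = a ∨ v = b ∨ v = c ∨ v = d) ∧ z = proj v := by
        rcases hR r s hy ⟨z2, k2 z1⟩ with k | k | k | k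
        exacts [⟨a, by simp, k⟩, ⟨b, by simp, k⟩, ⟨c, by simp, k⟩, ⟨d, by simp, k⟩]
      refine sh ⟨v, ?_, ?_⟩
      · by_contra hn
        simp only [Sym2.mem_iff, not_or] at hn
        exact PLink.regular' k3 k4 (k5 v hv) hn.1 hn.2 z1
      · by_contra hn
        simp only [Sym2.mem_iff, not_or] at hn
        have : K.next v ≠ v := by
          rcases hv with rfl | rfl | rfl | rfl
          exacts [PLink.moved ((c0 _).2 (Or.inr (Or.inl rfl))) (by simp),
            PLink.moved ((c0 _).2 (Or.inr (Or.inr rfl))) (by simp),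
            PLink.moved ((c0 _).2 (Or.inr (Or.inl rfl))) (by simp),
            PLink.moved ((c0 _).2 (Or.inr (Or.inr rfl))) (by simp)]
        exact PLink.regular' b0.1 (RK hy) this hn.1 hn.2 z2
    · obtain ⟨α, a0, a1, rfl⟩ := mem_seg.1 z2
      exact Set.disjoint_left.1 hL ⟨_, PLink.seg_sub hy (mem_seg.2 ⟨α, a0, a1, rfl⟩), rfl⟩ (k2 z1)
  have hx : ∀ᶠ i in l, ∀ x ∈ K.edges ∪ K₀.edges ∪ K₁.edges ∪ L.edges,
      ∀ y ∈ K.edges ∪ K₀.edges ∪ K₁.edges ∪ L.edges, (G i).IsCross x y →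
      (x ∈ R ∪ L.edges ∧ y ∈ R ∪ L.edges) ∨ (x = s(a, c) ∧ y = s(b, d)) ∨
      (x = s(b, d) ∧ y = s(a, c)) := by
    refine (eventually_all_finite fΓ).2 fun x hx => (eventually_all_finite fΓ).2 fun y hy => ?_
    rcases (cΓ x).1 hx with h1 | h1 <;> rcases (cΓ y).1 hy with h2 | h2
    · exact Eventually.of_forall fun i _ => Or.inl ⟨h1, h2⟩
    · exact (sep y h2 x h1).mono fun i hi k => absurd k hi.2
    · exact (sep x h1 y h2).mono fun i hi k => absurd k hi.1
    · filter_upwards [ev_ncross hG q1, ev_ncross hG q2] with i k1 k2 k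
      have ns := fun v => k.not_share (x := v)
      have := ns a
      have := ns b
      have := ns c
      have := ns d
      clear ns
      rcases h1 with rfl | rfl | rfl | rfl | rfl | rfl <;>
        rcases h2 with rfl | rfl | rfl | rfl | rfl | rfl <;> first
        | exact Or.inr (Or.inl ⟨rfl, rfl⟩) | exact Or.inr (Or.inr ⟨rfl, rfl⟩)
        | exact absurd k k1.1 | exact absurd k k1.2 | exact absurd k k2.1 | exact absurd k k2.2
        | (exfalso; simp only [Sym2.mem_iff, true_or, or_true, not_true, forall_true_left] at *)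
  filter_upwards [ev_low hG hd, hgen _ fΓ fun e he => by
      rcases he with ((k | k) | k) | k <;> exact PLink.not_diag k,
    PLink.ev_stab hG b0.1, PLink.ev_stab hG b1.1, PLink.ev_stab hG b2.1, ev_over hG ho hs.ne', hx]
    with i k1 k2 k3 k4 k5 k6 k7 C _ _ _ q hq
  rw [phi_black b0 dd (k2.1.mono (by intro e; simp only [Set.mem_union]; tauto)) k3 C hq,
    phi_black b1 dd (k2.1.mono (by intro e; simp only [Set.mem_union]; tauto)) k4 C hq,
    phi_black b2 dd (k2.1.mono (by intro e; simp only [Set.mem_union]; tauto)) k5 C hq]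
  refine kauff_g k2.1 (fun x _ hx => ⟨Or.inr (k1 x hx).1, (k1 x hx).2⟩) cΓ
    (fun s => by simp only [Set.mem_union, c0]; clear * -; tauto)
    (fun s => by simp only [Set.mem_union, c1]; clear * -; tauto)
    (fun s => by simp only [Set.mem_union, c2]; clear * -; tauto) nR (p1 _) (p2 _) (p3 _) (p4 _)
    k6.1 ?_ k7 C q
  rw [← sign_eq_one_iff, k6.2, sign_pos hs]

end Pool.Agent.P.MP_382f0d_gt

/-! The list of events of a diagram in general position is stable under small perturbations. -/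

namespace Pool.Agent.P.MP_382f0d_gt

open Filter Topology

/-- the unperturbed positions -/
def g0 : Geo Pt := ⟨fun p => p.1, fun p => p.2.1, fun p => p.2.2⟩

/-- the projections of two edges are disjoint -/
def Far (e f : Sym2 Pt) : Prop := ∃ p q a b, e = s(p, q) ∧ f = s(a, b) ∧
  Disjoint (segment ℝ (proj p) (proj q)) (segment ℝ (proj a) (proj b))

theorem Far.symm {e f : Sym2 Pt} (h : Far e f) : Far f e := by
  obtain ⟨p, q, a, b, h1, h2, h3⟩ := h
  exact ⟨a, b, p, q, h2, h1, h3.symm⟩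

theorem ev_pw {I α : Type} {l : Filter I} {k : I → α → ℝ} {k₀ : α → ℝ} {m : List α}
    (h : m.Pairwise fun a b => k₀ a < k₀ b)
    (hk : ∀ a ∈ m, Tendsto (fun i => k i a) l (𝓝 (k₀ a))) :
    ∀ᶠ i in l, m.Pairwise fun a b => k i a < k i b := by
  have : ∀ᶠ i in l, ∀ a ∈ {a | a ∈ m}, ∀ b ∈ {a | a ∈ m}, k₀ a < k₀ b → k i a < k i b := by
    refine (eventually_all_finite (List.finite_toSet m)).2 fun a ha =>
      (eventually_all_finite (List.finite_toSet m)).2 fun b hb => ?_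
    by_cases c : k₀ a < k₀ b
    · exact ((hk a ha).eventually_lt (hk b hb) c).mono fun i hi _ => hi
    · simp [c]
  exact this.mono fun i hi => h.imp_of_mem fun {a b} ha hb => hi a ha b hb

variable {I : Type} {l : Filter I} {G : I → Geo Pt}
  (hG : ∀ p, Tendsto (fun i => (G i).pos p) l (𝓝 p))
include hG

theorem td_x (p : Pt) : Tendsto (fun i => (G i).x p) l (𝓝 (g0.x p)) :=
  (continuous_fst.tendsto _).comp (hG p)

theorem td_y (p : Pt) : Tendsto (fun i => (G i).y p) l (𝓝 (g0.y p)) :=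
  ((continuous_fst.comp continuous_snd).tendsto _).comp (hG p)

theorem td_z (p : Pt) : Tendsto (fun i => (G i).z p) l (𝓝 (g0.z p)) :=
  ((continuous_snd.comp continuous_snd).tendsto _).comp (hG p)

theorem td_lo (e : Sym2 Pt) : Tendsto (fun i => (G i).lo e) l (𝓝 (g0.lo e)) := by
  induction e using Sym2.ind with | _ p q => exact (td_y hG p).min (td_y hG q)

theorem td_hi (e : Sym2 Pt) : Tendsto (fun i => (G i).hi e) l (𝓝 (g0.hi e)) := by
  induction e using Sym2.ind with | _ p q => exact (td_y hG p).max (td_y hG q)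

theorem td_slp {f : I → Pt → ℝ} {f₀ : Pt → ℝ} (hf : ∀ p, Tendsto (fun i => f i p) l (𝓝 (f₀ p)))
    {e : Sym2 Pt} {t : ℝ} (h1 : g0.lo e < t) (h2 : t < g0.hi e) :
    Tendsto (fun i => (G i).slp (f i) e) l (𝓝 (g0.slp f₀ e)) := by
  induction e using Sym2.ind with | _ p q =>
  exact ((hf q).sub (hf p)).div ((td_y hG q).sub (td_y hG p))
    (sub_ne_zero.2 (Geo.y_ne_of_lt h1 h2).symm)

theorem td_icp {f : I → Pt → ℝ} {f₀ : Pt → ℝ} (hf : ∀ p, Tendsto (fun i => f i p) l (𝓝 (f₀ p)))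
    {e : Sym2 Pt} {t : ℝ} (h1 : g0.lo e < t) (h2 : t < g0.hi e) :
    Tendsto (fun i => (G i).icp (f i) e) l (𝓝 (g0.icp f₀ e)) := by
  induction e using Sym2.ind with | _ p q =>
  exact (((hf p).mul (td_y hG q)).sub ((hf q).mul (td_y hG p))).div ((td_y hG q).sub (td_y hG p))
    (sub_ne_zero.2 (Geo.y_ne_of_lt h1 h2).symm)

theorem td_lev {e f : Sym2 Pt} (h : g0.IsCross e f) :
    Tendsto (fun i => (G i).lev (.inr (e, f))) l (𝓝 (g0.lev (.inr (e, f)))) :=
  ((td_icp hG (td_x hG) h.2.2.2.1 h.2.2.2.2).sub (td_icp hG (td_x hG) h.2.1 h.2.2.1)).div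
    ((td_slp hG (td_x hG) h.2.1 h.2.2.1).sub (td_slp hG (td_x hG) h.2.2.2.1 h.2.2.2.2))
    (sub_ne_zero.2 h.1.ne')

theorem ev_cross {e f : Sym2 Pt} (h : g0.IsCross e f) : ∀ᶠ i in l, (G i).IsCross e f := by
  have t := td_lev hG h
  filter_upwards [(td_slp hG (td_x hG) h.2.2.2.1 h.2.2.2.2).eventually_lt
    (td_slp hG (td_x hG) h.2.1 h.2.2.1) h.1, (td_lo hG e).eventually_lt t h.2.1,
    t.eventually_lt (td_hi hG e) h.2.2.1, (td_lo hG f).eventually_lt t h.2.2.2.1,
    t.eventually_lt (td_hi hG f) h.2.2.2.2] with i k1 k2 k3 k4 k5 using ⟨k1, k2, k3, k4, k5⟩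

theorem td_Z {e f : Sym2 Pt} (h : g0.IsCross e f) :
    Tendsto (fun i => (G i).Z e ((G i).lev (.inr (e, f)))) l
      (𝓝 (g0.Z e (g0.lev (.inr (e, f))))) ∧
    Tendsto (fun i => (G i).Z f ((G i).lev (.inr (e, f)))) l
      (𝓝 (g0.Z f (g0.lev (.inr (e, f))))) :=
  ⟨(td_icp hG (td_z hG) h.2.1 h.2.2.1).add
    ((td_slp hG (td_z hG) h.2.1 h.2.2.1).mul (td_lev hG h)),
  (td_icp hG (td_z hG) h.2.2.2.1 h.2.2.2.2).add
    ((td_slp hG (td_z hG) h.2.2.2.1 h.2.2.2.2).mul (td_lev hG h))⟩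

theorem ev_srt {E : Set (Sym2 Pt)} (hE : E.Finite) {m : List (Ev Pt)}
    (hl : m.Pairwise fun a b => g0.lev a < g0.lev b)
    (hv : ∀ v, .inl v ∈ m ↔ ∃ e ∈ E, v ∈ e)
    (hc : ∀ e f, .inr (e, f) ∈ m → e ∈ E ∧ f ∈ E ∧ g0.IsCross e f)
    (hn : ∀ e ∈ E, ∀ f ∈ E, (∃ x ∈ e, x ∈ f) ∨ .inr (e, f) ∈ m ∨ .inr (f, e) ∈ m ∨ Far e f) :
    ∀ᶠ i in l, Srt (G i).lev ((G i).IsEv E) m := by
  have h1 := ev_pw (l := l) (k := fun i => (G i).lev) hl fun a ha => by
    cases a with
    | inl v => exact td_y hG v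
    | inr p => exact td_lev hG (hc p.1 p.2 ha).2.2
  have h2 : ∀ᶠ i in l, ∀ e ∈ E, ∀ f ∈ E, ((G i).IsCross e f ↔ .inr (e, f) ∈ m) := by
    refine (eventually_all_finite hE).2 fun e he => (eventually_all_finite hE).2 fun f hf => ?_
    by_cases c : .inr (e, f) ∈ m
    · exact (ev_cross hG (hc e f c).2.2).mono fun i hi => iff_of_true hi c
    rcases hn e he f hf with ⟨x, k1, k2⟩ | k | k | ⟨p, q, a, b, rfl, rfl, k⟩
    · exact Eventually.of_forall fun i => iff_of_false (fun k => k.not_share k1 k2) c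
    · exact absurd k c
    · exact (ev_cross hG (hc f e k).2.2).mono fun i hi => iff_of_false (fun k => hi.1.not_gt k.1) c
    · exact (ev_ncross hG k).mono fun i hi => iff_of_false hi.1 c
  filter_upwards [h1, h2] with i k1 k2
  refine ⟨k1, fun a => ?_⟩
  cases a with
  | inl v => exact hv v
  | inr p =>
    exact ⟨fun k => ⟨(hc _ _ k).1, (hc _ _ k).2.1, (k2 _ (hc _ _ k).1 _ (hc _ _ k).2.1).2 k⟩,
      fun k => (k2 _ k.1 _ k.2.1).1 k.2.2⟩

end Pool.Agent.P.MP_382f0d_gt
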