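import Pool.Agent.P.MP_382f0d_gt.B
import Pool.Agent.P.MP_382f0d_gt.Defs

/-! Traces of loop operators. -/

namespace Pool.Agent.P.MP_382f0d_gt

open Polynomial

/-- the linear map sending `X ^ n` to `h n` -/
noncomputable def lam {M : Type} [AddCommGroup M] [Module ℂ M] (h : ℕ → M) : ℂ[X] →ₗ[ℂ] M :=
  (basisMonomials ℂ).constr ℂ h

theorem lam_pow {M : Type} [AddCommGroup M] [Module ℂ M] (h : ℕ → M) (n : ℕ) :
    lam h (X ^ n) = h n := by
  have := (basisMonomials ℂ).constr_basis ℂ h n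
  rwa [coe_basisMonomials, ← monomial_one_right_eq_X_pow] at *

theorem lin_ext {M : Type} [AddCommGroup M] [Module ℂ M] {f g : ℂ[X] →ₗ[ℂ] M}
    (h : ∀ n, f (X ^ n) = g (X ^ n)) : f = g :=
  (basisMonomials ℂ).ext fun n => by
    simpa [coe_basisMonomials, monomial_one_right_eq_X_pow] using h n

theorem lam_eq {M : Type} [AddCommGroup M] [Module ℂ M] (f : ℂ[X] →ₗ[ℂ] M) :
    lam (fun n => f (X ^ n)) = f := lin_ext fun n => lam_pow _ n

theorem lam_succ {M : Type} [AddCommGroup M] [Module ℂ M] (h : ℕ → M) (p : ℂ[X]) :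
    lam (fun n => h (n + 1)) p = lam h (X * p) := by
  have : lam (fun n => h (n + 1)) = lam h ∘ₗ LinearMap.mulLeft ℂ X := lin_ext fun n => by
    simp [lam_pow, ← pow_succ']
  rw [this]; rfl

/-- the polynomials of the recursion -/
noncomputable def pq (a : ℂ) : ℕ → ℂ[X] × ℂ[X]
  | 0 => (C (-a ^ 2 - a⁻¹ ^ 2), X)
  | n + 1 => (a⁻¹ ^ 2 • (X * (pq a n).1) + (1 - a ^ 4) • (pq a n).2,
      a ^ 2 • (X * (pq a n).2) + (1 - a⁻¹ ^ 4) • (pq a n).1)

noncomputable def PP (a : ℂ) : Module.End ℂ ℂ[X] := lam fun n => (pq a n).1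

variable {ι C : Type} [DecidableEq ι] [Fintype C] [DecidableEq C]

set_option linter.unusedSectionVars false

/-- trace over one strand -/
def ptr (s : ι) (X : Op ι C) : Op ι C := ∑ c : C, setO s c * X * indO s c

/-- trace over several strands -/
def trL : List ι → Op ι C → Op ι C
  | [], X => X
  | s :: l, X => trL l (ptr s X)

theorem ptr_apply (s : ι) (X : Op ι C) (F : Fn ι C) :
    ptr s X F = ∑ c : C, setO s c (X (indO s c F)) := by
  simp [ptr, LinearMap.sum_apply]

theorem set_loc (s : ι) (c : C) : setO s c ∈ loc {k | k = s} := setO_mem (by simp) c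
theorem ind_loc (s : ι) (c : C) : indO s c ∈ loc {k | k = s} := indO_mem (by simp) c

theorem ptr_add (s : ι) (X Y : Op ι C) : ptr s (X + Y) = ptr s X + ptr s Y := by
  simp [ptr, mul_add, add_mul, Finset.sum_add_distrib]

theorem ptr_smul (s : ι) (c : ℂ) (X : Op ι C) : ptr s (c • X) = c • ptr s X := by
  simp [ptr, Finset.smul_sum]

theorem trL_add (l : List ι) (X Y : Op ι C) : trL l (X + Y) = trL l X + trL l Y := by
  induction l generalizing X Y with
  | nil => rfl
  | cons s l ih => simp [trL, ptr_add, ih]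

theorem trL_smul (l : List ι) (c : ℂ) (X : Op ι C) : trL l (c • X) = c • trL l X := by
  induction l generalizing X with
  | nil => rfl
  | cons s l ih => simp [trL, ptr_smul, ih]

theorem trL_append (l m : List ι) (X : Op ι C) : trL (l ++ m) X = trL m (trL l X) := by
  induction l generalizing X with
  | nil => rfl
  | cons s l ih => simp [trL, ih]

theorem ptr_mul_left {S : Set ι} {s : ι} {Y : Op ι C} (hY : Y ∈ loc S) (hs : s ∉ S) (X : Op ι C) :
    ptr s (Y * X) = Y * ptr s X := by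
  simp only [ptr, Finset.mul_sum, ← mul_assoc]
  refine Finset.sum_congr rfl fun c _ => ?_
  rw [(loc_commute (set_loc s c) hY (by simpa using hs)).eq]

theorem ptr_mul_right {S : Set ι} {s : ι} {Y : Op ι C} (hY : Y ∈ loc S) (hs : s ∉ S) (X : Op ι C) :
    ptr s (X * Y) = ptr s X * Y := by
  simp only [ptr, Finset.sum_mul, mul_assoc]
  refine Finset.sum_congr rfl fun c _ => ?_
  rw [(loc_commute (ind_loc s c) hY (by simpa using hs)).eq]

theorem trL_mul_left {S : Set ι} {l : List ι} {Y : Op ι C} (hY : Y ∈ loc S) (hs : ∀ s ∈ l, s ∉ S)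
    (X : Op ι C) : trL l (Y * X) = Y * trL l X := by
  induction l generalizing X with
  | nil => rfl
  | cons s l ih =>
    rw [trL, trL, ptr_mul_left hY (hs s (by simp)), ih fun t ht => hs t (by simp [ht])]

theorem trL_mul_right {S : Set ι} {l : List ι} {Y : Op ι C} (hY : Y ∈ loc S) (hs : ∀ s ∈ l, s ∉ S)
    (X : Op ι C) : trL l (X * Y) = trL l X * Y := by
  induction l generalizing X with
  | nil => rfl
  | cons s l ih =>
    rw [trL, trL, ptr_mul_right hY (hs s (by simp)), ih fun t ht => hs t (by simp [ht])]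

theorem ptr_comm {s t : ι} (h : s ≠ t) (X : Op ι C) : ptr s (ptr t X) = ptr t (ptr s X) := by
  simp only [ptr, Finset.mul_sum, Finset.sum_mul]
  rw [Finset.sum_comm]
  refine Finset.sum_congr rfl fun c _ => Finset.sum_congr rfl fun d _ => ?_
  have h1 := (loc_commute (set_loc s d) (set_loc t c) (by simpa using h)).eq
  have h2 := (loc_commute (ind_loc s d) (ind_loc t c) (by simpa using h)).eq
  simp only [← mul_assoc, h1]
  simp only [mul_assoc, h2]

theorem trL_ptr {s : ι} {l : List ι} (h : s ∉ l) (X : Op ι C) :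
    trL l (ptr s X) = ptr s (trL l X) := by
  induction l generalizing X with
  | nil => rfl
  | cons t l ih =>
    simp only [List.mem_cons, not_or] at h
    rw [trL, trL, ← ptr_comm h.1, ih h.2]

theorem trL_comm {l m : List ι} (h : ∀ s ∈ l, s ∉ m) (X : Op ι C) :
    trL m (trL l X) = trL l (trL m X) := by
  induction l generalizing X with
  | nil => rfl
  | cons s l ih => rw [trL, trL, ih fun t ht => h t (by simp [ht]), trL_ptr (h s (by simp))]

theorem ptr_loc {S : Set ι} {s : ι} {X : Op ι C} (hX : X ∈ loc S) (hs : s ∈ S) :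
    ptr s X ∈ loc S :=
  sum_mem fun c _ => mul_mem (mul_mem (setO_mem hs c) hX) (indO_mem hs c)

theorem trL_loc {S : Set ι} {l : List ι} {X : Op ι C} (hX : X ∈ loc S) (hs : ∀ s ∈ l, s ∈ S) :
    trL l X ∈ loc S := by
  induction l generalizing X with
  | nil => exact hX
  | cons s l ih => exact ih (ptr_loc hX (hs s (by simp))) fun t ht => hs t (by simp [ht])

theorem trL_congr {T : Set ι} {l : List ι} (hl : ∀ s ∈ l, s ∉ T) {X Y : Op ι C}
    (h : ∀ G, (∀ k ∈ T, Ind k G) → X G = Y G) {F : Fn ι C} (hF : ∀ k ∈ T, Ind k F) :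
    trL l X F = trL l Y F := by
  induction l generalizing X Y with
  | nil => exact h F hF
  | cons s l ih =>
    refine ih (fun t ht => hl t (by simp [ht])) fun G hG => ?_
    rw [ptr_apply, ptr_apply]
    refine Finset.sum_congr rfl fun c _ => ?_
    rw [h _ fun k hk => (hG k hk).loc (ind_loc s c) ?_]
    rintro (rfl : k = s)
    exact hl k (by simp) hk

theorem ptr_eq_cup {S : Set ι} {s z : ι} {X : Op ι C} (hX : X ∈ loc S) (hz : z ∉ S) (hsz : s ≠ z)
    {F : Fn ι C} (hF : Ind z F) : cup z s (X (cap s z F)) = ptr s X F := by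
  have h1 : ∀ c, setO z c (cap s z F) = indO s c F := fun c => by
    funext x
    simp [setO_apply, cap_apply, indO_apply, Function.update_of_ne hsz, hF _]
  have h2 : (cup z s : Op ι C) = ∑ c, setO s c * setO z c := by rw [cup_symm]; rfl
  rw [ptr_apply, h2]
  simp only [LinearMap.sum_apply, Module.End.mul_apply]
  refine Finset.sum_congr rfl fun c _ => ?_
  rw [loc_comm (set_loc z c) hX (by simpa using hz), h1]

theorem ptr2_cup {s t : ι} (h : s ≠ t) (X : Op ι C) {G : Fn ι C} (hs : Ind s G) (ht : Ind t G) :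
    ptr s (ptr t (X * cup t s)) G = cup t s (X G) := by
  have h1 : ∀ c d, cup t s (indO t d (indO s c G)) = if c = d then G else 0 := fun c d => by
    funext x
    simp only [cup_apply, indO_apply, Function.update_self, Function.update_of_ne h.symm, hs _,
      ht _]
    by_cases e : c = d
    · simp [e]
    · rw [if_neg e, Finset.sum_eq_zero]
      · rfl
      · intro k _; split_ifs <;> simp_all
  have h2 : (cup t s : Op ι C) = ∑ c, setO s c * setO t c := by rw [cup_symm]; rfl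
  simp only [ptr_apply, Module.End.mul_apply, h1, map_sum]
  rw [h2]
  simp only [LinearMap.sum_apply, Module.End.mul_apply]
  refine Finset.sum_congr rfl fun c _ => ?_
  rw [Finset.sum_eq_single c (fun d _ hd => by simp [Ne.symm hd]) (by simp), if_pos rfl]

theorem ptr2_qq {s t : ι} (h : s ≠ t) (Y : Op ι C) (G : Fn ι C) :
    ptr s (ptr t (qq t s * Y)) G = cup t s (Y (cap t s G)) := by
  have h1 : ∀ c d (Z : Fn ι C), setO s c (setO t d (qq t s Z)) =
      if c = d then cup t s Z else 0 := fun c d Z => by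
    funext x
    simp only [qq_apply, setO_apply, cap_apply, Function.update_self, Function.update_of_ne h,
      ind_cup_left t s Z _, ind_cup_right t s Z _]
    by_cases e : c = d
    · simp [e]
    · simp [e, Ne.symm e]
  have h2 : cap t s G = ∑ c, indO t c (indO s c G) := by
    funext x
    simp [cap_apply, indO_apply, Finset.sum_apply, eq_comm]
  simp only [ptr_apply, Module.End.mul_apply, map_sum, h1, h2, Finset.sum_ite_eq, Finset.mem_univ,
    if_true]

/-- a family of operators through which caps and cups slide -/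
structure Natl (U : Set ι) (H : List ι → Op ι C) : Prop where
  lc : ∀ l, H l ∈ loc {k | k ∈ l ∨ k ∉ U}
  hcap : ∀ l₁ s t l₂, (l₁ ++ s :: t :: l₂).Nodup → (∀ k ∈ l₁ ++ s :: t :: l₂, k ∈ U) →
    ∀ F, Ind s F → Ind t F → H (l₁ ++ s :: t :: l₂) (cap s t F) = cap s t (H (l₁ ++ l₂) F)
  hcup : ∀ l₁ s t l₂, (l₁ ++ s :: t :: l₂).Nodup → (∀ k ∈ l₁ ++ s :: t :: l₂, k ∈ U) →
    ∀ F, cup s t (H (l₁ ++ s :: t :: l₂) F) = H (l₁ ++ l₂) (cup s t F)

variable {U : Set ι} {H H' : List ι → Op ι C}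

theorem Natl.one : Natl U (fun _ => (1 : Op ι C)) :=
  ⟨fun _ => one_mem _, fun _ _ _ _ _ _ _ _ _ => rfl, fun _ _ _ _ _ _ _ => rfl⟩

theorem Natl.mul (h : Natl U H) (h' : Natl U H') : Natl U fun l => H l * H' l where
  lc l := mul_mem (h.lc l) (h'.lc l)
  hcap l₁ s t l₂ hn hU F hs ht := by
    have hn' := hn
    simp only [List.nodup_append, List.nodup_cons, List.mem_cons] at hn'
    have h1 := hU s (by simp)
    have h2 := hU t (by simp)
    simp only [Module.End.mul_apply]
    rw [h'.hcap _ _ _ _ hn hU F hs ht, h.hcap _ _ _ _ hn hU _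
      (hs.loc (h'.lc _) (by simp; grind)) (ht.loc (h'.lc _) (by simp; grind))]
  hcup l₁ s t l₂ hn hU F := by
    simp only [Module.End.mul_apply]
    rw [h.hcup _ _ _ _ hn hU, h'.hcup _ _ _ _ hn hU]

theorem Natl.pow (h : Natl U H) (n : ℕ) : Natl U fun l => H l ^ n := by
  induction n with
  | zero => simpa using Natl.one
  | succ n ih => simpa [pow_succ] using ih.mul h

theorem Natl.const {S : Set ι} {Y : Op ι C} (hY : Y ∈ loc S) (hS : ∀ k ∈ S, k ∉ U) :
    Natl U fun _ => Y where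
  lc _ := mem_loc_mono hY fun k hk => Or.inr (hS k hk)
  hcap l₁ s t l₂ _ hU F _ _ := loc_comm hY (cap_loc _ _) (by
    have h1 := hU s (by simp)
    have h2 := hU t (by simp)
    grind) F
  hcup l₁ s t l₂ _ hU F := loc_comm (cup_loc _ _) hY (by
    have h1 := hU s (by simp)
    have h2 := hU t (by simp)
    grind) F

theorem Natl.cc {a : ℂ} (ha : Good C a) {p q : List ι} (hn : (p ++ q).Nodup)
    (hU : ∀ k, k ∈ p ∨ k ∈ q → k ∉ U) : Natl U fun l => (cc a (p ++ l ++ q) : Op ι C) where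
  lc l := mem_loc_mono (cc_loc _ _) (by simp; grind)
  hcap l₁ s t l₂ hl hl' F hs ht := by
    have := cc_cap_mid ha (l₁ := p ++ l₁) (l₂ := l₂ ++ q) (by
      simp only [List.nodup_append, List.nodup_cons, List.mem_cons, List.mem_append] at *
      grind) hs ht
    simpa using this
  hcup l₁ s t l₂ hl hl' F := by
    have := cup_cc_mid ha (s := s) (t := t) (l₁ := p ++ l₁) (l₂ := l₂ ++ q) (by
      simp only [List.nodup_append, List.nodup_cons, List.mem_cons, List.mem_append] at *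
      grind) F
    simpa using this

theorem Natl.trL (h : Natl U H) {m : List ι} (hm : ∀ k ∈ m, k ∉ U) :
    Natl U fun l => trL m (H l) where
  lc l := trL_loc (h.lc l) fun s hs => Or.inr (hm s hs)
  hcap l₁ s t l₂ hl hU F hs ht := by
    have h1 := hU s (by simp)
    have h2 := hU t (by simp)
    rw [← Module.End.mul_apply, ← Module.End.mul_apply, ← trL_mul_right (cap_loc _ _) (by grind),
      ← trL_mul_left (cap_loc _ _) (by grind)]
    exact trL_congr (T := {k | k = s ∨ k = t}) (by grind)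
      (fun G hG => h.hcap _ _ _ _ hl hU G (hG s (by simp)) (hG t (by simp))) (by grind)
  hcup l₁ s t l₂ hl hU F := by
    have h1 := hU s (by simp)
    have h2 := hU t (by simp)
    rw [← Module.End.mul_apply, ← Module.End.mul_apply, ← trL_mul_right (cup_loc _ _) (by grind),
      ← trL_mul_left (cup_loc _ _) (by grind)]
    exact trL_congr (T := ∅) (by simp) (fun G _ => h.hcup _ _ _ _ hl hU G) (by simp)

theorem Natl.cons (h : Natl U H) (t : ι) (ht : t ∈ U) :
    Natl (U \ {t}) fun l => ptr t (H (t :: l)) :=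
  Natl.trL (m := [t]) (H := fun l => H (t :: l))
    ⟨fun l => mem_loc_mono (h.lc _) (by simp; grind),
      fun l₁ s r l₂ hl hU => h.hcap (t :: l₁) s r l₂ (by
        rw [List.cons_append, List.nodup_cons]; exact ⟨fun k => (hU t k).2 rfl, hl⟩)
        (by simp only [List.cons_append, List.mem_cons (b := t)]; grind),
      fun l₁ s r l₂ hl hU => h.hcup (t :: l₁) s r l₂ (by
        rw [List.cons_append, List.nodup_cons]; exact ⟨fun k => (hU t k).2 rfl, hl⟩)
        (by simp only [List.cons_append, List.mem_cons (b := t)]; grind)⟩ (by simp)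

theorem trace_aux {a : ℂ} (ha : Good C a) {F : Fn ι C} (n : ℕ) : ∀ (U : Set ι)
    (H : List ι → Op ι C) (h : ℕ → Fn ι C), Natl U H → (∀ k ∈ U, Ind k F) →
    (∀ l, l.Nodup → (∀ k ∈ l, k ∈ U) → trL l (H l) F = h l.length) →
    (∀ l, l.Nodup → (∀ k ∈ l, k ∈ U) → l.length = n →
      trL l (cc a l * H l) F = lam h (pq a n).1) ∧
    (∀ t l, (t :: l).Nodup → (∀ k ∈ t :: l, k ∈ U) → l.length = n →
      trL (t :: l) (jj a t l * H (t :: l)) F = lam h (pq a n).2) := by
  induction n with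
  | zero =>
    intro U H h hH hF h0
    refine ⟨fun l _ _ hl => ?_, fun t l h1 h2 hl => ?_⟩
    · obtain rfl := List.length_eq_zero_iff.1 hl
      have : trL [] (H []) F = h 0 := h0 [] (by simp) (by simp)
      rw [pq, ← mul_one (Polynomial.C _), ← smul_eq_C_mul, map_smul, ← pow_zero X, lam_pow, ← this]
      rfl
    · obtain rfl := List.length_eq_zero_iff.1 hl
      rw [pq, ← pow_one X, lam_pow]
      exact h0 [t] h1 h2
  | succ n ih =>
    intro U H h hH hF h0
    have ih' := fun t (ht : t ∈ U) => ih (U \ {t}) (fun l => ptr t (H (t :: l)))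
      (fun n => h (n + 1)) (hH.cons t ht) (fun k hk => hF k hk.1) fun l h1 h2 =>
        h0 (t :: l) (List.nodup_cons.2 ⟨fun k => (h2 t k).2 rfl, h1⟩) (by grind)
    have ih0 := ih U H h hH hF h0
    refine ⟨fun l h1 h2 hl => ?_, fun t l h1 h2 hl => ?_⟩
    · obtain ⟨t, l, rfl⟩ := List.exists_cons_of_length_eq_add_one hl
      have hl' : l.length = n := by simpa using hl
      have h3 := List.nodup_cons.1 h1
      rw [cc, add_mul, smul_mul_assoc, smul_mul_assoc, trL_add, trL_smul, trL_smul,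
        LinearMap.add_apply, LinearMap.smul_apply, LinearMap.smul_apply, ih0.2 t l h1 h2 hl', trL,
        ptr_mul_left (cc_loc _ _) h3.1, (ih' t (h2 t (by simp))).1 l h3.2 (by grind) hl', lam_succ,
        pq, map_add, map_smul, map_smul, add_comm]
    · obtain ⟨s, l, rfl⟩ := List.exists_cons_of_length_eq_add_one hl
      have hl' : l.length = n := by simpa using hl
      have h3 := h1
      simp only [List.nodup_cons, List.mem_cons] at h3
      have ut := h2 t (by simp)
      have us := h2 s (by simp)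
      have e : (jj a t (s :: l) : Op ι C) = a ^ 2 • jj a s l + jj a s l * qq t s +
          qq t s * jj a s l + a⁻¹ ^ 2 • (qq t s * (jj a s l * qq t s)) := by
        refine LinearMap.ext fun G => ?_
        have := ha.ne
        rw [jj_cons_sg a (by grind) (by grind)]
        simp only [sg_apply, map_add, map_smul, LinearMap.add_apply, LinearMap.smul_apply,
          Module.End.mul_apply]
        match_scalars <;> field_simp
      have hP := ih0.1 l h3.2.2 (by grind) hl'
      have iT : ∀ G : Fn ι C, (∀ k ∈ {k | k = s ∨ k = t}, Ind k G) →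
          Ind t (H l G) ∧ Ind s (H l G) := fun G hG =>
        ⟨(hG t (by simp)).loc (hH.lc l) (by simp; grind),
          (hG s (by simp)).loc (hH.lc l) (by simp; grind)⟩
      have key : ∀ (X : Op ι C) (c : ℂ), (∀ G, (∀ k ∈ {k | k = s ∨ k = t}, Ind k G) →
          ptr s (ptr t X) G = c • cc a l (H l G)) →
          trL (t :: s :: l) X F = c • lam h (pq a n).1 := fun X c hX => by
        rw [trL, trL, ← hP, ← LinearMap.smul_apply, ← trL_smul]
        exact trL_congr (T := {k | k = s ∨ k = t}) (by grind) hX (by grind)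
      have c1 := hH.hcup [] t s l h1 h2
      have c2 := hH.hcap [] t s l h1 h2
      simp only [List.nil_append] at c1 c2
      have T1 : trL (t :: s :: l) (jj a s l * H (t :: s :: l)) F = lam h (X * (pq a n).2) := by
        rw [trL, ptr_mul_left (jj_loc _ _ _) (by grind),
          (ih' t ut).2 s l h1.of_cons (by grind) hl', lam_succ]
      have T2 := key (jj a s l * qq t s * H (t :: s :: l)) 1 fun G hG => by
        have : jj a s l * qq t s * H (t :: s :: l) = jj a s l * cap t s * H l * cup t s :=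
          LinearMap.ext fun G => by simp only [Module.End.mul_apply, qq_apply, c1]
        rw [this, ptr2_cup (by grind) _ (hG s (by simp)) (hG t (by simp)), one_smul]
        simp only [Module.End.mul_apply]
        rw [cap_symm, cup_jj_cap ha h1 (iT G hG).1 (iT G hG).2]
      have T3 := key (qq t s * jj a s l * H (t :: s :: l)) 1 fun G hG => by
        rw [mul_assoc, ptr2_qq (by grind), one_smul]
        simp only [Module.End.mul_apply]
        rw [c2 G (hG t (by simp)) (hG s (by simp)), cap_symm,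
          cup_jj_cap ha h1 (iT G hG).1 (iT G hG).2]
      have T4 := key (qq t s * (jj a s l * qq t s) * H (t :: s :: l)) (-a ^ 2 - a⁻¹ ^ 2)
        fun G hG => by
        rw [mul_assoc, ptr2_qq (by grind)]
        simp only [Module.End.mul_apply]
        rw [c2 G (hG t (by simp)) (hG s (by simp)), qq_cap_self (iT G hG).1 (iT G hG).2, map_smul,
          map_smul, cap_symm, cup_jj_cap ha h1 (iT G hG).1 (iT G hG).2, ha.eq]
      rw [e]
      simp only [add_mul, smul_mul_assoc, trL_add, trL_smul, LinearMap.add_apply,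
        LinearMap.smul_apply, T1, T2, T3, T4, pq, map_add, map_smul]
      have := ha.ne
      match_scalars <;> field_simp
      ring

theorem trace_pow {a : ℂ} (ha : Good C a) {F : Fn ι C} {h : ℕ → Fn ι C} (hH : Natl U H)
    (hF : ∀ k ∈ U, Ind k F)
    (h0 : ∀ l, l.Nodup → (∀ k ∈ l, k ∈ U) → trL l (H l) F = h l.length) (j : ℕ) :
    ∀ l, l.Nodup → (∀ k ∈ l, k ∈ U) →
      trL l (cc a l ^ j * H l) F = lam h ((PP a ^ j) (X ^ l.length)) := by
  induction j with
  | zero => intro l h1 h2; simpa [lam_pow] using h0 l h1 h2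
  | succ j ih =>
    intro l h1 h2
    have hc : Natl U fun l => (cc a l : Op ι C) := by
      simpa using Natl.cc (U := U) ha (p := []) (q := []) (by simp) (by simp)
    have := (trace_aux ha l.length U _ (fun n => lam h ((PP a ^ j) (X ^ n))) ((hc.pow j).mul hH)
      hF ih).1 l h1 h2 rfl
    rw [pow_succ', mul_assoc, this, pow_succ, Module.End.mul_apply, PP, lam_pow]
    exact LinearMap.congr_fun (lam_eq (lam h ∘ₗ (PP a ^ j))) _

end Pool.Agent.P.MP_382f0d_gt

/-! Evaluation of the cabled chain link with parallel loops. -/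

namespace Pool.Agent.P.MP_382f0d_gt

open Polynomial

variable {ι C : Type} [DecidableEq ι] [Fintype C] [DecidableEq C] {a : ℂ}

set_option linter.unusedSectionVars false

theorem xx_append_right {u l m : List ι} (hn : (u ++ (l ++ m)).Nodup) (F : Fn ι C) :
    xx a u (l ++ m) F = xx a u l (xx a u m F) := by
  induction l with
  | nil => simp [xx_nil_right]
  | cons t l ih =>
    have hn' := hn
    simp only [List.nodup_append, List.nodup_cons, List.mem_cons, List.mem_append,
      List.cons_append] at hn' ih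
    rw [List.cons_append, xx_cons_right (t := t) (m := l ++ m) _ hn, ih (by grind), xx_cons_right]
    simp only [List.nodup_append, List.nodup_cons, List.mem_cons]; grind

theorem natl_xl (ha : Good C a) {U : Set ι} {Y : List ι} (hY : Y.Nodup) (hU : ∀ k ∈ Y, k ∉ U) :
    Natl U fun u => (xx a u Y : Op ι C) where
  lc l := mem_loc_mono (xx_loc _ _ _) (by simp; grind)
  hcap l₁ s t l₂ hl hl' F hs ht := by
    simp only [List.nodup_append, List.nodup_cons, List.mem_cons, List.mem_append] at hl hl'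
    simp only [xx_append, xx_cons]
    rw [loc_comm (xx_loc a l₁ Y) (cap_loc _ _) (by grind),
      tt_cap a (by grind) (by grind) (by grind) hY (ht.loc (xx_loc _ _ _) (by grind))
        (hs.loc (xx_loc _ _ _) (by grind)), tt_inv ha,
      loc_comm (xx_loc a l₂ Y) (cap_loc _ _) (by grind)]
  hcup l₁ s t l₂ hl hl' F := by
    simp only [List.nodup_append, List.nodup_cons, List.mem_cons, List.mem_append] at hl hl'
    simp only [xx_append, xx_cons]
    rw [loc_comm (cup_loc _ _) (xx_loc a l₂ Y) (by grind),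
      cup_tt a (by grind) (by grind) (by grind) hY, tt_inv' ha,
      loc_comm (cup_loc _ _) (xx_loc a l₁ Y) (by grind)]

theorem natl_xr (ha : Good C a) {U : Set ι} {Y : List ι} (hU : ∀ k ∈ Y, k ∉ U) :
    Natl U fun u => (xx a Y u : Op ι C) := by
  induction Y with
  | nil => exact Natl.one
  | cons o Y ih =>
    have h1 : Natl U fun u => (tt a o u : Op ι C) :=
      ⟨fun l => mem_loc_mono (tt_loc _ _ _) (by simp at hU ⊢; grind),
        fun l₁ s t l₂ hl hl' F hs ht => tt_cap_mid ha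
          (List.nodup_cons.2 ⟨fun k => hU o (by simp) (hl' o k), hl⟩) hs ht,
        fun l₁ s t l₂ hl hl' F => cup_tt_mid ha
          (List.nodup_cons.2 ⟨fun k => hU o (by simp) (hl' o k), hl⟩) F⟩
    have := (ih fun k hk => hU k (by simp [hk])).mul h1
    convert this using 2 with u
    exact LinearMap.ext fun F => xx_cons _ _ _ _ F

theorem trL_full (ha : Good C a) {u Y : List ι} {z : ι} (hn : (z :: (u ++ Y)).Nodup) {G : Fn ι C}
    (hz : Ind z G) (hu : ∀ k ∈ u, Ind k G) : trL u (xx a u Y * xx a Y u) G = (cc a Y ^ u.length) G := by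
  induction u generalizing G with
  | nil => simp [trL, xx_nil_right]
  | cons t u ih =>
    have hn' := hn
    simp only [List.nodup_append, List.nodup_cons, List.mem_cons, List.mem_append,
      List.cons_append] at hn' ih
    have e : (xx a (t :: u) Y * xx a Y (t :: u) : Op ι C) = xx a u Y * (jj a t Y * xx a Y u) :=
      LinearMap.ext fun F => by
        simp only [Module.End.mul_apply, xx_cons, jj_apply]
        rw [xx_cons_right]
        simp only [List.nodup_append, List.nodup_cons, List.mem_cons]; grind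
    rw [trL, e, ptr_mul_left (xx_loc _ _ _) (by grind), ptr_mul_right (xx_loc _ _ _) (by grind),
      trL_congr (T := {k | k = z ∨ k = t}) (Y := cc a Y * (xx a u Y * xx a Y u)) (by grind) ?_
        (by simp only [List.mem_cons] at hu; grind), trL_mul_left (cc_loc _ _) (by grind),
      List.length_cons, pow_succ', Module.End.mul_apply, Module.End.mul_apply,
      ih (by grind) hz fun k hk => hu k (by simp [hk])]
    intro F hF
    have i1 := (hF z (by simp)).loc (xx_loc a Y u) (by grind)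
    have i2 := (hF t (by simp)).loc (xx_loc a Y u) (by grind)
    simp only [Module.End.mul_apply]
    rw [← ptr_eq_cup (jj_loc _ _ _) (by grind) (by grind) i1, cup_jj_cap ha (by
      simp only [List.nodup_cons, List.mem_cons]; grind) i1 i2]
    exact xx_cc_right ha true (by simp only [List.nodup_append]; grind) _

theorem lam_aeval (Z : Op ι C) (G : Fn ι C) (p : ℂ[X]) :
    lam (fun m => (Z ^ m) G) p = aeval Z p G := by
  have : lam (fun m => (Z ^ m) G) =
      LinearMap.applyₗ G ∘ₗ (aeval Z : ℂ[X] →ₐ[ℂ] Op ι C).toLinearMap :=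
    lin_ext fun n => by simp [lam_pow]
  rw [this]; rfl

theorem trL_loop (ha : Good C a) {u Y : List ι} {z : ι} (hn : (z :: (u ++ Y)).Nodup) {G : Fn ι C}
    (hz : Ind z G) (hu : ∀ k ∈ u, Ind k G) (j : ℕ) :
    trL u (cc a u ^ j * (xx a u Y * xx a Y u)) G =
      aeval (cc a Y) ((PP a ^ j) (X ^ u.length)) G := by
  have hn' := hn
  simp only [List.nodup_append, List.nodup_cons, List.mem_append] at hn'
  rw [← lam_aeval]
  refine trace_pow (U := {k | k ∈ u}) ha ((natl_xl ha hn'.2.2.1 (by grind)).mul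
    (natl_xr ha (by grind))) hu (fun l h1 h2 => trL_full (z := z) ha ?_ hz fun k hk => hu k (h2 k hk))
    j u hn'.2.1 fun _ h => h
  simp only [List.nodup_append, List.nodup_cons, List.mem_append, Set.mem_ofPred_eq] at h2 ⊢
  grind

theorem trL_one {l : List ι} (hl : l.Nodup) :
    trL l (1 : Op ι C) (fun _ => 1) = (Fintype.card C : ℂ) ^ l.length • fun _ => 1 := by
  induction l with
  | nil => simp [trL]
  | cons s l ih =>
    rw [List.nodup_cons] at hl
    rw [trL, trL_congr (T := {k | k = s}) (Y := (Fintype.card C : ℂ) • 1) (by grind) ?_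
      fun _ _ _ _ => rfl, trL_smul, LinearMap.smul_apply, ih hl.2, smul_smul, List.length_cons,
      pow_succ']
    intro G hG
    funext x
    simp [ptr_apply, setO_apply, indO_apply, hG s rfl _]

theorem lam_lin {M : Type} [AddCommGroup M] [Module ℂ M] (f : ℂ[X] →ₗ[ℂ] ℂ) (v : M) (p : ℂ[X]) :
    lam (fun r => f (X ^ r) • v) p = f p • v :=
  LinearMap.congr_fun (lam_eq (f.smulRight v)) p

theorem trace_two (ha : Good C a) {l₁ l₂ : List ι} (hn : (l₁ ++ l₂).Nodup) (j₁ j₂ m : ℕ) :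
    trL l₂ (cc a l₂ ^ j₂ * trL l₁ (cc a l₁ ^ j₁ * cc a (l₁ ++ l₂) ^ m)) (fun _ => 1 : Fn ι C) =
      eval (Fintype.card C : ℂ) ((PP a ^ m) ((PP a ^ j₁) (X ^ l₁.length) *
        (PP a ^ j₂) (X ^ l₂.length))) • fun _ => 1 := by
  have hn' := hn
  rw [List.nodup_append] at hn'
  have i1 : ∀ U : Set ι, ∀ k ∈ U, Ind k (fun _ => 1 : Fn ι C) := fun _ _ _ _ _ => rfl
  have A : ∀ l : List ι, l.Nodup → trL l (cc a l ^ m) (fun _ => 1 : Fn ι C) =
      eval (Fintype.card C : ℂ) ((PP a ^ m) (X ^ l.length)) • fun _ => 1 := fun l hl => by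
    have := trace_pow (U := Set.univ) ha Natl.one (i1 _) (h := fun r =>
      leval (Fintype.card C : ℂ) (X ^ r) • fun _ => 1) (fun l h _ => by simp [trL_one h]) m l hl
      (by simp)
    rw [mul_one, lam_lin] at this
    simpa using this
  have B : ∀ l : List ι, l.Nodup → (∀ k ∈ l, k ∈ l₁) →
      trL l₂ (cc a l₂ ^ j₂ * trL l (cc a (l ++ l₂) ^ m)) (fun _ => 1 : Fn ι C) =
      eval (Fintype.card C : ℂ) ((PP a ^ m) (X ^ l.length * (PP a ^ j₂) (X ^ l₂.length))) •
        fun _ => 1 := fun l hl hl' => by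
    have h1 : Natl {k | k ∈ l₂} fun l' => (cc a (l ++ l') : Op ι C) := by
      simpa using Natl.cc (U := {k | k ∈ l₂}) ha (p := l) (q := []) (by simpa) (by simp; grind)
    have := trace_pow ha ((h1.pow m).trL (m := l) (by simp; grind)) (i1 _) (h := fun r =>
      (leval (Fintype.card C : ℂ) ∘ₗ (PP a ^ m) ∘ₗ LinearMap.mulLeft ℂ (X ^ l.length)) (X ^ r) •
        fun _ => 1) (fun l' h h' => by
        rw [← trL_append, A _ (by simp only [List.nodup_append, Set.mem_ofPred_eq] at *; grind)]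
        simp [pow_add]) j₂ l₂ hn'.2.1 fun _ h => h
    rw [lam_lin] at this
    simpa using this
  have h1 : Natl {k | k ∈ l₁} fun l' => (cc a (l' ++ l₂) : Op ι C) := by
    simpa using Natl.cc (U := {k | k ∈ l₁}) ha (p := []) (q := l₂) (by simpa using hn'.2.1)
      (by simp; grind)
  have c2 : (cc a l₂ ^ j₂ : Op ι C) ∈ loc {k | k ∈ l₂} := pow_mem (cc_loc _ _) _
  have c1 : (cc a l₁ ^ j₁ : Op ι C) ∈ loc {k | k ∈ l₁} := pow_mem (cc_loc _ _) _
  have := trace_pow ha (((Natl.const c2 (by simp; grind)).mul (h1.pow m)).trL (m := l₂)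
    (by simp; grind)) (i1 _) (h := fun r => (leval (Fintype.card C : ℂ) ∘ₗ (PP a ^ m) ∘ₗ
      LinearMap.mulRight ℂ ((PP a ^ j₂) (X ^ l₂.length))) (X ^ r) • fun _ => 1) (fun l h h' => by
      rw [← trL_comm (by simp at h'; grind), trL_mul_left c2 (by simp at h' ⊢; grind), B l h h']
      simp) j₁ l₁ hn'.1 fun _ h => h
  rw [lam_lin, ← trL_mul_left c1 (by simp; grind), ← trL_comm (by grind), ← mul_assoc,
    (loc_commute c1 c2 (by simp; grind)).eq, mul_assoc, trL_mul_left c2 (by simp; grind)] at this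
  simpa using this

theorem trace_poly (ha : Good C a) {l₁ l₂ : List ι} (hn : (l₁ ++ l₂).Nodup) (j₁ j₂ : ℕ)
    (f : ℂ[X]) :
    trL l₂ (cc a l₂ ^ j₂ * trL l₁ (cc a l₁ ^ j₁ * aeval (cc a (l₁ ++ l₂)) f))
      (fun _ => 1 : Fn ι C) = eval (Fintype.card C : ℂ) (aeval (PP a) f ((PP a ^ j₁)
        (X ^ l₁.length) * (PP a ^ j₂) (X ^ l₂.length))) • fun _ => 1 := by
  induction f using Polynomial.induction_on' with
  | add p q hp hq => simp [mul_add, trL_add, hp, hq, add_smul]
  | monomial n c =>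
    rw [← C_mul_X_pow_eq_monomial, ← smul_eq_C_mul]
    simp only [map_smul, map_pow, aeval_X, mul_smul_comm, trL_smul, LinearMap.smul_apply,
      trace_two ha hn, eval_smul, smul_smul, smul_eq_mul]

/-! ### Closures with pairs of labels -/

theorem cupP_capP {ps : List (ι × ι)} (hn : (lab ps).Nodup) {S : Set ι} {X : Op ι C}
    (hX : X ∈ loc S) (hS : ∀ k ∈ ps.map Prod.snd, k ∉ S) {F : Fn ι C}
    (hF : ∀ k ∈ ps.map Prod.snd, Ind k F) :
    cupP ps (X (capP ps F)) = trL (ps.map Prod.fst) X F := by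
  induction ps generalizing F with
  | nil => rfl
  | cons p ps ih =>
    rw [nodup_lab_cons] at hn
    have h1 := @mem_lab_of_fst ι ps
    have h2 := @mem_lab_of_snd ι ps
    have h3 := List.disjoint_of_nodup_append hn.2.2.2
    have h4 : ∀ k ∈ ps.map Prod.fst, k ∉ ps.map Prod.snd := fun k h h' => h3 h h'
    simp only [List.map_cons, List.mem_cons] at hS hF
    rw [cupP_cons, capP_cons, loc_comm (cap_loc _ _) (capP_loc _) (by grind),
      ih hn.2.2.2 (by grind) fun k hk => (hF k (Or.inr hk)).loc (cap_loc _ _) (by grind),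
      List.map_cons, trL, trL_ptr (by grind), cup_symm,
      ptr_eq_cup (S := {k | k ∈ S ∨ k ∈ ps.map Prod.fst})
        (trL_loc (mem_loc_mono hX (by grind)) (by grind)) (by grind) hn.1 (hF _ (Or.inl rfl))]

theorem cpyP_capP {u v m : List ι} (h1 : u.length = v.length) (h2 : v.length = m.length)
    (hn : (u ++ (v ++ m)).Nodup) {F : Fn ι C} (hF : ∀ k ∈ v, Ind k F) :
    cpyP (u.zip v) (capP (v.zip m) F) = capP (u.zip m) F := by
  induction u generalizing v m with
  | nil => obtain rfl := List.length_eq_zero_iff.1 h1.symm; rfl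
  | cons s u ih =>
    obtain ⟨t, v, rfl⟩ := List.exists_cons_of_length_eq_add_one h1.symm
    obtain ⟨r, m, rfl⟩ := List.exists_cons_of_length_eq_add_one h2.symm
    simp only [List.nodup_append, List.nodup_cons, List.mem_cons, List.mem_append] at hn ih hF
    have k1 := @mem_lab_zip ι u v
    have k2 := @mem_lab_zip ι u m
    simp only [List.zip_cons_cons, cpyP_cons, capP_cons]
    rw [loc_comm (cpyP_loc _) (cap_loc _ _) (by grind),
      ih (by simpa using h1) (by simpa using h2) (by grind) (by grind),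
      cpy_cap (by grind) ((hF t (Or.inl rfl)).loc (capP_loc _) (by grind))]

theorem close_tri {l u v : List ι} (h1 : u.length = v.length) (h2 : v.length = l.length)
    (hn : (u ++ (v ++ l)).Nodup) {S : Set ι} {X Y : Op ι C} (hX : X ∈ loc S) (hY : Y ∈ loc S)
    (hS : ∀ k, k ∈ u ∨ k ∈ v → k ∉ S) {F : Fn ι C} (hF : ∀ k, k ∈ u ∨ k ∈ v → Ind k F) :
    joinL l u false false (X (joinL u v true false (Y (joinL v l true true F)))) =
      trL l (X * Y) F := by
  have hn' := hn
  simp only [List.nodup_append, List.mem_append] at hn'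
  have k1 := @mem_lab_zip ι u v
  have e : (joinL u l true true : Op ι C) = joinL l u true true :=
    joinL_symm (h1.trans h2) (by simp only [List.nodup_append]; grind) _ _
  simp only [joinL] at e ⊢
  rw [loc_comm (cpyP_loc _) hY (by grind), cpyP_capP h1 (by simpa using h2)
    (by simp only [List.nodup_append, List.mem_append, List.nodup_reverse, List.mem_reverse]; grind)
    (by grind), e, ← Module.End.mul_apply X,
    cupP_capP (nodup_lab_zip_rev (h1.trans h2).symm (by simp only [List.nodup_append]; grind))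
      (mul_mem hX hY) ?_ ?_, List.map_fst_zip (by simp [h1, h2])] <;>
    rw [List.map_snd_zip (by simp [h1, h2])] <;> simp only [List.mem_reverse] <;> grind

theorem xx_capP {ps : List (ι × ι)} {Y : List ι} (hn : (lab ps ++ Y).Nodup) {G : Fn ι C}
    (hG : ∀ k ∈ lab ps, Ind k G) :
    xx a⁻¹ (ps.map Prod.snd).reverse Y (capP ps G) = xx a Y (ps.map Prod.fst) (capP ps G) := by
  induction ps generalizing G with
  | nil => simp [xx_nil_right]
  | cons p ps ih =>
    simp only [List.nodup_append, nodup_lab_cons, mem_lab_cons] at hn ih hG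
    have h1 := @mem_lab_of_fst ι ps
    have h2 : (ps.map Prod.fst).Nodup := hn.1.2.2.2.of_append_left
    have i1 : ∀ k, k = p.1 ∨ k = p.2 → Ind k (xx a Y (ps.map Prod.fst) (capP ps G)) := fun k hk =>
      ((hG k (by grind)).loc (capP_loc _) (by grind)).loc (xx_loc _ _ _) (by grind)
    rw [List.map_cons, List.map_cons, List.reverse_cons, xx_append, xx_single_left, capP_cons,
      loc_comm (cap_loc _ _) (capP_loc _) (by grind),
      ih (by grind) fun k hk => (hG k (by grind)).loc (cap_loc _ _) (by grind),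
      xx_cons_right _ (by simp only [List.nodup_append, List.nodup_cons, List.mem_cons]; grind),
      loc_comm (capP_loc _) (cap_loc _ _) (by grind),
      loc_comm (xx_loc a Y _) (cap_loc _ _) (by grind), cap_symm,
      tt_cap _ (by grind) (by grind) (by grind) hn.2.1 (i1 _ (Or.inl rfl)) (i1 _ (Or.inr rfl)),
      inv_inv]

theorem cupP_cc_pow (ha : Good C a) {u o : ι} {ps : List (ι × ι)}
    (hn : (u :: o :: lab ps).Nodup) (j : ℕ) {F : Fn ι C} (hu : Ind u F) (ho : Ind o F) :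
    cupP ps ((cc a (ps.map Prod.snd).reverse ^ j) F) = cupP ps ((cc a (ps.map Prod.fst) ^ j) F) := by
  have hn' := hn
  simp only [List.nodup_cons, List.mem_cons] at hn'
  have h1 := @mem_lab_of_fst ι ps
  have h2 := @mem_lab_of_snd ι ps
  have h3 := List.disjoint_of_nodup_append hn'.2.2
  have h4 : ∀ k ∈ ps.map Prod.fst, k ∉ ps.map Prod.snd := fun k h h' => h3 h h'
  induction j generalizing F with
  | zero => rfl
  | succ j ih =>
    have c : (cc a (ps.map Prod.snd).reverse ^ j : Op ι C) ∈ loc {k | k ∈ ps.map Prod.snd} :=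
      pow_mem (mem_loc_mono (cc_loc _ _) (by simp)) _
    rw [pow_succ', pow_succ, Module.End.mul_apply, Module.End.mul_apply,
      cupP_cc ha hn (hu.loc c (by grind)) (ho.loc c (by grind)),
      loc_comm (cc_loc _ _) c (by grind),
      ih (hu.loc (cc_loc _ _) (by grind)) (ho.loc (cc_loc _ _) (by grind))]

theorem close_loop (ha : Good C a) {u v w l₁ l₂ : List ι} {z z' : ι} (h1 : u.length = v.length)
    (h2 : v.length = w.length) (hn : (z :: z' :: (u ++ (v ++ (w ++ (l₁ ++ l₂))))).Nodup) (j : ℕ)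
    {G : Fn ι C} (hG : ∀ k, k = z ∨ k = z' ∨ k ∈ u ∨ k ∈ v ∨ k ∈ w → Ind k G) :
    joinL u w false false ((cc a w ^ j) (xx a u l₁ (xx a u l₂ (joinL u v true false
      (xx a⁻¹ w l₁ (xx a⁻¹ w l₂ (joinL v w true true G))))))) =
      aeval (cc a (l₁ ++ l₂)) ((PP a ^ j) (X ^ u.length)) G := by
  have hn' := hn
  simp only [List.nodup_append, List.mem_append, List.nodup_cons, List.mem_cons] at hn'
  have k1 := @mem_lab_zip ι u v
  have n1 : (l₁ ++ l₂).Nodup := by simp only [List.nodup_append]; grind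
  simp only [joinL]
  rw [← xx_append_right (by simp only [List.nodup_append, List.mem_append]; grind),
    ← xx_append_right (by simp only [List.nodup_append, List.mem_append]; grind)]
  have hY : ∀ k ∈ l₁ ++ l₂, k ≠ z ∧ k ≠ z' ∧ k ∉ u ∧ k ∉ v ∧ k ∉ w := by
    simp only [List.mem_append]; grind
  have m0 : z ≠ z' ∧ z ∉ u ∧ z ∉ v ∧ z ∉ w ∧ z' ∉ u ∧ z' ∉ v ∧ z' ∉ w ∧ u.Nodup ∧ v.Nodup ∧
      w.Nodup ∧ (∀ k ∈ u, k ∉ v ∧ k ∉ w) ∧ ∀ k ∈ v, k ∉ w := by grind
  clear hn hn'
  generalize l₁ ++ l₂ = Y at *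
  have m1 : (u ++ (v ++ w.reverse)).Nodup := by
    simp only [List.nodup_append, List.mem_append, List.nodup_reverse, List.mem_reverse]; grind
  have m2 : (u ++ w.reverse ++ Y).Nodup := by
    simp only [List.nodup_append, List.mem_append, List.nodup_reverse, List.mem_reverse]; grind
  have m3 : (z :: z' :: (u ++ w.reverse)).Nodup := by
    simp only [List.nodup_append, List.mem_append, List.nodup_reverse, List.mem_reverse,
      List.nodup_cons, List.mem_cons]; grind
  have m4 : (z :: (u ++ Y)).Nodup := by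
    simp only [List.nodup_append, List.mem_append, List.nodup_cons]; grind
  have m5 : ∀ k ∈ u ++ w.reverse, Ind k G := by
    simp only [List.mem_append, List.mem_reverse]; grind
  have m6 : ∀ k, k = z ∨ k = z' → k ∉ {k | k ∈ u ++ w.reverse} := by
    simp only [List.mem_append, List.mem_reverse, Set.mem_ofPred_eq]; grind
  have m7 : ∀ k ∈ w.reverse, k ∉ {k | k ∈ u ∨ k ∈ Y} := by simp; grind
  have m8 : ∀ k ∈ w.reverse, Ind k G := by simp; grind
  rw [loc_comm (cpyP_loc _) (xx_loc _ _ _) (by grind), cpyP_capP h1 (by simpa using h2) m1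
    (by grind)]
  have i1 : ∀ k, k = z ∨ k = z' → ∀ F : Fn ι C, Ind k F → Ind k (xx a u Y (xx a Y u F)) :=
    fun k hk F hF => (hF.loc (xx_loc _ _ _) (by grind)).loc (xx_loc _ _ _) (by grind)
  have i2 : ∀ k, k = z ∨ k = z' → Ind k G := by grind
  have c1 : (cc a u ^ j * (xx a u Y * xx a Y u) : Op ι C) ∈ loc {k | k ∈ u ∨ k ∈ Y} :=
    mul_mem (pow_mem (mem_loc_mono (cc_loc _ _) (by grind)) _) (mul_mem (xx_loc _ _ _)
      (mem_loc_mono (xx_loc _ _ _) (by grind)))
  have c2 := trL_loop (z := z) ha m4 (G := G) (by grind) (by grind) j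
  have e1 : (u.zip w.reverse).map Prod.fst = u := List.map_fst_zip (by simp [h1, h2])
  have e2 : (u.zip w.reverse).map Prod.snd = w.reverse := List.map_snd_zip (by simp [h1, h2])
  have e3 : lab (u.zip w.reverse) = u ++ w.reverse := by rw [lab, e1, e2]
  have x1 := xx_capP (a := a) (ps := u.zip w.reverse) (Y := Y) (G := G) (by rwa [e3])
    (by rwa [e3])
  rw [e1, e2, List.reverse_reverse] at x1
  have i3 : ∀ k, k = z ∨ k = z' → Ind k (capP (u.zip w.reverse) G) := fun k hk =>
    (i2 k hk).loc (capP_loc _) (by rw [e3]; exact m6 k hk)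
  have x2 := cupP_cc_pow ha (u := z) (o := z') (ps := u.zip w.reverse) (by rwa [e3]) j
    (i1 _ (Or.inl rfl) _ (i3 _ (Or.inl rfl))) (i1 _ (Or.inr rfl) _ (i3 _ (Or.inr rfl)))
  rw [e1, e2, List.reverse_reverse] at x2
  rw [x1, x2, ← Module.End.mul_apply (xx a u Y), ← Module.End.mul_apply (cc a u ^ j),
    cupP_capP (by rw [e3]; exact (List.nodup_append.1 m2).1) c1 (by rwa [e2]) (by rwa [e2]), e1, c2]

end Pool.Agent.P.MP_382f0d_gt

/-! Evaluation of the state sum of the chain link with parallel loops. -/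

namespace Pool.Agent.P.MP_382f0d_gt

open Polynomial

variable {V : Type} (W : ℕ × Fin 3 ↪ V)

/-- an edge of the triangle number `m` -/
def eg (m : ℕ) (a b : Fin 3) : Sym2 V := s(W (m, a), W (m, b))

/-- the events of a loop around the long sides of the triangles `0` and `1` -/
def lp (m : ℕ) : List (Ev V) :=
  [.inl (W (m, 0)), .inr (eg W m 0 1, eg W 0 0 2), .inr (eg W m 0 1, eg W 1 0 2), .inl (W (m, 1)),
    .inr (eg W m 0 2, eg W 0 0 2), .inr (eg W m 0 2, eg W 1 0 2), .inl (W (m, 2))]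

/-- all events -/
def evl (ms : List ℕ) : List (Ev V) :=
  [.inl (W (1, 0)), .inl (W (1, 1)), .inl (W (0, 0)), .inl (W (0, 1))] ++
    (ms.flatMap (lp W) ++ [.inl (W (0, 2)), .inl (W (1, 2))])

/-- the data needed to evaluate the diagram -/
structure Shape (D : Dat V) (E : Set (Sym2 V)) (ms : List ℕ) (n j : ℕ → ℕ) : Prop where
  nd : (0 :: 1 :: ms).Nodup
  ed : ∀ e, e ∈ E ↔ ∃ m ∈ 0 :: 1 :: ms, e = eg W m 0 1 ∨ e = eg W m 1 2 ∨ e = eg W m 0 2
  srt : Srt D.lev (D.IsEv E) (evl W ms)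
  y : ∀ m ∈ 0 :: 1 :: ms, D.y (W (m, 0)) < D.y (W (m, 1)) ∧ D.y (W (m, 1)) < D.y (W (m, 2))
  th : ∀ m ∈ 0 :: 1 :: ms, D.th (eg W m 0 1) = n m ∧ D.th (eg W m 1 2) = n m ∧
    D.th (eg W m 0 2) = n m
  dj : ∀ m ∈ 0 :: 1 :: ms, D.dj (W (m, 0)) = j m ∧ D.dj (W (m, 1)) = 0 ∧ D.dj (W (m, 2)) = 0 ∧
    (j m ≠ 0 → D.dw (W (m, 0)) = eg W m 0 2)
  eps : ∀ m ∈ ms, ∀ r ≤ 1, D.eps (eg W m 0 1) (eg W r 0 2) = true ∧
    D.eps (eg W m 0 2) (eg W r 0 2) = false
  mu : ∀ e, ∀ r ≤ 1, D.mu e (eg W r 0 2) = 0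

variable {W} {C : Type} [DecidableEq V] [Fintype C] [DecidableEq C] {a : ℂ} {D : Dat V}
  {E : Set (Sym2 V)} {ms : List ℕ} {n j : ℕ → ℕ}

omit [DecidableEq V] in
theorem eg_iff {m m' : ℕ} {a b c d : Fin 3} :
    eg W m a b = eg W m' c d ↔ m = m' ∧ ((a = c ∧ b = d) ∨ (a = d ∧ b = c)) := by
  simp only [eg, Sym2.eq_iff, EmbeddingLike.apply_eq_iff_eq, Prod.mk.injEq]
  tauto

omit [DecidableEq V] in
theorem mem_eg {m m' : ℕ} {a b c : Fin 3} :
    W (m', c) ∈ eg W m a b ↔ m' = m ∧ (c = a ∨ c = b) := by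
  simp only [eg, Sym2.mem_iff, EmbeddingLike.apply_eq_iff_eq, Prod.mk.injEq]
  tauto

namespace Shape

variable (h : Shape W D E ms n j)
include h

omit [DecidableEq V] in
theorem two {m : ℕ} (hm : m ∈ 0 :: 1 :: ms) : Two E (W (m, 0)) (eg W m 0 1) (eg W m 0 2) ∧
    Two E (W (m, 1)) (eg W m 0 1) (eg W m 1 2) ∧ Two E (W (m, 2)) (eg W m 1 2) (eg W m 0 2) := by
  refine ⟨⟨by simp [eg_iff], fun e => ⟨?_, ?_⟩⟩, ⟨by simp [eg_iff], fun e => ⟨?_, ?_⟩⟩,
    ⟨by simp [eg_iff], fun e => ⟨?_, ?_⟩⟩⟩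
  all_goals first
    | rintro (rfl | rfl) <;> exact ⟨(h.ed _).2 ⟨m, hm, by simp⟩, by simp [mem_eg]⟩
    | rintro ⟨he, hv⟩
      obtain ⟨m', -, rfl | rfl | rfl⟩ := (h.ed e).1 he <;> simp [mem_eg] at hv <;> simp [hv]

theorem ev0 {m : ℕ} (hm : m ∈ 0 :: 1 :: ms) (F : Fn (Lb V) C) :
    D.evop a E (.inl (W (m, 0))) F = joinL (D.cab (eg W m 0 1)) (D.cab (eg W m 0 2)) false false
      ((cc a (D.cab (eg W m 0 2)) ^ j m) F) := by
  obtain ⟨y1, y2⟩ := h.y m hm
  obtain ⟨t1, t2, t3⟩ := h.th m hm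
  obtain ⟨d1, -, -, d2⟩ := h.dj m hm
  rw [Dat.evop_two a (h.two hm).1 (t1.trans t3.symm), Dat.join,
    Dat.top_lo (by simp [eg, y1]), Dat.top_lo (by simp [eg, y1.trans y2]), Dat.dec, d1,
    Module.End.mul_apply]
  by_cases c : j m = 0
  · simp [c]
  · rw [d2 c]

theorem ev1 {m : ℕ} (hm : m ∈ 0 :: 1 :: ms) (F : Fn (Lb V) C) :
    D.evop a E (.inl (W (m, 1))) F =
      joinL (D.cab (eg W m 0 1)) (D.cab (eg W m 1 2)) true false F := by
  obtain ⟨y1, y2⟩ := h.y m hm
  obtain ⟨t1, t2, t3⟩ := h.th m hm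
  obtain ⟨-, d1, -, -⟩ := h.dj m hm
  rw [Dat.evop_two a (h.two hm).2.1 (t1.trans t2.symm), Dat.join,
    Dat.top_hi (by simp [eg, y1.le]), Dat.top_lo (by simp [eg, y2]), Dat.dec, d1, pow_zero, mul_one]

theorem ev2 {m : ℕ} (hm : m ∈ 0 :: 1 :: ms) (F : Fn (Lb V) C) :
    D.evop a E (.inl (W (m, 2))) F =
      joinL (D.cab (eg W m 1 2)) (D.cab (eg W m 0 2)) true true F := by
  obtain ⟨y1, y2⟩ := h.y m hm
  obtain ⟨t1, t2, t3⟩ := h.th m hm
  obtain ⟨-, -, d1, -⟩ := h.dj m hm
  rw [Dat.evop_two a (h.two hm).2.2 (t2.trans t3.symm), Dat.join,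
    Dat.top_hi (by simp [eg, y2.le]), Dat.top_hi (by simp [eg, (y1.trans y2).le]), Dat.dec, d1,
    pow_zero, mul_one]

theorem evx {m r : ℕ} (hm : m ∈ ms) (hr : r ≤ 1) (F : Fn (Lb V) C) :
    D.evop a E (.inr (eg W m 0 1, eg W r 0 2)) F =
      xx a (D.cab (eg W m 0 1)) (D.cab (eg W r 0 2)) F ∧
    D.evop a E (.inr (eg W m 0 2, eg W r 0 2)) F =
      xx a⁻¹ (D.cab (eg W m 0 2)) (D.cab (eg W r 0 2)) F := by
  have k : eg W r 0 2 ∈ E := (h.ed _).2 ⟨r, by simp only [List.mem_cons]; omega, by simp⟩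
  rw [Dat.evop_cross a ((h.ed _).2 ⟨m, by simp [hm], by simp⟩) k,
    Dat.evop_cross a ((h.ed _).2 ⟨m, by simp [hm], by simp⟩) k, Dat.xop, Dat.xop, h.mu _ r hr,
    h.mu _ r hr, (h.eps m hm r hr).1, (h.eps m hm r hr).2]
  simp [pm]

theorem loops (ha : Good C a) {G : Fn (Lb V) C}
    (hG : ∀ k : Lb V, (∀ r ≤ 1, ∀ b c, b ≠ c → k.1 ≠ eg W r b c) → Ind k G) (l : List ℕ)
    (hl : ∀ m ∈ l, m ∈ ms) : D.run a E (l.flatMap (lp W)) G =
      aeval (cc a (D.cab (eg W 0 0 2) ++ D.cab (eg W 1 0 2)))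
        (l.map fun m => (PP a ^ j m) (X ^ n m)).prod G := by
  induction l with
  | nil => simp
  | cons m l ih =>
    have hm := hl m (by simp)
    have hm' : m ∈ 0 :: 1 :: ms := by simp [hm]
    have m0 : m ≠ 0 ∧ m ≠ 1 := by
      have := h.nd
      simp only [List.nodup_cons, List.mem_cons] at this
      grind
    obtain ⟨t1, t2, t3⟩ := h.th m hm'
    rw [List.flatMap_cons, Dat.run_append, ih fun m hm => hl m (by simp [hm])]
    simp only [lp, Dat.run_cons, Dat.run_nil, h.ev0 hm', h.ev1 hm', h.ev2 hm',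
      (h.evx hm zero_le_one _).1, (h.evx hm le_rfl _).1, (h.evx hm zero_le_one _).2,
      (h.evx hm le_rfl _).2]
    rw [close_loop ha (z := (eg W m 0 0, 0)) (z' := (eg W m 0 0, 1))
      (by simp [Dat.cab_length, t1, t2]) (by simp [Dat.cab_length, t2, t3]) ?_ _ ?_,
      Dat.cab_length, t1, List.map_cons, List.prod_cons, map_mul, Module.End.mul_apply]
    · simp only [List.nodup_append, List.mem_append, List.nodup_cons, List.mem_cons, Dat.mem_cab,
        Dat.cab_nodup, eg_iff, Prod.mk.injEq, Prod.forall, ne_eq]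
      simp +contextual [eg_iff, m0, or_imp]
    · intro k hk
      have hk' : ∃ b c, k.1 = eg W m b c := by
        simp only [Dat.mem_cab] at hk
        rcases hk with rfl | rfl | hk | hk | hk
        exacts [⟨_, _, rfl⟩, ⟨_, _, rfl⟩, ⟨_, _, hk.1⟩, ⟨_, _, hk.1⟩, ⟨_, _, hk.1⟩]
      obtain ⟨b, c, hk'⟩ := hk'
      refine (hG k fun r hr b' c' _ => ?_).loc
        ((Algebra.adjoin_le (S := loc _) (Set.singleton_subset_iff.2 (cc_loc _ _)))
          (aeval_mem_adjoin_singleton _ _)) ?_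
      · rw [hk', Ne, eg_iff]; omega
      · simp [Dat.mem_cab, hk', eg_iff, m0]

theorem br_eq [Inhabited C] (ha : Good C a) : D.br C a E = eval (Fintype.card C : ℂ)
    (aeval (PP a) (ms.map fun m => (PP a ^ j m) (X ^ n m)).prod
      ((PP a ^ j 0) (X ^ n 0) * (PP a ^ j 1) (X ^ n 1))) := by
  have m0 : 0 ∈ 0 :: 1 :: ms := by simp
  have m1 : 1 ∈ 0 :: 1 :: ms := by simp
  obtain ⟨t1, t2, t3⟩ := h.th 0 m0
  obtain ⟨s1, s2, s3⟩ := h.th 1 m1
  have i1 : ∀ k : Lb V, Ind k (fun _ => 1 : Fn (Lb V) C) := fun _ _ _ => rfl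
  rw [Dat.br_eq subset_rfl h.srt]
  simp only [evl, Dat.run_append, Dat.run_cons, Dat.run_nil, h.ev0 m0, h.ev1 m0, h.ev2 m0,
    h.ev0 m1, h.ev1 m1, h.ev2 m1]
  rw [h.loops ha ?_ ms fun _ h => h]
  · generalize (ms.map fun m => (PP a ^ j m) (X ^ n m)).prod = f
    have c0 : (aeval (cc a (D.cab (eg W 0 0 2) ++ D.cab (eg W 1 0 2))) f : Op (Lb V) C) ∈
        loc {k | k.1 = eg W 0 0 2 ∨ k.1 = eg W 1 0 2} :=
      Algebra.adjoin_le (S := loc _) (Set.singleton_subset_iff.2 (mem_loc_mono (cc_loc _ _)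
        (by simp +contextual [Dat.mem_cab, or_imp]))) (aeval_mem_adjoin_singleton _ _)
    have c1 : (cc a (D.cab (eg W 0 0 2)) ^ j 0 : Op (Lb V) C) ∈
        loc {k | k.1 = eg W 0 0 2 ∨ k.1 = eg W 1 0 2} :=
      pow_mem (mem_loc_mono (Dat.cc_cab_loc _ _) (by simp +contextual)) _
    have c2 : (cc a (D.cab (eg W 1 0 2)) ^ j 1 : Op (Lb V) C) ∈
        loc {k | k.1 = eg W 0 0 2 ∨ k.1 = eg W 1 0 2} :=
      pow_mem (mem_loc_mono (Dat.cc_cab_loc _ _) (by simp +contextual)) _
    have nd : ∀ r, (D.cab (eg W r 0 1) ++ (D.cab (eg W r 1 2) ++ D.cab (eg W r 0 2))).Nodup :=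
      fun r => by
        simp only [List.nodup_append, List.mem_append, Dat.mem_cab, Dat.cab_nodup, Prod.forall,
          ne_eq]
        simp +contextual [eg_iff, or_imp]
    rw [joinL_symm (l := D.cab (eg W 0 0 1)) (by simp [Dat.cab_length, t1, t3])
        (Dat.cab_nodup2 (by simp [eg_iff])),
      close_tri (by simp [Dat.cab_length, t1, t2]) (by simp [Dat.cab_length, t2, t3]) (nd 0) c1 c0
        (by simp +contextual [Dat.mem_cab, eg_iff, or_imp]) fun k hk => (i1 k).loc (joinL_loc _ _ _ _)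
          (by simp only [Dat.mem_cab] at hk ⊢; rcases hk with hk | hk <;> simp [hk.1, eg_iff]),
      joinL_symm (l := D.cab (eg W 1 0 1)) (by simp [Dat.cab_length, s1, s3])
        (Dat.cab_nodup2 (by simp [eg_iff])),
      close_tri (by simp [Dat.cab_length, s1, s2]) (by simp [Dat.cab_length, s2, s3]) (nd 1) c2
        (trL_loc (mul_mem c1 c0) (by simp +contextual [Dat.mem_cab]))
        (by simp +contextual [Dat.mem_cab, eg_iff, or_imp]) fun k _ => i1 k,
      trace_poly ha (Dat.cab_nodup2 (by simp [eg_iff])), Dat.cab_length, Dat.cab_length, t3, s3]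
    simp
  · intro k hk
    refine ((i1 k).loc (joinL_loc _ _ _ _) ?_).loc (joinL_loc _ _ _ _) ?_ <;>
      simp only [Dat.mem_cab, Set.mem_ofPred_eq] <;> rintro (c | c) <;>
      exact hk _ (by simp) _ _ (by simp) c.1

end Shape

end Pool.Agent.P.MP_382f0d_gt

/-! Chebyshev polynomials and the final algebraic contradiction. -/

namespace Pool.Agent.P.MP_382f0d_gt

open Polynomial Finset

/-- shifted Chebyshev polynomials -/
noncomputable def TT : ℕ → ℂ[X]
  | 0 => 0
  | 1 => 1
  | n + 2 => X * TT (n + 1) - TT n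

def ml {F : Type} [CommRing F] (q p : F) (n : ℕ) : F := -(q ^ n + p ^ n)

def GG {F : Type} [CommRing F] (q p : F) (M k d : ℕ) : F :=
  ∑ i ∈ range M, ml q p (2 * i + 1) ^ k * ((q ^ d) ^ (2 * i + 1) - (p ^ d) ^ (2 * i + 1))

theorem map_ml {F F' : Type} [CommRing F] [CommRing F'] (φ : F →+* F') (q p : F) (n : ℕ) :
    φ (ml q p n) = ml (φ q) (φ p) n := by simp [ml]

theorem map_GG {F F' : Type} [CommRing F] [CommRing F'] (φ : F →+* F') (q p : F) (M k d : ℕ) :
    φ (GG q p M k d) = GG (φ q) (φ p) M k d := by simp [GG, map_ml]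

noncomputable def QQ (a : ℂ) : Module.End ℂ ℂ[X] := lam fun n => (pq a n).2

theorem PP_X (a : ℂ) (f : ℂ[X]) :
    PP a (X * f) = a⁻¹ ^ 2 • (X * PP a f) + (1 - a ^ 4) • QQ a f := by
  have : PP a ∘ₗ LinearMap.mulLeft ℂ X =
      a⁻¹ ^ 2 • (LinearMap.mulLeft ℂ X ∘ₗ PP a) + (1 - a ^ 4) • QQ a := lin_ext fun n => by
    simp [← pow_succ', PP, QQ, lam_pow, pq]
  exact LinearMap.congr_fun this f

theorem QQ_X (a : ℂ) (f : ℂ[X]) :
    QQ a (X * f) = a ^ 2 • (X * QQ a f) + (1 - a⁻¹ ^ 4) • PP a f := by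
  have : QQ a ∘ₗ LinearMap.mulLeft ℂ X =
      a ^ 2 • (LinearMap.mulLeft ℂ X ∘ₗ QQ a) + (1 - a⁻¹ ^ 4) • PP a := lin_ext fun n => by
    simp [← pow_succ', PP, QQ, lam_pow, pq]
  exact LinearMap.congr_fun this f

theorem PP_TT {a : ℂ} (ha : a ≠ 0) (n : ℕ) :
    PP a (TT n) = ml (a ^ 2) (a⁻¹ ^ 2) n • TT n := by
  have hab : a * a⁻¹ = 1 := mul_inv_cancel₀ ha
  have key : ∀ n, (PP a (TT n) = ml (a ^ 2) (a⁻¹ ^ 2) n • TT n ∧
      QQ a (TT n) = ((a ^ 2) ^ n * a⁻¹ ^ 2) • TT (n + 1) +
        ((a⁻¹ ^ 2) ^ n * a⁻¹ ^ 2) • (X * TT n - TT (n + 1))) ∧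
      PP a (TT (n + 1)) = ml (a ^ 2) (a⁻¹ ^ 2) (n + 1) • TT (n + 1) ∧
      QQ a (TT (n + 1)) = ((a ^ 2) ^ (n + 1) * a⁻¹ ^ 2) • TT (n + 2) +
        ((a⁻¹ ^ 2) ^ (n + 1) * a⁻¹ ^ 2) • (X * TT (n + 1) - TT (n + 2)) := by
    intro n
    induction n with
    | zero =>
      have h1 := lam_pow (fun n => (pq a n).1) 0
      have h2 := lam_pow (fun n => (pq a n).2) 0
      rw [pow_zero] at h1 h2
      refine ⟨by simp [TT], ?_, ?_⟩
      · rw [TT, PP, h1, pq, ml, smul_eq_C_mul, mul_one]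
        congr 1
        ring_nf
      · rw [TT, QQ, h2, pq]
        simp [TT, ha]
    | succ n ih =>
      obtain ⟨⟨h1, h2⟩, h3, h4⟩ := ih
      refine ⟨⟨h3, h4⟩, ?_, ?_⟩
      · rw [TT, map_sub, PP_X, h1, h3, h4]
        simp only [TT, ml, pow_succ (a ^ 2), pow_succ (a⁻¹ ^ 2), mul_smul_comm]
        generalize (a ^ 2) ^ n = u
        generalize (a⁻¹ ^ 2) ^ n = v
        generalize a⁻¹ = b at *
        clear h1 h2 h3 h4
        match_scalars <;> grind
      · rw [TT, map_sub, QQ_X, h2, h3, h4]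
        simp only [TT, ml, pow_succ (a ^ 2), pow_succ (a⁻¹ ^ 2), mul_smul_comm, mul_add, mul_sub]
        generalize (a ^ 2) ^ n = u
        generalize (a⁻¹ ^ 2) ^ n = v
        generalize a⁻¹ = b at *
        clear h1 h2 h3 h4
        match_scalars <;> grind
  exact (key n).1.1

theorem TT_sq (M : ℕ) : TT M * TT M = ∑ i ∈ range M, TT (2 * i + 1) := by
  have key : ∀ M, TT (M + 1) * TT (M + 1) - TT M * TT M = TT (2 * M + 1) ∧
      TT (M + 1) * (TT (M + 2) - TT M) = TT (2 * M + 2) := by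
    intro M
    induction M with
    | zero => simp [TT]
    | succ M ih =>
      have e1 : TT (2 * (M + 1) + 1) = X * TT (2 * M + 2) - TT (2 * M + 1) := rfl
      have e2 : TT (2 * (M + 1) + 2) = X * TT (2 * (M + 1) + 1) - TT (2 * M + 2) := rfl
      rw [e2, e1, ← ih.1, ← ih.2]
      simp only [TT]
      constructor <;> ring
  induction M with
  | zero => simp [TT]
  | succ M ih => rw [sum_range_succ, ← ih, ← (key M).1]; ring

theorem TT_eval {z w : ℂ} (h : z * w = 1) (n : ℕ) :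
    (z - w) * (TT n).eval (z + w) = z ^ n - w ^ n := by
  induction n using Nat.twoStepInduction with
  | zero => simp [TT]
  | one => simp [TT]
  | more n h1 h2 =>
    simp only [TT, eval_sub, eval_mul, eval_X]
    linear_combination (z + w) * h2 - h1 + (z ^ n - w ^ n) * h

theorem val_eq {a : ℂ} (ha : a ≠ 0) (M d k : ℕ) (j : Fin 3 → ℕ) :
    (-1) ^ d * (-a ^ 2 - -a⁻¹ ^ 2) * eval (-a ^ 2 - a⁻¹ ^ 2) (aeval (PP a)
      ((PP a ^ j 2) (TT d) * X ^ k) ((PP a ^ j 0) (TT M) * (PP a ^ j 1) (TT M))) =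
      ml (a ^ 2) (a⁻¹ ^ 2) M ^ j 0 * ml (a ^ 2) (a⁻¹ ^ 2) M ^ j 1 * ml (a ^ 2) (a⁻¹ ^ 2) d ^ j 2 *
        GG (a ^ 2) (a⁻¹ ^ 2) M k d := by
  have h1 : ∀ n j : ℕ, (PP a ^ j) (TT n) = ml (a ^ 2) (a⁻¹ ^ 2) n ^ j • TT n := fun n j => by
    induction j with
    | zero => simp
    | succ j ih => rw [pow_succ', Module.End.mul_apply, ih, map_smul, PP_TT ha, smul_smul, pow_succ _ j]
  have h2 : ∀ n (f : ℂ[X]), aeval (PP a) f (TT n) = f.eval (ml (a ^ 2) (a⁻¹ ^ 2) n) • TT n :=
    fun n f => by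
      induction f using Polynomial.induction_on' with
      | add p q hp hq => simp [hp, hq, add_smul]
      | monomial m c => simp [aeval_monomial, h1, smul_smul, mul_comm]
  have hq : a ^ 2 * a⁻¹ ^ 2 = 1 := by rw [← mul_pow, mul_inv_cancel₀ ha, one_pow]
  generalize a ^ 2 = q at *
  generalize a⁻¹ ^ 2 = p at *
  simp only [h1, mul_smul_comm, smul_mul_assoc, map_smul, LinearMap.smul_apply, TT_sq, map_sum,
    h2, eval_smul, eval_finsetSum, smul_eq_mul, eval_mul, eval_pow, eval_X, GG, mul_sum]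
  refine sum_congr rfl fun i _ => ?_
  have e1 := TT_eval (z := -q) (w := -p) (by rw [neg_mul_neg, hq]) (2 * i + 1)
  have e2 := TT_eval (z := -q ^ (2 * i + 1)) (w := -p ^ (2 * i + 1))
    (by rw [neg_mul_neg, ← mul_pow, hq, one_pow]) d
  have o : Odd (2 * i + 1) := ⟨i, rfl⟩
  rw [o.neg_pow, o.neg_pow, ← sub_eq_add_neg] at e1
  rw [← neg_add, neg_pow, neg_pow (p ^ _), ← pow_mul, ← pow_mul, mul_comm _ d, pow_mul, pow_mul] at e2
  have e3 : ((-1 : ℂ) ^ d) * (-1) ^ d = 1 := by rw [← mul_pow]; simp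
  rw [← ml] at e2
  linear_combination (ml q p M ^ j 0 * ml q p M ^ j 1 * ml q p d ^ j 2 * ml q p (2 * i + 1) ^ k) *
    ((-1) ^ d * eval (ml q p (2 * i + 1)) (TT d) * e1 + (-1) ^ d * e2 +
      ((q ^ d) ^ (2 * i + 1) - (p ^ d) ^ (2 * i + 1)) * e3)

end Pool.Agent.P.MP_382f0d_gt

/-! The final algebraic contradiction. -/

namespace Pool.Agent.P.MP_382f0d_gt

open Polynomial Finset

section
variable {F : Type} [Field F] {q : F}

theorem zpow_inj (h0 : q ≠ 0) (h : ∀ s : ℕ, 0 < s → q ^ s ≠ 1) :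
    Function.Injective fun s : ℤ => q ^ s := by
  have key : ∀ s t : ℤ, s < t → q ^ s ≠ q ^ t := fun s t hst e => by
    obtain ⟨m, rfl⟩ := Int.le.dest hst.le
    rw [zpow_add₀ h0, zpow_natCast, eq_comm, mul_eq_left₀ (zpow_ne_zero _ h0)] at e
    exact h m (by omega) e
  intro s t e
  rcases lt_trichotomy s t with k | k | k
  exacts [absurd e (key _ _ k), k, absurd e.symm (key _ _ k)]

/-- evaluation of a Laurent polynomial -/
noncomputable def lev {u : F} (h : u ≠ 0) : AddMonoidAlgebra F ℤ →ₐ[F] F :=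
  AddMonoidAlgebra.lift F F ℤ
    ⟨⟨fun s => u ^ s.toAdd, zpow_zero _⟩, fun _ _ => zpow_add₀ h _ _⟩

theorem lev_single {u : F} (h : u ≠ 0) (s : ℤ) (c : F) :
    lev h (AddMonoidAlgebra.single s c) = c * u ^ s := AddMonoidAlgebra.lift_single _ _ _

theorem lev_inj (h0 : q ≠ 0) (h : ∀ s : ℕ, 0 < s → q ^ s ≠ 1) {f g : AddMonoidAlgebra F ℤ}
    (e : ∀ d : ℕ, lev (pow_ne_zero d h0) f = lev (pow_ne_zero d h0) g) : f = g := by
  have li := (linearIndependent_monoidHom (Multiplicative ℕ) F).comp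
    (fun s : ℤ => powersHom F (q ^ s)) ((powersHom F).injective.comp (zpow_inj h0 h))
  refine AddMonoidAlgebra.coeff_injective (linearIndependent_iffₛ.1 li _ _ (funext fun d => ?_))
  have := e d.toAdd
  simp only [lev, AddMonoidAlgebra.lift_apply] at this
  simpa [Finsupp.linearCombination_apply, Finsupp.sum, ← zpow_natCast, ← zpow_mul, mul_comm]
    using this

/-- the shift operator -/
noncomputable def tau (F : Type) [Field F] : AddMonoidAlgebra F ℤ :=
  -(AddMonoidAlgebra.single 1 1 + AddMonoidAlgebra.single (-1) 1)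

noncomputable def gL (q : F) (M k : ℕ) : AddMonoidAlgebra F ℤ :=
  ∑ i ∈ range M, (AddMonoidAlgebra.single ((2 * i + 1 : ℕ) : ℤ) (ml q q⁻¹ (2 * i + 1) ^ k) -
    AddMonoidAlgebra.single (-((2 * i + 1 : ℕ) : ℤ)) (ml q q⁻¹ (2 * i + 1) ^ k))

theorem lev_tau (h0 : q ≠ 0) (d : ℕ) : lev (pow_ne_zero d h0) (tau F) = ml q q⁻¹ d := by
  simp only [tau, map_neg, map_add, lev_single, ml, one_mul, zpow_neg, zpow_one, inv_pow]

theorem lev_gL (h0 : q ≠ 0) (M k d : ℕ) :
    lev (pow_ne_zero d h0) (gL q M k) = GG q q⁻¹ M k d := by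
  simp only [gL, GG, map_sum, map_sub, lev_single, zpow_neg, zpow_natCast, mul_sub, inv_pow]

theorem gL_coeff (M k s : ℕ) (hs : s < 2 * M) :
    (gL q M k).coeff s = if s % 2 = 1 then ml q q⁻¹ s ^ k else 0 := by
  have e : ∀ i : ℕ, -((2 * i + 1 : ℕ) : ℤ) ≠ s := fun i => by omega
  simp only [gL, AddMonoidAlgebra.coeff_sum, AddMonoidAlgebra.coeff_sub,
    AddMonoidAlgebra.coeff_single, Finsupp.finsetSum_apply, Finsupp.sub_apply,
    Finsupp.single_apply, e, if_false, sub_zero, Nat.cast_inj]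
  split_ifs with c
  · rw [sum_eq_single (s / 2) (fun i _ hi => if_neg (by omega)) fun h => by simp at h; omega,
      if_pos (by omega), show 2 * (s / 2) + 1 = s by omega]
  · exact sum_eq_zero fun i _ => if_neg (by omega)

theorem ml_eq (h0 : q ≠ 0) (s k : ℕ) :
    ml q q⁻¹ s ^ k = eval (q ^ s) ((-(X ^ 2 + 1)) ^ k) * q⁻¹ ^ (s * k) := by
  simp only [eval_pow, eval_neg, eval_add, eval_X, eval_one, pow_mul, ml]
  rw [← mul_pow, inv_pow]
  congr 1
  have := pow_ne_zero s h0
  field_simp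

theorem rep (h0 : q ≠ 0) (M k e b : ℕ) : ∃ Ψ : F[X], Ψ.natDegree ≤ 2 * k ∧ ∀ s : ℕ,
    s % 2 = b % 2 → e ≤ s → s + e < 2 * M →
      (tau F ^ e * gL q M k).coeff s = Ψ.eval (q ^ s) * q⁻¹ ^ (s * k) := by
  induction e generalizing b with
  | zero =>
    by_cases c : b % 2 = 1
    · refine ⟨(-(X ^ 2 + 1)) ^ k, ?_, fun s h1 _ h2 => ?_⟩
      · refine natDegree_pow_le.trans ?_
        rw [mul_comm]
        exact Nat.mul_le_mul_right _ (by compute_degree)
      · rw [pow_zero, one_mul, gL_coeff M k s h2, if_pos (h1.trans c), ml_eq h0]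
    · exact ⟨0, by simp, fun s h1 _ h2 => by
        rw [pow_zero, one_mul, gL_coeff M k s h2, if_neg (by omega)]; simp⟩
  | succ e ih =>
    obtain ⟨Ψ, h1, h2⟩ := ih (b + 1)
    have hd : ∀ c c' : F, (C c * Ψ.comp (C c' * X)).natDegree ≤ 2 * k := fun c c' =>
      (natDegree_C_mul_le _ _).trans (natDegree_comp_le.trans
        ((Nat.mul_le_mul h1 (show _ ≤ 1 by compute_degree)).trans (by simp)))
    refine ⟨-(C (q ^ k) * Ψ.comp (C q⁻¹ * X) + C (q⁻¹ ^ k) * Ψ.comp (C q * X)), ?_,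
      fun s k1 k2 k3 => ?_⟩
    · rw [natDegree_neg]
      exact natDegree_add_le_of_degree_le (hd _ _) (hd _ _)
    obtain ⟨t, rfl⟩ : ∃ t, s = t + 1 := ⟨s - 1, by omega⟩
    have e1 := h2 t (by omega) (by omega) (by omega)
    have e2 := h2 (t + 2) (by omega) (by omega) (by omega)
    rw [pow_succ', mul_assoc]
    generalize tau F ^ e * gL q M k = g at *
    have a1 : (-1 : ℤ) + ((t + 1 : ℕ) : ℤ) = t := by omega
    have a2 : - -(1 : ℤ) + ((t + 1 : ℕ) : ℤ) = (t + 2 : ℕ) := by omega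
    have a3 : q⁻¹ * q ^ (t + 1) = q ^ t := by field_simp; ring
    have a4 : q * q ^ (t + 1) = q ^ (t + 2) := by ring
    have a5 : q ^ k * q⁻¹ ^ k = 1 := by rw [← mul_pow, mul_inv_cancel₀ h0, one_pow]
    simp only [tau, neg_mul, add_mul, AddMonoidAlgebra.coeff_neg, AddMonoidAlgebra.coeff_add,
      Finsupp.neg_apply, Finsupp.add_apply, AddMonoidAlgebra.coeff_single_mul_apply, one_mul, a1,
      a2, e1, e2, eval_neg, eval_add, eval_mul, eval_C, eval_comp, eval_X, a3, a4]
    linear_combination (eval (q ^ t) Ψ * q⁻¹ ^ (t * k)) * a5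

theorem final_alg (h0 : q ≠ 0) (h : ∀ s : ℕ, 0 < s → q ^ s ≠ 1) (n : ℕ) {ι : Type}
    (T : ℕ → Finset ι) (e : ι → ℕ) (β : ℕ → ℕ → ι → F)
    (hh : ∀ M d, GG q q⁻¹ M n d =
      ∑ k ∈ range n, ∑ α ∈ T k, β M k α * (ml q q⁻¹ d ^ e α * GG q q⁻¹ M k d)) : False := by
  obtain ⟨D, hD⟩ : ∃ D, ∀ k ∈ range n, ∀ α ∈ T k, e α ≤ D :=
    ⟨(range n).sup fun k => (T k).sup e, fun k hk α hα =>
      (le_sup hα).trans (le_sup (f := fun k => (T k).sup e) hk)⟩
  have E : gL q (2 * D + 2 * n + 1) n = ∑ k ∈ range n, ∑ α ∈ T k,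
      β (2 * D + 2 * n + 1) k α • (tau F ^ e α * gL q (2 * D + 2 * n + 1) k) :=
    lev_inj h0 h fun d => by simp [lev_gL h0, lev_tau h0, hh]
  choose Ψ h1 h2 using fun k e => rep h0 (2 * D + 2 * n + 1) k e 1
  have := eq_zero_of_natDegree_lt_card_of_eval_eq_zero ((-(X ^ 2 + 1)) ^ n -
      ∑ k ∈ range n, ∑ α ∈ T k, C (β (2 * D + 2 * n + 1) k α) * (X ^ (n - k) * Ψ k (e α)))
    (f := fun i : Fin (2 * n + 1) => q ^ (2 * (D + i) + 1)) (fun i j hij => by
      have := zpow_inj h0 h (a₁ := (2 * (D + i) + 1 : ℕ)) (a₂ := (2 * (D + j) + 1 : ℕ))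
        (by simpa only [zpow_natCast] using hij)
      omega) (fun i => ?_) ?_
  · have := congrArg (eval 0) this
    rw [eval_sub, eval_finsetSum, sum_eq_zero fun k hk => by
      have : n - k ≠ 0 := by simp at hk; omega
      simp [eval_finsetSum, this]] at this
    simp at this
  · have hi := i.2
    generalize hs : 2 * (D + i) + 1 = s
    have c := congrArg (fun g => g.coeff (s : ℤ)) E
    simp only [AddMonoidAlgebra.coeff_sum, Finsupp.finsetSum_apply, AddMonoidAlgebra.coeff_smul,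
      Finsupp.smul_apply, smul_eq_mul] at c
    rw [gL_coeff _ _ _ (by omega), if_pos (by omega), ml_eq h0] at c
    refine mul_right_cancel₀ (pow_ne_zero (s * n) (inv_ne_zero h0)) ?_
    rw [eval_sub, sub_mul, c, zero_mul, sub_eq_zero]
    simp only [eval_finsetSum, sum_mul, eval_mul, eval_C, eval_pow, eval_X]
    refine sum_congr rfl fun k hk => sum_congr rfl fun α hα => ?_
    have := hD k hk α hα
    rw [h2 k _ s (by omega) (by omega) (by omega)]
    obtain ⟨m, rfl⟩ := Nat.exists_eq_add_of_le (mem_range.1 hk).le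
    have := pow_ne_zero s h0
    simp only [Nat.add_sub_cancel_left, pow_mul, pow_add, inv_pow]
    field_simp
  · rw [Fintype.card_fin, Nat.lt_succ_iff]
    refine (natDegree_sub_le _ _).trans (max_le (natDegree_pow_le.trans ?_)
      (natDegree_sum_le_of_forall_le _ _ fun k hk => natDegree_sum_le_of_forall_le _ _ fun α _ =>
        (natDegree_C_mul_le _ _).trans (natDegree_mul_le.trans ?_)))
    · rw [mul_comm]
      exact Nat.mul_le_mul_right _ (by compute_degree)
    · have := h1 k (e α)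
      rw [natDegree_X_pow]
      simp at hk
      omega

end

theorem noeth {R W : Type} [CommRing R] [IsNoetherianRing R] [AddCommGroup W] [Module R W]
    {S : Set W} (hS : S.Finite) (v : ℕ → W) (hv : ∀ k, v k ∈ Submodule.span R S) :
    ∃ n, ∃ r : ℕ → R, v n = ∑ k ∈ range n, r k • v k := by
  have := isNoetherian_span_of_finite R hS
  let w : ℕ → Submodule.span R S := fun k => ⟨v k, hv k⟩
  obtain ⟨n, hn⟩ := monotone_stabilizes_iff_noetherian.2 this
    ⟨fun n => Submodule.span R (w '' (range n : Finset ℕ)), fun a b h =>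
      Submodule.span_mono (Set.image_mono (by simpa using h))⟩
  have h1 : w n ∈ Submodule.span R (w '' (range n : Finset ℕ)) := by
    have := hn (n + 1) (by omega)
    simp only [OrderHom.coe_mk] at this
    rw [this]
    exact Submodule.subset_span ⟨n, by simp, rfl⟩
  obtain ⟨r, hr⟩ := (Submodule.mem_span_image_finset_iff_exists_fun' R).1 h1
  exact ⟨n, r, by simpa [w] using (congrArg Subtype.val hr).symm⟩

theorem rel_of_fg {L : PLink} {F W R : Type} [Field F] [AddCommGroup W] [Module F W]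
    [CommRing R] [IsNoetherianRing R] [Algebra F R] (act : R →ₐ[F] Module.End F W)
    (ψ : RatFunc ℚ →+* F) (Φ : Framed L → W) (h1 : ∀ K K', Isotopy K K' → Φ K' = Φ K)
    (h2 : ∀ K K₀ K₁, Kauffman K K₀ K₁ → Φ K = ψ A • Φ K₀ + (ψ A)⁻¹ • Φ K₁)
    (h3 : ∀ K K', AddUnknot K K' → Φ K' = (-ψ A ^ 2 - (ψ A)⁻¹ ^ 2) • Φ K)
    (h4 : ∀ K K', AddMeridian K K' → ∃ r, Φ K' = act r (Φ K)) (fg : FGOverMeridians L)
    (v : ℕ → Framed L) : ∃ n, ∃ r : ℕ → R, Φ (v n) = ∑ k ∈ range n, act (r k) (Φ (v k)) := by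
  let _ : Module R W := Module.compHom W act.toRingHom
  let _ : Module (RatFunc ℚ) W := Module.compHom W ψ
  have s1 : ∀ (r : R) (w : W), r • w = act r w := fun _ _ => rfl
  have s2 : ∀ (c : RatFunc ℚ) (w : W), c • w = ψ c • w := fun _ _ => rfl
  obtain ⟨S, hS⟩ := fg
  let Ψ : Skein L →ₗ[RatFunc ℚ] W :=
    Submodule.liftQ _ (Finsupp.linearCombination _ Φ) (Submodule.span_le.2 (by
      rintro x (⟨K, K', h, rfl⟩ | ⟨K, K₀, K₁, h, rfl⟩ | ⟨K, K', h, rfl⟩)
      · simp [h1 K K' h]
      · simp [h2 K K₀ K₁ h, s2]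
      · simp [h3 K K' h, s2, sub_smul]))
  have e : ∀ K, Ψ (cls K) = Φ K := fun K => by simp [Ψ, cls]
  refine noeth (S.finite_toSet.image Φ) (fun k => Φ (v k)) fun k => ?_
  have : cls (v k) ∈ Submodule.span (RatFunc ℚ)
    {x | ∃ K ∈ S, ∃ K', Relation.ReflTransGen AddMeridian K K' ∧ x = cls K'} := by simp [hS]
  rw [← e]
  refine Submodule.span_induction (p := fun x _ => Ψ x ∈ Submodule.span R (Φ '' S)) ?_
    (by simp) (fun x y _ _ hx hy => by rw [map_add]; exact add_mem hx hy) (fun c x _ hx => ?_) this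
  · rintro _ ⟨K, hK, K', h, rfl⟩
    rw [e]
    induction h with
    | refl => exact Submodule.subset_span ⟨K, hK, rfl⟩
    | tail _ k ih =>
      obtain ⟨r, hr⟩ := h4 _ _ k
      rw [hr]
      exact Submodule.smul_mem _ r ih
  · have := Submodule.smul_mem _ (algebraMap F R (ψ c)) hx
    rwa [s1, act.commutes, Module.algebraMap_end_apply, ← s2, ← map_smul] at this

end Pool.Agent.P.MP_382f0d_gt
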