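import Pool.Agent.P.MP_382f0d_gt.D
import Pool.Agent.P.MP_382f0d_gt.T

/-! The chain link of three triangles and parallel copies of its middle component. -/

namespace Pool.Agent.P.MP_382f0d_gt

open Filter Topology

noncomputable def uu (m : ℕ) : ℝ := (1 / 2) ^ m

theorem uu_pos (m : ℕ) : 0 < uu m := by unfold uu; positivity

theorem uu_le (m : ℕ) : uu m ≤ 1 := pow_le_one₀ (by norm_num) (by norm_num)

theorem uu_lt {m m' : ℕ} (h : m < m') : 2 * uu m' ≤ uu m := by
  have := pow_le_pow_of_le_one (show (0 : ℝ) ≤ 1 / 2 by norm_num) (by norm_num)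
    (show m + 1 ≤ m' from h)
  rw [pow_succ] at this
  unfold uu
  linarith

/-- the vertices of the triangles -/
noncomputable def wp : ℕ × Fin 3 → Pt
  | (0, a) => ![(1, 0, 0), (-10, 1, 0), (1, 100, 0)] a
  | (1, a) => ![(2, -2, 0), (13, -1, 0), (2, 101, 0)] a
  | (m + 2, a) => ![(0, 32 - 16 * uu m, 0), (3, 32 - 15 * uu m, 1), (3, 32 - 12 * uu m, -1)] a

theorem fin3 (a : Fin 3) : a = 0 ∨ a = 1 ∨ a = 2 := by revert a; decide

theorem nat3 (m : ℕ) : m = 0 ∨ m = 1 ∨ ∃ k, m = k + 2 := by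
  rcases m with _ | _ | k
  exacts [Or.inl rfl, Or.inr (Or.inl rfl), Or.inr (Or.inr ⟨k, rfl⟩)]

theorem wp_y (m : ℕ) (a : Fin 3) :
    32 - 16 * uu m ≤ (wp (m + 2, a)).2.1 ∧ (wp (m + 2, a)).2.1 ≤ 32 - 12 * uu m := by
  have := uu_pos m
  rcases fin3 a with rfl | rfl | rfl <;> constructor <;> simp [wp] <;> linarith

theorem wp_inj : Function.Injective wp := by
  have key : ∀ m m' a b, m < m' → (wp (m, a)).2.1 ≠ (wp (m', b)).2.1 := by
    intro m m' a b h
    rcases nat3 m' with rfl | rfl | ⟨k, rfl⟩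
    · omega
    · obtain rfl : m = 0 := by omega
      rcases fin3 a with rfl | rfl | rfl <;> rcases fin3 b with rfl | rfl | rfl <;>
        simp [wp] <;> norm_num
    · have h1 := wp_y k b
      have h2 := uu_pos k
      have h3 := uu_le k
      rcases nat3 m with rfl | rfl | ⟨k', rfl⟩
      · intro e
        rw [← e] at h1
        rcases fin3 a with rfl | rfl | rfl <;> simp [wp] at h1 <;> linarith [h1.1, h1.2]
      · intro e
        rw [← e] at h1
        rcases fin3 a with rfl | rfl | rfl <;> simp [wp] at h1 <;> linarith [h1.1, h1.2]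
      · have := uu_lt (show k' < k by omega)
        linarith [(wp_y k' a).2, h1.1]
  rintro ⟨m, a⟩ ⟨m', b⟩ e
  have e' := congrArg (·.2.1) e
  rcases lt_trichotomy m m' with h | rfl | h
  · exact absurd e' (key _ _ _ _ h)
  · rcases nat3 m with rfl | rfl | ⟨k, rfl⟩
    · rcases fin3 a with rfl | rfl | rfl <;> rcases fin3 b with rfl | rfl | rfl <;>
        first | rfl | (simp [wp] at e' <;> norm_num at e')
    · rcases fin3 a with rfl | rfl | rfl <;> rcases fin3 b with rfl | rfl | rfl <;>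
        first | rfl | (simp [wp] at e' <;> norm_num at e')
    · have := (uu_pos k).ne'
      rcases fin3 a with rfl | rfl | rfl <;> rcases fin3 b with rfl | rfl | rfl <;>
        first | rfl | (simp [wp, this] at e' <;> norm_num at e')
  · exact absurd e'.symm (key _ _ _ _ h)

noncomputable def WW : ℕ × Fin 3 ↪ Pt := ⟨wp, wp_inj⟩

theorem WW_eq (x : ℕ × Fin 3) : WW x = wp x := rfl

/-- the segment of an edge -/
def sgm : Sym2 Pt → Set Pt := Sym2.lift ⟨fun p q => segment ℝ p q, fun _ _ => segment_symm _ _ _⟩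

theorem Far.dis {e f : Sym2 Pt} (h : Far e f) : Disjoint (sgm e) (sgm f) := by
  obtain ⟨p, q, a, b, rfl, rfl, h⟩ := h
  refine Set.disjoint_left.2 fun x h1 h2 => ?_
  obtain ⟨s, s0, s1, e1⟩ := mem_seg.1 h1
  obtain ⟨r, r0, r1, e2⟩ := mem_seg.1 h2
  exact Set.disjoint_left.1 h (mem_seg.2 ⟨s, s0, s1, congrArg proj e1⟩)
    (mem_seg.2 ⟨r, r0, r1, congrArg proj e2⟩)

theorem comb_lt {s r x y z w c : ℝ} (s0 : 0 ≤ s) (s1 : s ≤ 1) (r0 : 0 ≤ r) (r1 : r ≤ 1)
    (h1 : x ≤ c) (h2 : y ≤ c) (h3 : c < z) (h4 : c < w) :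
    (1 - s) * x + s * y < (1 - r) * z + r * w := by
  rcases le_total z w with k | k <;> nlinarith

theorem far_of (α β c : ℝ) {p q a b : Pt} (h1 : α * p.1 + β * p.2.1 ≤ c)
    (h2 : α * q.1 + β * q.2.1 ≤ c) (h3 : c < α * a.1 + β * a.2.1) (h4 : c < α * b.1 + β * b.2.1) :
    Far s(p, q) s(a, b) := by
  refine ⟨p, q, a, b, rfl, rfl, Set.disjoint_left.2 fun x k1 k2 => ?_⟩
  obtain ⟨s, s0, s1, rfl⟩ := mem_seg.1 k1
  obtain ⟨r, r0, r1, e⟩ := mem_seg.1 k2
  have e1 : (1 - s) * p.1 + s * q.1 = (1 - r) * a.1 + r * b.1 := congrArg (·.1) e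
  have e2 : (1 - s) * p.2.1 + s * q.2.1 = (1 - r) * a.2.1 + r * b.2.1 := congrArg (·.2) e
  refine (comb_lt s0 s1 r0 r1 h1 h2 h3 h4).ne ?_
  linear_combination α * e1 + β * e2

theorem dis_of (α γ c : ℝ) {p q a b : Pt} (h1 : α * p.1 + γ * p.2.2 ≤ c)
    (h2 : α * q.1 + γ * q.2.2 ≤ c) (h3 : c < α * a.1 + γ * a.2.2) (h4 : c < α * b.1 + γ * b.2.2) :
    Disjoint (sgm s(p, q)) (sgm s(a, b)) := by
  refine Set.disjoint_left.2 fun x k1 k2 => ?_
  obtain ⟨s, s0, s1, rfl⟩ := mem_seg.1 k1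
  obtain ⟨r, r0, r1, e⟩ := mem_seg.1 k2
  have e1 : (1 - s) * p.1 + s * q.1 = (1 - r) * a.1 + r * b.1 := congrArg (·.1) e
  have e2 : (1 - s) * p.2.2 + s * q.2.2 = (1 - r) * a.2.2 + r * b.2.2 := congrArg (·.2.2) e
  refine (comb_lt s0 s1 r0 r1 h1 h2 h3 h4).ne ?_
  linear_combination α * e1 + γ * e2

/-- `e` is a side of the triangle number `m` -/
def Sd (m : ℕ) (e : Sym2 Pt) : Prop := e = eg WW m 0 1 ∨ e = eg WW m 1 2 ∨ e = eg WW m 0 2

theorem geo {m m' : ℕ} (h : m < m') {e f : Sym2 Pt} (he : Sd m e) (hf : Sd m' f) :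
    Far e f ∨ (m ≤ 1 ∧ 2 ≤ m' ∧ e = eg WW m 0 2 ∧ (f = eg WW m' 0 1 ∨ f = eg WW m' 0 2) ∧
      Disjoint (sgm e) (sgm f)) := by
  rcases nat3 m' with rfl | rfl | ⟨k, rfl⟩
  · omega
  · obtain rfl : m = 0 := by omega
    left
    rcases he with rfl | rfl | rfl <;> rcases hf with rfl | rfl | rfl <;>
      refine far_of 1 0 1 ?_ ?_ ?_ ?_ <;> simp [WW_eq, wp] <;> norm_num
  have h2 := uu_pos k
  have h3 := uu_le k
  rcases nat3 m with rfl | rfl | ⟨k', rfl⟩
  · rcases he with rfl | rfl | rfl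
    · left
      rcases hf with rfl | rfl | rfl <;>
        refine far_of 0 1 1 ?_ ?_ ?_ ?_ <;> simp [WW_eq, wp] <;> linarith
    · left
      rcases hf with rfl | rfl | rfl <;>
        refine far_of 9 (-1) (-91) ?_ ?_ ?_ ?_ <;> simp [WW_eq, wp] <;> linarith
    · rcases hf with rfl | rfl | rfl
      · refine Or.inr ⟨by omega, by omega, rfl, Or.inl rfl, dis_of (-1) 3 (-1) ?_ ?_ ?_ ?_⟩ <;>
          simp [WW_eq, wp]
      · refine Or.inl (far_of 1 0 1 ?_ ?_ ?_ ?_) <;> simp [WW_eq, wp]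
      · refine Or.inr ⟨by omega, by omega, rfl, Or.inr rfl, dis_of (-1) (-3) (-1) ?_ ?_ ?_ ?_⟩ <;>
          simp [WW_eq, wp]
  · rcases he with rfl | rfl | rfl
    · left
      rcases hf with rfl | rfl | rfl <;>
        refine far_of 0 1 1 ?_ ?_ ?_ ?_ <;> simp [WW_eq, wp] <;> linarith
    · left
      rcases hf with rfl | rfl | rfl <;>
        refine far_of (-102) (-11) (-1315) ?_ ?_ ?_ ?_ <;> simp [WW_eq, wp] <;> linarith
    · rcases hf with rfl | rfl | rfl
      · refine Or.inr ⟨by omega, by omega, rfl, Or.inl rfl, dis_of (-1) 3 (-1) ?_ ?_ ?_ ?_⟩ <;>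
          simp [WW_eq, wp]
      · refine Or.inl (far_of 1 0 2 ?_ ?_ ?_ ?_) <;> simp [WW_eq, wp] <;> norm_num
      · refine Or.inr ⟨by omega, by omega, rfl, Or.inr rfl, dis_of (-1) (-3) (-1) ?_ ?_ ?_ ?_⟩ <;>
          simp [WW_eq, wp]
  · have := uu_lt (show k' < k by omega)
    have k1 : ∀ a, 0 * (WW (k' + 2, a)).1 + 1 * (WW (k' + 2, a)).2.1 ≤ 32 - 12 * uu k' := fun a => by
      rw [WW_eq]; linarith [(wp_y k' a).2]
    have k2 : ∀ a, 32 - 12 * uu k' < 0 * (WW (k + 2, a)).1 + 1 * (WW (k + 2, a)).2.1 := fun a => by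
      rw [WW_eq]; linarith [(wp_y k a).1]
    left
    rcases he with rfl | rfl | rfl <;> rcases hf with rfl | rfl | rfl <;>
      exact far_of 0 1 _ (k1 _) (k1 _) (k2 _) (k2 _)

theorem geo_dis {m m' : ℕ} (h : m ≠ m') {e f : Sym2 Pt} (he : Sd m e) (hf : Sd m' f) :
    Disjoint (sgm e) (sgm f) := by
  rcases lt_or_gt_of_ne h with h | h
  · exact (geo h he hf).elim Far.dis fun k => k.2.2.2.2
  · exact ((geo h hf he).elim Far.dis fun k => k.2.2.2.2).symm

theorem sd_next (m : ℕ) (a : Fin 3) : Sd m s(WW (m, a), WW (m, a + 1)) := by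
  rcases fin3 a with rfl | rfl | rfl
  · exact Or.inl rfl
  · exact Or.inr (Or.inl rfl)
  · exact Or.inr (Or.inr Sym2.eq_swap)

theorem tri_inter {p q r x : Pt} (h : det2 (q - p) (r - p) ≠ 0) (h1 : x ∈ segment ℝ p q)
    (h2 : x ∈ segment ℝ q r) : x = q := by
  obtain ⟨s, -, -, rfl⟩ := mem_seg.1 h1
  obtain ⟨t, -, -, e⟩ := mem_seg.1 h2
  have e1 : (1 - s) * p.1 + s * q.1 = (1 - t) * q.1 + t * r.1 := congrArg (·.1) e
  have e2 : (1 - s) * p.2.1 + s * q.2.1 = (1 - t) * q.2.1 + t * r.2.1 := congrArg (·.2.1) e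
  have : (1 - s) * det2 (q - p) (r - p) = 0 := by
    simp only [det2, Prod.fst_sub, Prod.snd_sub]
    linear_combination (q.2.1 - r.2.1) * e1 - (q.1 - r.1) * e2
  have := (mul_eq_zero.1 this).resolve_right h
  rw [this, show s = 1 by linarith]
  simp

theorem tri_det (m : ℕ) (a : Fin 3) :
    det2 (WW (m, a + 1) - WW (m, a)) (WW (m, a + 1 + 1) - WW (m, a)) ≠ 0 := by
  rcases nat3 m with rfl | rfl | ⟨k, rfl⟩
  · rcases fin3 a with rfl | rfl | rfl <;> simp [WW_eq, wp, det2] <;> norm_num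
  · rcases fin3 a with rfl | rfl | rfl <;> simp [WW_eq, wp, det2] <;> norm_num
  · have := uu_pos k
    rcases fin3 a with rfl | rfl | rfl <;> simp [WW_eq, wp, det2] <;> intro _ <;> linarith

/-- the cyclic permutation of the vertices of the triangles in `S` -/
noncomputable def rot (S : Finset ℕ) : Equiv.Perm Pt :=
  Equiv.Perm.viaEmbedding (Equiv.prodCongrRight fun m => if m ∈ S then finRotate 3 else 1) WW

theorem rot_apply {S : Finset ℕ} {m : ℕ} (h : m ∈ S) (a : Fin 3) :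
    rot S (WW (m, a)) = WW (m, a + 1) := by
  rw [rot, Equiv.Perm.viaEmbedding_apply, Equiv.prodCongrRight_apply, if_pos h, finRotate_apply]

theorem rot_ne {S : Finset ℕ} {v : Pt} : rot S v ≠ v ↔ ∃ m ∈ S, ∃ a, v = WW (m, a) := by
  constructor
  · intro h
    by_cases c : v ∈ Set.range WW
    · obtain ⟨⟨m, a⟩, rfl⟩ := c
      refine ⟨m, ?_, a, rfl⟩
      by_contra k
      exact h (by rw [rot, Equiv.Perm.viaEmbedding_apply, Equiv.prodCongrRight_apply, if_neg k]; rfl)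
    · exact absurd (Equiv.Perm.viaEmbedding_apply_of_notMem _ _ _ c) h
  · rintro ⟨m, hm, a, rfl⟩
    rw [rot_apply hm]
    simp

/-- the link formed by the triangles in `S` -/
noncomputable def triLink (S : Finset ℕ) : PLink where
  next := rot S
  finite := ((S ×ˢ (Finset.univ : Finset (Fin 3))).finite_toSet.image WW).subset fun v hv => by
    obtain ⟨m, hm, a, rfl⟩ := rot_ne.1 hv
    exact ⟨(m, a), by simp [hm], rfl⟩
  simple v w hv hw hvw x hx := by
    obtain ⟨m, hm, a, rfl⟩ := rot_ne.1 hv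
    obtain ⟨m', hm', b, rfl⟩ := rot_ne.1 hw
    rw [rot_apply hm, rot_apply hm'] at *
    by_cases c : m = m'
    · subst c
      have : b = a + 1 ∨ a = b + 1 := by
        have : a ≠ b := fun e => hvw (by rw [e])
        clear * - this
        revert a b
        decide
      rcases this with rfl | rfl
      · simp [tri_inter (tri_det m a) hx.1 hx.2]
      · simp [tri_inter (tri_det m b) hx.2 hx.1]
    · exact absurd hx.2 (Set.disjoint_left.1 (geo_dis c (sd_next m a) (sd_next m' b)) hx.1)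

theorem mem_edges {S : Finset ℕ} {e : Sym2 Pt} : e ∈ (triLink S).edges ↔ ∃ m ∈ S, Sd m e := by
  constructor
  · rintro ⟨v, hv, rfl⟩
    obtain ⟨m, hm, a, rfl⟩ := rot_ne.1 hv
    exact ⟨m, hm, by rw [triLink, rot_apply hm]; exact sd_next m a⟩
  · rintro ⟨m, hm, rfl | rfl | rfl⟩
    · exact ⟨_, rot_ne.2 ⟨m, hm, 0, rfl⟩, by rw [triLink, rot_apply hm]; rfl⟩
    · exact ⟨_, rot_ne.2 ⟨m, hm, 1, rfl⟩, by rw [triLink, rot_apply hm]; rfl⟩
    · exact ⟨_, rot_ne.2 ⟨m, hm, 2, rfl⟩, by rw [triLink, rot_apply hm]; exact Sym2.eq_swap⟩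

/-- the chain link -/
noncomputable def chain : PLink := triLink {0, 1, 2}

/-- `k` parallel copies of the middle component -/
noncomputable def copies (k : ℕ) : Framed chain where
  toPLink := triLink (Finset.Ico 3 (k + 3))
  fr _ := 0
  fr_next _ := rfl
  disj := Set.disjoint_left.2 fun x ⟨v, hv, h1⟩ ⟨w, hw, h2⟩ => by
    obtain ⟨m, hm, a, rfl⟩ := rot_ne.1 hv
    obtain ⟨m', hm', b, rfl⟩ := rot_ne.1 hw
    rw [triLink, rot_apply hm] at h1
    rw [chain, triLink, rot_apply hm'] at h2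
    exact Set.disjoint_left.1 (geo_dis (by simp at hm hm'; omega) (sd_next m a) (sd_next m' b)) h1 h2

theorem wp_lt (m : ℕ) :
    (WW (m, 0)).2.1 < (WW (m, 1)).2.1 ∧ (WW (m, 1)).2.1 < (WW (m, 2)).2.1 := by
  rcases nat3 m with rfl | rfl | ⟨k, rfl⟩
  · simp [WW_eq, wp]
  · simp [WW_eq, wp]; norm_num
  · have := uu_pos k
    simp [WW_eq, wp]; constructor <;> linarith

noncomputable def chainT : TriL chain where
  P i := WW (i, 0)
  Q i := WW (i, 1)
  R i := WW (i, 2)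
  comp x := Fin.ofNat 3 (Function.invFun WW x).1
  ed e := by
    rw [chain, mem_edges]
    constructor
    · rintro ⟨m, hm, h⟩
      exact ⟨⟨m, by simp at hm; omega⟩, h⟩
    · rintro ⟨i, h⟩
      exact ⟨i, by simp; omega, h⟩
  lt1 i := (wp_lt i).1
  lt2 i := (wp_lt i).2
  cP i := by rw [Function.leftInverse_invFun WW.injective]; simp
  cQ i := by rw [Function.leftInverse_invFun WW.injective]; simp
  cR i := by rw [Function.leftInverse_invFun WW.injective]; simp

end Pool.Agent.P.MP_382f0d_gt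

/-! The invariant of parallel copies of the middle component of the chain link. -/

namespace Pool.Agent.P.MP_382f0d_gt

open Filter Topology Polynomial

theorem cross_vert {p q a b : Pt} {α : ℝ} (h0 : 0 < α) (h1 : α < 1) (hx : p.1 < q.1)
    (hy : p.2.1 < q.2.1) (ha : a.2.1 < p.2.1) (hb : q.2.1 < b.2.1)
    (e1 : a.1 = (1 - α) * p.1 + α * q.1) (e2 : b.1 = a.1) (z1 : a.2.2 = 0) (z2 : b.2.2 = 0) :
    g0.IsCross s(p, q) s(a, b) ∧
      g0.lev (.inr (s(p, q), s(a, b))) = (1 - α) * p.2.1 + α * q.2.1 ∧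
      g0.Z s(p, q) (g0.lev (.inr (s(p, q), s(a, b)))) = (1 - α) * p.2.2 + α * q.2.2 ∧
      g0.Z s(a, b) (g0.lev (.inr (s(p, q), s(a, b)))) = 0 := by
  have y1 : g0.y p ≠ g0.y q := hy.ne
  have y2 : b.2.1 - a.2.1 ≠ 0 := by linarith [show a.2.1 < b.2.1 by linarith]
  have s1 : g0.sl s(a, b) < g0.sl s(p, q) := by
    simp only [Geo.sl_mk, g0, e2, sub_self, zero_div]
    exact div_pos (sub_pos.2 hx) (sub_pos.2 hy)
  have x1 : g0.X s(p, q) ((1 - α) * g0.y p + α * g0.y q) =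
      g0.X s(a, b) ((1 - α) * g0.y p + α * g0.y q) := by
    rw [Geo.X, Geo.val_param y1]
    simp only [Geo.X, Geo.val, Geo.icp, Geo.slp, Sym2.lift_mk, g0, e2, ← e1]
    field_simp
    ring
  have r := Geo.param_range y1 h0 h1
  have r' := r
  simp only [Geo.lo_mk, Geo.hi_mk, g0, min_eq_left hy.le, max_eq_right hy.le] at r'
  refine ⟨Geo.isCross_of s1 x1 r.1 r.2 ?_ ?_, Geo.lev_eq s1.ne x1, ?_, ?_⟩
  · exact min_lt_of_left_lt (ha.trans r'.1)
  · exact lt_max_of_lt_right (r'.2.trans hb)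
  · rw [Geo.lev_eq s1.ne x1, Geo.Z, Geo.val_param y1]; rfl
  · simp [Geo.Z, Geo.val, Geo.icp, Geo.slp, g0, z1, z2]

theorem crs (m : ℕ) {r : ℕ} (hr : r ≤ 1) :
    (g0.IsCross (eg WW (m + 2) 0 1) (eg WW r 0 2) ∧
      g0.lev (.inr (eg WW (m + 2) 0 1, eg WW r 0 2)) = 32 - 16 * uu m + (r + 1) / 3 * uu m ∧
      g0.Z (eg WW r 0 2) (g0.lev (.inr (eg WW (m + 2) 0 1, eg WW r 0 2))) <
        g0.Z (eg WW (m + 2) 0 1) (g0.lev (.inr (eg WW (m + 2) 0 1, eg WW r 0 2)))) ∧
    (g0.IsCross (eg WW (m + 2) 0 2) (eg WW r 0 2) ∧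
      g0.lev (.inr (eg WW (m + 2) 0 2, eg WW r 0 2)) = 32 - 16 * uu m + (r + 1) / 3 * 4 * uu m ∧
      g0.Z (eg WW (m + 2) 0 2) (g0.lev (.inr (eg WW (m + 2) 0 2, eg WW r 0 2))) <
        g0.Z (eg WW r 0 2) (g0.lev (.inr (eg WW (m + 2) 0 2, eg WW r 0 2)))) := by
  have h2 := uu_pos m
  have h3 := uu_le m
  have key : ∀ c : Fin 3, c ≠ 0 → _ := fun c hc =>
    cross_vert (p := WW (m + 2, 0)) (q := WW (m + 2, c)) (a := WW (r, 0)) (b := WW (r, 2))
      (α := (r + 1) / 3) (by positivity) (by interval_cases r <;> norm_num)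
      (by rcases fin3 c with rfl | rfl | rfl <;> simp [WW_eq, wp] at hc ⊢)
      (by rcases fin3 c with rfl | rfl | rfl <;> simp [WW_eq, wp] at hc ⊢ <;> linarith)
      (by interval_cases r <;> simp [WW_eq, wp] <;> linarith)
      (by rcases fin3 c with rfl | rfl | rfl <;> interval_cases r <;> simp [WW_eq, wp] <;> linarith)
      (by rcases fin3 c with rfl | rfl | rfl <;> interval_cases r <;> simp [WW_eq, wp] at hc ⊢ <;>
        norm_num)
      (by interval_cases r <;> rfl) (by interval_cases r <;> rfl) (by interval_cases r <;> rfl)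
  obtain ⟨a1, a2, a3, a4⟩ := key 1 (by decide)
  obtain ⟨b1, b2, b3, b4⟩ := key 2 (by decide)
  have : (0 : ℝ) < (r + 1) / 3 := by positivity
  unfold eg
  refine ⟨⟨a1, a2.trans ?_, ?_⟩, b1, b2.trans ?_, ?_⟩
  · simp [WW_eq, wp]; ring
  · rw [a3, a4]; simpa [WW_eq, wp] using this
  · simp [WW_eq, wp]; ring
  · rw [b3, b4]; simpa [WW_eq, wp] using this

theorem lp_pw (m : ℕ) : ((lp WW (m + 2)).Pairwise fun a b => g0.lev a < g0.lev b) ∧
    ∀ x ∈ lp WW (m + 2), 32 - 16 * uu m ≤ g0.lev x ∧ g0.lev x ≤ 32 - 12 * uu m := by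
  have h2 := uu_pos m
  have e : ∀ a, g0.lev (.inl (WW (m + 2, a))) = (wp (m + 2, a)).2.1 := fun _ => rfl
  simp only [lp, List.pairwise_cons, List.mem_cons, List.not_mem_nil, or_false, forall_eq_or_imp,
    forall_eq, (crs m zero_le_one).1.2.1, (crs m le_rfl).1.2.1, (crs m zero_le_one).2.2.1,
    (crs m le_rfl).2.2.1, e, wp, Matrix.cons_val, IsEmpty.forall_iff, implies_true,
    List.Pairwise.nil, and_true, Nat.cast_zero, Nat.cast_one]
  refine ⟨⟨⟨?_, ?_, ?_, ?_, ?_, ?_⟩, ⟨?_, ?_, ?_, ?_, ?_⟩, ⟨?_, ?_, ?_, ?_⟩, ⟨?_, ?_, ?_⟩, ⟨?_, ?_⟩,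
    ?_⟩, ⟨?_, ?_⟩, ⟨?_, ?_⟩, ⟨?_, ?_⟩, ⟨?_, ?_⟩, ⟨?_, ?_⟩, ⟨?_, ?_⟩, ?_, ?_⟩ <;> linarith

theorem evl_pw (k : ℕ) :
    (evl WW (List.range' 2 k)).Pairwise fun a b => g0.lev a < g0.lev b := by
  have h1 : ∀ x ∈ (List.range' 2 k).flatMap (lp WW), 16 ≤ g0.lev x ∧ g0.lev x ≤ 32 := by
    intro x hx
    obtain ⟨m, hm, hx⟩ := List.mem_flatMap.1 hx
    obtain ⟨m, rfl⟩ : ∃ m', m = m' + 2 := ⟨m - 2, by simp at hm; omega⟩
    have := (lp_pw m).2 x hx
    constructor <;> linarith [uu_pos m, uu_le m]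
  have h2 : ((List.range' 2 k).flatMap (lp WW)).Pairwise fun a b => g0.lev a < g0.lev b := by
    rw [List.pairwise_flatMap]
    refine ⟨fun m hm => ?_, (List.pairwise_lt_range' (s := 2) (n := k)).imp_of_mem ?_⟩
    · obtain ⟨m, rfl⟩ : ∃ m', m = m' + 2 := ⟨m - 2, by simp at hm; omega⟩
      exact (lp_pw m).1
    · intro m m' hm hm' h x hx y hy
      obtain ⟨m, rfl⟩ : ∃ m', m = m' + 2 := ⟨m - 2, by simp at hm; omega⟩
      obtain ⟨m', rfl⟩ : ∃ m'', m' = m'' + 2 := ⟨m' - 2, by omega⟩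
      linarith [((lp_pw m).2 x hx).2, ((lp_pw m').2 y hy).1, uu_lt (show m < m' by omega), uu_pos m]
  have e : ∀ x, g0.lev (.inl (WW x)) = (wp x).2.1 := fun _ => rfl
  rw [evl, List.pairwise_append, List.pairwise_append]
  refine ⟨by simp [e, wp]; norm_num, ⟨h2, by simp [e, wp]; norm_num, fun x hx => ?_⟩,
    fun x hx y hy => ?_⟩
  · have := (h1 x hx).2
    simp [e, wp]
    constructor <;> linarith
  · have k1 : g0.lev x ≤ 1 := by
      simp only [List.mem_cons, List.not_mem_nil, or_false] at hx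
      rcases hx with rfl | rfl | rfl | rfl <;> simp [e, wp] <;> norm_num
    rcases List.mem_append.1 hy with hy | hy
    · linarith [(h1 y hy).1]
    · simp only [List.mem_cons, List.not_mem_nil, or_false] at hy
      rcases hy with rfl | rfl <;> simp only [e, wp, Matrix.cons_val] <;> linarith

theorem ed_iff (k : ℕ) (e : Sym2 Pt) : e ∈ (copies k).edges ∪ chain.edges ↔
    ∃ m ∈ 0 :: 1 :: List.range' 2 (k + 1), Sd m e := by
  simp only [copies, chain, Set.mem_union, mem_edges, Finset.mem_Ico, Finset.mem_insert,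
    Finset.mem_singleton, List.mem_cons, List.mem_range'_1, ← exists_or, ← or_and_right]
  exact exists_congr fun m => and_congr_left fun _ => by omega

theorem inr_mem {ms : List ℕ} {e f : Sym2 Pt} : .inr (e, f) ∈ evl WW ms ↔
    ∃ m ∈ ms, ∃ r ≤ 1, (e = eg WW m 0 1 ∨ e = eg WW m 0 2) ∧ f = eg WW r 0 2 := by
  simp only [evl, lp, List.mem_append, List.mem_cons, List.mem_flatMap, reduceCtorEq, false_or,
    List.not_mem_nil, or_false, Sum.inr.injEq, Prod.mk.injEq, Nat.le_one_iff_eq_zero_or_eq_one]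
  exact exists_congr fun m => and_congr_right fun _ => by grind

theorem inl_mem {ms : List ℕ} {v : Pt} :
    .inl v ∈ evl WW ms ↔ ∃ m ∈ 0 :: 1 :: ms, ∃ a, v = WW (m, a) := by
  simp only [evl, lp, List.mem_append, List.mem_cons, List.mem_flatMap, reduceCtorEq, false_or,
    List.not_mem_nil, or_false, Sum.inl.injEq, exists_eq_or_imp, Fin.exists_fin_succ,
    IsEmpty.exists_iff, Fin.succ_zero_eq_one, Fin.succ_one_eq_two]
  generalize (∃ a ∈ ms, v = WW (a, 0) ∨ v = WW (a, 1) ∨ v = WW (a, 2)) = P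
  grind

variable {I : Type} {l : Filter I} {G : I → Geo Pt}
  (hG : ∀ p, Tendsto (fun i => (G i).pos p) l (𝓝 p))
include hG

theorem ev_shape (k : ℕ) (n j : Fin 3 → ℕ) : ∀ᶠ i in l,
    Shape WW (dat (G i) (chainT.deco n j) (muE (G i) (copies k).edges))
      ((copies k).edges ∪ chain.edges) (List.range' 2 (k + 1))
      (fun m => if h : m < 3 then n ⟨m, h⟩ else 1) fun m => if h : m < 3 then j ⟨m, h⟩ else 0 := by
  have h1 := ev_srt hG (fin2 (L := chain) (copies k).toPLink) (evl_pw (k + 1)) (fun v => by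
      rw [inl_mem]
      constructor
      · rintro ⟨m, hm, a, rfl⟩
        exact ⟨_, (ed_iff k _).2 ⟨m, hm, sd_next m a⟩, by simp⟩
      · rintro ⟨e, he, hv⟩
        obtain ⟨m, hm, rfl | rfl | rfl⟩ := (ed_iff k _).1 he <;>
          rcases Sym2.mem_iff.1 hv with rfl | rfl <;> exact ⟨m, hm, _, rfl⟩)
    (fun e f h => by
      obtain ⟨m, hm, r, hr, h1, rfl⟩ := inr_mem.1 h
      refine ⟨(ed_iff k _).2 ⟨m, by simp [hm], by unfold Sd; tauto⟩,
        (ed_iff k _).2 ⟨r, by simp; omega, by simp [Sd]⟩, ?_⟩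
      obtain ⟨m, rfl⟩ : ∃ m', m = m' + 2 := ⟨m - 2, by simp at hm; omega⟩
      rcases h1 with rfl | rfl
      exacts [(crs m hr).1.1, (crs m hr).2.1])
    fun e he f hf => by
      obtain ⟨m, hm, he⟩ := (ed_iff k _).1 he
      obtain ⟨m', hm', hf⟩ := (ed_iff k _).1 hf
      simp only [List.mem_cons, List.mem_range'_1] at hm hm'
      rcases lt_trichotomy m m' with h | rfl | h
      · rcases geo h he hf with c | c
        · tauto
        · exact Or.inr (Or.inr (Or.inl (inr_mem.2 ⟨m', by simp; omega, m, c.1, c.2.2.2.1, c.2.2.1⟩)))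
      · left
        rcases he with rfl | rfl | rfl <;> rcases hf with rfl | rfl | rfl <;> simp [eg]
      · rcases geo h hf he with c | c
        · exact Or.inr (Or.inr (Or.inr c.symm))
        · exact Or.inr (Or.inl (inr_mem.2 ⟨m, by simp; omega, m', c.1, c.2.2.2.1, c.2.2.1⟩))
  have h2 : ∀ᶠ i in l, ∀ m ∈ {m | m ∈ 0 :: 1 :: List.range' 2 (k + 1)},
      (G i).y (WW (m, 0)) < (G i).y (WW (m, 1)) ∧ (G i).y (WW (m, 1)) < (G i).y (WW (m, 2)) :=
    (eventually_all_finite (List.finite_toSet _)).2 fun m _ =>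
      (ev_lt hG (wp_lt m).1).and (ev_lt hG (wp_lt m).2)
  have h3 : ∀ᶠ i in l, ∀ m ∈ {m | m ∈ List.range' 2 (k + 1)}, ∀ r ∈ Set.Iic 1,
      (G i).Z (eg WW r 0 2) ((G i).lev (.inr (eg WW m 0 1, eg WW r 0 2))) <
        (G i).Z (eg WW m 0 1) ((G i).lev (.inr (eg WW m 0 1, eg WW r 0 2))) ∧
      (G i).Z (eg WW m 0 2) ((G i).lev (.inr (eg WW m 0 2, eg WW r 0 2))) <
        (G i).Z (eg WW r 0 2) ((G i).lev (.inr (eg WW m 0 2, eg WW r 0 2))) := by
    refine (eventually_all_finite (List.finite_toSet _)).2 fun m hm =>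
      (eventually_all_finite (Set.finite_Iic 1)).2 fun r hr => ?_
    obtain ⟨m, rfl⟩ : ∃ m', m = m' + 2 := ⟨m - 2, by simp at hm; omega⟩
    obtain ⟨a, b⟩ := crs m hr
    exact ((td_Z hG a.1).2.eventually_lt (td_Z hG a.1).1 a.2.2).and
      ((td_Z hG b.1).1.eventually_lt (td_Z hG b.1).2 b.2.2)
  have cm : ∀ m a, chainT.comp (WW (m, a)) = Fin.ofNat 3 m := fun m a => by
    simp only [chainT, Function.leftInverse_invFun WW.injective _]
  have th : ∀ m a b, Sd m (eg WW m a b) → (chainT.deco n j).th (eg WW m a b) =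
      if h : m < 3 then n ⟨m, h⟩ else 1 := fun m a b hs => by
    split_ifs with h
    · rw [chainT.th_eq n j (x := WW (m, a)) (mem_edges.2 ⟨m, by simp; omega, hs⟩) (by simp [eg]), cm]
      congr 1
      exact Fin.ext (Nat.mod_eq_of_lt h)
    · refine (chainT.deco_ok n j).th1 _ fun c => ?_
      obtain ⟨m', hm', c | c | c⟩ := mem_edges.1 c <;> simp [eg_iff] at c hm' <;> omega
  filter_upwards [h1, h2, h3] with i k1 k2 k3
  refine ⟨by simp [List.nodup_range'], ed_iff k, k1, k2, fun m _ => ⟨th m _ _ (by simp [Sd]),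
    th m _ _ (by simp [Sd]), th m _ _ (by simp [Sd])⟩, fun m _ => ?_, fun m hm r hr => ?_,
    fun e r hr => muE_not (Or.inr fun c => ?_)⟩
  · simp only [dat, TriL.deco, cm]
    simp only [chainT, EmbeddingLike.apply_eq_iff_eq, Prod.mk.injEq, Fin.val_ofNat]
    by_cases h : m < 3
    · have : Fin.ofNat 3 m = ⟨m, h⟩ := Fin.ext (Nat.mod_eq_of_lt h)
      rw [this]
      simp [h, Nat.mod_eq_of_lt h, eg]
    · have : m ≠ m % 3 := by omega
      simp [h, this]
  · exact ⟨decide_eq_true (k3 m hm r hr).1, decide_eq_false (k3 m hm r hr).2.not_gt⟩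
  · obtain ⟨m', hm', c | c | c⟩ := mem_edges.1 c <;> simp [eg_iff] at c hm' <;> omega

theorem ev_phi (k : ℕ) (n j : Fin 3 → ℕ) :
    ∀ᶠ i in l, ∀ (C : Type) [Fintype C] [DecidableEq C] [Inhabited C] (q : ℂ), Good C q →
      phi (copies k) (chainT.deco n j) (G i) C q = eval (Fintype.card C : ℂ)
        (aeval (PP q) ((PP q ^ j 2) (X ^ n 2) * X ^ k)
          ((PP q ^ j 0) (X ^ n 0) * (PP q ^ j 1) (X ^ n 1))) := by
  filter_upwards [ev_shape hG k n j] with i h C _ _ _ q hq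
  have e : (List.range' 3 k).map (fun m => (PP q ^ (if h : m < 3 then j ⟨m, h⟩ else 0))
      (X ^ (if h : m < 3 then n ⟨m, h⟩ else 1))) = (List.range' 3 k).map fun _ => X :=
    List.map_congr_left fun m hm => by
      have : ¬ m < 3 := by simp at hm; omega
      simp [this]
  rw [phi, h.br_eq hq, List.range'_succ, List.map_cons, List.prod_cons, e]
  simp [Framed.tot, copies]

end Pool.Agent.P.MP_382f0d_gt

/-! The skein module of the chain link is not finitely generated over the meridians. -/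

namespace Pool.Agent.P.MP_382f0d_gt

open Polynomial Finset Filter

theorem exists_good (N : ℕ) : ∃ a : ℂ, Good (Fin (N + 1)) a := by
  obtain ⟨a, ha⟩ := IsAlgClosed.exists_root (X ^ 4 + C ((N : ℂ) + 1) * X ^ 2 + 1 : ℂ[X])
    (by rw [show (X ^ 4 + C ((N : ℂ) + 1) * X ^ 2 + 1 : ℂ[X]).degree = 4 by compute_degree!]; simp)
  simp only [IsRoot.def, eval_add, eval_pow, eval_X, eval_mul, eval_C, eval_one] at ha
  have h0 : a ≠ 0 := by rintro rfl; simp at ha
  refine ⟨a, h0, ?_⟩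
  simp only [Fintype.card_fin, Nat.cast_add, Nat.cast_one]
  field_simp
  linear_combination ha

noncomputable def aa (N : ℕ) : ℂ := (exists_good N).choose

theorem aa_good (N : ℕ) : Good (Fin (N + 1)) (aa N) := (exists_good N).choose_spec

theorem aa_inj : Function.Injective aa := fun N M h => by
  have := (aa_good N).eq
  rw [h, ← (aa_good M).eq] at this
  simpa using this

noncomputable def UU : Ultrafilter Ix := Ultrafilter.of atTop

theorem UU_le : (UU : Filter Ix) ≤ atTop := Ultrafilter.of_le _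

/-- the ultrapower of the complex numbers -/
abbrev FF : Type := Germ (UU : Filter Ix) ℂ

noncomputable def cF : (Ix → ℂ) →+* FF := Germ.coeRingHom _

theorem cF_eq {f g : Ix → ℂ} (h : ∀ᶠ i in atTop, f i = g i) : cF f = cF g :=
  Germ.coe_eq.2 (h.filter_mono UU_le)

noncomputable def phF : ℚ[X] →+* FF :=
  cF.comp (RingHom.pi fun i : Ix => eval₂RingHom (algebraMap ℚ ℂ) (aa i.2))

theorem phF_ne {f : ℚ[X]} (hf : f ≠ 0) : phF f ≠ 0 := fun h => by
  have h1 : ∀ᶠ i in (UU : Filter Ix), eval₂ (algebraMap ℚ ℂ) (aa i.2) f = 0 := Germ.coe_eq.1 h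
  have h2 : ∀ᶠ z in cofinite, z ∉ f.rootSet ℂ := (f.rootSet_finite ℂ).eventually_cofinite_notMem
  have h3 := aa_inj.tendsto_cofinite.eventually h2
  rw [Nat.cofinite_eq_atTop] at h3
  obtain ⟨i, k1, k2⟩ := (h1.and ((ix_snd.eventually h3).filter_mono UU_le)).exists
  exact k2 ((mem_rootSet_of_ne hf).2 k1)

noncomputable def psi : RatFunc ℚ →+* FF :=
  RatFunc.liftRingHom phF fun _ hf =>
    mem_nonZeroDivisors_of_ne_zero (phF_ne (nonZeroDivisors.ne_zero hf))

theorem phF_X : phF X = cF fun i => aa i.2 := congrArg cF (funext fun _ => eval₂_X _ _)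

theorem psi_A : psi A = cF fun i => aa i.2 := (RatFunc.liftRingHom_X _ _).trans phF_X

theorem cF_inv (f : Ix → ℂ) : (cF f)⁻¹ = cF f⁻¹ := rfl

abbrev WF : Type := (Fin 3 → ℕ) → (Fin 3 → ℕ) → FF

/-- the invariant of a framed link in the complement of the chain link -/
noncomputable def Phi (K : Framed chain) : WF := fun n j =>
  cF fun i => phi K (chainT.deco n j) (gg i) (Fin (i.2 + 1)) (aa i.2)

def shift (α : Fin 3 → ℕ) : Module.End FF WF where
  toFun w n j := w n (j + α)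
  map_add' _ _ := rfl
  map_smul' _ _ := rfl

noncomputable def act : AddMonoidAlgebra FF (Fin 3 → ℕ) →ₐ[FF] Module.End FF WF :=
  AddMonoidAlgebra.lift FF _ _ ⟨⟨fun α => shift α.toAdd, LinearMap.ext fun w => by
    funext n j; simp [shift]⟩, fun α β => LinearMap.ext fun w => by
      funext n j; simp [shift, add_assoc]⟩

theorem act_apply (r : AddMonoidAlgebra FF (Fin 3 → ℕ)) (w : WF) (n j : Fin 3 → ℕ) :
    act r w n j = ∑ α ∈ r.coeff.support, r.coeff α * w n (j + α) := by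
  simp [act, AddMonoidAlgebra.lift_apply, Finsupp.sum, LinearMap.sum_apply, shift]

theorem tri_sum (a N : ℂ) (k : ℕ) (j : Fin 3 → ℕ) (f g h : ℂ[X]) :
    ∑ x ∈ f.support, ∑ y ∈ g.support, ∑ z ∈ h.support, f.coeff x * g.coeff y * h.coeff z *
      eval N (aeval (PP a) ((PP a ^ j 2) (X ^ z) * X ^ k)
        ((PP a ^ j 0) (X ^ x) * (PP a ^ j 1) (X ^ y))) =
      eval N (aeval (PP a) ((PP a ^ j 2) h * X ^ k) ((PP a ^ j 0) f * (PP a ^ j 1) g)) := by
  conv_rhs => rw [f.as_sum_support_C_mul_X_pow, sum_congr rfl fun _ _ => C_mul' _ _]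
  simp only [map_sum, map_smul, sum_mul, smul_mul_assoc, eval_finsetSum, eval_smul, smul_eq_mul]
  refine sum_congr rfl fun x _ => ?_
  conv_rhs => rw [g.as_sum_support_C_mul_X_pow, sum_congr rfl fun _ _ => C_mul' _ _]
  simp only [map_sum, map_smul, mul_sum, mul_smul_comm, eval_finsetSum, eval_smul, smul_eq_mul]
  refine sum_congr rfl fun y _ => ?_
  conv_rhs => rw [h.as_sum_support_C_mul_X_pow, sum_congr rfl fun _ _ => C_mul' _ _]
  simp only [map_sum, map_smul, mul_sum, sum_mul, smul_mul_assoc, eval_finsetSum, eval_smul,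
    smul_eq_mul, LinearMap.sum_apply, LinearMap.smul_apply, mul_assoc]

theorem Phi_copies (M d k : ℕ) (j : Fin 3 → ℕ) :
    cF (fun i => (-1) ^ d * (-aa i.2 ^ 2 - -(aa i.2)⁻¹ ^ 2)) *
      ∑ x ∈ (TT M).support, ∑ y ∈ (TT M).support, ∑ z ∈ (TT d).support,
        cF (fun _ => (TT M).coeff x * (TT M).coeff y * (TT d).coeff z) *
          Phi (copies k) ![x, y, z] j =
      ml (psi A ^ 2) (psi A ^ 2)⁻¹ M ^ j 0 * ml (psi A ^ 2) (psi A ^ 2)⁻¹ M ^ j 1 *
        (ml (psi A ^ 2) (psi A ^ 2)⁻¹ d ^ j 2 * GG (psi A ^ 2) (psi A ^ 2)⁻¹ M k d) := by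
  have e : ∀ n, Phi (copies k) n j = cF fun i => eval (-aa i.2 ^ 2 - (aa i.2)⁻¹ ^ 2)
      (aeval (PP (aa i.2)) ((PP (aa i.2) ^ j 2) (X ^ n 2) * X ^ k)
        ((PP (aa i.2) ^ j 0) (X ^ n 0) * (PP (aa i.2) ^ j 1) (X ^ n 1))) := fun n =>
    cF_eq ((ev_phi gg_tendsto k n j).mono fun i h => by rw [h _ _ (aa_good _), (aa_good _).eq])
  simp only [e, psi_A, ← map_pow, cF_inv, ← map_ml, ← map_GG, ← map_mul, ← map_sum]
  congr 1
  funext i
  have e1 := map_ml (Pi.evalRingHom (fun _ : Ix => ℂ) i)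
  have e2 := map_GG (Pi.evalRingHom (fun _ : Ix => ℂ) i)
  simp only [Pi.evalRingHom_apply] at e1 e2
  simp only [Pi.mul_apply, Pi.pow_apply, Finset.sum_apply, e1, e2, Pi.inv_apply, Matrix.cons_val,
    tri_sum, val_eq (aa_good _).ne, ← inv_pow]
  ring

theorem not_fg : ¬ FGOverMeridians chain := fun fg => by
  have := Algebra.FiniteType.isNoetherianRing FF (AddMonoidAlgebra FF (Fin 3 → ℕ))
  have hg := fun (E : Set (Sym2 Pt)) (h1 : E.Finite) (h2 : ∀ e ∈ E, ¬ e.IsDiag) => gg_gen h1 h2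
  obtain ⟨n, r, h⟩ := rel_of_fg act psi Phi
    (fun K K' h => funext₂ fun n j => cF_eq
      ((ev_isotopy gg_tendsto hg h (chainT.deco_ok n j)).mono fun i k => k _ _ (aa_good _)))
    (fun K K₀ K₁ h => funext₂ fun n j => by
      simp only [Pi.add_apply, Pi.smul_apply, smul_eq_mul, psi_A, cF_inv, Phi, ← map_mul, ← map_add]
      exact cF_eq ((ev_kauffman gg_tendsto hg h (chainT.deco_ok n j)).mono fun i k =>
        k _ _ (aa_good _)))
    (fun K K' h => funext₂ fun n j => by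
      simp only [Pi.smul_apply, smul_eq_mul, psi_A, cF_inv, Phi, ← map_pow, ← map_neg, ← map_sub,
        ← map_mul]
      exact cF_eq ((ev_unknot gg_tendsto hg h (chainT.deco_ok n j)).mono fun i k =>
        k _ _ (aa_good _)))
    (fun K K' h => by
      obtain ⟨k, hk⟩ := ev_meridian gg_tendsto hg h chainT
      refine ⟨AddMonoidAlgebra.single (Pi.single k 1) 1, funext₂ fun n j => ?_⟩
      have : j + Pi.single k 1 = Function.update j k (j k + 1) := by
        funext x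
        by_cases c : x = k
        · subst c; simp
        · simp [c]
      rw [act, AddMonoidAlgebra.lift_single, one_smul]
      change _ = Phi K n (j + Pi.single k 1)
      rw [this]
      exact cF_eq ((hk n j).mono fun i k => k _ _ (aa_good _))) fg copies
  have hA : psi A = phF X := psi_A.trans phF_X.symm
  refine final_alg (q := psi A ^ 2) (pow_ne_zero _ (hA ▸ phF_ne X_ne_zero)) (fun s hs e => ?_) n
    (fun k => (r k).coeff.support) (fun α => α 2) (fun M k α => (r k).coeff α *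
      (ml (psi A ^ 2) (psi A ^ 2)⁻¹ M ^ α 0 * ml (psi A ^ 2) (psi A ^ 2)⁻¹ M ^ α 1)) fun M d => ?_
  · refine phF_ne (X_pow_sub_C_ne_zero (show 0 < 2 * s by omega) 1) ?_
    rw [map_sub, map_pow, ← hA, pow_mul, e]
    simp
  · have e := Phi_copies M d n 0
    simp only [Pi.zero_apply, pow_zero, one_mul] at e
    simp only [mul_assoc _ (_ * _), ← Phi_copies, ← e]
    rw [h]
    simp only [Finset.sum_apply, act_apply, zero_add, mul_sum]
    simp only [sum_comm (s := (TT _).support) (t := range n)]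
    refine sum_congr rfl fun k _ => ?_
    simp only [sum_comm (s := (TT _).support) (t := (r k).coeff.support)]
    exact sum_congr rfl fun α _ => sum_congr rfl fun x _ => sum_congr rfl fun y _ =>
      sum_congr rfl fun z _ => by ring

end Pool.Agent.P.MP_382f0d_gt
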